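import Pool.Agent.MP_05b4bd_ag.Defs
import Mathlib.Data.Nat.Factorial.DoubleFactorial

namespace Pool.Agent.MP_05b4bd_ag

open MvPolynomial

/-- A non-zero multiple of the polynomial part of `(u ^ 2 + v) ^ (n + 1 / 2)`:
`u`, `2 u ^ 3 + 3 u v`, `8 u ^ 5 + 20 u ^ 3 v + 15 u v ^ 2`, and so on. -/
def E {A : Type} [CommRing A] (u v : A) : ℕ → A
  | 0 => u
  | n + 1 => (2 * (n : A) + 2) * (u ^ 2 + v) * E u v n +
      ((2 * n + 1).doubleFactorial : A) * u * v ^ (n + 1)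

/-- Forms `2 c dR - (2 n + 1) R dc` with `c = u ^ 2 + v` and `R = a E u v n + g`,
`deg u, deg v ≤ 1`, `deg g ≤ d - 1`. -/
def PN (d n : ℕ) : Set Form :=
  {ω | ∃ (a : ℂ) (u v g R : Poly), u.totalDegree ≤ 1 ∧ v.totalDegree ≤ 1 ∧ g.totalDegree ≤ d - 1 ∧
    R = C a * E u v n + g ∧
    ω = (2 * (u ^ 2 + v)) • dform R - ((2 * (n : Poly) + 1) * R) • dform (u ^ 2 + v)}

/-- Some homothety `x ↦ ζ x + c`, `ζ ≠ 0, 1`, multiplies `f` by `ζ ^ d` up to a constant. -/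
def Radial (d : ℕ) (f : Poly) : Prop := ∃ (ζ e : ℂ) (c : Fin 2 → ℂ), ζ ≠ 0 ∧ ζ ≠ 1 ∧
  aeval (fun i => C ζ * X i + C (c i)) f = C (ζ ^ d) * f + C e

end Pool.Agent.MP_05b4bd_ag
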