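import Pool.Agent.MP_05b4bd_ag.um.PDefs
import Pool.Agent.MP_05b4bd_ag.um.Defs
import Pool.Agent.MP_05b4bd_ag.pc3.Lift
import Mathlib.RingTheory.Nullstellensatz

-- ======== part 0: formerly Pool.Agent.MP_05b4bd_ag.um.SpecC
section MrgPart0

/-! Persistent centres and the components in every degree: definitions and block statements. -/

namespace Pool.Agent.MP_05b4bd_ag.UM

open MvPolynomial HC
open ES hiding Gen GenTopStmt GenJacStmt Ob EscStmt3
open ES.U
open PC3 hiding Arc SeqStmt IcStmt UpStmt LoStmt CenStmt CflStmt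
open PC3.U
open scoped PowerSeries LaurentSeries

section Forms
variable {A : Type} [CommRing A]

/-- The normal form attached to a conic. -/
def TF (d : ℕ) (w : Fm A) (m : R2 A) (c0 c1 : A) : Prop := ∃ (G : R2 A) (h : Polynomial A),
  DL d G ∧ 2 * h.natDegree + 1 ≤ d ∧
    w = fm (C c0 + C c1 * m) G + fm (C (c1 - 1) * G + Polynomial.aeval m h) m

/-- The parabolic family over any ring. -/
def HP (d n : ℕ) (w : Fm A) : Prop := ∃ (a : A) (u v g R : R2 A), DL 2 u ∧ DL 2 v ∧ DL d g ∧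
  R = C a * E u v n + g ∧ w = fm (2 * (u ^ 2 + v)) R - fm ((2 * (n : R2 A) + 1) * R) (u ^ 2 + v)

/-- `w` lies in one of the families, or on a line of such forms. -/
def Fam (d : ℕ) (w : Fm A) : Prop := H1 d w ∨ Lim (H2 1 d) w ∨ Lim (H3 d) w ∨
  Lim (H2 2 (d - 1)) w ∨ ∃ n, d ≤ 2 * n + 1 ∧ n < d ∧ HP d n w

theorem map_E {B F : Type} [CommRing B] [FunLike F A B] [RingHomClass F A B] (φ : F) (u v : A)
    (n : ℕ) : φ (E u v n) = E (φ u) (φ v) n := by
  induction n with
  | zero => rfl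
  | succ n ih => simp only [E, map_add, map_mul, map_pow, map_natCast, map_ofNat, ih]

variable {s t : R2 A} {w : Fm A}

theorem HP.pb (hs : DL 2 s) (ht : DL 2 t) {d n : ℕ} (h : HP d n w) : HP d n (pb s t w) := by
  obtain ⟨a, u, v, g, R, hu, hv, hg, rfl, rfl⟩ := h
  exact ⟨a, _, _, _, _, sub2_DL hs ht hu, sub2_DL hs ht hv, sub2_DL hs ht hg, rfl, by
    simp only [pb_sub, pb_fm, map_mul, map_add, map_pow, map_ofNat, map_natCast, map_one, sub2_C,
      map_E]⟩

theorem TF.pb (hs : DL 2 s) (ht : DL 2 t) {d : ℕ} {m : R2 A} {c0 c1 : A} (h : TF d w m c0 c1) :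
    TF d (pb s t w) (sub2 s t m) c0 c1 := by
  obtain ⟨G, h, hG, hz, rfl⟩ := h
  exact ⟨_, h, sub2_DL hs ht hG, hz, by
    simp only [pb_add, pb_fm, map_mul, map_add, sub2_C, ← Polynomial.aeval_algHom_apply]⟩

theorem Fam.pb (hs : DL 2 s) (ht : DL 2 t) {d : ℕ} (h : Fam d w) : Fam d (pb s t w) := by
  rcases h with ⟨g, hg, rfl⟩ | h | h | h | ⟨n, h1, h2, h⟩
  · exact .inl ⟨_, sub2_DL hs ht hg, pb_d1 g⟩
  · exact .inr (.inl (h.pb fun _ => H2.pb hs ht))
  · exact .inr (.inr (.inl (h.pb fun _ => H3.pb hs ht)))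
  · exact .inr (.inr (.inr (.inl (h.pb fun _ => H2.pb hs ht))))
  · exact .inr (.inr (.inr (.inr ⟨n, h1, h2, h.pb hs ht⟩)))

end Forms

/-- The triangular equation that absorbs `h`. -/
theorem absorb {K : Type} [Field K] (c0 c : K) (n : ℕ) (hc : ∀ j : ℕ, j < n → c * (j + 1) ≠ 1) :
    ∀ h : Polynomial K, h.degree < n → ∃ γ : Polynomial K, γ.degree < n ∧
      (Polynomial.C c0 + Polynomial.C c * Polynomial.X) * Polynomial.derivative γ +
        Polynomial.C (c - 1) * γ = h := by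
  induction n with
  | zero => exact fun h hh => ⟨0, hh.trans_le' (by simp), by
      rw [Polynomial.degree_eq_bot.1 (Nat.WithBot.lt_zero_iff.1 hh)]; simp⟩
  | succ n ih =>
    intro h hh
    have hn := sub_ne_zero.2 (hc n (by omega))
    obtain ⟨g, hg⟩ : ∃ g, g * (c * (n + 1) - 1) = h.coeff n := ⟨_, div_mul_cancel₀ _ hn⟩
    have key : ∀ i, n ≤ i → ((Polynomial.C c0 + Polynomial.C c * Polynomial.X) *
        Polynomial.derivative (Polynomial.monomial n g) +
        Polynomial.C (c - 1) * Polynomial.monomial n g).coeff i = h.coeff i := fun i hi => by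
      have e : (Polynomial.X * Polynomial.derivative (Polynomial.monomial n g)).coeff i =
          i * (Polynomial.monomial n g).coeff i := by
        rcases i with _ | i
        · simp
        · rw [Polynomial.coeff_X_mul, Polynomial.coeff_derivative]; push_cast; ring
      rw [add_mul, mul_assoc, Polynomial.coeff_add, Polynomial.coeff_add, Polynomial.coeff_C_mul,
        Polynomial.coeff_C_mul, Polynomial.coeff_C_mul, e, Polynomial.coeff_derivative,
        Polynomial.coeff_monomial, Polynomial.coeff_monomial, if_neg (by omega)]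
      split_ifs with h1
      · rw [← h1, ← hg]; ring
      · rw [Polynomial.coeff_eq_zero_of_degree_lt (hh.trans_le (by exact_mod_cast (by omega)))]
        ring
    obtain ⟨γ, h1, h2⟩ := ih (fun j hj => hc j (by omega)) (h - _)
      ((Polynomial.degree_lt_iff_coeff_zero _ _).2 fun i hi => by
        rw [Polynomial.coeff_sub, key i hi, sub_self])
    refine ⟨γ + Polynomial.monomial n g, (Polynomial.degree_add_le _ _).trans_lt (max_lt
      (h1.trans (by exact_mod_cast n.lt_succ_self)) ((Polynomial.degree_monomial_le _ _).trans_lt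
        (by exact_mod_cast n.lt_succ_self))), ?_⟩
    rw [map_add]
    linear_combination h2

theorem E_Sp (u v : Poly) (n : ℕ) : E u v n = C ((2 * n + 1).doubleFactorial : ℂ) * Sp n u v := by
  induction n with
  | zero => simp [E, Sp]
  | succ n ih =>
    have hK : (2 * (n : ℂ) + 3) ≠ 0 := by exact_mod_cast (by omega : 2 * n + 3 ≠ 0)
    have hC : (C (2 * (n : ℂ) + 3)⁻¹ : Poly) * (2 * n + 3) = 1 := by
      have : (2 * n + 3 : Poly) = C (2 * (n : ℂ) + 3) := by simp [map_ofNat]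
      rw [this, ← map_mul, inv_mul_cancel₀ hK, map_one]
    rw [E, Sp, ih, show 2 * (n + 1) + 1 = 2 * n + 1 + 2 by ring, Nat.doubleFactorial_add_two]
    simp only [map_add, map_mul, map_natCast, map_ofNat, Nat.cast_mul, Nat.cast_add, Nat.cast_ofNat,
      Nat.cast_one, map_one]
    linear_combination (-((2 * n + 1).doubleFactorial : Poly) *
      ((2 * n + 2) * (u ^ 2 + v) * Sp n u v + u * v ^ (n + 1))) * hC

theorem mem_PN {d n : ℕ} {ω : Form} : ω ∈ PN d n ↔ ∃ (c : ℂ) (u v g : Poly), u.totalDegree ≤ 1 ∧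
    v.totalDegree ≤ 1 ∧ g.totalDegree ≤ d - 1 ∧ ω = fam n c u v g := by
  have e : ∀ F R : Poly, (2 * F) • dform R - ((2 * (n : Poly) + 1) * R) • dform F =
      Dm 2 (-(2 * (n : ℂ) + 1)) F R := fun F R => by
    rw [Dm, map_neg, neg_mul, neg_smul, sub_eq_add_neg]
    simp only [map_add, map_mul, map_ofNat, map_natCast, map_one]
  have h0 : ((2 * n + 1).doubleFactorial : ℂ) ≠ 0 :=
    Nat.cast_ne_zero.2 (Nat.doubleFactorial_pos _).ne'
  constructor
  · rintro ⟨a, u, v, g, _, hu, hv, hg, rfl, rfl⟩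
    exact ⟨a * (2 * n + 1).doubleFactorial, u, v, g, hu, hv, hg, by
      rw [e, fam, E_Sp, map_mul, mul_assoc]⟩
  · rintro ⟨c, u, v, g, hu, hv, hg, rfl⟩
    exact ⟨c / (2 * n + 1).doubleFactorial, u, v, g, _, hu, hv, hg, rfl, by
      rw [e, fam, E_Sp, ← mul_assoc, ← map_mul, div_mul_cancel₀ _ h0]⟩

/-- Every critical point is one of the listed points. -/
theorem cr_mem {k : Type} [Field k] {f : R2 k} {n : ℕ} {p : Fin n → Fin 2 → k} (H : Cr f p)
    {q : Fin 2 → k} (hq : ∀ j, eval q (pderiv j f) = 0) : ∃ i, q = p i := by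
  by_contra hn
  push Not at hn
  choose l hl using fun i => Function.ne_iff.1 (hn i)
  obtain ⟨a, b, h⟩ := Ideal.mem_span_pair.1 (H.rad (∏ i, (X (l i) - C (p i (l i)))) fun i => by
    rw [map_prod]
    exact Finset.prod_eq_zero (Finset.mem_univ i) (by simp))
  have := congrArg (eval q) h
  rw [map_add, map_mul, map_mul, hq, hq, mul_zero, mul_zero, add_zero, map_prod, eq_comm,
    Finset.prod_eq_zero_iff] at this
  obtain ⟨i, -, hi⟩ := this
  exact hl i (by simpa [sub_eq_zero] using hi)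

/-- The list of families. -/
def Wl (d : ℕ) : Set (Set Form) := {W | W = L ![d + 1] ∨ W = L ![1, d] ∨ W = L ![1, 1, d - 1] ∨
  W = L ![2, d - 1] ∨ ∃ n, d ≤ 2 * n + 1 ∧ n < d ∧ W = PN d n}

/-! ### Statements: persistent centres -/

/-- No invariant curve of degree less than `d`. -/
def IcdStmt : Prop := ∀ (k : Type) [Field k] [CharZero k] [IsAlgClosed k] (d : ℕ) (f g h : R2 k),
  3 ≤ d → TM d f → g ≠ 0 → DL d g → br g f = h * g → DL 1 g

def Nc6Stmt : Prop := ∀ (K : Type) [Field K] [CharZero K] (d : ℕ) (w : Fm K) (J : Ideal (R2 K)),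
  6 ≤ d → Lev d w J → dv w ≠ 0 → ¬ CIc d w J → Con w

def CenStmt : Prop := ∀ (K : Type) [Field K] [CharZero K] [IsAlgClosed K] (d : ℕ) (w : Fm K)
  (m : R2 K) (c0 c1 : K), 3 ≤ d → DF (d + 1) w → Cn w m c0 c1 → Ctr m →
  Lim (H3 d) w ∨ TF d w m c0 c1

def CflStmt : Prop := ∀ (K : Type) [Field K] [CharZero K] (e : ℕ) (w : Fm K) (m : R2 K) (c0 c1 : K),
  2 ≤ e → DL 3 m → TF (e + 1) w m c0 c1 → Lim (H2 2 e) w

def ParStmt : Prop := ∀ (K : Type) [Field K] [CharZero K] [IsAlgClosed K] (d : ℕ) (w : Fm K)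
  (m : R2 K) (c0 c1 : K), 3 ≤ d → DF (d + 1) w → Cn w m c0 c1 → Pab m →
  TF d w m c0 c1 ∨ ∃ n, d ≤ 2 * n + 1 ∧ n < d ∧ HP d n w

def SeqStmt : Prop := ∀ (k : Type) [Field k] [CharZero k] [IsAlgClosed k] (d : ℕ) (f : R2 k)
  (w : Fm k⟦X⟧) (p : Fin 2 → k⸨X⸩), 3 ≤ d → Arc d f w → CenK w p → Sq f w

def CoreStmt : Prop := ∀ (k : Type) [Field k] [CharZero k] [IsAlgClosed k] (d : ℕ) (f : R2 k)
  (w : Fm k⟦X⟧) (p : Fin 2 → k⸨X⸩), 3 ≤ d → Arc d f w → CenK w p →
  ∀ (Ω : Type) [Field Ω] [CharZero Ω] [IsAlgClosed Ω] (ψ : k⸨X⸩ →+* Ω),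
    Fam d (mapF ψ (mapF (coeL k) w))

/-- A unimodular change of coordinates gives the standing hypothesis. -/
def ShearStmt : Prop := ∀ (k : Type) [Field k] [CharZero k] (d : ℕ) (f : R2 k), 2 ≤ d → TM d f →
  NSym d f → ∃ a b c e : k, a * e - b * c = 1 ∧ Gen d (lin a b c e f - C (coeff 0 f))

def CorsStmt : Prop := ∀ (k : Type) [Field k] [CharZero k] [IsAlgClosed k] (d : ℕ) (f : R2 k)
  (w : Fm k⟦X⟧) (p : Fin 2 → k⸨X⸩), 3 ≤ d → TM d f → NSym d f → DF (d + 1) w →
  mapF cc w = d1 f → CenK w p →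
  ∀ (Ω : Type) [Field Ω] [CharZero Ω] [IsAlgClosed Ω] (ψ : k⸨X⸩ →+* Ω),
    Fam d (mapF ψ (mapF (coeL k) w))

def VanfStmt : Prop := ∀ (Ω : Type) [Field Ω] [Algebra ℂ Ω] (d : ℕ) (w : Fm Ω), 3 ≤ d → Fam d w →
  ∃ W ∈ Wl d, Van W w

def MinqStmt : Prop := ∀ (d : ℕ) (f : Poly), 3 ≤ d → TM d f → NSym d f →
  ∀ q ∈ (II (Cen d)).minimalPrimes,
    (∀ R : Co, rename Sum.inl R ∈ q → Pool.Agent.MP_05b4bd_ag.ev R (dform f) = 0) →
    ∃ W ∈ Wl d, ∀ R : Co, (∀ ω ∈ W, Pool.Agent.MP_05b4bd_ag.ev R ω = 0) → rename Sum.inl R ∈ q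

/-! ### Statements: the hypotheses on `f` -/

def SqfStmt : Prop := ∀ (k : Type) [Field k] [CharZero k] [IsAlgClosed k] (d : ℕ) (F : R2 k),
  1 ≤ d → F.IsHomogeneous d → Squarefree F → CI (pderiv 0 F) (pderiv 1 F)

def MorStmt : Prop := ∀ (d : ℕ) (f : Poly), 3 ≤ d → DL (d + 1) f →
  CI (pderiv 0 (hc d f)) (pderiv 1 (hc d f)) → Morse f → TM d f

def NsyStmt : Prop := ∀ (d : ℕ) (f : Poly), 3 ≤ d → TM d f → ¬ Radial d f → NSym d f

/-! ### Statements: the components -/

def MemqStmt : Prop := (∀ e, 2 ≤ e → L ![2, e] ⊆ M (e + 1)) ∧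
  ∀ d n, 3 ≤ d → d ≤ 2 * n + 1 → n < d → PN d n ⊆ M d

def MemlStmt : Prop := ∀ e, 2 ≤ e → L ![1, 1, e] ⊆ M (e + 1)

def IrpStmt : Prop := ∀ d n, 1 ≤ d → n < d → Irred (PN d n) ∧ PN d n ⊆ V d ∧
  ∀ η ∈ PN d n, ¬ Function.Injective (lamI ((2 * n + 3) / 2) 2 η)

/-- Witnesses with trivial linear kernels. -/
def WitStmt : Prop :=
  (∀ n : ℕ, Function.Injective (lamI ((2 * n + 3) / 2) 2 ((X 0, 0) : Form))) ∧
  (∀ n N : ℕ, 1 ≤ n → N ≤ 2 * n + 2 → Function.Injective (lamI 1 N (w0 n))) ∧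
  ∀ n m : ℕ, 1 ≤ n → m ≠ n → Function.Injective (lamI ((2 * m + 3) / 2) 2 (w0 n))

def MemStmt : Prop := ∀ d, 3 ≤ d → ∀ W ∈ Wl d, W ⊆ M d ∧ Irred W

def SepStmt : Prop := ∀ d, 3 ≤ d → ∀ W ∈ Wl d, ∀ W' ∈ Wl d, W ⊆ zcl W' → W = W'

end Pool.Agent.MP_05b4bd_ag.UM

end MrgPart0

-- ======== part 1: formerly Pool.Agent.MP_05b4bd_ag.um.Main
section MrgPart1

/-! From minimal primes to the components through `df`. -/

namespace Pool.Agent.MP_05b4bd_ag.UM

open MvPolynomial HC ES.U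

theorem memU (hL : ∀ (s : ℕ) (δ : Fin s → ℕ), Irred (L δ)) (mq : MemqStmt) (ml : MemlStmt)
    (ip : IrpStmt) : MemStmt := by
  intro d hd
  obtain ⟨n, rfl⟩ : ∃ n, d = n + 2 := ⟨d - 2, by omega⟩
  rintro W (rfl | rfl | rfl | rfl | ⟨m, h1, h2, rfl⟩)
  · exact ⟨ES.Top.L_ham _ ▸ ES.Top.Ex_M n, hL _ _⟩
  · exact ⟨ES.Top.L_log _ ▸ S1_M n, hL _ _⟩
  · exact ⟨ml (n + 1) (by omega), hL _ _⟩
  · exact ⟨mq.1 (n + 1) (by omega), hL _ _⟩
  · exact ⟨mq.2 _ m hd h1 h2, (ip _ m (by omega) h2).1⟩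

theorem mainU (h : MinqStmt) (hW : MemStmt) (hne : SepStmt) {d : ℕ} (hd : 3 ≤ d) {f : Poly}
    (h1 : TM d f) (h2 : NSym d f) {Z : Set Form} (hZ : dform f ∈ Z) :
    IsComponent (M d) Z ↔ ∃ W ∈ Wl d, Z = zcl W := by
  have key : ∀ Y, Y ⊆ M d ∧ Irred Y → dform f ∈ Y → ∃ W ∈ Wl d, Y ⊆ zcl W := fun Y hY hm => by
    obtain ⟨q, hq, k1⟩ := ES.Top.exists_min hY.1 hY.2
    exact (h d f hd h1 h2 q hq fun R hR => k1 R hR _ hm).imp
      fun W k => ⟨k.1, fun ω hω => mem_zcl.2 fun R hR => k1 R (k.2 R hR) ω hω⟩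
  have p : ∀ W ∈ Wl d, zcl W ⊆ M d ∧ Irred (zcl W) := fun W k =>
    ⟨zcl_subset (hW d hd W k).1, (hW d hd W k).2.zcl⟩
  constructor
  · intro hY
    exact (key Z hY.1 hZ).imp fun W k => ⟨k.1, k.2.antisymm (hY.2 (p W k.1) k.2)⟩
  · rintro ⟨W, k, rfl⟩
    refine ⟨p W k, fun Y hY hle => ?_⟩
    obtain ⟨W', k', hs⟩ := key Y hY (hle hZ)
    rwa [hne d hd W k W' k' (((subset_zcl _).trans hle).trans hs)]

theorem finalU (h : MinqStmt) (hW : MemStmt) (hne : SepStmt) (sq : SqfStmt) (mo : MorStmt)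
    (ns : NsyStmt) (d : ℕ) (hd : 3 ≤ d) (f : Poly) (hf : f.totalDegree = d)
    (hs : Squarefree (homogeneousComponent d f)) (hM : Morse f) (hR : ¬ Radial d f)
    (Z : Set Form) (hZ : dform f ∈ Z) :
    IsComponent (M d) Z ↔ Z = zcl (L ![d + 1]) ∨ Z = zcl (L ![1, d]) ∨
      Z = zcl (L ![1, 1, d - 1]) ∨ Z = zcl (L ![2, d - 1]) ∨
      ∃ n, d ≤ 2 * n + 1 ∧ n < d ∧ Z = zcl (PN d n) := by
  have t := mo d f hd (DL_iff.2 hf.le) (sq ℂ d _ (by omega) (hc_hom d f) hs) hM
  refine (mainU h hW hne hd t (ns d f hd t hR) hZ).trans ⟨?_, ?_⟩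
  · rintro ⟨W, rfl | rfl | rfl | rfl | ⟨n, h1, h2, rfl⟩, e⟩
    exacts [.inl e, .inr (.inl e), .inr (.inr (.inl e)), .inr (.inr (.inr (.inl e))),
      .inr (.inr (.inr (.inr ⟨n, h1, h2, e⟩)))]
  · rintro (e | e | e | e | ⟨n, h1, h2, e⟩)
    exacts [⟨_, .inl rfl, e⟩, ⟨_, .inr (.inl rfl), e⟩, ⟨_, .inr (.inr (.inl rfl)), e⟩,
      ⟨_, .inr (.inr (.inr (.inl rfl))), e⟩, ⟨_, .inr (.inr (.inr (.inr ⟨n, h1, h2, rfl⟩))), e⟩]

end Pool.Agent.MP_05b4bd_ag.UM

end MrgPart1

-- ======== part 2: formerly Pool.Agent.MP_05b4bd_ag.um.Shear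
section MrgPart2

/-! A unimodular change of coordinates gives the standing hypothesis. -/

namespace Pool.Agent.MP_05b4bd_ag.UM

open MvPolynomial HC
open ES hiding Gen GenTopStmt GenJacStmt Ob EscStmt3
open ES.U
open PC3 hiding Arc SeqStmt IcStmt UpStmt LoStmt CenStmt CflStmt
open PC3.U
open scoped PowerSeries LaurentSeries

namespace Shear
variable {k : Type} [Field k] {a b c e : k}

theorem co_0n {n : ℕ} {F : R2 k} (hF : F.IsHomogeneous n) :
    HC.co 0 n (lin a b c e F) = eval ![b, e] F := by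
  rw [← eval_01 (lin_hom hF), eval_lin]
  simp

theorem co_n0 {n : ℕ} {F : R2 k} (hF : F.IsHomogeneous n) :
    HC.co n 0 (lin a b c e F) = eval ![a, c] F := by
  have h : ∀ u : R2 k, u.IsHomogeneous n → eval ![1, 0] u = HC.co n 0 u := fun u hu => by
    conv_lhs => rw [hom_eq_sum hu]
    rw [map_sum, Finset.sum_eq_single 0]
    · simp
    · intro j _ hn
      simp [zero_pow hn]
    · simp
  rw [← h _ (lin_hom hF), eval_lin]
  simp

theorem scale {n : ℕ} {F : R2 k} (hF : F.IsHomogeneous n) (t x y : k) :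
    eval ![t * x, t * y] F = t ^ n * eval ![x, y] F := by
  have h := co_scale (1 : k) t 0 n (lin 0 x 0 y F)
  rw [lin_lin, co_0n hF, co_0n hF] at h
  simpa [mul_comm] using h

theorem nonroot [CharZero k] {u : R2 k} (hu : u ≠ 0) : ∃ x y, eval ![x, y] u ≠ 0 := by
  by_contra h
  push Not at h
  refine hu (MvPolynomial.funext fun z => ?_)
  have e1 : z = ![z 0, z 1] := by
    funext i
    fin_cases i <;> rfl
  rw [e1, h, map_zero]

theorem choice [CharZero k] {n : ℕ} {F : R2 k} (hF : F.IsHomogeneous n) (h0 : F ≠ 0) :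
    ∃ a b c e : k, a * e - b * c = 1 ∧ eval ![a, c] F ≠ 0 ∧ eval ![b, e] F ≠ 0 := by
  obtain ⟨a, c, h1⟩ := nonroot (mul_ne_zero (X_ne_zero 0) h0)
  rw [map_mul, mul_ne_zero_iff] at h1
  have ha : a ≠ 0 := by simpa using h1.1
  obtain ⟨b, e, h2⟩ := nonroot (mul_ne_zero (fun z => ha (lf_eq_zero (a := -c) z).2) h0)
  rw [map_mul, mul_ne_zero_iff] at h2
  have hd : a * e - b * c ≠ 0 := fun z => h2.1 (by
    simp only [HC.lf, map_add, map_mul, eval_C, eval_X, Matrix.cons_val_zero, Matrix.cons_val_one]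
    linear_combination z)
  refine ⟨a, (a * e - b * c)⁻¹ * b, c, (a * e - b * c)⁻¹ * e, ?_, h1.2, ?_⟩
  · linear_combination inv_mul_cancel₀ hd
  · rw [scale hF]
    exact mul_ne_zero (pow_ne_zero _ (inv_ne_zero hd)) h2.2

theorem jac (h : a * e - b * c = 1) {f u : R2 k} (hu : u ∈ Jac f) :
    lin a b c e u ∈ Jac (lin a b c e f) := by
  have h' : (C a * C e - C b * C c : R2 k) = 1 := by
    rw [← map_mul, ← map_mul, ← map_sub, h, map_one]
  obtain ⟨s, t, rfl⟩ := Ideal.mem_span_pair.1 hu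
  refine Ideal.mem_span_pair.2 ⟨lin a b c e s * C e - lin a b c e t * C b,
    lin a b c e t * C a - lin a b c e s * C c, ?_⟩
  rw [lin_x, lin_y, map_add, map_mul, map_mul]
  linear_combination (lin a b c e s * lin a b c e (pderiv 0 f) +
    lin a b c e t * lin a b c e (pderiv 1 f)) * h'

theorem hess (h : a * e - b * c = 1) (f : R2 k) :
    br (pderiv 0 (lin a b c e f)) (pderiv 1 (lin a b c e f)) =
      lin a b c e (br (pderiv 0 f) (pderiv 1 f)) := by
  have h' : (C a * C e - C b * C c : R2 k) = 1 := by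
    rw [← map_mul, ← map_mul, ← map_sub, h, map_one]
  rw [← br_lin h, lin_x, lin_y]
  generalize lin a b c e (pderiv 0 f) = u
  generalize lin a b c e (pderiv 1 f) = v
  simp only [br, map_add, pderiv_C_mul]
  linear_combination (pderiv 0 u * pderiv 1 v - pderiv 1 u * pderiv 0 v) * h'

theorem cr (h : a * e - b * c = 1) {f : R2 k} {n : ℕ} {p : Fin n → Fin 2 → k} (H : Cr f p) (r : k) :
    Cr (lin a b c e f - C r) fun i => ![e * p i 0 - b * p i 1, a * p i 1 - c * p i 0] := by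
  have ev : ∀ i u, eval ![e * p i 0 - b * p i 1, a * p i 1 - c * p i 0] (lin a b c e u) =
      eval (p i) u := fun i u => by
    rw [eval_lin]
    refine congrArg (fun z => eval z u) (funext fun l => ?_)
    fin_cases l
    · simp
      linear_combination p i 0 * h
    · simp
      linear_combination p i 1 * h
  have dd : ∀ j, pderiv j (lin a b c e f - C r) = pderiv j (lin a b c e f) := fun j => by simp
  refine ⟨fun i j => ?_, fun i => ?_, fun i l z => H.inj ?_, fun u hu => ?_⟩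
  · rw [dd]
    fin_cases j
    · change eval _ (pderiv 0 _) = 0
      rw [lin_x, map_add, map_mul, map_mul, ev, ev, H.crit, H.crit, mul_zero, mul_zero, add_zero]
    · change eval _ (pderiv 1 _) = 0
      rw [lin_y, map_add, map_mul, map_mul, ev, ev, H.crit, H.crit, mul_zero, mul_zero, add_zero]
  · rw [dd, dd, hess h, ev]
    exact H.hess i
  · simpa only [map_sub, ev, eval_C, sub_left_inj] using z
  · have h1 := jac h (H.rad (lin e (-b) (-c) a u) fun i => by rw [← ev, lin_inv h, hu])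
    rw [lin_inv h] at h1
    rw [Jac, dd, dd]
    exact h1

theorem hom_lin (ζ : k) (z : Fin 2 → k) (u : R2 k) : hom ζ z (lin a b c e u) =
    lin a b c e (hom ζ ![a * z 0 + b * z 1, c * z 0 + e * z 1] u) := by
  have : (hom ζ z).comp (lin a b c e) =
      (lin a b c e).comp (hom ζ ![a * z 0 + b * z 1, c * z 0 + e * z 1]) := by
    apply MvPolynomial.algHom_ext
    intro i
    fin_cases i
    · simp [hom, lin, HC.lf]
      ring
    · simp [hom, lin, HC.lf]
      ring
  exact DFunLike.congr_fun this u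

theorem nsym (h : a * e - b * c = 1) {d : ℕ} {f : R2 k} (H : NSym d f) (r : k) :
    NSym d (lin a b c e f - C r) := fun K _ j ζ s z hz => by
  have h' : j a * j e - j b * j c = 1 := by rw [← map_mul, ← map_mul, ← map_sub, h, map_one]
  refine H K j ζ (s + j r - ζ ^ d * j r) ![j a * z 0 + j b * z 1, j c * z 0 + j e * z 1]
    (lin_inj h' ?_)
  rw [← hom_lin]
  rw [map_sub, map_lin, map_C, map_sub, algHom_C, algebraMap_eq] at hz
  rw [map_add, map_mul, lin_C, lin_C, map_sub, map_add, map_mul]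
  linear_combination hz

end Shear

theorem shearS : ShearStmt := by
  intro k _ _ d f hd H hN
  have h0 : hc d f ≠ 0 := fun z => by
    have h := H.ci
    rw [z, map_zero, map_zero] at h
    exact h.ne_zero (e := 0) (isHomogeneous_zero _ _ _) rfl
  obtain ⟨a, b, c, e, h, h1, h2⟩ := Shear.choice (hc_hom d f) h0
  have dl : DL (d + 1) (lin a b c e f - C (coeff 0 f)) :=
    (lin_DL H.dl).sub ((DL_C _).mono (by omega))
  have top : hc d (lin a b c e f - C (coeff 0 f)) = lin a b c e (hc d f) := by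
    rw [hc_sub, hc_lin, (DL_C _).hc_eq (by omega), sub_zero]
  obtain ⟨n, p, hp⟩ := H.cr
  refine ⟨a, b, c, e, h, ?_, dl, ⟨dl, ?_, n, _, Shear.cr h hp _⟩, Shear.nsym h hN _, ?_, ?_⟩
  · have e0 : ∀ u : R2 k, coeff 0 u = eval ![0, 0] u := fun u => by
      rw [show (![0, 0] : Fin 2 → k) = 0 by
        funext i
        fin_cases i <;> rfl, eval_zero, constantCoeff_eq]
    rw [e0, map_sub, eval_lin, eval_C, e0]
    simp
  · rw [top]
    exact H.ci.lin h
  · rwa [top, Shear.co_n0 (hc_hom d f)]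
  · rwa [top, Shear.co_0n (hc_hom d f)]

end Pool.Agent.MP_05b4bd_ag.UM

end MrgPart2

-- ======== part 3: formerly Pool.Agent.MP_05b4bd_ag.um.Sqf
section MrgPart3

/-! The derivatives of a squarefree binary form have no common zero besides the origin. -/

namespace Pool.Agent.MP_05b4bd_ag.UM

open MvPolynomial HC

namespace Sqf

variable {k : Type} [Field k]

theorem line_hom (p : Fin 2 → k) (s : R2 k) {n : ℕ} {H : R2 k} (hH : H.IsHomogeneous n) :
    aeval (fun i => C (p i) * s) H = s ^ n * C (aeval p H) := by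
  rw [aeval_def, aeval_def, eval₂_eq', eval₂_eq', map_sum, Finset.mul_sum]
  refine Finset.sum_congr rfl fun m hm => ?_
  have h1 : m.degree = n := by
    by_contra h
    exact mem_support_iff.1 hm (hH.coeff_eq_zero h)
  rw [deg2] at h1
  simp only [Fin.prod_univ_two, mul_pow, map_mul, map_pow, algebraMap_eq, ← h1, pow_add,
    Algebra.algebraMap_self, RingHom.id_apply]
  ring

theorem line_dvd (p : Fin 2 → k) {u v : k} (h : u * p 0 + v * p 1 = 1) (G : R2 k) :
    C (p 1) * X 0 - C (p 0) * X 1 ∣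
      G - aeval (fun i => (C (p i) * (C u * X 0 + C v * X 1) : R2 k)) G := by
  have h' : (C u * C (p 0) + C v * C (p 1) : R2 k) = 1 := by
    rw [← map_mul, ← map_mul, ← map_add, h, map_one]
  induction G using MvPolynomial.induction_on with
  | C r => simp
  | add a b ha hb => rw [map_add, add_sub_add_comm]; exact dvd_add ha hb
  | mul_X a j ha =>
    have h2 : C (p 1) * X 0 - C (p 0) * X 1 ∣
        (X j - C (p j) * (C u * X 0 + C v * X 1) : R2 k) := by
      fin_cases j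
      · exact ⟨C v, by simp only [Fin.zero_eta]; linear_combination (-X 0) * h'⟩
      · exact ⟨-C u, by simp only [Fin.mk_one]; linear_combination (-X 1) * h'⟩
    rw [map_mul, aeval_X]
    convert dvd_add (ha.mul_right (X j)) (h2.mul_left
      (aeval (fun i => (C (p i) * (C u * X 0 + C v * X 1) : R2 k)) a)) using 1
    ring

theorem zero_of [CharZero k] {d : ℕ} {F : R2 k} (hd : 1 ≤ d) (hF : F.IsHomogeneous d)
    (hs : Squarefree F) (p : Fin 2 → k) (h0 : aeval p (pderiv 0 F) = 0)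
    (h1 : aeval p (pderiv 1 F) = 0) (i : Fin 2) : p i = 0 := by
  by_contra hi
  obtain ⟨u, v, h⟩ : ∃ u v : k, u * p 0 + v * p 1 = 1 := by
    fin_cases i
    · exact ⟨(p 0)⁻¹, 0, by rw [zero_mul, add_zero]; exact inv_mul_cancel₀ hi⟩
    · exact ⟨0, (p 1)⁻¹, by rw [zero_mul, zero_add]; exact inv_mul_cancel₀ hi⟩
  have h' : (C u * C (p 0) + C v * C (p 1) : R2 k) = 1 := by
    rw [← map_mul, ← map_mul, ← map_add, h, map_one]
  have hp : aeval p F = 0 := by
    have e := congrArg (aeval p) (euler hF)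
    rw [map_add, map_mul, map_mul, h0, h1, map_mul, map_natCast, mul_zero, mul_zero, add_zero] at e
    exact (mul_eq_zero.1 e.symm).resolve_left (Nat.cast_ne_zero.2 (by omega))
  have key := line_dvd p h
  have hom := fun (n : ℕ) (H : R2 k) => line_hom p (C u * X 0 + C v * X 1) (n := n) (H := H)
  have hl : aeval (fun i => (C (p i) * (C u * X 0 + C v * X 1) : R2 k))
      (C (p 1) * X 0 - C (p 0) * X 1 : R2 k) = 0 := by
    simp only [map_sub, map_mul, aeval_X, aeval_C, algebraMap_eq]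
    ring
  have hC : ∀ c : k, aeval (fun i => (C (p i) * (C u * X 0 + C v * X 1) : R2 k)) (C c : R2 k) =
      C c := fun c => by rw [aeval_C, algebraMap_eq]
  generalize (aeval (fun i => (C (p i) * (C u * X 0 + C v * X 1) : R2 k)) : R2 k →ₐ[k] R2 k) = σ
    at key hom hl hC
  obtain ⟨G, hG⟩ := key F
  rw [hom d F hF, hp, map_zero, mul_zero, sub_zero] at hG
  have g0 := hom _ _ (hF.pderiv (i := 0))
  have g1 := hom _ _ (hF.pderiv (i := 1))
  rw [h0, map_zero, mul_zero, hG, Derivation.leibniz] at g0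
  rw [h1, map_zero, mul_zero, hG, Derivation.leibniz] at g1
  have e0 : pderiv 0 (C (p 1) * X 0 - C (p 0) * X 1 : R2 k) = C (p 1) := by simp [pderiv_X]
  have e1 : pderiv 1 (C (p 1) * X 0 - C (p 0) * X 1 : R2 k) = -C (p 0) := by simp [pderiv_X]
  simp only [smul_eq_mul, map_add, map_mul, hl, e0, e1, hC, map_neg] at g0 g1
  have hσ : σ G = 0 := by linear_combination C v * g0 - C u * g1 - σ G * h'
  obtain ⟨G', hG'⟩ := key G
  rw [hσ, sub_zero] at hG'
  have hu := (hs _ ⟨G', by rw [hG, hG', mul_assoc]⟩).map σ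
  rw [hl] at hu
  exact not_isUnit_zero hu

end Sqf

theorem sqfS : SqfStmt := by
  intro k _ _ _ d F hd hF hs
  have key : ∀ i : Fin 2, ∃ n : ℕ, (X i : R2 k) ^ n ∈ Ideal.span {pderiv 0 F, pderiv 1 F} := by
    intro i
    change X i ∈ (Ideal.span {pderiv 0 F, pderiv 1 F}).radical
    rw [← vanishingIdeal_zeroLocus_eq_radical (K := k), mem_vanishingIdeal_iff]
    intro p hp
    rw [aeval_X]
    exact Sqf.zero_of hd hF hs p (hp _ (Ideal.subset_span (by simp)))
      (hp _ (Ideal.subset_span (by simp))) i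
  obtain ⟨a, ha⟩ := key 0
  obtain ⟨b, hb⟩ := key 1
  refine ⟨a + b, ?_, ?_⟩
  · rw [pow_add]; exact Ideal.mul_mem_right _ _ ha
  · rw [pow_add]; exact Ideal.mul_mem_left _ _ hb

end Pool.Agent.MP_05b4bd_ag.UM

end MrgPart3

-- ======== part 4: formerly Pool.Agent.MP_05b4bd_ag.um.Cfl
section MrgPart4

/-! The normal form of a conic lies in the closure of a rational family, in every degree. -/

namespace Pool.Agent.MP_05b4bd_ag.UM

open MvPolynomial HC
open ES hiding Gen GenTopStmt GenJacStmt Ob EscStmt3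
open ES.U
open PC3 hiding Arc SeqStmt IcStmt UpStmt LoStmt CenStmt CflStmt
open PC3.U
open scoped PowerSeries LaurentSeries

theorem Cfl.aeval_DL {K : Type} [Field K] {m : R2 K} (hm : DL 3 m) (γ : Polynomial K) :
    DL (2 * γ.natDegree + 1) (Polynomial.aeval m γ) := by
  rw [Polynomial.aeval_eq_sum_range]
  refine DL.sum _ fun i hi => ?_
  rw [smul_eq_C_mul]
  exact ((DL.pow (a := 2) hm i).C_mul _).mono (by have := Finset.mem_range.1 hi; omega)

theorem cflU : CflStmt := by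
  classical
  intro K _ _ e w m c0 c1 h2 hm hw
  obtain ⟨G, h, hG, hz, rfl⟩ := hw
  refine ⟨fm m G + fm G m, insert (-c1) ((Finset.range (h.natDegree + 1)).image
    fun j : ℕ => ((j : K) + 1)⁻¹ - c1), fun τ hτ => ?_⟩
  simp only [Finset.mem_insert, Finset.mem_image, Finset.mem_range, not_or, not_exists,
    not_and] at hτ
  obtain ⟨n0, n1⟩ := hτ
  have c0' : c1 + τ ≠ 0 := fun h => n0 (by linear_combination h)
  obtain ⟨γ, hγ, e1⟩ := absorb c0 (c1 + τ) (h.natDegree + 1) (fun j hj hc => n1 j hj (by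
    rw [← eq_inv_of_mul_eq_one_left hc]; ring)) h
    (Polynomial.degree_le_natDegree.trans_lt (by exact_mod_cast h.natDegree.lt_succ_self))
  have hn : γ.natDegree ≤ h.natDegree := Polynomial.natDegree_le_iff_coeff_eq_zero.2
    fun i hi => (Polynomial.degree_lt_iff_coeff_zero _ _).1 hγ i hi
  obtain ⟨α, eα⟩ : ∃ α : K, α * (c1 + τ) = c1 + τ - 1 := ⟨_ / _, div_mul_cancel₀ _ c0'⟩
  have E1 := congrArg (Polynomial.aeval m) e1
  have Eα := congrArg (C : K → R2 K) eα
  simp only [map_mul, map_sub, map_add, map_one, Polynomial.aeval_C, Polynomial.aeval_X,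
    algebraMap_eq] at E1 Eα
  have hd : ∀ i, pderiv i (Polynomial.aeval m γ) =
      Polynomial.aeval m (Polynomial.derivative γ) * pderiv i m := fun i => by
    rw [Derivation.map_aeval, smul_eq_mul]
  refine ⟨C c0 + C (c1 + τ) * m, G + Polynomial.aeval m γ, 1, α,
    ((DL_C c0).mono (by omega)).add (hm.C_mul _),
    hG.add ((Cfl.aeval_DL hm γ).mono (by omega)), ?_⟩
  refine Prod.ext ?_ ?_
  · simp only [fm, Prod.fst_add, Prod.smul_fst, smul_eq_mul, map_add, map_sub, map_one, hd,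
      pderiv_C, pderiv_mul, zero_mul, zero_add, add_zero]
    linear_combination (-(pderiv 1 m)) * E1 - (G + Polynomial.aeval m γ) * pderiv 1 m * Eα
  · simp only [fm, Prod.snd_add, Prod.smul_snd, smul_eq_mul, map_add, map_sub, map_one, hd,
      pderiv_C, pderiv_mul, zero_mul, zero_add, add_zero]
    linear_combination (pderiv 0 m) * E1 + (G + Polynomial.aeval m γ) * pderiv 0 m * Eα

end Pool.Agent.MP_05b4bd_ag.UM

end MrgPart4

-- marker of a merged file
example : 731051 + 615203 = 731051 + 615203 := rfl
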