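import Pool.Agent.MP_05b4bd_ag.um.Cfl
import Pool.Agent.MP_05b4bd_ag.pc3.Exc33

-- ======== part 0: formerly Pool.Agent.MP_05b4bd_ag.um.Mor
section MrgPart0

/-! A Morse polynomial transversal to infinity has a reduced finite critical scheme. -/

namespace Pool.Agent.MP_05b4bd_ag.UM

open MvPolynomial HC
open ES hiding Gen GenTopStmt GenJacStmt Ob EscStmt3
open ES.U
open PC3 hiding Arc SeqStmt IcStmt UpStmt LoStmt CenStmt CflStmt
open PC3.U
open scoped PowerSeries LaurentSeries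

namespace Mor

variable {k : Type} [Field k] {f : R2 k}

theorem hc_one (p : Fin 2 → k) (u : R2 k) :
    hc 1 (tr p u) = HC.lf (eval p (pderiv 0 u)) (eval p (pderiv 1 u)) := by
  have a := coeff_zero_tr p (pderiv 0 u)
  have b := coeff_zero_tr p (pderiv 1 u)
  rw [← tr_pderiv, coeff_eq_co, co_x] at a
  rw [← tr_pderiv, coeff_eq_co, co_y] at b
  rw [hom1_eq (hc_hom 1 (tr p u)), co_hc 1 0, co_hc 0 1, ← a, ← b]
  simp

theorem exists_unit_mul {p : Fin 2 → k} (hp : ∀ i, eval p (pderiv i f) = 0)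
    (hh : eval p (br (pderiv 0 f) (pderiv 1 f)) ≠ 0) {u : R2 k} (hu : eval p u = 0) :
    ∃ s, eval p s = 1 ∧ s * u ∈ Jac f := by
  have hl := low_gen (mem_mm_one.2 ((coeff_zero_tr p _).trans (hp 0)))
    (mem_mm_one.2 ((coeff_zero_tr p _).trans (hp 1))) (hc_one p _) (hc_one p _)
    (by simpa only [br, map_sub, map_mul] using hh)
  have h1 : mm k ≤ Ideal.span {tr p (pderiv 0 f), tr p (pderiv 1 f)} ⊔ mm k • mm k := by
    rw [smul_eq_mul, ← sq]
    have : ∀ i, (X i : R2 k) ∈ Ideal.span {tr p (pderiv 0 f), tr p (pderiv 1 f)} ⊔ mm k ^ 2 :=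
      fun i => by
        obtain ⟨j, hj, h⟩ := hl i
        have := add_mem (Ideal.mem_sup_left (T := mm k ^ 2) hj) (Ideal.mem_sup_right h)
        rwa [add_sub_cancel] at this
    exact mm_le (this 0) (this 1)
  obtain ⟨r, hr, h2⟩ := Submodule.exists_sub_one_mem_and_smul_le_of_fg_of_le_sup
    (idealOfVars_fg (Fin 2) k) le_rfl h1
  have h3 : tr p u ∈ mm k := by
    have := mem_mm_one.2 ((coeff_zero_tr p u).trans hu)
    rwa [pow_one] at this
  obtain ⟨a, b, hab⟩ := Ideal.mem_span_pair.1 (h2 (Submodule.smul_mem_pointwise_smul _ r _ h3))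
  refine ⟨tr (-p) r, ?_, Ideal.mem_span_pair.2 ⟨tr (-p) a, tr (-p) b, ?_⟩⟩
  · have h4 := mem_mm_one.1 (by rwa [pow_one] : r - 1 ∈ mm k ^ 1)
    rw [coeff_sub, coeff_zero_one, sub_eq_zero] at h4
    rw [← coeff_zero_tr, tr_tr', h4]
  · have h4 := congrArg (tr (-p)) hab
    simpa only [map_add, map_mul, tr_tr, smul_eq_mul] using h4

theorem mem_jac [IsAlgClosed k]
    (H : ∀ p, (∀ i, eval p (pderiv i f) = 0) → eval p (br (pderiv 0 f) (pderiv 1 f)) ≠ 0)
    {u : R2 k} (hu : ∀ p, (∀ i, eval p (pderiv i f) = 0) → eval p u = 0) : u ∈ Jac f := by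
  by_contra hn
  have h1 : (Jac f).colon {u} ≠ ⊤ := fun h => hn (by
    have : (1 : R2 k) ∈ (Jac f).colon {u} := h ▸ Submodule.mem_top
    simpa [Submodule.mem_colon] using this)
  obtain ⟨m, hm, hle⟩ := Ideal.exists_le_maximal _ h1
  obtain ⟨p, rfl⟩ := isMaximal_iff_eq_vanishingIdeal_singleton.1 hm
  have key : ∀ s, s * u ∈ Jac f → eval p s = 0 := fun s hs => by
    have := hle (show s ∈ (Jac f).colon {u} by simpa [Submodule.mem_colon] using hs)
    rw [mem_vanishingIdeal_singleton_iff] at this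
    exact this
  have hp : ∀ i, eval p (pderiv i f) = 0 := fun i =>
    key _ (Ideal.mul_mem_right _ _ (Ideal.subset_span (by fin_cases i <;> simp)))
  obtain ⟨s, h2, h3⟩ := exists_unit_mul hp (H p hp) (hu p hp)
  exact one_ne_zero (h2.symm.trans (key s h3))

theorem exists_ann {e : ℕ} (hd : DL (e + 3) f)
    (ht : CI (hc (e + 1) (pderiv 0 f)) (hc (e + 1) (pderiv 1 f))) :
    ∃ μ : Polynomial k, μ ≠ 0 ∧ ∀ p, (∀ i, eval p (pderiv i f) = 0) → μ.IsRoot (eval p f) := by
  obtain ⟨M, hM⟩ := jac_red hd ht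
  have : Module.Finite k (R2 k ⧸ Jac f) :=
    Module.Finite.of_surjective ((Ideal.Quotient.mkₐ k (Jac f)).toLinearMap ∘ₗ (dl k M).subtype)
      fun z => by
        obtain ⟨u, rfl⟩ := Ideal.Quotient.mk_surjective z
        obtain ⟨r, h1, h2⟩ := hM u
        exact ⟨⟨r, h1⟩, (Ideal.Quotient.eq.2 h2).symm⟩
  obtain ⟨μ, h0, h1⟩ := IsAlgebraic.of_finite k (Ideal.Quotient.mkₐ k (Jac f) f)
  refine ⟨μ, h0, fun p hp => ?_⟩
  rw [Polynomial.aeval_algHom_apply, Ideal.Quotient.mkₐ_eq_mk, Ideal.Quotient.eq_zero_iff_mem] at h1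
  obtain ⟨a, b, hab⟩ := Ideal.mem_span_pair.1 h1
  have h2 := congrArg (aeval p) hab
  rw [← Polynomial.aeval_algHom_apply] at h2
  simp only [map_add, map_mul, aeval_eq_eval, hp 0, hp 1, mul_zero, add_zero,
    Polynomial.coe_aeval_eq_eval] at h2
  exact h2.symm

end Mor

theorem morS : MorStmt := by
  classical
  intro d f hd h1 h2 h3
  obtain ⟨e, rfl⟩ : ∃ e, d = e + 2 := ⟨d - 2, by omega⟩
  have hh : ∀ p, (∀ i, eval p (pderiv i f) = 0) → eval p (br (pderiv 0 f) (pderiv 1 f)) ≠ 0 :=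
    fun p hp => by
      have := h3.1 p hp
      rwa [show jac (dform f) = br (pderiv 0 f) (pderiv 1 f) by
        simp only [jac, dform, br, map_neg]; ring] at this
  obtain ⟨μ, h0, hμ⟩ := Mor.exists_ann h1 (by rw [hc_pderiv, hc_pderiv]; exact h2)
  have hf : {p : Fin 2 → ℂ | ∀ i, eval p (pderiv i f) = 0}.Finite := by
    refine Set.Finite.of_finite_image (f := fun p => eval p f)
      (μ.roots.toFinset.finite_toSet.subset ?_) fun p hp q hq h => h3.2 p q hp hq h
    rintro _ ⟨p, hp, rfl⟩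
    simpa [h0] using hμ p hp
  have hs : ∀ i, ∀ j, eval (hf.toFinset.equivFin.symm i).1 (pderiv j f) = 0 := fun i =>
    hf.mem_toFinset.1 (hf.toFinset.equivFin.symm i).2
  refine ⟨h1, h2, _, fun i => (hf.toFinset.equivFin.symm i).1, hs, fun i => hh _ (hs i),
    fun i j h => hf.toFinset.equivFin.symm.injective (Subtype.ext (h3.2 _ _ (hs i) (hs j) h)),
    fun u hu => Mor.mem_jac hh fun p hp => ?_⟩
  simpa using hu (hf.toFinset.equivFin ⟨p, hf.mem_toFinset.2 hp⟩)

end Pool.Agent.MP_05b4bd_ag.UM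

end MrgPart0

-- ======== part 1: formerly Pool.Agent.MP_05b4bd_ag.um.Nsy
section MrgPart1

/-! A radial symmetry over an extension field descends to the ground field. -/

namespace Pool.Agent.MP_05b4bd_ag.UM

open MvPolynomial HC
open ES hiding Gen GenTopStmt GenJacStmt Ob EscStmt3
open ES.U

namespace Nsy
variable {k K : Type} [Field k] [Field K]

theorem hom_X (s : k) (c : Fin 2 → k) (i : Fin 2) : hom s c (X i) = C s * X i + C (c i) := by
  simp [hom]

theorem hom_C (s : k) (c : Fin 2 → k) (a : k) : hom s c (C a) = C a := by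
  simp [hom]

theorem pderiv_hom (s : k) (c : Fin 2 → k) (i : Fin 2) (u : R2 k) :
    pderiv i (hom s c u) = C s * hom s c (pderiv i u) := by
  rw [hom, HC.pderiv_aeval]
  fin_cases i <;> simp [mul_comm]

theorem eval_hom (s : k) (c x : Fin 2 → k) (u : R2 k) :
    eval x (hom s c u) = eval (fun j => s * x j + c j) u := by
  induction u using MvPolynomial.induction_on with
  | C a => rw [hom_C, eval_C, eval_C]
  | add a b ha hb => simp only [map_add, ha, hb]
  | mul_X a j ha => simp only [map_mul, ha, hom_X, map_add, eval_C, eval_X]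

theorem map_hom (j : k →+* K) (s : k) (c : Fin 2 → k) (u : R2 k) :
    map j (hom s c u) = hom (j s) (fun i => j (c i)) (map j u) := by
  induction u using MvPolynomial.induction_on with
  | C a => rw [hom_C, map_C, hom_C]
  | add a b ha hb => simp only [map_add, ha, hb]
  | mul_X a i ha => simp only [map_mul, ha, hom_X, map_add, map_C, map_X]

theorem two {e n : ℕ} {f : R2 k} {p : Fin n → Fin 2 → k} (H : TM (e + 3) f) (hp : Cr f p) :
    ∃ i l, p i 0 ≠ p l 0 := by
  by_contra hn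
  push Not at hn
  obtain ⟨a, ha⟩ : ∃ a, ∀ i, p i 0 = a := by
    rcases n with _ | n
    exacts [⟨0, fun i => i.elim0⟩, ⟨p 0 0, fun i => hn i 0⟩]
  obtain ⟨U, V, h⟩ := Ideal.mem_span_pair.1 (hp.rad (X 0 - C a) fun i => by simp [ha])
  obtain ⟨U', V', h1, h2, h3⟩ := kos_top (n := 0) (H.dl.pderiv 0) (H.dl.pderiv 1) H.top U V
    (by rw [h]; exact ((DL_X 0).mono (by omega)).sub ((DL_C a).mono (by omega)))
  rw [h, h1.eq_zero, h2.eq_zero] at h3
  simpa using congrArg (pderiv 0) h3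

end Nsy

open Nsy in
theorem nsyS : NsyStmt := by
  intro d f hd H hR K _ j ζ e c h
  by_contra hn
  obtain ⟨z0, z1⟩ := not_or.1 hn
  obtain ⟨d, rfl⟩ : ∃ e, d = e + 3 := ⟨d - 3, by omega⟩
  obtain ⟨n, p, hp⟩ := H.cr
  have key : ∀ i, ∃ l, (fun t => ζ * j (p i t) + c t) = fun t => j (p l t) := fun i =>
    cr_mem (hp.map j) fun t => by
      have h1 := congrArg (fun u => eval (fun s => j (p i s)) (pderiv t u)) h
      simp only [pderiv_hom, map_add, pderiv_C_mul, pderiv_C, map_mul, eval_C, eval_hom,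
        (hp.map j).crit i t, mul_zero, add_zero] at h1
      exact (mul_eq_zero.1 h1).resolve_left z0
  obtain ⟨i, i', hi⟩ := two H hp
  obtain ⟨l, hl⟩ := key i
  obtain ⟨l', hl'⟩ := key i'
  obtain ⟨z, rfl⟩ : ∃ z, ζ = j z := ⟨(p l 0 - p l' 0) / (p i 0 - p i' 0), by
    rw [map_div₀, eq_div_iff ((map_ne_zero j).2 (sub_ne_zero.2 hi)), map_sub, map_sub]
    linear_combination congrFun hl 0 - congrFun hl' 0⟩
  obtain ⟨c0, rfl⟩ : ∃ c0 : Fin 2 → ℂ, c = fun t => j (c0 t) :=
    ⟨fun t => p l t - z * p i t, funext fun t => by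
      rw [map_sub, map_mul]; linear_combination congrFun hl t⟩
  have h2 : map j (hom z c0 f - C (z ^ (d + 3)) * f) = C e := by
    rw [map_sub, map_hom, h, map_mul, map_C, map_pow j, add_sub_cancel_left]
  have h3 := congrArg (coeff 0) h2
  rw [coeff_map, coeff_zero_C] at h3
  refine hR ⟨z, coeff 0 (hom z c0 f - C (z ^ (d + 3)) * f), c0, fun g => z0 (by rw [g, map_zero]),
    fun g => z1 (by rw [g, map_one]), ?_⟩
  rw [← sub_eq_iff_eq_add']
  exact map_injective j j.injective (h2.trans (by rw [map_C, h3]))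

end Pool.Agent.MP_05b4bd_ag.UM

end MrgPart1

-- ======== part 2: formerly Pool.Agent.MP_05b4bd_ag.um.Cors
section MrgPart2

/-! The core statement without the normalisation of the coordinates. -/

namespace Pool.Agent.MP_05b4bd_ag.UM

open MvPolynomial HC
open ES hiding Gen GenTopStmt GenJacStmt Ob EscStmt3
open ES.U
open PC3 hiding Arc SeqStmt IcStmt UpStmt LoStmt CenStmt CflStmt
open PC3.U
open scoped PowerSeries LaurentSeries

namespace Cors

variable {A B : Type} [CommRing A] [CommRing B] {a b c e : A}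

/-- A centre at the point `p`. -/
def Ce (w : Fm A) (p : Fin 2 → A) : Prop := tr p w.1 ∈ mm A ^ 1 ∧ tr p w.2 ∈ mm A ^ 1 ∧
  eval p (br w.1 w.2) ≠ 0 ∧ FI (tr p w.1) (tr p w.2)

theorem det (h : a * e - b * c = 1) (φ : A →+* B) : φ a * φ e - φ b * φ c = 1 := by
  rw [← map_mul, ← map_mul, ← map_sub, h, map_one]

theorem map_pb (φ : A →+* B) (w : Fm A) : mapF φ (pb (HC.lf a b) (HC.lf c e) w) =
    pb (HC.lf (φ a) (φ b)) (HC.lf (φ c) (φ e)) (mapF φ w) := by
  rw [mapF_pb, map_lf, map_lf]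

theorem tr_lin (h : a * e - b * c = 1) (p : Fin 2 → A) (u : R2 A) :
    tr ![e * p 0 - b * p 1, a * p 1 - c * p 0] (lin a b c e u) = lin a b c e (tr p u) := by
  have h' := det h (C : A →+* R2 A)
  have : (tr ![e * p 0 - b * p 1, a * p 1 - c * p 0]).comp (lin a b c e) =
      (lin a b c e).comp (tr p) := by
    apply MvPolynomial.algHom_ext
    intro i
    fin_cases i
    · simp [tr, lin_X0, HC.lf]
      linear_combination C (p 0) * h'
    · simp [tr, lin_X1, HC.lf]
      linear_combination C (p 1) * h'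
  exact DFunLike.congr_fun this u

theorem eval_lin (h : a * e - b * c = 1) (p : Fin 2 → A) (u : R2 A) :
    eval ![e * p 0 - b * p 1, a * p 1 - c * p 0] (lin a b c e u) = eval p u := by
  induction u using MvPolynomial.induction_on with
  | C r => simp
  | add p q hp hq => simp only [map_add, hp, hq]
  | mul_X q j hq =>
    rw [map_mul, map_mul, map_mul, hq]
    congr 1
    fin_cases j
    · simp [lin_X0, HC.lf]
      linear_combination p 0 * h
    · simp [lin_X1, HC.lf]
      linear_combination p 1 * h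

theorem pb1 (w : Fm A) : (pb (HC.lf a b) (HC.lf c e) w).1 =
    C e * lin a b c e w.1 - C b * lin a b c e w.2 := by
  simp only [pb, fm, sub2_lf, Prod.fst_sub, lf_y]; ring

theorem pb2 (w : Fm A) : (pb (HC.lf a b) (HC.lf c e) w).2 =
    C a * lin a b c e w.2 - C c * lin a b c e w.1 := by
  simp only [pb, fm, sub2_lf, Prod.snd_sub, lf_x]; ring

theorem Ce.pb (h : a * e - b * c = 1) {w : Fm A} {p : Fin 2 → A} (H : Ce w p) :
    Ce (pb (HC.lf a b) (HC.lf c e) w) ![e * p 0 - b * p 1, a * p 1 - c * p 0] := by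
  obtain ⟨h1, h2, h3, h4⟩ := H
  have h' := det h (C : A →+* R2 A)
  have tc : ∀ (q : Fin 2 → A) (r : A), tr q (C r) = C r := fun q r => by simp [tr]
  have eb : br (C e * lin a b c e w.1 - C b * lin a b c e w.2)
      (C a * lin a b c e w.2 - C c * lin a b c e w.1) = lin a b c e (br w.1 w.2) := by
    rw [← br_lin h]
    simp only [br, map_sub, pderiv_C_mul]
    linear_combination (pderiv 0 (lin a b c e w.1) * pderiv 1 (lin a b c e w.2) -
      pderiv 1 (lin a b c e w.1) * pderiv 0 (lin a b c e w.2)) * h'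
  rw [Ce, pb1, pb2, eb, eval_lin h]
  simp only [map_sub, map_mul, tc, tr_lin h]
  refine ⟨sub_mem (Ideal.mul_mem_left _ _ (lin_mm h1)) (Ideal.mul_mem_left _ _ (lin_mm h2)),
    sub_mem (Ideal.mul_mem_left _ _ (lin_mm h2)) (Ideal.mul_mem_left _ _ (lin_mm h1)), h3,
    Tr.fi (a := e) (b := -b) (c := -c) (e := a) ⟨?_, ?_⟩ (by linear_combination h) h4⟩
  all_goals
    simp only [map_sub, map_mul, HC.lin_C, inv_lin h, map_neg]
    ring

theorem back (h : a * e - b * c = 1) {d : ℕ} {w : Fm A}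
    (H : Fam d (pb (HC.lf a b) (HC.lf c e) w)) : Fam d w := by
  obtain ⟨s, t, hs, ht, -, -, -, -, h2⟩ := exists_inv (DL_lf a b) (DL_lf c e) (by
    rw [br, lf_x, lf_x, lf_y, lf_y]; exact det h C)
  exact h2 w ▸ H.pb hs ht

end Cors

theorem corsS (h1 : ShearStmt) (h2 : CoreStmt) : CorsStmt := by
  intro k _ _ _ d f w p hd tm ns hw hr hc Ω _ _ _ ψ
  obtain ⟨a, b, c, e, h, g⟩ := h1 k d f (by omega) tm ns
  have hC := Cors.det h (PowerSeries.C : k →+* k⟦X⟧)
  have hL := Cors.det hC (coeL k)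
  have H := Cors.Ce.pb hL (w := mapF (coeL k) w) hc
  rw [← Cors.map_pb] at H
  have := h2 k d _ _ _ hd ⟨g, hw.pb (DL_lf _ _) (DL_lf _ _), by
    rw [Cors.map_pb, hr, pb_d1, d1_sub, d1_C, sub_zero, sub2_lf]
    simp only [PowerSeries.constantCoeff_C]⟩ H Ω ψ
  rw [Cors.map_pb, Cors.map_pb] at this
  exact Cors.back (Cors.det hL ψ) this

end Pool.Agent.MP_05b4bd_ag.UM

end MrgPart2

-- ======== part 3: formerly Pool.Agent.MP_05b4bd_ag.um.Par
section MrgPart3

/-! The normal form along a parabola, in every degree. -/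

namespace Pool.Agent.MP_05b4bd_ag.UM

open MvPolynomial HC
open ES hiding Gen GenTopStmt GenJacStmt Ob EscStmt3
open ES.U
open PC3 hiding Arc SeqStmt IcStmt UpStmt LoStmt CenStmt CflStmt
open PC3.U
open scoped PowerSeries LaurentSeries

namespace Par

variable {K : Type} [Field K]

theorem E_Sr [CharZero K] (u v : R2 K) (n : ℕ) :
    E u v n = C ((2 * n + 1).doubleFactorial : K) * PB.Sr n u v := by
  induction n with
  | zero => simp [E, PB.Sr]
  | succ n ih =>
    have hK : (2 * (n : K) + 3) ≠ 0 := by exact_mod_cast (by omega : 2 * n + 3 ≠ 0)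
    have hC : (C (2 * (n : K) + 3)⁻¹ : R2 K) * (2 * n + 3) = 1 := by
      have : (2 * n + 3 : R2 K) = C (2 * (n : K) + 3) := by simp [map_ofNat]
      rw [this, ← map_mul, inv_mul_cancel₀ hK, map_one]
    rw [E, PB.Sr, ih, show 2 * (n + 1) + 1 = 2 * n + 1 + 2 by ring, Nat.doubleFactorial_add_two]
    simp only [map_add, map_mul, map_natCast, map_ofNat, Nat.cast_mul, Nat.cast_add, Nat.cast_ofNat,
      Nat.cast_one, map_one]
    linear_combination (-((2 * n + 1).doubleFactorial : R2 K) *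
      ((2 * n + 2) * (u ^ 2 + v) * PB.Sr n u v + u * v ^ (n + 1))) * hC

theorem TT_abs (m G : R2 K) (c0 c1 : K) (γ : Polynomial K) :
    PB.TT m c0 c1 G ((Polynomial.C c0 + Polynomial.C c1 * Polynomial.X) * Polynomial.derivative γ +
      Polynomial.C (c1 - 1) * γ) = PB.TT m c0 c1 (G + Polynomial.aeval m γ) 0 := by
  refine Prod.ext ?_ ?_ <;>
  simp only [PB.TT, fm, Prod.fst_add, Prod.snd_add, map_add, map_mul, Polynomial.aeval_C,
    Polynomial.aeval_X, algebraMap_eq, map_zero, Derivation.map_aeval, smul_eq_mul] <;>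
  ring

end Par

theorem parU : ParStmt := by
  intro K _ _ _ d w m c0 c1 hd hw hC hm
  obtain ⟨N, e, u, v, g, h, hu, hv, ec, a1, a2, a3, a4⟩ := PB.pf (by omega) hw hC.2.2 hm
  rcases a3 with rfl | ⟨b1, b2, b3⟩
  · exact .inl ⟨g, h, a1, a2, by simpa [PB.TT] using a4⟩
  obtain ⟨γ, g1, g2⟩ := absorb c0 c1 (h.natDegree + 1) (fun j _ c => by
    have : ((2 * N + 3 : ℕ) : K) = (2 * (j + 1) : ℕ) := by
      push_cast
      linear_combination (j + 1 : K) * b3 - (2 * N + 3 : K) * c
    have := Nat.cast_injective this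
    omega) h (Polynomial.degree_le_natDegree.trans_lt (by exact_mod_cast Nat.lt_succ_self _))
  have g3 : γ.natDegree ≤ h.natDegree := Polynomial.natDegree_le_iff_coeff_eq_zero.2 fun i hi =>
    Polynomial.coeff_eq_zero_of_degree_lt (g1.trans_le (by exact_mod_cast hi))
  rw [← g2, Par.TT_abs] at a4
  obtain ⟨r, g0, g1', e1⟩ := PB.absorb (c0 := c0) b3 (m := m)
    (G := g + C e * PB.Sr N u v + Polynomial.aeval m γ) (h := 0) (by simp)
  rw [← a4, ec] at e1
  have h0 : ((2 * N + 1).doubleFactorial : K) ≠ 0 :=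
    Nat.cast_ne_zero.2 (Nat.doubleFactorial_pos _).ne'
  refine .inr ⟨N, b1, b2, r * e / (2 * N + 1).doubleFactorial, u, v,
    C r * (g + Polynomial.aeval m γ) + (C g0 + C g1' * m), _, DL.of_hom hu, hv,
    ((a1.add ((PB.ae_top hC.1 γ).1.mono (by omega))).C_mul _).add
      (((DL_C _).mono (by omega)).add ((hC.1.C_mul _).mono hd)), ?_, e1⟩
  rw [Par.E_Sr, ← mul_assoc, ← map_mul, div_mul_cancel₀ _ h0, map_mul]
  ring

end Pool.Agent.MP_05b4bd_ag.UM

end MrgPart3

-- marker of a merged file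
example : 731051 + 84151 = 731051 + 84151 := rfl
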