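import Pool.Agent.MP_05b4bd_ag.um.Cfl
import Pool.Agent.MP_05b4bd_ag.pc3.Pull

/-! Integrating factors built on a conic with a centre, in every degree. -/

namespace Pool.Agent.MP_05b4bd_ag.UM

open MvPolynomial HC
open ES hiding Gen GenTopStmt GenJacStmt Ob EscStmt3
open ES.U
open PC3 hiding Arc SeqStmt IcStmt UpStmt LoStmt CenStmt CflStmt
open PC3.U
open scoped PowerSeries LaurentSeries

namespace CenU

variable {K : Type} [Field K]

/-- Polynomials killed by `x ∂x - y ∂y`. -/
theorem diag [CharZero K] {d : ℕ} {h : R2 K} (hd : 1 ≤ d) (hh : DL d h)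
    (e : X 0 * pderiv 0 h - X 1 * pderiv 1 h = 0) :
    ∃ q : Polynomial K, 2 * q.natDegree + 1 ≤ d ∧ h = Polynomial.aeval (X 0 * X 1 : R2 K) q := by
  refine ⟨∑ j ∈ Finset.range ((d + 1) / 2), Polynomial.monomial j (HC.co j j h), ?_, ?_⟩
  · have : (∑ j ∈ Finset.range ((d + 1) / 2), Polynomial.monomial j (HC.co j j h)).natDegree ≤
        (d - 1) / 2 :=
      Polynomial.natDegree_sum_le_of_forall_le _ _ fun j hj =>
        (Polynomial.natDegree_monomial_le _).trans (by have := Finset.mem_range.1 hj; omega)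
    omega
  refine co_ext fun i j => ?_
  have e1 : HC.co i j (Polynomial.aeval (X 0 * X 1 : R2 K)
      (∑ l ∈ Finset.range ((d + 1) / 2), Polynomial.monomial l (HC.co l l h))) =
      ∑ l ∈ Finset.range ((d + 1) / 2), HC.co l l h * if l = i ∧ l = j then 1 else 0 := by
    rw [map_sum, HC.co, coeff_sum]
    refine Finset.sum_congr rfl fun l _ => ?_
    rw [Polynomial.aeval_monomial, algebraMap_eq, mul_pow, ← co_mon, ← co_C_mul]
    rfl
  rw [e1]
  by_cases hij : i = j
  · subst hij
    simp only [and_self, mul_ite, mul_one, mul_zero, Finset.sum_ite_eq', Finset.mem_range]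
    split_ifs with h1
    · rfl
    · exact co_of_DL hh (by omega)
  · have k := congrArg (HC.co i j) e
    rw [co_sub, co_X1_y, co_X0_x, co_zero, ← sub_mul] at k
    have : (i : K) - j ≠ 0 := sub_ne_zero.2 fun h0 => hij (Nat.cast_injective h0)
    rw [(mul_eq_zero.1 k).resolve_left this]
    exact (Finset.sum_eq_zero fun l _ => by rw [if_neg (by omega), mul_zero]).symm

theorem core (hD : DiagStmt) [CharZero K] {d : ℕ} {w : Fm K} {m0 c0 c1 : K} (h3 : 3 ≤ d)
    (hw : DF (d + 1) w) (h : Cn w (X 0 * X 1 + C m0) c0 c1) :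
    Lim (H3 d) w ∨ TF d w (X 0 * X 1 + C m0) c0 c1 := by
  obtain ⟨hm, hne, hp⟩ := h
  have dm : d1 (X 0 * X 1 + C m0 : R2 K) = (X 0, -X 1) := Prod.ext (by simp [d1]) (by simp [d1])
  have hp' : X 1 * w.1 + X 0 * w.2 = (C c0 + C c1 * (X 0 * X 1 + C m0)) * dv w := by
    rw [Pr, dm, wg] at hp
    linear_combination hp
  by_cases he : c0 + c1 * m0 = 0
  · have hc : c1 ≠ 0 := fun h0 => hne ⟨by rw [h0] at he; linear_combination he, h0⟩
    have hi := congrArg (C : K → R2 K) (inv_mul_cancel₀ hc)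
    have he' := congrArg (C : K → R2 K) he
    simp only [map_mul, map_add, map_one, map_zero] at hi he'
    refine Or.inl (hD K d w c1⁻¹ c1⁻¹ hw (inv_ne_zero hc) (inv_ne_zero hc) ?_)
    linear_combination (-C c1⁻¹) * hp' - C c1⁻¹ * dv w * he' - X 0 * X 1 * dv w * hi
  right
  obtain ⟨G, hG, eG⟩ := PC3.Cen.solve hw.dv (PC3.Cen.diag_zero (c1 := c1) he (by
    rw [map_add, map_mul]; linear_combination hp'))
  obtain ⟨n, rfl⟩ : ∃ n, d = n + 1 := ⟨d - 1, by omega⟩
  set m : R2 K := X 0 * X 1 + C m0 with hmd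
  have mx : pderiv 0 m = X 1 := by simp [hmd]
  have my : pderiv 1 m = X 0 := by simp [hmd]
  set u : Fm K := w - fm (C c0 + C c1 * m) G - fm (C (c1 - 1) * G) m with hu
  have hF : DL 3 (C c0 + C c1 * m) := ((DL_C c0).mono (by omega)).add (hm.C_mul c1)
  have du : DF (n + 2) u :=
    (hw.sub ((DF.fm hF hG).mono (by omega))).sub ((DF.fm (hG.C_mul _) hm).mono (by omega))
  have e1 : X 1 * u.1 + X 0 * u.2 = 0 := by
    simp only [hu, fm, Prod.fst_sub, Prod.snd_sub, mx, my]
    linear_combination hp' - (C c0 + C c1 * m) * eG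
  have e2 : dv u = 0 := by
    rw [hu, dv_sub, dv_sub, dv_fm, dv_fm]
    simp only [br, map_add, pderiv_mul, pderiv_C, mx, my, map_sub, map_one]
    simp only [Derivation.map_one_eq_zero]
    linear_combination -eG
  obtain ⟨g, hg⟩ : (X 0 : R2 K) ∣ u.1 := by
    have : (X 0 : R2 K) ∣ X 1 * u.1 := ⟨-u.2, by linear_combination e1⟩
    refine (X_prime.dvd_or_dvd this).resolve_left fun h0 => ?_
    exact absurd (X_dvd_X.1 h0) (by decide)
  have hg2 : u.2 = -(g * X 1) :=
    mul_left_cancel₀ (X_ne_zero 0) (by linear_combination e1 - X 1 * hg)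
  have dg : DL (n + 1) g := by
    refine DL_of_mul (b := 1) (v := X 0) (by rw [mul_comm, ← hg]; exact du.1) fun h0 => ?_
    have := co_of_DL (i := 1) (j := 0) h0 le_rfl
    have k := co_mon (A := K) 1 0 1 0
    rw [pow_one, pow_zero, mul_one, this] at k
    simp at k
  obtain ⟨q, hz, eg⟩ := diag (by omega) dg (by
    rw [dv, hg, hg2] at e2
    simp only [map_neg, pderiv_mul, pderiv_X_self] at e2
    linear_combination e2)
  refine ⟨G, Polynomial.taylor (-m0) q, hG, by rwa [Polynomial.natDegree_taylor], ?_⟩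
  have eg' : g = Polynomial.aeval m (Polynomial.taylor (-m0) q) := by
    rw [eg, hmd, Polynomial.taylor_apply, Polynomial.aeval_comp, map_add, Polynomial.aeval_X,
      Polynomial.aeval_C, map_neg, algebraMap_eq, add_neg_cancel_right]
  simp only [hu, fm, Prod.fst_sub, Prod.snd_sub, mx, my] at hg hg2
  refine Prod.ext ?_ ?_
  · simp only [fm, Prod.fst_add, my]
    linear_combination hg + X 0 * eg'
  · simp only [fm, Prod.snd_add, mx]
    linear_combination hg2 - X 1 * eg'

end CenU

theorem cenU (hD : DiagStmt) : CenStmt := by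
  intro K _ _ _ d w m c0 c1 h3 hw h hc
  obtain ⟨s, t, r, m0, hs, ht, hr, e⟩ := PC3.Cen.normal h.1 hc
  obtain ⟨s', t', hs', ht', -, e1, e2, e3, -⟩ := exists_inv' hs ht hr
  have em : m = sub2 s t (X 0 * X 1 + C m0) := by
    rw [map_add, map_mul, sub2_X0, sub2_X1, sub2_C, e]
  have h' := h.pb hs' ht'
  rw [em, e2] at h'
  rcases CenU.core hD h3 (hw.pb hs' ht') h' with k | k
  · left
    have := Lim.pb (s := s) (t := t) (fun u hu => H3.pb hs ht hu) k
    rwa [e3] at this
  · right
    have := k.pb hs ht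
    rwa [e3, ← em] at this

end Pool.Agent.MP_05b4bd_ag.UM
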