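import Pool.Agent.MP_05b4bd_ag.pc3.Nrm

/-! No arc of pull-backs of linear forms by two cubics ends at an exact form of degree four whose
top form is squarefree. -/

namespace Pool.Agent.MP_05b4bd_ag.PC3

open MvPolynomial HC ES
open scoped PowerSeries LaurentSeries

namespace Ex33

section Ring
variable {A : Type} [CommRing A]

/-- The coefficients of the bracket of two normalised cubics. -/
theorem alg {k : Type} [Field k] [CharZero k] [IsDomain A] (φ : A →+* k)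
    (hu : ∀ a, φ a ≠ 0 → IsUnit a) {ρ e0 e1 e2 c0 c1 c2 c3 h0 g0 g1 u r0 r1 r2 r3 : A} (hρ : ρ ≠ 0)
    (b : ℕ → ℕ → A) (E00 : h0 = ρ * b 0 0) (E01 : 2 * g0 + e1 * h0 = ρ * b 0 1)
    (E10 : g1 + 2 * e2 * h0 = ρ * b 1 0)
    (E02 : 3 * r0 + 2 * e1 * g0 + c1 * h0 - 2 * e0 * g1 = ρ * b 0 2)
    (E11 : 2 * r1 + 4 * e2 * g0 + 2 * c2 * h0 - 4 * u * e0 = ρ * b 1 1)
    (E20 : r2 + 2 * e2 * g1 + 3 * c3 * h0 - 2 * u * e1 = ρ * b 2 0)
    (E03 : 3 * e1 * r0 + 2 * c1 * g0 - 2 * e0 * r1 - 3 * c0 * g1 = ρ * b 0 3)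
    (E12 : e1 * r1 + 6 * e2 * r0 - c1 * g1 + 4 * c2 * g0 - 4 * e0 * r2 - 6 * u * c0 = ρ * b 1 2)
    (E21 : -(e1 * r2) + 4 * e2 * r1 + c2 * g1 + 6 * c3 * g0 - 6 * e0 * r3 - 4 * u * c1 = ρ * b 2 1)
    (E30 : 2 * e2 * r2 + 3 * c3 * g1 - 3 * e1 * r3 - 2 * u * c2 = ρ * b 3 0)
    (E04 : 3 * c1 * r0 - 3 * c0 * r1 = ρ * b 0 4) (E13 : 6 * c2 * r0 - 6 * c0 * r2 = ρ * b 1 3)
    (E22 : -(3 * c1 * r2) + 3 * c2 * r1 + 9 * c3 * r0 - 9 * c0 * r3 = ρ * b 2 2)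
    (z1 : φ e1 = 0) (z2 : φ c1 = 0) (z3 : φ c2 = 0) (z4 : φ r1 = 0) (z5 : φ r2 = 0)
    (z6 : φ r3 = 0) (nu : φ u ≠ 0) : φ (b 0 4) = 0 ∧ φ (b 1 3) = 0 := by
  have dv : ∀ a x y : A, φ a ≠ 0 → a * x = ρ * y → ∃ z, x = ρ * z := fun a x y ha h =>
    (hu a ha).dvd_mul_left.1 ⟨y, h⟩
  have nn : ∀ n : ℕ, φ ((n + 1 : ℕ) * u) ≠ 0 := fun n => by
    rw [map_mul, map_natCast]; exact mul_ne_zero (Nat.cast_ne_zero.2 n.succ_ne_zero) nu
  have n2 : φ 2 ≠ 0 := by rw [map_ofNat]; exact two_ne_zero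
  have n3 : φ 3 ≠ 0 := by rw [map_ofNat]; exact three_ne_zero
  obtain ⟨G0, hg0⟩ := dv 2 g0 (b 0 1 - e1 * b 0 0) n2 (by linear_combination E01 - e1 * E00)
  obtain ⟨G1, hg1⟩ : ∃ z, g1 = ρ * z :=
    ⟨b 1 0 - 2 * e2 * b 0 0, by linear_combination E10 - 2 * e2 * E00⟩
  obtain ⟨R0, hr0⟩ := dv 3 r0 (b 0 2 - 2 * e1 * G0 - c1 * b 0 0 + 2 * e0 * G1) n3
    (by linear_combination E02 - 2 * e1 * hg0 - c1 * E00 + 2 * e0 * hg1)
  obtain ⟨R1, hr1⟩ := dv 2 (r1 - 2 * u * e0) (b 1 1 - 4 * e2 * G0 - 2 * c2 * b 0 0) n2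
    (by linear_combination E11 - 4 * e2 * hg0 - 2 * c2 * E00)
  obtain ⟨R2, hr2⟩ : ∃ z, r2 - 2 * u * e1 = ρ * z := ⟨b 2 0 - 2 * e2 * G1 - 3 * c3 * b 0 0,
    by linear_combination E20 - 2 * e2 * hg1 - 3 * c3 * E00⟩
  obtain ⟨x, hx⟩ := dv ((3 + 1 : ℕ) * u) (e0 ^ 2)
    (-b 0 3 + 3 * e1 * R0 + 2 * c1 * G0 - 2 * e0 * R1 - 3 * c0 * G1) (nn 3) (by
      push_cast
      linear_combination -E03 + 3 * e1 * hr0 + 2 * c1 * hg0 - 2 * e0 * hr1 - 3 * c0 * hg1)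
  obtain ⟨C0, hc0⟩ := dv ((5 + 1 : ℕ) * u) (c0 + e0 * e1)
    (-b 1 2 + e1 * R1 + 6 * e2 * R0 - c1 * G1 + 4 * c2 * G0 - 4 * e0 * R2) (nn 5) (by
      push_cast
      linear_combination -E12 + e1 * hr1 + 6 * e2 * hr0 - c1 * hg1 + 4 * c2 * hg0 - 4 * e0 * hr2)
  obtain ⟨C1, hc1⟩ : ∃ z, 4 * u * c1 + 2 * u * e1 ^ 2 - 8 * u * e0 * e2 + 6 * e0 * r3 = ρ * z :=
    ⟨-b 2 1 - e1 * R2 + 4 * e2 * R1 + c2 * G1 + 6 * c3 * G0, by
      linear_combination -E21 - e1 * hr2 + 4 * e2 * hr1 + c2 * hg1 + 6 * c3 * hg0⟩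
  obtain ⟨C2, hc2⟩ : ∃ z, 2 * u * c2 - 4 * u * e1 * e2 + 3 * e1 * r3 = ρ * z :=
    ⟨-b 3 0 + 2 * e2 * R2 + 3 * c3 * G1, by linear_combination -E30 + 2 * e2 * hr2 + 3 * c3 * hg1⟩
  obtain ⟨y, hy⟩ := dv (2 * 3) (u * e1 ^ 3 + 3 * e0 * e1 * r3)
    (2 * b 2 2 + 6 * c1 * R2 - 6 * c2 * R1 - 18 * c3 * R0 + 18 * r3 * C0 + 3 * e1 * C1 -
      6 * e0 * C2) (by rw [map_mul]; exact mul_ne_zero n2 n3) (by
      linear_combination 2 * E22 + 6 * c1 * hr2 - 6 * c2 * hr1 - 18 * c3 * hr0 + 18 * r3 * hc0 +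
        3 * e1 * hc1 - 6 * e0 * hc2)
  have k04 : b 0 4 = 3 * c1 * R0 - 3 * C0 * r1 + 3 * e0 * e1 * R1 + 6 * u * e1 * x :=
    mul_left_cancel₀ hρ (by
      linear_combination -E04 + 3 * c1 * hr0 - 3 * r1 * hc0 + 3 * e0 * e1 * hr1 + 6 * u * e1 * hx)
  obtain ⟨a, ha⟩ := dv ((11 + 1 : ℕ) * u) (e0 * e1 ^ 2)
    (b 1 3 - 6 * c2 * R0 + 6 * C0 * r2 - 6 * e0 * e1 * R2) (nn 11) (by
      push_cast
      linear_combination E13 - 6 * c2 * hr0 + 6 * r2 * hc0 - 6 * e0 * e1 * hr2)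
  have k13 : b 1 3 = 12 * u * a + 6 * c2 * R0 - 6 * C0 * r2 + 6 * e0 * e1 * R2 :=
    mul_left_cancel₀ hρ (by
      linear_combination -E13 + 6 * c2 * hr0 - 6 * r2 * hc0 + 6 * e0 * e1 * hr2 + 12 * u * ha)
  have ka : u * a ^ 2 = x * (e1 * y - 3 * r3 * a) := mul_left_cancel₀ (pow_ne_zero 2 hρ) (by
    linear_combination -u * (ρ * a + e0 * e1 ^ 2) * ha + u * e1 ^ 4 * hx + ρ * x * e1 * hy -
      3 * ρ * x * r3 * ha)
  have za : φ a = 0 := by
    have := congrArg φ ka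
    simp only [map_mul, map_sub, map_pow, z1, z6, zero_mul, mul_zero, sub_zero] at this
    exact pow_eq_zero_iff two_ne_zero |>.1 ((mul_eq_zero.1 this).resolve_left nu)
  rw [k04, k13]
  constructor <;> simp only [map_mul, map_sub, map_add, z1, z2, z3, z4, z5, za, zero_mul, mul_zero,
    sub_zero, add_zero]

theorem DL4_eq {u : R2 A} (hu : DL 4 u) : u = C (HC.co 0 0 u) * (X 0 ^ 0 * X 1 ^ 0) +
    C (HC.co 1 0 u) * (X 0 ^ 1 * X 1 ^ 0) + C (HC.co 0 1 u) * (X 0 ^ 0 * X 1 ^ 1) +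
    C (HC.co 0 2 u) * (X 0 ^ 0 * X 1 ^ 2) + C (HC.co 1 1 u) * (X 0 ^ 1 * X 1 ^ 1) +
    C (HC.co 2 0 u) * (X 0 ^ 2 * X 1 ^ 0) + C (HC.co 0 3 u) * (X 0 ^ 0 * X 1 ^ 3) +
    C (HC.co 1 2 u) * (X 0 ^ 1 * X 1 ^ 2) + C (HC.co 2 1 u) * (X 0 ^ 2 * X 1 ^ 1) +
    C (HC.co 3 0 u) * (X 0 ^ 3 * X 1 ^ 0) := by
  refine co_ext fun a b => ?_
  simp only [co_add, co_C_mul, co_mon]
  by_cases h : 4 ≤ a + b
  · rw [co_of_DL hu h]
    repeat rw [if_neg (by omega)]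
    simp
  · have ha : a ≤ 3 := by omega
    have hb : b ≤ 3 := by omega
    interval_cases a <;> interval_cases b <;> first | omega | simp

theorem br_eq (a0 e0 e1 e2 c0 c1 c2 c3 b0 h0 g0 g1 u r0 r1 r2 r3 : A) :
    br (C a0 * (X 0 ^ 0 * X 1 ^ 0) + C 1 * (X 0 ^ 1 * X 1 ^ 0) + C 0 * (X 0 ^ 0 * X 1 ^ 1) +
      C e0 * (X 0 ^ 0 * X 1 ^ 2) + C e1 * (X 0 ^ 1 * X 1 ^ 1) + C e2 * (X 0 ^ 2 * X 1 ^ 0) +
      C c0 * (X 0 ^ 0 * X 1 ^ 3) + C c1 * (X 0 ^ 1 * X 1 ^ 2) + C c2 * (X 0 ^ 2 * X 1 ^ 1) +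
      C c3 * (X 0 ^ 3 * X 1 ^ 0) : R2 A)
      (C b0 * (X 0 ^ 0 * X 1 ^ 0) + C 0 * (X 0 ^ 1 * X 1 ^ 0) + C h0 * (X 0 ^ 0 * X 1 ^ 1) +
      C g0 * (X 0 ^ 0 * X 1 ^ 2) + C g1 * (X 0 ^ 1 * X 1 ^ 1) + C u * (X 0 ^ 2 * X 1 ^ 0) +
      C r0 * (X 0 ^ 0 * X 1 ^ 3) + C r1 * (X 0 ^ 1 * X 1 ^ 2) + C r2 * (X 0 ^ 2 * X 1 ^ 1) +
      C r3 * (X 0 ^ 3 * X 1 ^ 0)) =
    C h0 * (X 0 ^ 0 * X 1 ^ 0) + C (2 * g0 + e1 * h0) * (X 0 ^ 0 * X 1 ^ 1) +
    C (g1 + 2 * e2 * h0) * (X 0 ^ 1 * X 1 ^ 0) +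
    C (3 * r0 + 2 * e1 * g0 + c1 * h0 - 2 * e0 * g1) * (X 0 ^ 0 * X 1 ^ 2) +
    C (2 * r1 + 4 * e2 * g0 + 2 * c2 * h0 - 4 * u * e0) * (X 0 ^ 1 * X 1 ^ 1) +
    C (r2 + 2 * e2 * g1 + 3 * c3 * h0 - 2 * u * e1) * (X 0 ^ 2 * X 1 ^ 0) +
    C (3 * e1 * r0 + 2 * c1 * g0 - 2 * e0 * r1 - 3 * c0 * g1) * (X 0 ^ 0 * X 1 ^ 3) +
    C (e1 * r1 + 6 * e2 * r0 - c1 * g1 + 4 * c2 * g0 - 4 * e0 * r2 - 6 * u * c0) *
      (X 0 ^ 1 * X 1 ^ 2) +
    C (-(e1 * r2) + 4 * e2 * r1 + c2 * g1 + 6 * c3 * g0 - 6 * e0 * r3 - 4 * u * c1) *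
      (X 0 ^ 2 * X 1 ^ 1) +
    C (2 * e2 * r2 + 3 * c3 * g1 - 3 * e1 * r3 - 2 * u * c2) * (X 0 ^ 3 * X 1 ^ 0) +
    C (3 * c1 * r0 - 3 * c0 * r1) * (X 0 ^ 0 * X 1 ^ 4) +
    C (6 * c2 * r0 - 6 * c0 * r2) * (X 0 ^ 1 * X 1 ^ 3) +
    C (-(3 * c1 * r2) + 3 * c2 * r1 + 9 * c3 * r0 - 9 * c0 * r3) * (X 0 ^ 2 * X 1 ^ 2) +
    C (6 * c3 * r1 - 6 * c1 * r3) * (X 0 ^ 3 * X 1 ^ 1) +
    C (3 * c3 * r2 - 3 * c2 * r3) * (X 0 ^ 4 * X 1 ^ 0) := by
  simp [br, map_ofNat]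
  ring

/-- The two top coefficients vanish in the limit. -/
theorem core {k : Type} [Field k] [CharZero k] [IsDomain A] (φ : A →+* k)
    (hu : ∀ a, φ a ≠ 0 → IsUnit a) {ρ : A} (hρ : ρ ≠ 0) {M N b : R2 A} (dM : DL 4 M) (dN : DL 4 N)
    (h : br M N = C ρ * b) (m1 : HC.co 1 0 M = 1) (m2 : HC.co 0 1 M = 0) (n1 : HC.co 1 0 N = 0)
    (rM : DL 2 (map φ M)) (rN : DL 3 (map φ N)) (nu : φ (HC.co 2 0 N) ≠ 0) :
    φ (HC.co 0 4 b) = 0 ∧ φ (HC.co 1 3 b) = 0 := by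
  rw [DL4_eq dM, DL4_eq dN, m1, m2, n1, br_eq] at h
  have E := fun i j => congrArg (HC.co i j) h
  simp only [co_add, co_C_mul, co_mon] at E
  have zM : ∀ i j, 2 ≤ i + j → φ (HC.co i j M) = 0 := fun i j h => by
    rw [← co_map]; exact co_of_DL rM h
  have zN : ∀ i j, 3 ≤ i + j → φ (HC.co i j N) = 0 := fun i j h => by
    rw [← co_map]; exact co_of_DL rN h
  exact alg φ hu hρ (fun i j => HC.co i j b) (by simpa using E 0 0) (by simpa using E 0 1)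
    (by simpa using E 1 0) (by simpa using E 0 2) (by simpa using E 1 1) (by simpa using E 2 0)
    (by simpa using E 0 3) (by simpa using E 1 2) (by simpa using E 2 1) (by simpa using E 3 0)
    (by simpa using E 0 4) (by simpa using E 1 3) (by simpa using E 2 2) (zM 1 1 le_rfl)
    (zM 1 2 (by omega)) (zM 2 1 (by omega)) (zN 1 2 le_rfl) (zN 2 1 le_rfl) (zN 3 0 le_rfl) nu

end Ring

section Field
variable {k : Type} [Field k] [CharZero k] {f : R2 k}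

theorem br_comb {A : Type} [CommRing A] (p a b : A) (u v g : R2 A) :
    br (C p + C a * u + C b * v) g = C a * br u g + C b * br v g := by
  simp only [br, map_add, pderiv_C, pderiv_C_mul]; ring

/-- A cubic whose bracket with `f` has degree at most four is affine. -/
theorem affine (hf : DL 6 f) (hC : CI (hc 4 (pderiv 0 f)) (hc 4 (pderiv 1 f))) {M : R2 k}
    (dM : DL 4 M) (h : DL 5 (br M f)) : DL 2 M := by
  obtain ⟨U, V, dU, dV, h⟩ := kos_top (e := 3) (n := 1) (hf.pderiv 0) (hf.pderiv 1) hC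
    (-pderiv 1 M) (pderiv 0 M) (by
      rwa [show -pderiv 1 M * pderiv 0 f + pderiv 0 M * pderiv 1 f = br M f by rw [br]; ring])
  obtain ⟨h1, h2⟩ := kos_zero (e := 3) (k := 3) (hf.pderiv 0) (hf.pderiv 1) hC (by omega)
    ((dU.mono (by omega)).add (dM.pderiv 1)) ((dV.mono (by omega)).sub (dM.pderiv 0))
    (by linear_combination h)
  have x1 : DL 1 (pderiv 0 M) := sub_eq_zero.1 h2 ▸ dV
  have y1 : DL 1 (pderiv 1 M) := by
    rw [show pderiv 1 M = -U by linear_combination h1]; exact dU.neg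
  have z : ∀ n, hc (n + 2) M = 0 := fun n => by
    have := euler (hc_hom (n + 2) M)
    rw [← hc_pderiv, ← hc_pderiv, x1.hc_eq (by omega), y1.hc_eq (by omega), mul_zero, mul_zero,
      add_zero] at this
    exact (mul_eq_zero.1 this.symm).resolve_left (Nat.cast_ne_zero.2 (by omega))
  exact (dM.pred (z 1)).pred (z 0)

theorem eigen [IsAlgClosed k] (q1 r1 q2 r2 : k) : ∃ α β γ δ μ : k, α * δ - β * γ = 1 ∧
    α * q1 + β * q2 = μ * α ∧ α * r1 + β * r2 = μ * β := by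
  by_cases h : r1 = 0
  · exact ⟨1, 0, 0, 1, q1, by ring, by ring, by rw [h]; ring⟩
  · obtain ⟨s, hs⟩ := IsAlgClosed.exists_pow_nat_eq ((q1 - r2) ^ 2 + 4 * q2 * r1) two_pos
    exact ⟨(q1 + r2 + s) / 2 - r2, r1, -r1⁻¹, 0, (q1 + r2 + s) / 2, by field_simp; ring,
      by linear_combination (-1 / 4) * hs, by ring⟩

/-- The limit of the pencil is spanned by a linear form and its square. -/
theorem tri [IsAlgClosed k] (hf : DL 6 f) (hC : CI (hc 4 (pderiv 0 f)) (hc 4 (pderiv 1 f)))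
    (hI : ∀ g h, g ≠ 0 → DL 4 g → br g f = h * g → DL 1 g) {v1 v2 b : R2 k} (d1 : DL 4 v1)
    (d2 : DL 4 v2) (z1 : coeff 0 v1 = 0) (z2 : coeff 0 v2 = 0)
    (hi : ∀ a c : k, C a * v1 + C c * v2 = 0 → a = 0 ∧ c = 0) (db : DL 5 b) {p1 q1 r1 p2 q2 r2 : k}
    (h1 : br v1 f = (C p1 + C q1 * v1 + C r1 * v2) * b)
    (h2 : br v2 f = (C p2 + C q2 * v1 + C r2 * v2) * b) :
    ∃ α β γ δ c A B s e : k, α * δ - β * γ = 1 ∧ e ≠ 0 ∧ ¬ (A = 0 ∧ B = 0) ∧
      C α * v1 + C β * v2 = HC.lf A B ∧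
      C γ * v1 + C δ * v2 = C s * HC.lf A B + C e * HC.lf A B ^ 2 ∧ C c * b = br (HC.lf A B) f := by
  have ic : ∀ g h, DL 4 g → br g f = h * g → g = C (coeff 0 g) := fun g h dg hg => by
    by_cases g0 : g = 0
    · rw [g0, coeff_zero, map_zero]
    · exact DL1_eq (hI g h g0 dg hg)
  have dc : ∀ p a c : k, DL 4 (C p + C a * v1 + C c * v2) := fun p a c =>
    (((DL_C p).mono (by omega)).add (d1.C_mul a)).add (d2.C_mul c)
  have ic2 : ∀ (p a c : k) h, C a * br v1 f + C c * br v2 f = h * (C p + C a * v1 + C c * v2) →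
      a = 0 ∧ c = 0 := fun p a c h hg => hi a c (by
    have := ic _ h (dc p a c) (by rwa [br_comb])
    rw [coeff_add, coeff_add, coeff_C_mul, coeff_C_mul, z1, z2, coeff_zero_C, mul_zero, mul_zero,
      add_zero, add_zero] at this
    linear_combination this)
  obtain ⟨α, β, γ, δ, μ, hd, ea, eb⟩ := eigen q1 r1 q2 r2
  have n0 : ¬ (α = 0 ∧ β = 0) := fun h => by
    rw [h.1, h.2, zero_mul, zero_mul, sub_zero] at hd
    exact zero_ne_one hd
  have hd' := congrArg (C : k → R2 k) hd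
  have ea' := congrArg (C : k → R2 k) ea
  have eb' := congrArg (C : k → R2 k) eb
  simp only [map_add, map_sub, map_mul, map_one] at hd' ea' eb'
  have m0 : μ = 0 := by
    by_contra hm
    obtain ⟨x, y⟩ := ic2 (α * p1 + β * p2) (μ * α) (μ * β) (C μ * b) (by
      rw [h1, h2]
      simp only [map_add, map_mul]
      linear_combination C μ * b * (v1 * ea' + v2 * eb'))
    exact n0 ⟨(mul_eq_zero.1 x).resolve_left hm, (mul_eq_zero.1 y).resolve_left hm⟩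
  rw [m0, map_zero, zero_mul] at ea' eb'
  have e1 : C α * br v1 f + C β * br v2 f = C (α * p1 + β * p2) * b := by
    rw [h1, h2]
    simp only [map_add, map_mul]
    linear_combination b * (v1 * ea' + v2 * eb')
  have c0 : α * p1 + β * p2 ≠ 0 := fun h =>
    n0 (ic2 0 α β 0 (by rw [e1, h, map_zero, zero_mul, zero_mul]))
  generalize α * p1 + β * p2 = c at e1 c0
  have dl := affine hf hC (dc 0 α β) (by rw [br_comb, e1]; exact db.C_mul c)
  have el := DL2_eq dl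
  rw [coeff_add, coeff_add, coeff_C_mul, coeff_C_mul, z1, z2, coeff_zero_C, mul_zero, mul_zero,
    add_zero, add_zero] at el
  generalize HC.co 1 0 (C 0 + C α * v1 + C β * v2) = A at el
  generalize HC.co 0 1 (C 0 + C α * v1 + C β * v2) = B at el
  rw [map_zero, zero_add, zero_add] at el
  have bl : br (HC.lf A B) f = C c * b := by
    rw [← e1, ← br_comb 0, map_zero, zero_add, el]
  obtain ⟨s, ν, es, en⟩ : ∃ s ν : k, γ * q1 + δ * q2 = s * α + ν * γ ∧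
      γ * r1 + δ * r2 = s * β + ν * δ :=
    ⟨(γ * q1 + δ * q2) * δ - (γ * r1 + δ * r2) * γ, (γ * r1 + δ * r2) * α - (γ * q1 + δ * q2) * β,
      by linear_combination -(γ * q1 + δ * q2) * hd, by linear_combination -(γ * r1 + δ * r2) * hd⟩
  have es' := congrArg (C : k → R2 k) es
  have en' := congrArg (C : k → R2 k) en
  simp only [map_add, map_mul] at es' en'
  have e2 : C γ * br v1 f + C δ * br v2 f = (C (γ * p1 + δ * p2) + C s * (C α * v1 + C β * v2) +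
      C ν * (C γ * v1 + C δ * v2)) * b := by
    rw [h1, h2]
    simp only [map_add, map_mul]
    linear_combination b * (v1 * es' + v2 * en')
  generalize γ * p1 + δ * p2 = c1 at e2
  have n1 : ν = 0 := by
    by_contra hn
    have hn' : (C ν * C ν⁻¹ : R2 k) = 1 := by rw [← map_mul, mul_inv_cancel₀ hn, map_one]
    obtain ⟨x, y⟩ := ic2 (ν⁻¹ * s * c + c1) (s * α + ν * γ) (s * β + ν * δ) (C ν * b) (by
      simp only [map_add, map_mul]
      linear_combination C s * e1 + C ν * e2 - C s * C c * b * hn')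
    exact hn (by linear_combination α * y - β * x - ν * hd)
  rw [n1, map_zero, zero_mul, add_zero, el] at e2
  have ci : (C c * C c⁻¹ : R2 k) = 1 := by rw [← map_mul, mul_inv_cancel₀ c0, map_one]
  have i2 : (2 * C (2⁻¹ : k) : R2 k) = 1 := by
    rw [← map_ofNat C, ← map_mul, mul_inv_cancel₀ two_ne_zero, map_one]
  have q0 : coeff 0 (HC.lf A B) = 0 := (lf_hom A B).coeff_eq_zero (by simp)
  have q2 : coeff 0 (HC.lf A B ^ 2) = 0 := ((lf_hom A B).pow 2).coeff_eq_zero (by simp)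
  have e3 := ic (C 0 + C γ * v1 + C δ * v2 -
      (C (c1 * c⁻¹) * HC.lf A B + C (s * c⁻¹ * 2⁻¹) * HC.lf A B ^ 2)) 0
    ((dc 0 γ δ).sub ((((DL_lf A B).mono (by omega)).C_mul _).add
      ((((DL_lf A B).pow 2).mono (by omega)).C_mul _))) (by
      have : ∀ (g l : R2 k) (x y : k), br (g - (C x * l + C y * l ^ 2)) f =
          br g f - (C x + 2 * C y * l) * br l f := fun g l x y => by
        simp only [br, map_add, map_sub, pderiv_C_mul, pderiv_pow]; push_cast; ring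
      rw [this, br_comb, e2, bl]
      simp only [map_mul]
      linear_combination -(C c1 + C s * HC.lf A B) * b * ci -
        C s * C c⁻¹ * C c * HC.lf A B * b * i2)
  rw [coeff_sub, coeff_add, coeff_add, coeff_add, coeff_C_mul, coeff_C_mul, coeff_C_mul,
    coeff_C_mul, z1, z2, q0, q2, coeff_zero_C] at e3
  simp only [mul_zero, add_zero, sub_zero, map_zero, zero_add] at e3
  refine ⟨α, β, γ, δ, c, A, B, c1 * c⁻¹, s * c⁻¹ * 2⁻¹, hd, fun h => ?_, fun h => n0 (hi _ _ ?_),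
    el, sub_eq_zero.1 e3, bl.symm⟩
  · rw [h, map_zero, zero_mul, add_zero, ← el] at e3
    obtain ⟨x, y⟩ := hi (γ - c1 * c⁻¹ * α) (δ - c1 * c⁻¹ * β) (by
      rw [map_sub, map_sub, map_mul _ _ α, map_mul _ _ β]; linear_combination e3)
    exact zero_ne_one (by linear_combination hd - α * y + β * x : (0 : k) = 1)
  · rw [el, h.1, h.2, HC.lf, map_zero, zero_mul, zero_mul, add_zero]

end Field

/-- The form is a pull-back of a vector field of degree one by `(m, n)`, up to the factor `b`. -/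
def Sy {A : Type} [CommRing A] (w : Fm A) (m n b : R2 A) : Prop := ∃ p1 q1 r1 p2 q2 r2 : A,
  wg (d1 m) w = (C p1 + C q1 * m + C r1 * n) * b ∧ wg (d1 n) w = (C p2 + C q2 * m + C r2 * n) * b

theorem Sy.change {K : Type} [Field K] {w : Fm K} {m n u v : R2 K} {p a c q e g : K}
    (h : Sy w m n (br m n)) (h0 : br m n ≠ 0) (hm : m = C p + C a * u + C c * v)
    (hn : n = C q + C e * u + C g * v) : br u v ≠ 0 ∧ Sy w u v (br u v) := by
  have eb : br m n = (C a * C g - C c * C e) * br u v := by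
    rw [hm, hn]; simp only [br, map_add, pderiv_C, pderiv_C_mul]; ring
  rw [eb] at h h0
  obtain ⟨p1, q1, r1, p2, q2, r2, h1, h2⟩ := h
  have ew : ∀ x y z : K, wg (d1 (C x + C y * u + C z * v)) w =
      C y * wg (d1 u) w + C z * wg (d1 v) w := fun x y z => by
    rw [d1_add, d1_add, d1_C, zero_add, d1_C_mul, d1_C_mul, wg_add, wg_smul, wg_smul]
  rw [hm, hn, ew] at h1 h2
  refine ⟨right_ne_zero_of_mul h0, g * (p1 + q1 * p + r1 * q) - c * (p2 + q2 * p + r2 * q),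
    g * (q1 * a + r1 * e) - c * (q2 * a + r2 * e), g * (q1 * c + r1 * g) - c * (q2 * c + r2 * g),
    a * (p2 + q2 * p + r2 * q) - e * (p1 + q1 * p + r1 * q),
    a * (q2 * a + r2 * e) - e * (q1 * a + r1 * e), a * (q2 * c + r2 * g) - e * (q1 * c + r1 * g),
    mul_left_cancel₀ (left_ne_zero_of_mul h0) ?_, mul_left_cancel₀ (left_ne_zero_of_mul h0) ?_⟩
  · simp only [map_add, map_sub, map_mul]; linear_combination C g * h1 - C c * h2
  · simp only [map_add, map_sub, map_mul]; linear_combination C a * h2 - C e * h1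

variable {k : Type} [Field k] {w : Fm k⟦X⟧}

/-- An integral basis of the pencil. -/
theorem basis (h0 : dv w ≠ 0) (h : Pb 3 (mapF (coeL k) w)) : ∃ u v : R2 k⟦X⟧, DL 4 u ∧ DL 4 v ∧
    coeff 0 u = 0 ∧ coeff 0 v = 0 ∧
    (∀ a c : k, C a * map cc u + C c * map cc v = 0 → a = 0 ∧ c = 0) ∧ br u v ≠ 0 ∧
    Sy (mapF (coeL k) w) (map (coeL k) u) (map (coeL k) v) (map (coeL k) (br u v)) := by
  obtain ⟨m, n, a0, a1, a2, b0, b1, b2, dm, dn, h⟩ := h
  have hb : br m n ≠ 0 := fun e => h0 (map_injective _ coeL_inj (by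
    rw [map_dv, h, dv_add, dv_fm, dv_fm, br_comb, br_comb, map_zero]
    simp only [br] at e ⊢
    linear_combination (C b1 - C a2) * e))
  have hS : Sy (mapF (coeL k) w) m n (br m n) := ⟨b0, b1, b2, -a0, -a1, -a2,
    by rw [h]; simp only [wg, d1, fm, br, Prod.fst_add, Prod.snd_add]; ring,
    by rw [h]; simp only [wg, d1, fm, br, map_neg, Prod.fst_add, Prod.snd_add]; ring⟩
  have hi : LinearIndependent k⸨X⸩ ![m - C (coeff 0 m), n - C (coeff 0 n)] := by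
    rw [LinearIndependent.pair_iff]
    intro s t hst
    rw [smul_eq_C_mul, smul_eq_C_mul] at hst
    have x := congrArg (pderiv 0) hst
    have y := congrArg (pderiv 1) hst
    simp only [map_add, map_sub, pderiv_C_mul, pderiv_C, map_zero, sub_zero] at x y
    exact ⟨C_eq_zero.1 ((mul_eq_zero.1 (by
        rw [br]; linear_combination pderiv 1 n * x - pderiv 0 n * y)).resolve_right hb),
      C_eq_zero.1 ((mul_eq_zero.1 (by
        rw [br]; linear_combination pderiv 0 m * y - pderiv 1 m * x)).resolve_right hb)⟩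
  have hr : Module.finrank k⸨X⸩ (Submodule.span k⸨X⸩
      (Set.range ![m - C (coeff 0 m), n - C (coeff 0 n)])) = 2 := finrank_span_eq_card hi
  have hle : Submodule.span k⸨X⸩ (Set.range ![m - C (coeff 0 m), n - C (coeff 0 n)]) ≤
      dl k⸨X⸩ 4 ⊓ LinearMap.ker (lcoeff k⸨X⸩ 0) := Submodule.span_le.2 (by
    rintro _ ⟨i, rfl⟩
    fin_cases i
    · exact ⟨dm.sub ((DL_C _).mono (by omega)), by simp⟩
    · exact ⟨dn.sub ((DL_C _).mono (by omega)), by simp⟩)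
  have : Module.Finite k⸨X⸩ (Submodule.span k⸨X⸩
      (Set.range ![m - C (coeff 0 m), n - C (coeff 0 n)])) :=
    Module.Finite.span_of_finite _ (Set.finite_range _)
  obtain ⟨v, hv, hk⟩ := Up.lattice 2 _ hr.ge
  obtain ⟨c, hc1⟩ := le_span (Up.indK hk) hv hr.le (Submodule.subset_span ⟨0, rfl⟩)
  obtain ⟨c', hc2⟩ := le_span (Up.indK hk) hv hr.le (Submodule.subset_span ⟨1, rfl⟩)
  rw [Fin.sum_univ_two, smul_eq_C_mul, smul_eq_C_mul] at hc1 hc2
  have hc1 : m - C (coeff 0 m) = _ := hc1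
  have hc2 : n - C (coeff 0 n) = _ := hc2
  obtain ⟨k1, k2⟩ := hS.change hb ((sub_eq_iff_eq_add'.1 hc1).trans (add_assoc _ _ _).symm)
    ((sub_eq_iff_eq_add'.1 hc2).trans (add_assoc _ _ _).symm)
  have z : ∀ i, coeff 0 (v i) = 0 := fun i => coeL_inj (by
    rw [← coeff_map, map_zero]; exact (hle (hv i)).2)
  rw [← map_br] at k1 k2
  refine ⟨v 0, v 1, DL_of_coe (hle (hv 0)).1, DL_of_coe (hle (hv 1)).1, z 0, z 1,
    fun a c hac => ?_, fun e => k1 (by rw [e, map_zero]), k2⟩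
  have := Fintype.linearIndependent_iff.1 hk ![a, c] (by
    rw [Fin.sum_univ_two, smul_eq_C_mul, smul_eq_C_mul]; exact hac)
  exact ⟨this 0, this 1⟩

/-- The cofactors are integral. -/
theorem integral {u v b z : R2 k⟦X⟧} (z1 : coeff 0 u = 0) (z2 : coeff 0 v = 0)
    (hi : ∀ a c : k, C a * map cc u + C c * map cc v = 0 → a = 0 ∧ c = 0) (hb : map cc b ≠ 0)
    {ε : k⟦X⟧} {p q r : k⸨X⸩} (h : map (coeL k) z =
      (C p + C q * map (coeL k) u + C r * map (coeL k) v) * map (coeL k) (C ε * b)) :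
    ∃ p q r : k, map cc z = (C p + C q * map cc u + C r * map cc v) * map cc b := by
  by_cases h0 : ![p * coeL k ε, q * coeL k ε, r * coeL k ε] = 0
  · have e0 := congrArg (C : _ → R2 k⸨X⸩) (show p * coeL k ε = 0 from congrFun h0 0)
    have e1 := congrArg (C : _ → R2 k⸨X⸩) (show q * coeL k ε = 0 from congrFun h0 1)
    have e2 := congrArg (C : _ → R2 k⸨X⸩) (show r * coeL k ε = 0 from congrFun h0 2)
    have : z = 0 := map_injective _ coeL_inj (by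
      simp only [map_mul, map_C, map_zero] at h e0 e1 e2 ⊢
      linear_combination h + map (coeL k) b * (e0 + map (coeL k) u * e1 + map (coeL k) v * e2))
    exact ⟨0, 0, 0, by simp [this]⟩
  obtain ⟨s, y, -, hy, i, hi'⟩ := prim_fun _ h0
  have e0 := congrArg (C : _ → R2 k⸨X⸩) (show p * coeL k ε = _ from hy 0)
  have e1 := congrArg (C : _ → R2 k⸨X⸩) (show q * coeL k ε = _ from hy 1)
  have e2 := congrArg (C : _ → R2 k⸨X⸩) (show r * coeL k ε = _ from hy 2)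
  obtain ⟨a, -, ha⟩ := int_of_prim (u := z) (r := s) (v := (C (y 0) + C (y 1) * u + C (y 2) * v) * b)
    (by
      rw [map_mul]
      refine mul_ne_zero (fun e => hi' ?_) hb
      simp only [map_add, map_mul, map_C] at e
      have y0 := congrArg (coeff 0) e
      rw [coeff_add, coeff_add, coeff_C_mul, coeff_C_mul, coeff_map, coeff_map, z1, z2,
        coeff_zero_C, map_zero, mul_zero, mul_zero, add_zero, add_zero, coeff_zero] at y0
      rw [y0, map_zero, zero_add] at e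
      obtain ⟨y1, y2⟩ := hi _ _ e
      fin_cases i
      exacts [y0, y1, y2])
    (by
      simp only [map_add, map_mul, map_C] at h e0 e1 e2 ⊢
      linear_combination h + map (coeL k) b * (e0 + map (coeL k) u * e1 + map (coeL k) v * e2))
  exact ⟨cc a * cc (y 0), cc a * cc (y 1), cc a * cc (y 2), by
    rw [ha]; simp only [map_add, map_mul, map_C]; ring⟩

/-- A pencil that tends to a linear form and its square forces a double root at infinity. -/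
theorem double [CharZero k] {f : R2 k} (hC : CI (hc 4 (pderiv 0 f)) (hc 4 (pderiv 1 f)))
    {M N b : R2 k⟦X⟧} {ρ : k⟦X⟧} (hρ : ρ ≠ 0) (dM : DL 4 M) (dN : DL 4 N) (h : br M N = C ρ * b)
    {c A B s e : k} (he : e ≠ 0) (hAB : ¬ (A = 0 ∧ B = 0)) (rM : map cc M = HC.lf A B)
    (rN : map cc N = C s * HC.lf A B + C e * HC.lf A B ^ 2)
    (rb : C c * map cc b = br (HC.lf A B) f) : False := by
  have c10 : ∀ {R : Type} [CommRing R] (x y : R), HC.co 1 0 (HC.lf x y) = x := fun x y => by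
    rw [HC.lf, co_add, co_C_mul, co_C_mul, ← mul_one (X 0), ← mul_one (X 1), co_X1', co_X0 0 0]
    simp [HC.co]
  have c01 : ∀ {R : Type} [CommRing R] (x y : R), HC.co 0 1 (HC.lf x y) = y := fun x y => by
    rw [HC.lf, co_add, co_C_mul, co_C_mul, ← mul_one (X 0), ← mul_one (X 1), co_X0', co_X1 0 0]
    simp [HC.co]
  have eA : cc (HC.co 1 0 M) = A := by rw [← co_map, rM, c10]
  have eB : cc (HC.co 0 1 M) = B := by rw [← co_map, rM, c01]
  have e1 := hom1_eq (hc_hom 1 M)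
  rw [co_hc 1 0, co_hc 0 1] at e1
  generalize HC.co 1 0 M = a at eA e1
  generalize HC.co 0 1 M = a' at eB e1
  obtain ⟨p, q, hpq⟩ : ∃ p q, p * a - -a' * q = 1 := by
    by_cases hA : A = 0
    · obtain ⟨j, hj⟩ := (unit_iff.2 (eB ▸ fun h => hAB ⟨hA, h⟩ : cc a' ≠ 0)).exists_right_inv
      exact ⟨0, j, by linear_combination hj⟩
    · obtain ⟨j, hj⟩ := (unit_iff.2 (eA ▸ hA : cc a ≠ 0)).exists_right_inv
      exact ⟨j, 0, by linear_combination hj⟩
  have hk := congrArg (cc : k⟦X⟧ →+* k) hpq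
  rw [map_sub, map_mul, map_mul, map_one] at hk
  have l1 : hc 1 (lin p (-a') q a M) = HC.lf 1 0 := by
    rw [hc_lin, e1, lin_lf]; congr 1
    · linear_combination hpq
    · ring
  have l2 : lin (cc p) (cc (-a')) (cc q) (cc a) (HC.lf A B) = X 0 := by
    rw [lin_lf, ← eA, ← eB, show cc a * cc p + cc a' * cc q = 1 by
      rw [map_neg] at hk; linear_combination hk, show cc a * cc (-a') + cc a' * cc a = 0 by
      rw [map_neg]; ring]
    simp [HC.lf]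
  have m1 : HC.co 1 0 (lin p (-a') q a M) = 1 := by rw [← co_hc 1 0, l1, c10]
  have m2 : HC.co 0 1 (lin p (-a') q a M) = 0 := by rw [← co_hc 0 1, l1, c01]
  have r1 : map cc (lin p (-a') q a M) = X 0 := by rw [map_lin, rM, l2]
  have r2 : map cc (lin p (-a') q a N) = C s * X 0 + C e * X 0 ^ 2 := by
    rw [map_lin, rN, map_add, map_mul, map_mul, map_pow, l2, lin_C, lin_C]
  obtain ⟨z1, z2⟩ := core (cc : k⟦X⟧ →+* k) (fun _ => unit_iff.2) hρ
    (N := lin p (-a') q a N - C (HC.co 1 0 (lin p (-a') q a N)) * lin p (-a') q a M)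
    (b := lin p (-a') q a b) (lin_DL dM) ((lin_DL dN).sub ((lin_DL dM).C_mul _))
    (by
      rw [← lin_C (a := p) (b := -a') (c := q) (e := a) ρ, ← map_mul, ← h, ← br_lin hpq]
      simp only [br, map_sub, pderiv_C_mul]; ring)
    m1 m2 (by rw [co_sub, co_C_mul, m1, mul_one, sub_self]) (r1 ▸ DL_X 0)
    (by
      rw [map_sub, map_mul, map_C, r1, r2]
      exact ((((DL_X 0).mono (by omega)).C_mul _).add (((DL_X 0).pow 2).C_mul _)).sub
        (((DL_X 0).mono (by omega)).C_mul _))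
    (by
      rw [← co_map, map_sub, map_mul, map_C, r1, r2, co_sub, co_add, co_C_mul, co_C_mul, co_C_mul,
        co_hom (isHomogeneous_X k 0) (by omega), ← mul_one (X 0 ^ 2), ← pow_zero (X 1), co_mon]
      simpa using he)
  rw [← co_map, map_lin] at z1 z2
  have rb' := congrArg (lin (cc p) (cc (-a')) (cc q) (cc a)) rb
  rw [map_mul, lin_C, ← br_lin hk, l2] at rb'
  rw [hc_pderiv, hc_pderiv] at hC
  obtain ⟨n, -, hn⟩ := hC.lin hk
  rw [← hc_lin] at hn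
  generalize lin (cc p) (cc (-a')) (cc q) (cc a) f = g at rb' hn
  have eg : br (X 0) g = pderiv 1 g := by simp [br]
  have y1 := congrArg (HC.co 0 4) rb'
  have y2 := congrArg (HC.co 1 3) rb'
  rw [co_C_mul, z1, mul_zero, eg] at y1
  rw [co_C_mul, z2, mul_zero, eg, co_y] at y2
  obtain ⟨U, V, hUV⟩ := Ideal.mem_span_pair.1 hn
  have := congrArg (eval ![0, 1]) hUV
  rw [map_add, map_mul, map_mul, ← hc_pderiv, ← hc_pderiv, eval_01 (hc_hom 4 _),
    eval_01 (hc_hom 4 _), co_hc 0 4, co_hc 0 4, ← y1, co_x,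
    (mul_eq_zero.1 y2.symm).resolve_right (by norm_num)] at this
  simp at this

end Ex33

open Ex33 in
/-- An arc through `df`, `deg f = 5`, is not a pull-back of a linear form by two cubics. -/
theorem ex33 {k : Type} [Field k] [CharZero k] [IsAlgClosed k] {f : R2 k} {w : Fm k⟦X⟧}
    (hf : DL 6 f) (hC : CI (hc 4 (pderiv 0 f)) (hc 4 (pderiv 1 f)))
    (hI : ∀ g h, g ≠ 0 → DL 4 g → br g f = h * g → DL 1 g) (hw : mapF cc w = d1 f)
    (h0 : dv w ≠ 0) : ¬ Pb 3 (mapF (coeL k) w) := fun h => by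
  obtain ⟨u, v, du, dv', z1, z2, hi, hb, p1, q1, r1, p2, q2, r2, h1, h2⟩ := basis h0 h
  obtain ⟨ε, b, eb, nb⟩ := content (cc : k⟦X⟧ →+* k) (br u v)
  have ε0 : ε ≠ 0 := fun h => hb (by rw [eb, h, map_zero, zero_mul])
  rw [← mapF_d1, ← map_wg, eb] at h1 h2
  obtain ⟨p1, q1, r1, h1⟩ := integral z1 z2 hi nb h1
  obtain ⟨p2, q2, r2, h2⟩ := integral z1 z2 hi nb h2
  rw [map_wg, mapF_d1, hw, wg_d1_d1] at h1 h2
  have db : DL 5 b := DL.of_C_mul ε0 (eb ▸ ((du.pderiv 0).mul (dv'.pderiv 1)).sub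
    ((du.pderiv 1).mul (dv'.pderiv 0)))
  obtain ⟨α, β, γ, δ, c, A, B, s, e, hd, he, hAB, e1, e2, e3⟩ := Ex33.tri hf hC hI (du.map _)
    (dv'.map _) (by rw [coeff_map, z1, map_zero]) (by rw [coeff_map, z2, map_zero]) hi (db.map _)
    h1 h2
  have hd' := congrArg (fun x => (C (PowerSeries.C x) : R2 k⟦X⟧)) hd
  simp only [map_sub, map_mul, map_one] at hd'
  exact double hC ε0 (M := C (PowerSeries.C α) * u + C (PowerSeries.C β) * v)
    (N := C (PowerSeries.C γ) * u + C (PowerSeries.C δ) * v) ((du.C_mul _).add (dv'.C_mul _))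
    ((du.C_mul _).add (dv'.C_mul _))
    (by rw [← eb]; simp only [br, map_add, pderiv_C_mul]
        linear_combination (pderiv 0 u * pderiv 1 v - pderiv 1 u * pderiv 0 v) * hd')
    he hAB (by simpa using e1) (by simpa using e2) e3

end Pool.Agent.MP_05b4bd_ag.PC3
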