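import Pool.Agent.MP_05b4bd_ag.um.Cfl
import Pool.Agent.MP_05b4bd_ag.pc3.Asm
import Pool.Agent.MP_05b4bd_ag.um.P6
import Pool.Agent.MP_05b4bd_ag.um.Ex33

/-! Arcs of centres through `df` lie in one of the families, in every degree. -/

namespace Pool.Agent.MP_05b4bd_ag.UM

open MvPolynomial HC
open ES hiding Gen GenTopStmt GenJacStmt Ob EscStmt3
open ES.U
open PC3 hiding Arc SeqStmt IcStmt UpStmt LoStmt CenStmt CflStmt
open PC3.U
open scoped PowerSeries LaurentSeries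

theorem coreU (seq : SeqStmt) (ic : IcdStmt) (nc6 : Nc6Stmt) (cen : CenStmt) (cfl : CflStmt)
    (par : ParStmt) : CoreStmt := by
  intro k _ _ _ d f w p h3 A hc Ω _ _ _ ψ
  have : CharZero k⸨X⸩ := charZero_of_injective_ringHom (cL_inj (R := k))
  have ic' : PC3.U.IcStmt := fun k _ _ _ d f g h hd hf g0 hg he =>
    ic k d f g h hd hf.2.2.1 g0 (hg.mono hd) he
  obtain ⟨e, rfl⟩ : ∃ e, d = e + 1 + 1 := ⟨d - 2, by omega⟩
  have hT : TM (e + 2) f := A.gen.2.2.1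
  have rp : IsRelPrime (pderiv 0 f) (pderiv 1 f) := by
    rintro g ⟨u, hu⟩ ⟨v, hv⟩
    exact PC3.Up.unit_of_dvd (e := e) (A.gen.2.1.pderiv 0) (A.gen.2.1.pderiv 1) hT.top
      (hu.trans (mul_comm _ _)) (hv.trans (mul_comm _ _))
  obtain ⟨n0, n1, gs⟩ := ts1S k f w rp A.red (seq k _ f w p h3 A hc)
  obtain ⟨lk, g⟩ := ts2S k w n0 n1 gs
  have LL : Lev (e + 1 + 1) (mapF (coeL k) w) (JK w) :=
    { toLevA := gvS _ _ _ _ _ _ _ _ g
      toLevB := PC3.U.upS ES.U.genTopS ic' k _ f w h3 A lk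
      deg := A.deg.map _
      lo := PC3.U.loS ES.U.genTopS jredS PC3.liftS k _ f w h3 A lk }
  have dg := LL.deg.map ψ
  by_cases hB : dv w = 0
  · obtain ⟨g, h1, h2, h3⟩ := exact_of_div dg.1 dg.2
      (show dv _ = 0 by rw [← map_dv, ← map_dv, hB, map_zero, map_zero])
    exact .inl ⟨g, h1, Prod.ext h2 h3⟩
  have hK : dv (mapF (coeL k) w) ≠ 0 := fun h =>
    hB (map_injective _ coeL_inj (by rw [map_dv, h, map_zero]))
  have o2 : Lim (H2 1 (e + 1 + 1)) (mapF ψ (mapF (coeL k) w)) →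
      Fam (e + 1 + 1) (mapF ψ (mapF (coeL k) w)) := fun h => .inr (.inl h)
  have o3 : Lim (H3 (e + 1 + 1)) (mapF ψ (mapF (coeL k) w)) →
      Fam (e + 1 + 1) (mapF ψ (mapF (coeL k) w)) := fun h => .inr (.inr (.inl h))
  have o4 : Lim (H2 2 (e + 1)) (mapF ψ (mapF (coeL k) w)) →
      Fam (e + 1 + 1) (mapF ψ (mapF (coeL k) w)) := fun h => .inr (.inr (.inr (.inl h)))
  have clo : Clo (mapF (coeL k) w) → Fam (e + 1 + 1) (mapF ψ (mapF (coeL k) w)) := by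
    intro h
    rcases clsS commS _ _ _ _ h3 LL hK h with h | h | ⟨m, c0, c1, h, hm⟩
    · exact o2 (linS Ω _ _ dg (Core3.lin ψ h))
    · exact (affS linS diagS nilS Ω _ _ dg (Core3.aff ψ h)).elim o2 o3
    have oc : TF (e + 1 + 1) (mapF ψ (mapF (coeL k) w)) (map ψ m) (ψ c0) (ψ c1) → _ :=
      fun hf => o4 (cfl Ω _ _ _ _ _ (by omega) (Core3.cn ψ h).1 hf)
    rcases hm with hm | hm
    · exact (cen Ω _ _ _ _ _ h3 dg (Core3.cn ψ h) (Core3.ctr ψ hm)).elim o3 oc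
    · exact (par Ω _ _ _ _ _ h3 dg (Core3.cn ψ h) (Core3.pab ψ hm)).elim oc
        fun hf => .inr (.inr (.inr (.inr hf)))
  by_cases he : e = 1
  · subst he
    exact (det3S ciS commS _ _ _ LL hK).elim clo fun h => o4 (pblS Ω _ _ (Core3.pb ψ h))
  obtain ⟨c1, c2⟩ := (ciS _ _ _ _ h3 LL).2.1 (by omega)
  by_cases hN : Con (mapF (coeL k) w)
  · exact clo (c2 hN)
  obtain rfl | rfl | h6 : e = 2 ∨ e = 3 ∨ 6 ≤ e + 1 + 1 := by omega
  · exact (nc4S kgS pullS _ _ _ LL hK (mt c1 hN) hN).elim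
  · exact absurd (nc5S kgS pullS _ _ _ LL hK (mt c1 hN) hN) (PC3.ex33 hT.dl hT.top
      (fun g h g0 hg he => ic k _ f g h h3 hT g0 (hg.mono (by omega)) he) A.red hB)
  · exact absurd (nc6 _ _ _ _ h6 LL hK (mt c1 hN)) hN

end Pool.Agent.MP_05b4bd_ag.UM
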