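import Pool.Agent.MP_05b4bd_ag.esc.K2b
import Mathlib.LinearAlgebra.Lagrange
import Mathlib.LinearAlgebra.TensorProduct.Map
import Mathlib.LinearAlgebra.Matrix.Determinant.Basic
import Mathlib.LinearAlgebra.Matrix.NonsingularInverse
import Mathlib.LinearAlgebra.Basis.VectorSpace

-- ======== part 0: formerly Pool.Agent.MP_05b4bd_ag.um.SpecA
section MrgPart0

/-! Abstract Brieskorn modules and period models: definitions, basic facts and block statements. -/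

namespace Pool.Agent.MP_05b4bd_ag.UM

open ES Polynomial
open scoped TensorProduct PowerSeries LaurentSeries

noncomputable section

section Abs
variable {k G : Type} [Field k] [AddCommGroup G] [Module k G]

/-- `N` is stable under `T`. -/
def St (T : Module.End k G) (N : Submodule k G) : Prop := ∀ u ∈ N, T u ∈ N

/-- `N` is saturated with respect to `T`. -/
def Sat (T : Module.End k G) (N : Submodule k G) : Prop := ∀ u, T u ∈ N → u ∈ N

/-- Finite generation under `θ`. -/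
def FG (θ : Module.End k G) : Prop :=
  ∃ s : Finset G, ∀ N : Submodule k G, St θ N → (∀ u ∈ s, u ∈ N) → N = ⊤

/-- Contraction of the first factor. -/
def ct (l : G →ₗ[k] k) : G ⊗[k] G →ₗ[k] G := TensorProduct.lift ((LinearMap.lsmul k G).comp l)

theorem ct_tmul (l : G →ₗ[k] k) (u v : G) : ct l (u ⊗ₜ v) = l u • v := by simp [ct]

end Abs

/-- A Brieskorn module with its critical points and the two tensors `J`, `Y`. -/
structure BM (k G : Type) [Field k] [AddCommGroup G] [Module k G] (n : ℕ) where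
  h : Module.End k G
  θ : Module.End k G
  c : Fin n → k
  ev : Fin n → G →ₗ[k] k
  J : G ⊗[k] G
  Y : G ⊗[k] G
  comm : ∀ u, h (θ u) = θ (h u) + θ (θ u)
  fg : FG θ
  inj : Function.Injective θ
  ker : ∀ u, (∀ p, ev p u = 0) ↔ ∃ v, u = θ v
  mul : ∀ p u, ev p (h u) = c p * ev p u
  cinj : Function.Injective c
  rel : h.rTensor G J - h.lTensor G J = θ.rTensor G (J + Y) - θ.lTensor G (J - Y)
  sk : TensorProduct.comm k G G Y = -Y
  J0 : ∀ p, ev p (ct (ev p) J) ≠ 0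
  J1 : ∀ p q, p ≠ q → ev q (ct (ev p) J) = 0

namespace BM
variable {k G : Type} [Field k] [AddCommGroup G] [Module k G] {n : ℕ} (B : BM k G n)

def j (p : Fin n) : G := ct (B.ev p) B.J
def y (p : Fin n) : G := ct (B.ev p) B.Y

/-- No proper saturated submodule. -/
def Irr : Prop := ∀ N : Submodule k G, St B.h N → St B.θ N → Sat B.θ N → N = ⊥ ∨ N = ⊤

theorem ev_θ (p : Fin n) (u : G) : B.ev p (B.θ u) = 0 := (B.ker _).2 ⟨u, rfl⟩ p

theorem j0 (p : Fin n) : B.ev p (B.j p) ≠ 0 := B.J0 p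

theorem j1 {p q : Fin n} (h : p ≠ q) : B.ev q (B.j p) = 0 := B.J1 p q h

theorem jrel (p : Fin n) : B.h (B.j p) - B.c p • B.j p = B.θ (B.j p - B.y p) := by
  have a1 : ∀ (T : Module.End k G) z, ct (B.ev p) (T.lTensor G z) = T (ct (B.ev p) z) :=
    fun T z => by
      induction z using TensorProduct.induction_on with
      | zero => simp
      | tmul u v => simp [ct_tmul]
      | add a b ha hb => simp only [map_add, ha, hb]
  have a2 : ∀ z, ct (B.ev p) (B.h.rTensor G z) = B.c p • ct (B.ev p) z := fun z => by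
    induction z using TensorProduct.induction_on with
    | zero => simp
    | tmul u v => simp [ct_tmul, B.mul, mul_smul]
    | add a b ha hb => simp only [map_add, ha, hb, smul_add]
  have a3 : ∀ z, ct (B.ev p) (B.θ.rTensor G z) = 0 := fun z => by
    induction z using TensorProduct.induction_on with
    | zero => simp
    | tmul u v => simp [ct_tmul, B.ev_θ]
    | add a b ha hb => simp only [map_add, ha, hb, add_zero]
  have h := congrArg (ct (B.ev p)) B.rel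
  rw [map_sub, map_sub, a1, a1, a2, a3, map_sub, zero_sub] at h
  rw [j, y, ← neg_sub, h, neg_neg]

theorem y0 [CharZero k] (p : Fin n) : B.ev p (B.y p) = 0 := by
  have a : ∀ z, B.ev p (ct (B.ev p) (TensorProduct.comm k G G z)) = B.ev p (ct (B.ev p) z) :=
    fun z => by
      induction z using TensorProduct.induction_on with
      | zero => simp
      | tmul u v => simp [ct_tmul, mul_comm]
      | add a b ha hb => simp only [map_add, ha, hb]
  have h := a B.Y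
  rw [B.sk, map_neg, map_neg] at h
  exact (mul_eq_zero.1 (show (2 : k) * B.ev p (B.y p) = 0 by
    rw [y]; linear_combination -h)).resolve_left two_ne_zero

/-- Every element is a combination of the `j p` modulo the image of `θ`. -/
theorem dec (u : G) : ∃ v, u = ∑ p, (B.ev p u / B.ev p (B.j p)) • B.j p + B.θ v := by
  obtain ⟨v, hv⟩ := (B.ker (u - ∑ p, (B.ev p u / B.ev p (B.j p)) • B.j p)).1 fun q => by
    rw [map_sub, map_sum, Finset.sum_eq_single q, map_smul, smul_eq_mul,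
      div_mul_cancel₀ _ (B.j0 q), sub_self]
    · intro p _ h
      rw [map_smul, B.j1 h, smul_zero]
    · simp
  exact ⟨v, by rw [← hv]; abel⟩

/-- A linear map that kills the image of `θ` factors through the evaluations. -/
theorem func {W : Type} [AddCommGroup W] [Module k W] (l : G →ₗ[k] W) (hl : ∀ u, l (B.θ u) = 0) :
    ∃ a : Fin n → W, ∀ u, l u = ∑ p, B.ev p u • a p := by
  refine ⟨fun p => (B.ev p (B.j p))⁻¹ • l (B.j p), fun u => ?_⟩
  obtain ⟨v, hv⟩ := B.dec u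
  conv_lhs => rw [hv]
  simp only [map_add, map_sum, map_smul, hl, add_zero, smul_smul, div_eq_mul_inv]

/-- An eigenfunctional is a multiple of one evaluation. -/
theorem eig (l : G →ₗ[k] k) (hl : ∀ u, l (B.θ u) = 0) {μ : k} (hm : ∀ u, l (B.h u) = μ * l u)
    (h0 : l ≠ 0) : ∃ q a, a ≠ 0 ∧ B.c q = μ ∧ ∀ u, l u = a * B.ev q u := by
  obtain ⟨a, ha⟩ := B.func l hl
  have e : ∀ q, l (B.j q) = B.ev q (B.j q) * a q := fun q => by
    rw [ha, Finset.sum_eq_single q, smul_eq_mul]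
    · intro p _ h
      rw [B.j1 h.symm, zero_smul]
    · simp
  have f : ∀ q, a q ≠ 0 → B.c q = μ := fun q hq => by
    have h := congrArg l (B.jrel q)
    rw [hl, map_sub, map_smul, hm, e, smul_eq_mul, ← sub_mul] at h
    exact (sub_eq_zero.1 ((mul_eq_zero.1 h).resolve_right (mul_ne_zero (B.j0 q) hq))).symm
  obtain ⟨q, hq⟩ : ∃ q, a q ≠ 0 := by
    by_contra h
    push Not at h
    exact h0 (LinearMap.ext fun u => by simp [ha, h])
  refine ⟨q, a q, hq, f q hq, fun u => ?_⟩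
  rw [ha, Finset.sum_eq_single q, smul_eq_mul, mul_comm]
  · intro p _ h
    by_cases hp : a p = 0
    · rw [hp, smul_zero]
    · exact absurd (B.cinj ((f p hp).trans (f q hq).symm)) h
  · simp

theorem ev_aeval (q : k[X]) (p : Fin n) (u : G) :
    B.ev p (aeval B.h q u) = q.eval (B.c p) * B.ev p u := by
  induction q using Polynomial.induction_on generalizing u with
  | C a => simp
  | add a b ha hb => simp only [map_add, LinearMap.add_apply, ha, hb, eval_add, add_mul]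
  | monomial m a h =>
    rw [pow_succ, ← mul_assoc, map_mul, aeval_X, Module.End.mul_apply, h, B.mul,
      eval_mul (q := X), eval_X]
    ring

/-- Interpolation by polynomials in `h`. -/
theorem interp (a : Fin n → k) : ∃ q : k[X], ∀ p, q.eval (B.c p) = a p := by
  classical
  exact ⟨Lagrange.interpolate Finset.univ B.c a, fun p =>
    Lagrange.eval_interpolate_at_node a B.cinj.injOn (Finset.mem_univ p)⟩

/-- The local exponent at a critical point. -/
theorem expo [CharZero k] (p : Fin n) {u v : G} (h : B.h u - B.c p • u = B.θ v) :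
    B.ev p v = B.ev p u := by
  obtain ⟨w, hw⟩ := (B.ker (u - (B.ev p u / B.ev p (B.j p)) • B.j p)).1 fun q => by
    rw [map_sub, map_smul, smul_eq_mul]
    by_cases e : p = q
    · rw [← e, div_mul_cancel₀ _ (B.j0 p), sub_self]
    have h1 := congrArg (B.ev q) h
    rw [B.ev_θ, map_sub, map_smul, B.mul, smul_eq_mul, ← sub_mul] at h1
    rw [B.j1 e, mul_zero, sub_zero]
    exact (mul_eq_zero.1 h1).resolve_left (sub_ne_zero.2 fun e' => e (B.cinj e').symm)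
  obtain ⟨a, ha⟩ : ∃ a, a = B.ev p u / B.ev p (B.j p) := ⟨_, rfl⟩
  rw [← ha] at hw
  have e : u = a • B.j p + B.θ w := by rw [← hw]; abel
  have h3 : v = a • (B.j p - B.y p) + (B.h w - B.c p • w + B.θ w) := B.inj (by
    rw [← h, map_add, map_smul, ← B.jrel]
    conv_lhs => rw [e]
    simp only [map_add, map_smul, map_sub, B.comm, smul_add, smul_sub, smul_comm a]
    abel)
  rw [h3]
  simp only [map_add, map_sub, map_smul, B.y0, B.ev_θ, B.mul, smul_eq_mul, sub_zero, sub_self,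
    add_zero]
  rw [ha, div_mul_cancel₀ _ (B.j0 p)]

theorem aeval_θ (q : k[X]) (u : G) :
    B.h (aeval B.θ q u) = aeval B.θ q (B.h u) + aeval B.θ (X ^ 2 * derivative q) u := by
  induction q using Polynomial.induction_on generalizing u with
  | C a => simp
  | add a b ha hb =>
    simp only [map_add, LinearMap.add_apply, ha, hb, mul_add]; abel
  | monomial m a h =>
    rw [pow_succ X m, ← mul_assoc]
    generalize C a * X ^ m = r at h
    rw [derivative_mul, derivative_X, mul_one, show X ^ 2 * (derivative r * X + r) =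
      X ^ 2 * derivative r * X + r * (X * X) by ring]
    simp only [map_add, map_mul (aeval B.θ) _ X, map_mul (aeval B.θ) r, aeval_X,
      Module.End.mul_apply, LinearMap.add_apply, h, B.comm]
    abel

end BM

/-! ### Laurent series -/

section Lau
variable {k : Type} [Field k] {ι : Type}

/-- The value of `f`: `h = W ^ (-d)`. -/
abbrev hW (k : Type) [Field k] (d : ℕ) : k⸨X⸩ := wL k (-(d : ℤ))

/-- Substitution of `τ` in a polynomial. -/
def ae (τ : k⸨X⸩) : k[X] →+* k⸨X⸩ := eval₂RingHom (cL k) τ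

theorem ae_C (τ : k⸨X⸩) (c : k) : ae τ (C c) = cL k c := eval₂_C _ _
theorem ae_X (τ : k⸨X⸩) : ae τ X = τ := eval₂_X _ _
theorem smul_cL (c : k) (a : k⸨X⸩) : c • a = cL k c * a := HahnSeries.C_mul_eq_smul.symm

/-- `a` is a rational function of `τ`. -/
def InK (τ a : k⸨X⸩) : Prop := ∃ r q : k[X], ae τ q ≠ 0 ∧ a * ae τ q = ae τ r

/-- `a` is a rational function of `τ` that vanishes to order at least `M` at `τ = 0`. -/
def Sz (τ : k⸨X⸩) (M : ℕ) (a : k⸨X⸩) : Prop :=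
  ∃ r q : k[X], q.eval 0 ≠ 0 ∧ a * ae τ q = τ ^ M * ae τ r

/-- `m` is not an exponent of a polynomial in `h`. -/
def Off (d : ℕ) (m : ℤ) : Prop := ∀ j : ℕ, m ≠ -(d * j : ℤ)

/-- The vector of the coefficients of index `m`. -/
def cv (m : ℤ) (v : ι → k⸨X⸩) : ι → k := fun i => (v i).coeff m

theorem coeff_dh (d : ℕ) (a : k⸨X⸩) (m : ℤ) :
    (dh d a).coeff m = -((d : k)⁻¹ * (((m - d : ℤ) : k) * a.coeff (m - d))) := by
  rw [dh, HahnSeries.coeff_neg, mul_assoc, coeff_wL_mul, coeff_cL_mul, coeff_thL]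

/-- The derivation `d / dh`. -/
def dK (k : Type) [Field k] (d : ℕ) : k⸨X⸩ →ₗ[k] k⸨X⸩ where
  toFun := dh d
  map_add' a b := by simp only [dh, map_add]; ring
  map_smul' c a := by
    ext m
    simp only [coeff_dh, HahnSeries.coeff_smul, smul_eq_mul, RingHom.id_apply]; ring

theorem dK_apply (d : ℕ) (a : k⸨X⸩) : dK k d a = dh d a := rfl

theorem dK_mul (d : ℕ) (a b : k⸨X⸩) : dK k d (a * b) = dK k d a * b + a * dK k d b := by
  simp only [dK_apply, dh, isDer_thL a b]; ring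

theorem dK_cL (d : ℕ) (c : k) : dK k d (cL k c) = 0 := by simp [dK_apply, dh, thL_cL]

/-- The derivation on vectors. -/
def dV (k : Type) [Field k] (ι : Type) (d : ℕ) : Module.End k (ι → k⸨X⸩) :=
  LinearMap.pi fun i => (dK k d).comp (LinearMap.proj i)

theorem dV_apply (d : ℕ) (v : ι → k⸨X⸩) (i : ι) : dV k ι d v i = dK k d (v i) := rfl

theorem dV_smul (d : ℕ) (a : k⸨X⸩) (v : ι → k⸨X⸩) :
    dV k ι d (a • v) = dK k d a • v + a • dV k ι d v := funext fun i => dK_mul d a (v i)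

/-- Multiplication by a series, as a linear map. -/
def mV (ι : Type) (a : k⸨X⸩) : Module.End k (ι → k⸨X⸩) where
  toFun v := a • v
  map_add' := smul_add a
  map_smul' c v := funext fun i => by
    simp only [Pi.smul_apply, smul_cL, smul_eq_mul, RingHom.id_apply]; ring

theorem mV_apply (a : k⸨X⸩) (v : ι → k⸨X⸩) : mV ι a v = a • v := rfl

/-- The logarithmic derivation `τ d / dτ`. -/
def vt (ι : Type) (d : ℕ) (τ : k⸨X⸩) : Module.End k (ι → k⸨X⸩) :=
  mV ι (τ / dK k d τ) * dV k ι d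

theorem vt_apply (d : ℕ) (τ : k⸨X⸩) (v : ι → k⸨X⸩) :
    vt ι d τ v = (τ / dK k d τ) • dV k ι d v := rfl

/-- Vectors of order at least `j`. -/
def OrdV (k : Type) [Field k] (ι : Type) (j : ℕ) : Submodule k (ι → k⸨X⸩) where
  carrier := {v | ∀ i m, m < (j : ℤ) → (v i).coeff m = 0}
  zero_mem' _ _ _ := rfl
  add_mem' ha hb i m h := by rw [Pi.add_apply, HahnSeries.coeff_add, ha i m h, hb i m h, add_zero]
  smul_mem' c _ ha i m h := by rw [Pi.smul_apply, HahnSeries.coeff_smul, ha i m h, smul_zero]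

theorem dK_ae (d : ℕ) (τ : k⸨X⸩) (q : k[X]) :
    dK k d (ae τ q) = ae τ (derivative q) * dK k d τ := by
  induction q using Polynomial.induction_on with
  | C a => rw [ae_C, dK_cL, derivative_C, map_zero, zero_mul]
  | add a b ha hb => simp only [map_add, ha, hb, add_mul]
  | monomial m a h =>
    rw [pow_succ, ← mul_assoc, map_mul, dK_mul, h, derivative_mul (g := X), derivative_X, map_add,
      map_mul _ _ X, ae_X, mul_one]
    ring

/-- The field of rational functions of `τ`. -/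
def KK (τ : k⸨X⸩) : Subfield k⸨X⸩ where
  carrier := {a | InK τ a}
  zero_mem' := ⟨0, 1, by simp, by simp⟩
  one_mem' := ⟨1, 1, by simp, by simp⟩
  add_mem' := by
    rintro a b ⟨r, q, h1, h2⟩ ⟨r', q', h1', h2'⟩
    refine ⟨r * q' + r' * q, q * q', by rw [map_mul]; exact mul_ne_zero h1 h1', ?_⟩
    simp only [map_add, map_mul, ← h2, ← h2']; ring
  mul_mem' := by
    rintro a b ⟨r, q, h1, h2⟩ ⟨r', q', h1', h2'⟩
    refine ⟨r * r', q * q', by rw [map_mul]; exact mul_ne_zero h1 h1', ?_⟩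
    simp only [map_mul, ← h2, ← h2']; ring
  neg_mem' := by
    rintro a ⟨r, q, h1, h2⟩
    exact ⟨-r, q, h1, by rw [map_neg, ← h2, neg_mul]⟩
  inv_mem' := by
    rintro a ⟨r, q, h1, h2⟩
    by_cases h : a = 0
    · exact ⟨0, 1, by simp, by simp [h]⟩
    · exact ⟨q, r, h2 ▸ mul_ne_zero h h1, by rw [← h2, inv_mul_cancel_left₀ h]⟩

theorem mem_KK {τ a : k⸨X⸩} : a ∈ KK τ ↔ InK τ a := Iff.rfl

theorem ae_mem (τ : k⸨X⸩) (q : k[X]) : ae τ q ∈ KK τ := ⟨q, 1, by simp, by simp⟩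

theorem cL_mem (τ : k⸨X⸩) (c : k) : cL k c ∈ KK τ := ae_C τ c ▸ ae_mem τ (C c)

theorem self_mem (τ : k⸨X⸩) : τ ∈ KK τ := by simpa only [ae_X] using ae_mem τ X

theorem KK_le {τ τ' : k⸨X⸩} (h : τ ∈ KK τ') : KK τ ≤ KK τ' := by
  have e : ∀ q, ae τ q ∈ KK τ' := fun q => by
    induction q using Polynomial.induction_on with
    | C a => rw [ae_C]; exact cL_mem _ _
    | add a b ha hb => rw [map_add]; exact add_mem ha hb
    | monomial m a hm => rw [pow_succ, ← mul_assoc, map_mul, ae_X]; exact mul_mem hm h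
  rintro a ⟨r, q, h1, h2⟩
  rw [eq_div_of_mul_eq h1 h2]
  exact div_mem (e r) (e q)

theorem map_ae {φ : k⸨X⸩ →+* k⸨X⸩} (h : ∀ c, φ (cL k c) = cL k c) (τ : k⸨X⸩) (q : k[X]) :
    φ (ae τ q) = ae (φ τ) q := by
  induction q using Polynomial.induction_on with
  | C a => rw [ae_C, ae_C, h]
  | add a b ha hb => simp only [map_add, ha, hb]
  | monomial m a hm => rw [pow_succ, ← mul_assoc, map_mul, map_mul, hm, map_mul _ _ X, ae_X, ae_X]

theorem coeff_ah (d : ℕ) (q : k[X]) (m : ℤ) : (ae (hW k d) q).coeff m =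
    ∑ j ∈ q.support, if m = -(d * j : ℤ) then q.coeff j else 0 := by
  conv_lhs => rw [q.as_sum_support_C_mul_X_pow]
  rw [map_sum, HahnSeries.coeff_sum]
  refine Finset.sum_congr rfl fun j _ => ?_
  rw [map_mul, map_pow, ae_C, ae_X, wL_pow, coeff_cL_mul, coeff_wL, mul_ite, mul_one, mul_zero,
    show (j : ℤ) * -(d : ℤ) = -(d * j) by ring]

variable {d : ℕ}

theorem coeff_ah_on (hd : 1 ≤ d) (q : k[X]) (j : ℕ) :
    (ae (hW k d) q).coeff (-(d * j : ℤ)) = q.coeff j := by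
  rw [coeff_ah, Finset.sum_eq_single j, if_pos rfl]
  · intro i _ h
    exact if_neg fun e => h (by
      have := mul_left_cancel₀ (show (d : ℤ) ≠ 0 by omega) (neg_injective e)
      omega)
  · intro h
    rw [if_pos rfl, notMem_support_iff.1 h]

theorem ah_inj (hd : 1 ≤ d) : Function.Injective (ae (hW k d)) := fun a b h =>
  Polynomial.ext fun j => by rw [← coeff_ah_on hd, h, coeff_ah_on hd]

theorem ah_ne (hd : 1 ≤ d) {q : k[X]} (h : q ≠ 0) : ae (hW k d) q ≠ 0 :=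
  (map_ne_zero_iff _ (ah_inj hd)).2 h

theorem t_ne (hd : 1 ≤ d) (b : k) : hW k d - cL k b ≠ 0 := by
  simpa only [map_sub, ae_X, ae_C] using ah_ne hd (X_sub_C_ne_zero b)

theorem pol_iff (hd : 1 ≤ d) (a : k⸨X⸩) :
    (∃ q, a = ae (hW k d) q) ↔ ∀ m, Off d m → a.coeff m = 0 := by
  refine ⟨?_, fun h => ?_⟩
  · rintro ⟨q, rfl⟩ m hm
    rw [coeff_ah]
    exact Finset.sum_eq_zero fun j _ => if_neg (hm j)
  obtain ⟨N, g, hg⟩ := exists_wL_mul a
  refine ⟨∑ j ∈ Finset.range (N + 1), monomial j (a.coeff (-(d * j : ℤ))), ?_⟩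
  ext m
  by_cases hm : Off d m
  · rw [h m hm, coeff_ah]
    exact (Finset.sum_eq_zero fun j _ => if_neg (hm j)).symm
  obtain ⟨j, rfl⟩ : ∃ j : ℕ, m = -(d * j : ℤ) := by simpa only [Off, not_forall, not_not] using hm
  rw [coeff_ah_on hd, finsetSum_coeff, Finset.sum_eq_single j, coeff_monomial, if_pos rfl]
  · intro i _ e
    rw [coeff_monomial, if_neg e]
  · intro e
    rw [coeff_monomial, if_pos rfl, hg, coeff_wL_mul, coeff_coeL_neg]
    rw [Finset.mem_range] at e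
    nlinarith

/-- The leading term at infinity of a polynomial in `h`. -/
theorem ah_lead (hd : 1 ≤ d) {q : k[X]} (h : q ≠ 0) : ∃ u : k⟦X⟧, cc u ≠ 0 ∧
    ae (hW k d) q = wL k (-(d * q.natDegree : ℤ)) * coeL k u := by
  obtain ⟨u, hu⟩ := exists_wL_mul_of_low (f := ae (hW k d) q) (m := -(d * q.natDegree : ℤ))
    fun m hm => by
      rw [coeff_ah]
      refine Finset.sum_eq_zero fun j hj => if_neg fun e => ?_
      have := le_natDegree_of_mem_supp j hj
      nlinarith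
  refine ⟨u, fun e => leadingCoeff_ne_zero.2 h ?_, hu⟩
  rw [leadingCoeff, ← coeff_ah_on hd, hu, coeff_wL_mul, sub_self, ← e,
    ← PowerSeries.coeff_zero_eq_constantCoeff_apply, ← coeff_coeL, Nat.cast_zero]

variable [CharZero k]

theorem dK_hW (hd : 1 ≤ d) : dK k d (hW k d) = 1 := by
  have : (d : k) ≠ 0 := Nat.cast_ne_zero.2 (by omega)
  have e := congrArg (cL k) (inv_mul_cancel₀ this)
  rw [map_mul, map_one, map_natCast] at e
  rw [dK_apply, dh, thL_wL]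
  push_cast
  linear_combination (cL k (d : k)⁻¹ * d) * wL_mul_neg (R := k) d + e

theorem dK_ah (hd : 1 ≤ d) (q : k[X]) : dK k d (ae (hW k d) q) = ae (hW k d) (derivative q) := by
  rw [dK_ae, dK_hW hd, mul_one]

theorem const_dK (hd : 1 ≤ d) {a : k⸨X⸩} (h : dK k d a = 0) : ∃ c, a = cL k c := by
  have : (d : k) ≠ 0 := Nat.cast_ne_zero.2 (by omega)
  rw [dK_apply, dh, neg_eq_zero] at h
  exact const_thL ((mul_eq_zero.1 h).resolve_left (mul_ne_zero (isUnit_wL _).ne_zero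
    ((_root_.map_ne_zero _).2 (inv_ne_zero this))))

theorem dK_mem (hd : 1 ≤ d) {a : k⸨X⸩} (h : a ∈ KK (hW k d)) : dK k d a ∈ KK (hW k d) := by
  obtain ⟨r, q, h1, h2⟩ := id h
  have e := congrArg (dK k d) h2
  rw [dK_mul, dK_ah hd, dK_ah hd] at e
  rw [eq_div_of_mul_eq h1 (eq_sub_of_add_eq e)]
  exact div_mem (sub_mem (ae_mem _ _) (mul_mem h (ae_mem _ _))) (ae_mem _ _)

theorem dphi_ne (hd : 1 ≤ d) {φ : k⸨X⸩ →+* k⸨X⸩} (h : ∀ c, φ (cL k c) = cL k c) :
    dK k d (φ (hW k d)) ≠ 0 := fun e => by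
  obtain ⟨c, hc⟩ := const_dK hd e
  exact t_ne hd c (sub_eq_zero.2 (φ.injective (by rw [hc, h])))

end Lau

/-! ### Period models -/

section Per
variable {k G ι : Type} [Field k] [AddCommGroup G] [Module k G] [Fintype ι] [DecidableEq ι] {n : ℕ}

/-- A period model of a Brieskorn module. -/
structure TD (B : BM k G n) (d : ℕ) (P : G →ₗ[k] ι → k⸨X⸩) (e : ι → G) : Prop where
  d1 : 1 ≤ d
  irr : B.Irr
  Ph : ∀ u, P (B.h u) = hW k d • P u
  Pθ : ∀ u, dV k ι d (P (B.θ u)) = P u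
  span : ∀ u, ∃ q : ι → k[X], u = ∑ i, aeval B.h (q i) (e i)
  det : (Matrix.of fun i j => P (e j) i).det ≠ 0
  two : ∀ v0 : ι → k, ∃ u m, Off d m ∧ ∀ a : k, cv m (P u) ≠ a • v0

theorem TD.Pq {B : BM k G n} {d : ℕ} {P : G →ₗ[k] ι → k⸨X⸩} {e : ι → G} (T : TD B d P e)
    (q : k[X]) (u : G) : P (aeval B.h q u) = ae (hW k d) q • P u := by
  induction q using Polynomial.induction_on generalizing u with
  | C a => ext1 i; simp [ae_C, smul_cL]
  | add a b ha hb => simp only [map_add, LinearMap.add_apply, ha, hb, add_smul]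
  | monomial m a h =>
    rw [pow_succ, ← mul_assoc, map_mul, aeval_X, Module.End.mul_apply, h, T.Ph, map_mul _ _ X,
      ae_X, mul_smul]

/-- Vectors of the rational form. -/
def InM (d : ℕ) (P : G →ₗ[k] ι → k⸨X⸩) (v : ι → k⸨X⸩) : Prop :=
  ∃ (q : k[X]) (u : G), q ≠ 0 ∧ ae (hW k d) q • v = P u

/-- The lattice at `h = b`, multiplied by `(h - b) ^ j`. -/
def TD.Lam {B : BM k G n} {d : ℕ} {P : G →ₗ[k] ι → k⸨X⸩} {e : ι → G} (T : TD B d P e) (b : k)
    (j : ℕ) : Submodule k (ι → k⸨X⸩) where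
  carrier := {v | ∃ (q : k[X]) (u : G), q.eval b ≠ 0 ∧
    ae (hW k d) q • v = (hW k d - cL k b) ^ j • P u}
  zero_mem' := ⟨1, 0, by simp, by simp⟩
  add_mem' := by
    rintro v w ⟨q, u, h1, h2⟩ ⟨q', u', h1', h2'⟩
    refine ⟨q * q', aeval B.h q' u + aeval B.h q u', by rw [eval_mul]; exact mul_ne_zero h1 h1', ?_⟩
    rw [map_add, T.Pq, T.Pq, smul_add, smul_add, smul_comm (_ ^ j), smul_comm (_ ^ j), ← h2, ← h2',
      map_mul, mul_smul, mul_smul, smul_comm]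
  smul_mem' := by
    rintro c v ⟨q, u, h1, h2⟩
    refine ⟨q, c • u, h1, ?_⟩
    rw [map_smul, ← mV_apply, map_smul, mV_apply, h2, ← mV_apply, ← mV_apply, map_smul]

/-- A substitution that preserves the vector field `P (θ g) d / dh`. -/
structure Sy (B : BM k G n) (d : ℕ) (P : G →ₗ[k] ι → k⸨X⸩) (φ : k⸨X⸩ →+* k⸨X⸩) (g : G) : Prop where
  fc : ∀ c, φ (cL k c) = cL k c
  chain : ∀ a, dK k d (φ a) = dK k d (φ (hW k d)) * φ (dK k d a)
  inv : ∀ i, φ (P (B.θ g) i) = dK k d (φ (hW k d)) * P (B.θ g) i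
  g0 : ∃ p, B.ev p g ≠ 0
  cb : ∀ (b : k) (u : G), B.θ g ≠ B.h u - b • u
  low : ∀ i m, m < -(d : ℤ) → (P (B.θ g) i).coeff m = 0

/-- A filtration on whose graded pieces `T` has the exponents `j / e`. -/
structure Log {V : Type} [AddCommGroup V] [Module k V] (T : Module.End k V)
    (F : ℕ → Submodule k V) (e : ℕ) : Prop where
  e0 : 1 ≤ e
  anti : ∀ j, F (j + 1) ≤ F j
  st : ∀ j, St T (F j)
  nil : ∀ j, ∀ x ∈ F j, (T - ((j : k) / e) • 1) ((T - ((j : k) / e) • 1) x) ∈ F (j + 1)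

/-- The flat skew tensor: `Y0`, a generalised inverse `Z`, the elements `yt p`, the denominator. -/
structure Fl (B : BM k G n) (d : ℕ) (P : G →ₗ[k] ι → k⸨X⸩) (Y0 Z : Matrix ι ι k) (yt : Fin n → G)
    (Δ : k[X]) : Prop where
  sk : Y0.transpose = -Y0
  gi : Y0 * Z * Y0 = Y0
  yy : ∀ p, ∃ u, yt p - B.y p = B.h u - B.c p • u
  yw : ∀ p, ∃ w : ι → k⸨X⸩, P (yt p) = (Y0.map (cL k)).mulVec w ∧
    ∀ u, ∃ r : k[X], r.eval (B.c p) = B.ev p u ∧ w ⬝ᵥ P u = -ae (hW k d) r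
  Δ0 : Δ ≠ 0
  rat : ∀ u u' w w', P u = (Y0.map (cL k)).mulVec w → P u' = (Y0.map (cL k)).mulVec w' →
    ∃ r : k[X], ae (hW k d) Δ * (P u ⬝ᵥ (Z.map (cL k)).mulVec (P u')) = ae (hW k d) r

/-- A cyclic family of rational vectors whose connection matrix is fixed by `φ`. -/
structure Cy (d : ℕ) (P : G →ₗ[k] ι → k⸨X⸩) (φ : k⸨X⸩ →+* k⸨X⸩) (s : k⸨X⸩) (x : ι → k⸨X⸩) {m : ℕ}
    (v : Fin m → ι → k⸨X⸩) : Prop where
  li : LinearIndependent k⸨X⸩ v
  rat : ∀ j, InM d P (v j)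
  fst : ∃ j, s • v j = x
  con : ∀ j, ∃ ρ : Fin m → k⸨X⸩, (∀ i, InK (hW k d) (ρ i) ∧ φ (ρ i) = ρ i) ∧
    s • dV k ι d (v j) = ∑ i, ρ i • v i
  nc : ∃ r, InK (hW k d) r ∧ φ r = r ∧ ∀ c, r ≠ cL k c

end Per

/-! ### Statements: irreducibility -/

def TrStmt : Prop := ∀ (k G : Type) [Field k] [CharZero k] [AddCommGroup G] [Module k G]
  (h θ : Module.End k G), (∀ u, h (θ u) = θ (h u) + θ (θ u)) → FG θ →
  (∀ A B : Submodule k G, St h A → St θ A → St h B → St θ B → B ≤ A ⊔ B.map θ → B ≤ A) ∧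
  ∀ N : Submodule k G, St h N → St θ N → Sat θ N →
    ∀ (q : k[X]) (u : G), q ≠ 0 → aeval θ q u ∈ N → u ∈ N

/-- Functionals lift to `θ`-linear maps with polynomial values. -/
def LiftStmt : Prop := ∀ (k G : Type) [Field k] [AddCommGroup G] [Module k G]
  (θ : Module.End k G) (N : Submodule k G), FG θ → St θ N →
  (∀ (q : k[X]) (u : G), q ≠ 0 → aeval θ q u ∈ N → u ∈ N) →
  ∀ l : G →ₗ[k] k, (∀ u, l (θ u) = 0) → (∀ u ∈ N, l u = 0) →
  ∃ L : G →ₗ[k] k[X], (∀ u, L (θ u) = X * L u) ∧ (∀ u ∈ N, L u = 0) ∧ ∀ u, (L u).coeff 0 = l u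

def SplStmt : Prop := ∀ (k G : Type) [Field k] [CharZero k] [AddCommGroup G] [Module k G] (n : ℕ)
  (B : BM k G n) (N : Submodule k G), St B.h N → St B.θ N → Sat B.θ N →
  ∃ N' : Submodule k G, St B.h N' ∧ St B.θ N' ∧ IsCompl N N'

def EndStmt : Prop := ∀ (k G : Type) [Field k] [CharZero k] [AddCommGroup G] [Module k G] (n : ℕ)
  (B : BM k G n) (o : G), (∀ p, B.ev p o = 1) →
  (∀ S : Module.End k G, (∀ u, S (B.θ u) = B.θ (S u)) → (∀ u, S (B.h u) = B.h (S u)) →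
    ∃ c : k, S o = c • o) → B.Irr

/-! ### Statements: periods -/

def PilStmt : Prop := ∀ (k G ι : Type) [Field k] [CharZero k] [AddCommGroup G] [Module k G]
  [Fintype ι] [DecidableEq ι] (n d : ℕ) (B : BM k G n) (P : G →ₗ[k] ι → k⸨X⸩) (e : ι → G),
  TD B d P e →
  (∀ (Λ : Submodule k (ι → k)) (u : G), u ≠ 0 → (∀ m, Off d m → cv m (P u) ∈ Λ) →
    ∀ u' m, Off d m → cv m (P u') ∈ Λ) ∧
  ∀ (v0 : ι → k) (u : G), (∀ m, Off d m → ∃ a : k, cv m (P u) = a • v0) → u = 0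

def LatStmt : Prop := ∀ (k G ι : Type) [Field k] [CharZero k] [AddCommGroup G] [Module k G]
  [Fintype ι] [DecidableEq ι] (n d : ℕ) (B : BM k G n) (P : G →ₗ[k] ι → k⸨X⸩) (e : ι → G)
  (T : TD B d P e),
  (∀ v, InM d P v → InM d P (dV k ι d v)) ∧
  (∀ p u, B.ev p u = 0 → dV k ι d (P u) ∈ T.Lam (B.c p) 0) ∧
  (∀ p, (hW k d - cL k (B.c p)) • dV k ι d (P (B.j p)) = -P (B.y p)) ∧
  ∀ (b : k), ∀ v ∈ T.Lam b 0, (hW k d - cL k b) • dV k ι d v ∈ T.Lam b 0 ∧
    (hW k d - cL k b) • dV k ι d ((hW k d - cL k b) • dV k ι d v) ∈ T.Lam b 1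

def FlatStmt : Prop := ∀ (k G ι : Type) [Field k] [CharZero k] [AddCommGroup G] [Module k G]
  [Fintype ι] [DecidableEq ι] (n d : ℕ) (B : BM k G n) (P : G →ₗ[k] ι → k⸨X⸩) (e : ι → G),
  TD B d P e → ∃ Y0 Z yt Δ, Fl B d P Y0 Z yt Δ

/-- The pairing is integral on the lattice. -/
def IntStmt : Prop := ∀ (k G ι : Type) [Field k] [CharZero k] [AddCommGroup G] [Module k G]
  [Fintype ι] [DecidableEq ι] (n d : ℕ) (B : BM k G n) (P : G →ₗ[k] ι → k⸨X⸩) (e : ι → G)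
  (T : TD B d P e) (Y0 Z : Matrix ι ι k) (yt : Fin n → G) (Δ : k[X]), Fl B d P Y0 Z yt Δ →
  ∀ (b : k) (w w' : ι → k⸨X⸩), (Y0.map (cL k)).mulVec w ∈ T.Lam b 0 →
    (Y0.map (cL k)).mulVec w' ∈ T.Lam b 0 → ∃ r q : k[X], q.eval b ≠ 0 ∧
      ((Y0.map (cL k)).mulVec w ⬝ᵥ (Z.map (cL k)).mulVec ((Y0.map (cL k)).mulVec w')) *
        ae (hW k d) q = ae (hW k d) r

/-- A non-zero residue. -/
def ResStmt : Prop := ∀ (k G ι : Type) [Field k] [CharZero k] [AddCommGroup G] [Module k G]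
  [Fintype ι] [DecidableEq ι] (n d : ℕ) (B : BM k G n) (P : G →ₗ[k] ι → k⸨X⸩) (e : ι → G),
  TD B d P e → ∀ (Y0 Z : Matrix ι ι k) (yt : Fin n → G) (Δ : k[X]), Fl B d P Y0 Z yt Δ →
  (∀ p, yt p ≠ 0) ∧ ∀ (g : G) (p : Fin n) (w : ι → k⸨X⸩), B.ev p g ≠ 0 →
    P g = (Y0.map (cL k)).mulVec w → P g ⬝ᵥ (Z.map (cL k)).mulVec (dV k ι d (P g)) ≠ 0

/-- An invariant rational vector field. -/
def VecStmt : Prop := ∀ (k G ι : Type) [Field k] [CharZero k] [AddCommGroup G] [Module k G]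
  [Fintype ι] [DecidableEq ι] (n d : ℕ) (B : BM k G n) (P : G →ₗ[k] ι → k⸨X⸩) (e : ι → G)
  (φ : k⸨X⸩ →+* k⸨X⸩) (g : G), TD B d P e → Sy B d P φ g →
  ∃ s, InK (hW k d) s ∧ s ≠ 0 ∧ φ s = dK k d (φ (hW k d)) * s

def CyStmt : Prop := ∀ (k G ι : Type) [Field k] [CharZero k] [IsAlgClosed k] [AddCommGroup G]
  [Module k G] [Fintype ι] [DecidableEq ι] (n d : ℕ) (B : BM k G n) (P : G →ₗ[k] ι → k⸨X⸩)
  (e : ι → G) (φ : k⸨X⸩ →+* k⸨X⸩) (g : G) (s : k⸨X⸩), TD B d P e → Sy B d P φ g →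
  InK (hW k d) s → s ≠ 0 → φ s = dK k d (φ (hW k d)) * s →
  ∃ (m : ℕ) (v : Fin m → ι → k⸨X⸩), Cy d P φ s (P (B.θ g)) v

/-- The fixed field is generated by one rational function with a pole at infinity. -/
def LurStmt : Prop := ∀ (k : Type) [Field k] [CharZero k] [IsAlgClosed k] (d : ℕ)
  (φ : k⸨X⸩ →+* k⸨X⸩), 1 ≤ d → (∀ c, φ (cL k c) = cL k c) →
  (∃ r, InK (hW k d) r ∧ φ r = r ∧ ∀ c, r ≠ cL k c) →
  ∃ (A B : k[X]) (ρ : k⸨X⸩), IsCoprime A B ∧ B ≠ 0 ∧ B.natDegree < A.natDegree ∧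
    ρ * ae (hW k d) B = ae (hW k d) A ∧ φ ρ = ρ ∧
    ∀ r, InK (hW k d) r → φ r = r → InK ρ⁻¹ r ∧ ∀ β, InK (ρ - cL k β) r

def CmpvStmt : Prop := ∀ (k V : Type) [Field k] [CharZero k] [AddCommGroup V] [Module k V]
  (T : Module.End k V) (F F' : ℕ → Submodule k V) (e e' : ℕ) (N : Submodule k V),
  Log T F e → Log T F' e' → St T N → (∀ j, ∃ j', ∀ x ∈ N, x ∈ F' j' → x ∈ F j) →
  ∀ w ∈ N, ∀ j j', w ∈ F j → w ∉ F (j + 1) → w ∈ F' j' → j' * e ≤ j * e'

/-- The filtration at a finite point. -/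
def LogbStmt : Prop := ∀ (k G ι : Type) [Field k] [CharZero k] [AddCommGroup G] [Module k G]
  [Fintype ι] [DecidableEq ι] (n d : ℕ) (B : BM k G n) (P : G →ₗ[k] ι → k⸨X⸩) (e : ι → G)
  (T : TD B d P e) (b : k) (τ : k⸨X⸩) (μ : ℕ) (r q : k[X]), r.eval b ≠ 0 → q.eval b ≠ 0 →
  τ * ae (hW k d) q = ae (hW k d) ((X - C b) ^ (μ + 1) * r) →
  Log (vt ι d τ) (T.Lam b) (μ + 1) ∧ ∀ g : G, (∀ u, g ≠ B.h u - b • u) →
    dK k d τ • P g ∈ T.Lam b μ ∧ dK k d τ • P g ∉ T.Lam b (μ + 1)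

/-- Comparison of that filtration with the size of the coordinates. -/
def SizeStmt : Prop := ∀ (k G ι : Type) [Field k] [CharZero k] [IsAlgClosed k] [AddCommGroup G]
  [Module k G] [Fintype ι] [DecidableEq ι] (n d : ℕ) (B : BM k G n) (P : G →ₗ[k] ι → k⸨X⸩)
  (e : ι → G) (T : TD B d P e) (b : k) (τ : k⸨X⸩) (μ : ℕ) (r q : k[X]) (m : ℕ)
  (v : Fin m → ι → k⸨X⸩), r.eval b ≠ 0 → q.eval b ≠ 0 →
  τ * ae (hW k d) q = ae (hW k d) ((X - C b) ^ (μ + 1) * r) →
  LinearIndependent k⸨X⸩ v → (∀ j, InM d P (v j)) →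
  (∀ M, ∃ j, ∀ a : Fin m → k⸨X⸩, (∀ i, InK τ (a i)) → ∑ i, a i • v i ∈ T.Lam b j →
    ∀ i, Sz τ M (a i)) ∧
  ∀ j, ∃ M, ∀ a : Fin m → k⸨X⸩, (∀ i, Sz τ M (a i)) → ∑ i, a i • v i ∈ T.Lam b j

/-- The filtration at infinity. -/
def LogiStmt : Prop := ∀ (k ι : Type) [Field k] [CharZero k] [Fintype ι] (d e : ℕ) (τ : k⸨X⸩)
  (u : k⟦X⟧), 1 ≤ d → 1 ≤ e → cc u ≠ 0 → τ = wL k e * coeL k u →
  Log (vt ι d τ) (OrdV k ι) e ∧
  (∀ x : ι → k⸨X⸩, (∀ i m, m < -(d : ℤ) → (x i).coeff m = 0) → dK k d τ • x ∈ OrdV k ι e) ∧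
  ∀ (m : ℕ) (v : Fin m → ι → k⸨X⸩), LinearIndependent k⸨X⸩ v →
    ∀ M, ∃ j, ∀ a : Fin m → k⸨X⸩, (∀ i, InK τ (a i)) → ∑ i, a i • v i ∈ OrdV k ι j →
      ∀ i, Sz τ M (a i)

/-- A polynomial all of whose fibres have constant multiplicity. -/
def PolStmt : Prop := ∀ (k : Type) [Field k] [CharZero k] [IsAlgClosed k] (A : k[X]),
  1 ≤ A.natDegree → (∀ b b' : k, A.eval b = A.eval b' →
    (A - C (A.eval b)).rootMultiplicity b ≤ (A - C (A.eval b)).rootMultiplicity b') →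
  ∃ (β c b : k) (D : ℕ), c ≠ 0 ∧ 1 ≤ D ∧ A = C β + C c * (X - C b) ^ D

/-- All zeros of a generator of the fixed field have the same order, and none is at infinity. -/
def MultStmt : Prop := ∀ (k G ι : Type) [Field k] [CharZero k] [IsAlgClosed k] [AddCommGroup G]
  [Module k G] [Fintype ι] [DecidableEq ι] (n d : ℕ) (B : BM k G n) (P : G →ₗ[k] ι → k⸨X⸩)
  (e : ι → G) (φ : k⸨X⸩ →+* k⸨X⸩) (g : G) (s τ : k⸨X⸩) (m : ℕ) (v : Fin m → ι → k⸨X⸩) (b : k)
  (μ : ℕ) (r q : k[X]), TD B d P e → Sy B d P φ g → InK (hW k d) s →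
  φ s = dK k d (φ (hW k d)) * s → Cy d P φ s (P (B.θ g)) v → s ≠ 0 → φ τ = τ →
  (∀ a, InK (hW k d) a → φ a = a → InK τ a) → r.eval b ≠ 0 → q.eval b ≠ 0 →
  τ * ae (hW k d) q = ae (hW k d) ((X - C b) ^ (μ + 1) * r) →
  (∀ (e' : ℕ) (u : k⟦X⟧), 1 ≤ e' → cc u ≠ 0 → τ ≠ wL k e' * coeL k u) ∧
  ∀ (b' : k) (μ' : ℕ) (r' q' : k[X]), r'.eval b' ≠ 0 → q'.eval b' ≠ 0 →
    τ * ae (hW k d) q' = ae (hW k d) ((X - C b') ^ (μ' + 1) * r') → μ' ≤ μ

/-- The substitution is affine in `h`. -/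
def UniStmt : Prop := ∀ (k G ι : Type) [Field k] [CharZero k] [IsAlgClosed k] [AddCommGroup G]
  [Module k G] [Fintype ι] [DecidableEq ι] (n d : ℕ) (B : BM k G n) (P : G →ₗ[k] ι → k⸨X⸩)
  (e : ι → G) (φ : k⸨X⸩ →+* k⸨X⸩) (g : G), TD B d P e → Sy B d P φ g →
  ∃ w c0 : k, w ≠ 0 ∧ φ (hW k d) = cL k w * hW k d + cL k c0

/-- The substitution acts on the module. -/
def ActStmt : Prop := ∀ (k G ι : Type) [Field k] [CharZero k] [AddCommGroup G]
  [Module k G] [Fintype ι] [DecidableEq ι] (n d : ℕ) (B : BM k G n) (P : G →ₗ[k] ι → k⸨X⸩)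
  (e : ι → G) (φ : k⸨X⸩ →+* k⸨X⸩) (g : G) (w c0 : k), TD B d P e → Sy B d P φ g → w ≠ 0 →
  φ (hW k d) = cL k w * hW k d + cL k c0 →
  ∃ S : Module.End k G, (∀ u, S (B.θ u) = w • B.θ (S u)) ∧
    (∀ u, S (B.h u) = w • B.h (S u) + c0 • S u) ∧
    ∀ u i m, Off d m → (φ (P u i)).coeff m = (P (S u) i).coeff m

/-- Substitution in Laurent series. -/
def PhiStmt : Prop := ∀ (k : Type) [Field k] [CharZero k] (σ : k⟦X⟧), cc σ = 0 →
  PowerSeries.coeff 1 σ ≠ 0 → ∃ φ : k⸨X⸩ →+* k⸨X⸩, (∀ c, φ (cL k c) = cL k c) ∧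
  (∀ d, 1 ≤ d → ∀ a, dK k d (φ a) = dK k d (φ (hW k d)) * φ (dK k d a)) ∧
  (∀ (a : k⸨X⸩) (n : ℤ), (∀ m < n, a.coeff m = 0) →
    (φ a).coeff n = PowerSeries.coeff 1 σ ^ n * a.coeff n) ∧
  ∀ (L : Type) [Field L] (κ : k →+* L) (Φ : L⸨X⸩ →+* L⸨X⸩),
    (∀ c, Φ (coeL L c) = coeL L (sb (PowerSeries.map κ σ) c)) →
    (∀ a, Φ (mapL κ a) = mapL κ (φ a)) ∧
    ∀ l : L →+ k, (∀ c z, l (κ c * z) = c * l z) → ∀ a, cwL l (Φ a) = φ (cwL l a)

end

end Pool.Agent.MP_05b4bd_ag.UM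

end MrgPart0

-- ======== part 1: formerly Pool.Agent.MP_05b4bd_ag.um.End
section MrgPart1

/-! Irreducibility from the endomorphisms. -/

namespace Pool.Agent.MP_05b4bd_ag.UM

open ES Polynomial

namespace End

variable {k G : Type} [Field k] [AddCommGroup G] [Module k G]

theorem aeval_mem {T : Module.End k G} {M : Submodule k G} (h : St T M) (q : k[X]) {u : G}
    (hu : u ∈ M) : aeval T q u ∈ M := by
  induction q using Polynomial.induction_on generalizing u with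
  | C a => simpa using M.smul_mem a hu
  | add a b ha hb => simpa using M.add_mem (ha hu) (hb hu)
  | monomial m a ih =>
    rw [pow_succ, ← mul_assoc, map_mul, aeval_X, Module.End.mul_apply]
    exact ih (h u hu)

theorem comm {T : Module.End k G} {N N' : Submodule k G} (c : IsCompl N N') (h : St T N)
    (h' : St T N') (u : G) : N.projection N' c (T u) = T (N.projection N' c u) := by
  have e : T u = T (N.projection N' c u) + T (u - N.projection N' c u) := by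
    rw [← map_add, add_sub_cancel]
  rw [e, map_add, Submodule.projection_apply_of_mem_left c (h _ (Submodule.projection_apply_mem c u)),
    (Submodule.projection_apply_eq_zero_iff c).2 (h' _ (Submodule.sub_projection_mem c u)), add_zero]

end End

theorem endS (h1 : TrStmt) (h2 : SplStmt) : EndStmt := by
  intro k G _ _ _ _ n B o ho hS N a b c
  obtain ⟨N', a', b', cp⟩ := h2 k G n B N a b c
  have top : ∀ M : Submodule k G, St B.h M → St B.θ M → o ∈ M → M = ⊤ := fun M m1 m2 m3 => by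
    refine eq_top_iff.2 ((h1 k G B.h B.θ B.comm B.fg).1 M ⊤ m1 m2 (fun _ _ => trivial)
      (fun _ _ => trivial) fun u _ => ?_)
    obtain ⟨q, hq⟩ := B.interp fun p => B.ev p u
    obtain ⟨v, hv⟩ := (B.ker (u - aeval B.h q o)).1 fun p => by
      rw [map_sub, B.ev_aeval, hq, ho, mul_one, sub_self]
    rw [show u = aeval B.h q o + B.θ v by rw [← hv, add_sub_cancel]]
    exact Submodule.add_mem_sup (End.aeval_mem m1 q m3) ⟨v, trivial, rfl⟩
  obtain ⟨e, he⟩ := hS (N.projection N' cp) (End.comm cp b b') (End.comm cp a a')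
  by_cases e0 : e = 0
  · rw [e0, zero_smul, Submodule.projection_apply_eq_zero_iff] at he
    exact Or.inl (disjoint_top.1 (top N' a' b' he ▸ cp.disjoint))
  · exact Or.inr (top N a b ((N.smul_mem_iff e0).1 (he ▸ Submodule.projection_apply_mem cp o)))

end Pool.Agent.MP_05b4bd_ag.UM

end MrgPart1

-- ======== part 2: formerly Pool.Agent.MP_05b4bd_ag.um.Size
section MrgPart2

/-! Row SIZE: the lattice filtration at a finite point and the size of the coordinates. -/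

namespace Pool.Agent.MP_05b4bd_ag.UM

open ES Polynomial
open scoped TensorProduct PowerSeries LaurentSeries

noncomputable section

namespace Size
variable {k : Type} [Field k] {d : ℕ} {b : k} {τ x y a : k⸨X⸩}

/-- The rational functions of `h` that are regular at `b`. -/
def OO (h : k⸨X⸩) (b : k) : Subring k⸨X⸩ where
  carrier := {a | ∃ r q : k[X], q.eval b ≠ 0 ∧ a * ae h q = ae h r}
  zero_mem' := ⟨0, 1, by simp, by simp⟩
  one_mem' := ⟨1, 1, by simp, by simp⟩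
  add_mem' := by
    rintro x y ⟨r, q, h1, h2⟩ ⟨r', q', h1', h2'⟩
    refine ⟨r * q' + r' * q, q * q', by rw [eval_mul]; exact mul_ne_zero h1 h1', ?_⟩
    simp only [map_mul, map_add, ← h2, ← h2']
    ring
  mul_mem' := by
    rintro x y ⟨r, q, h1, h2⟩ ⟨r', q', h1', h2'⟩
    refine ⟨r * r', q * q', by rw [eval_mul]; exact mul_ne_zero h1 h1', ?_⟩
    simp only [map_mul, ← h2, ← h2']
    ring
  neg_mem' := by
    rintro x ⟨r, q, h1, h2⟩
    exact ⟨-r, q, h1, by rw [map_neg, ← h2, neg_mul]⟩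

theorem ae_OO (h : k⸨X⸩) (q : k[X]) : ae h q ∈ OO h b := ⟨q, 1, by simp, by simp⟩

theorem t_eq (h : k⸨X⸩) : ae h (X - C b) = h - cL k b := by rw [map_sub, ae_X, ae_C]

theorem t_OO (h : k⸨X⸩) : h - cL k b ∈ OO h b := t_eq (b := b) h ▸ ae_OO h _

theorem ae_OO' {h : k⸨X⸩} (hτ : τ ∈ OO h b) (q : k[X]) : ae τ q ∈ OO h b := by
  induction q using Polynomial.induction_on with
  | C a => rw [ae_C, ← ae_C h]; exact ae_OO _ _
  | add a b ha hb => rw [map_add]; exact add_mem ha hb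
  | monomial m a ih => rw [pow_succ, ← mul_assoc, map_mul, ae_X]; exact mul_mem ih hτ

/-- Units at `b`. -/
def Un (h : k⸨X⸩) (b : k) (y : k⸨X⸩) : Prop := y ≠ 0 ∧ y ∈ OO h b ∧ y⁻¹ ∈ OO h b

theorem ev_ne {q : k[X]} (h : q.eval b ≠ 0) : q ≠ 0 := fun e => h (by rw [e, eval_zero])

theorem un_of (hd : 1 ≤ d) {r q : k[X]} (hr : r.eval b ≠ 0) (hq : q.eval b ≠ 0)
    (e : y * ae (hW k d) q = ae (hW k d) r) : Un (hW k d) b y := by
  have h0 : y ≠ 0 := fun e' => ah_ne hd (ev_ne hr) (by rw [← e, e', zero_mul])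
  exact ⟨h0, ⟨r, q, hq, e⟩, q, r, hr, by rw [← e, inv_mul_cancel_left₀ h0]⟩

theorem Un.mul {h : k⸨X⸩} (hx : Un h b x) (hy : Un h b y) : Un h b (x * y) :=
  ⟨mul_ne_zero hx.1 hy.1, mul_mem hx.2.1 hy.2.1, by rw [mul_inv]; exact mul_mem hx.2.2 hy.2.2⟩

theorem Un.pow {h : k⸨X⸩} (hx : Un h b x) (n : ℕ) : Un h b (x ^ n) :=
  ⟨pow_ne_zero _ hx.1, pow_mem hx.2.1 n, by rw [← inv_pow]; exact pow_mem hx.2.2 n⟩

theorem not_un (hd : 1 ≤ d) (hx : x ∈ OO (hW k d) b) :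
    ¬ Un (hW k d) b ((hW k d - cL k b) * x) := fun hy => by
  obtain ⟨r, q, h1, h2⟩ := mul_mem hx hy.2.2
  have e : ae (hW k d) ((X - C b) * r) = ae (hW k d) q := by
    rw [map_mul, t_eq, ← h2, ← mul_assoc, ← mul_assoc, mul_inv_cancel₀ hy.1, one_mul]
  exact h1 (by rw [← ah_inj hd e]; simp)

theorem un_ae (hd : 1 ≤ d) (hx : x ∈ OO (hW k d) b) {p : k[X]} (hp : p.eval 0 ≠ 0) :
    Un (hW k d) b (ae ((hW k d - cL k b) * x) p) := by
  obtain ⟨r, q, h1, h2⟩ := mul_mem hx (ae_OO' (mul_mem (t_OO _) hx) p.divX)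
  refine un_of hd (r := C (p.eval 0) * q + (X - C b) * r) (by simpa using ⟨hp, h1⟩) h1 ?_
  conv_lhs => rw [← p.X_mul_divX_add, coeff_zero_eq_eval_zero]
  rw [map_add, map_add, map_mul, map_mul, map_mul, ae_X, ae_C, ae_C, t_eq, ← h2]
  ring

theorem split (b : k) {q : k[X]} (hq : q ≠ 0) :
    ∃ (c : ℕ) (q' : k[X]), q'.eval b ≠ 0 ∧ q = (X - C b) ^ c * q' :=
  let ⟨q', h1, h2⟩ := exists_eq_pow_rootMultiplicity_mul_and_not_dvd q hq b
  ⟨_, q', fun e => h2 (dvd_iff_isRoot.2 e), h1⟩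

theorem den {h : k⸨X⸩} (ha : InK h a) : ∃ c : ℕ, ∀ n, c ≤ n → (h - cL k b) ^ n * a ∈ OO h b := by
  obtain ⟨r, q, h1, h2⟩ := ha
  obtain ⟨c, q', h3, rfl⟩ := split b (q := q) fun e => h1 (by rw [e, map_zero])
  refine ⟨c, fun n hn => ?_⟩
  obtain ⟨n, rfl⟩ := Nat.exists_eq_add_of_le' hn
  rw [pow_add, mul_assoc]
  exact mul_mem (pow_mem (t_OO h) n) ⟨r, q', h3, by rw [← h2, map_mul, map_pow, t_eq]; ring⟩

/-- From the order at `b` to the order at `τ = 0`. -/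
theorem sz_of (hd : 1 ≤ d) {u : k⸨X⸩} {μ c M : ℕ} (hu : Un (hW k d) b u)
    (hτ : τ = (hW k d - cL k b) ^ (μ + 1) * u) (ha : InK τ a) (hx : x ∈ OO (hW k d) b)
    (e : (hW k d - cL k b) ^ c * a = (hW k d - cL k b) ^ (c + (μ + 1) * M) * x) : Sz τ M a := by
  have ht := t_ne hd b
  have h0 : τ ≠ 0 := hτ ▸ mul_ne_zero (pow_ne_zero _ ht) hu.1
  rw [pow_add, mul_assoc] at e
  have e1 := mul_left_cancel₀ (pow_ne_zero _ ht) e
  obtain ⟨r, q, h1, h2⟩ := ha
  rcases eq_or_ne r 0 with rfl | hr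
  · rw [map_zero, mul_eq_zero] at h2
    exact ⟨0, 1, by simp, by simp [h2.resolve_right h1]⟩
  obtain ⟨α, q0, hq0, rfl⟩ := split 0 (q := q) fun e => h1 (by rw [e, map_zero])
  obtain ⟨β, r0, hr0, rfl⟩ := split 0 hr
  simp only [map_zero, sub_zero, map_mul, map_pow, ae_X] at h2
  rcases le_or_gt (α + M) β with h | h
  · obtain ⟨n, rfl⟩ := Nat.exists_eq_add_of_le h
    refine ⟨X ^ n * r0, q0, hq0, mul_left_cancel₀ (pow_ne_zero α h0) ?_⟩
    rw [map_mul, map_pow, ae_X]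
    linear_combination h2
  · obtain ⟨n, hn⟩ := Nat.exists_eq_add_of_lt h
    have hy : (hW k d - cL k b) ^ μ * u ∈ OO (hW k d) b := mul_mem (pow_mem (t_OO _) μ) hu.2.1
    have hτ' : τ = (hW k d - cL k b) * ((hW k d - cL k b) ^ μ * u) := by rw [hτ]; ring
    have hτO : τ ∈ OO (hW k d) b := hτ' ▸ mul_mem (t_OO _) hy
    refine absurd ((hτ' ▸ un_ae hd hy hr0 : Un _ b (ae τ r0)).mul (hu.pow M)) ?_
    have e2 : ae τ r0 * u ^ M = (hW k d - cL k b) *
        ((hW k d - cL k b) ^ μ * u * τ ^ n * x * ae τ q0) := by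
      refine mul_left_cancel₀ (pow_ne_zero β h0) ?_
      have e3 : τ ^ α * τ ^ M = τ ^ β * τ ^ n * τ := by rw [← pow_add, hn]; ring
      have e4 : τ ^ M = (hW k d - cL k b) ^ ((μ + 1) * M) * u ^ M := by
        rw [hτ, mul_pow, ← pow_mul]
      rw [e1] at h2
      linear_combination (-u ^ M) * h2 + x * ae τ q0 * e3 - τ ^ α * x * ae τ q0 * e4
        + τ ^ β * τ ^ n * x * ae τ q0 * hτ'
    rw [e2]
    exact not_un hd (mul_mem (mul_mem (mul_mem hy (pow_mem hτO n)) hx) (ae_OO' hτO _))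

/-- An independent family with entries in a subfield has a dual family over that subfield. -/
theorem dual {K ι : Type} [Field K] [Fintype ι] [DecidableEq ι] (F : Subfield K) {m : ℕ}
    {w : Fin m → ι → K} (hw : LinearIndependent K w) (hF : ∀ j s, w j s ∈ F) :
    ∃ L : Fin m → ι → K, (∀ i s, L i s ∈ F) ∧
      ∀ (a : Fin m → K) i, ∑ s, L i s * (∑ j, a j • w j) s = a i := by
  let w' : Fin m → ι → F := fun j s => ⟨w j s, hF j s⟩
  have h1 : LinearIndependent F w' := Fintype.linearIndependent_iff.2 fun c hc i =>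
    Subtype.ext (Fintype.linearIndependent_iff.1 hw (fun j => (c j : K)) (funext fun s => by
      simpa [w'] using congrArg Subtype.val (congrFun hc s)) i)
  obtain ⟨g, hg⟩ := (Fintype.linearCombination F w').exists_leftInverse_of_injective
    (LinearMap.ker_eq_bot.2
      (linearIndependent_iff_injective_fintypeLinearCombination.1 h1))
  refine ⟨fun i s => (g (Pi.single s 1) i : K), fun i s => Subtype.prop _, fun a i => ?_⟩
  have h2 : ∀ j, ∑ s, (g (Pi.single s 1) i : K) * w j s = if j = i then 1 else 0 := fun j => by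
    have e1 := congrFun (LinearMap.congr_fun hg (Pi.single j 1)) i
    rw [LinearMap.comp_apply, Fintype.linearCombination_apply_single, one_smul,
      pi_eq_sum_univ' (w' j), map_sum] at e1
    have e2 := congrArg Subtype.val e1
    simp only [map_smul, Finset.sum_apply, Pi.smul_apply, smul_eq_mul, LinearMap.id_apply,
      AddSubmonoidClass.coe_finsetSum, MulMemClass.coe_mul, w'] at e2
    rw [Finset.sum_congr rfl fun s _ => mul_comm _ (w j s), e2, Pi.single_apply]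
    by_cases h3 : i = j
    · simp [h3]
    · simp [h3, Ne.symm h3]
  simp only [Finset.sum_apply, Pi.smul_apply, smul_eq_mul, Finset.mul_sum]
  rw [Finset.sum_comm]
  simp only [mul_left_comm _ (a _), ← Finset.mul_sum, h2]
  simp

variable {G ι : Type} [AddCommGroup G] [Module k G] [Fintype ι] [DecidableEq ι] {n : ℕ}
  {B : BM k G n} {P : G →ₗ[k] ι → k⸨X⸩} {e : ι → G}

theorem lam (T : TD B d P e) {w : ι → k⸨X⸩} (hw : w ∈ T.Lam b 0) (hx : x ∈ OO (hW k d) b)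
    (j : ℕ) : ((hW k d - cL k b) ^ j * x) • w ∈ T.Lam b j := by
  obtain ⟨q, u, h1, h2⟩ := hw
  obtain ⟨r, q', h3, h4⟩ := hx
  refine ⟨q' * q, aeval B.h r u, by rw [eval_mul]; exact mul_ne_zero h3 h1, ?_⟩
  rw [pow_zero, one_smul] at h2
  rw [T.Pq, ← h2, ← h4, map_mul, smul_smul, smul_smul, smul_smul]
  congr 1
  ring

theorem co (T : TD B d P e) (u : G) : ∃ ξ : ι → k[X],
    (Matrix.of fun i j => P (e j) i)⁻¹.mulVec (P u) = fun s => ae (hW k d) (ξ s) := by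
  obtain ⟨ξ, rfl⟩ := T.span u
  refine ⟨ξ, ?_⟩
  have : P (∑ i, aeval B.h (ξ i) (e i))
      = (Matrix.of fun i j => P (e j) i).mulVec fun s => ae (hW k d) (ξ s) := by
    ext1 i
    simp [T.Pq, Matrix.mulVec, dotProduct, mul_comm]
  rw [this, Matrix.mulVec_mulVec, Matrix.nonsing_inv_mul _ T.det.isUnit, Matrix.one_mulVec]

end Size

open Size

theorem sizeS : SizeStmt := by
  intro k G ι _ _ _ _ _ _ _ n d B P e T b τ μ r q m v hr hq hτ hv hM
  have hd := T.d1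
  have ht := t_ne hd b
  have hq' := ah_ne hd (ev_ne hq)
  have hu : Un (hW k d) b (ae (hW k d) r / ae (hW k d) q) := un_of hd hr hq (div_mul_cancel₀ _ hq')
  have hτ' : τ = (hW k d - cL k b) ^ (μ + 1) * (ae (hW k d) r / ae (hW k d) q) := by
    rw [← mul_div_assoc, eq_div_iff hq', hτ, map_mul, map_pow, t_eq]
  refine ⟨fun M => ?_, fun j => ?_⟩
  · let N := (Matrix.of fun i j => P (e j) i)⁻¹
    have hN : IsUnit N := (Matrix.isUnit_nonsing_inv_iff.2
      ((Matrix.isUnit_iff_isUnit_det _).2 T.det.isUnit))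
    obtain ⟨L, hL, hL'⟩ := dual (KK (hW k d)) (w := fun j => N.mulVec (v j))
      (hv.map' N.mulVecLin (LinearMap.ker_eq_bot.2 (Matrix.mulVec_injective_iff_isUnit.2 hN)))
      fun j s => by
        obtain ⟨p, u, h1, h2⟩ := hM j
        obtain ⟨ξ, h3⟩ := co T u
        rw [← h2, Matrix.mulVec_smul] at h3
        exact ⟨ξ s, p, ah_ne hd h1, by rw [mul_comm]; exact congrFun h3 s⟩
    choose c hc using fun p : Fin m × ι => den (b := b) (hL p.1 p.2)
    obtain ⟨c0, hc0⟩ := (Set.finite_range c).bddAbove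
    refine ⟨c0 + (μ + 1) * M, fun a ha ⟨p, u, h1, h2⟩ i => ?_⟩
    obtain ⟨ξ, h3⟩ := co T u
    have hp : Un (hW k d) b (ae (hW k d) p) := un_of hd (q := 1) h1 (by simp) (by simp)
    have h4 := congrArg N.mulVec h2
    rw [Matrix.mulVec_smul, Matrix.mulVec_smul, h3, Matrix.mulVec_sum] at h4
    refine sz_of hd hu hτ' (ha i) (c := c0)
      (x := ∑ s, (hW k d - cL k b) ^ c0 * L i s * ae (hW k d) (ξ s) * (ae (hW k d) p)⁻¹)
      (sum_mem fun s _ => mul_mem (mul_mem (hc (i, s) c0 (hc0 ⟨_, rfl⟩)) (ae_OO _ _)) hp.2.2) ?_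
    rw [← hL' a i, Finset.mul_sum, Finset.mul_sum]
    refine Finset.sum_congr rfl fun s _ => ?_
    have h5 := congrFun h4 s
    simp only [Matrix.mulVec_smul, Pi.smul_apply, smul_eq_mul] at h5
    rw [(eq_inv_mul_iff_mul_eq₀ hp.1).2 h5]
    ring
  · have h1 : ∀ i, ∃ c : ℕ, (hW k d - cL k b) ^ c • v i ∈ T.Lam b 0 := fun i => by
      obtain ⟨p, u, h1, h2⟩ := hM i
      obtain ⟨c, p', h3, rfl⟩ := split b h1
      exact ⟨c, p', u, h3, by rw [pow_zero, one_smul, ← h2, map_mul, map_pow, t_eq, smul_smul,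
        mul_comm]⟩
    choose c hc using h1
    obtain ⟨c0, hc0⟩ := (Set.finite_range c).bddAbove
    refine ⟨j + c0, fun a ha => sum_mem fun i _ => ?_⟩
    obtain ⟨r1, q1, h2, h3⟩ := ha i
    have hy : (hW k d - cL k b) ^ μ * (ae (hW k d) r / ae (hW k d) q) ∈ OO (hW k d) b :=
      mul_mem (pow_mem (t_OO _) μ) hu.2.1
    have e1 : τ = (hW k d - cL k b) * ((hW k d - cL k b) ^ μ * (ae (hW k d) r / ae (hW k d) q)) := by
      rw [hτ']; ring
    have h4 : Un (hW k d) b (ae τ q1) := e1 ▸ un_ae hd hy h2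
    obtain ⟨l, hl⟩ := Nat.exists_eq_add_of_le (hc0 ⟨i, rfl⟩ : c i ≤ c0)
    have h5 := lam T (hc i) (mul_mem (mul_mem (mul_mem (pow_mem (t_OO _) l) (pow_mem hy (j + c0)))
      (ae_OO' (e1 ▸ mul_mem (t_OO _) hy : τ ∈ OO (hW k d) b) r1)) h4.2.2) j
    rw [smul_smul] at h5
    convert h5 using 2
    rw [(eq_mul_inv_iff_mul_eq₀ h4.1).2 h3]
    nth_rewrite 1 [e1]
    rw [mul_pow, hl]
    ring

end

end Pool.Agent.MP_05b4bd_ag.UM

end MrgPart2

-- ======== part 3: formerly Pool.Agent.MP_05b4bd_ag.um.Spl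
section MrgPart3

/-! A saturated submodule of a Brieskorn module has a complement. -/

namespace Pool.Agent.MP_05b4bd_ag.UM

open ES Polynomial
open scoped TensorProduct PowerSeries LaurentSeries

noncomputable section

namespace Spl
variable {k G : Type} [Field k] [AddCommGroup G] [Module k G] {n : ℕ} (B : BM k G n)

/-- Contraction with a polynomial valued functional. -/
def Φ (L : G →ₗ[k] k[X]) : G ⊗[k] G →ₗ[k] G :=
  TensorProduct.lift ((aeval (-B.θ) : k[X] →ₐ[k] Module.End k G).toLinearMap ∘ₗ L)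

theorem Φ_tmul (L : G →ₗ[k] k[X]) (u v : G) : Φ B L (u ⊗ₜ v) = aeval (-B.θ) (L u) v := by
  simp [Φ]

theorem Φ_add (L L' : G →ₗ[k] k[X]) : Φ B (L + L') = Φ B L + Φ B L' :=
  TensorProduct.ext' fun u v => by simp [Φ_tmul]

theorem Φ_smul (c : k) (L : G →ₗ[k] k[X]) : Φ B (c • L) = c • Φ B L :=
  TensorProduct.ext' fun u v => by simp [Φ_tmul]

theorem Φ_X {L L' : G →ₗ[k] k[X]} (h : ∀ u, L' u = X * L u) (z : G ⊗[k] G) :
    Φ B L' z = -B.θ (Φ B L z) :=
  LinearMap.congr_fun (show Φ B L' = -(B.θ ∘ₗ Φ B L) from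
    TensorProduct.ext' fun u v => by simp [Φ_tmul, h]) z

theorem Φ_r (L : G →ₗ[k] k[X]) (T : Module.End k G) (z : G ⊗[k] G) :
    Φ B L (T.rTensor G z) = Φ B (L ∘ₗ T) z :=
  LinearMap.congr_fun (show Φ B L ∘ₗ T.rTensor G = Φ B (L ∘ₗ T) from
    TensorProduct.ext' fun u v => by simp [Φ_tmul]) z

theorem ae_θ (q : k[X]) (v : G) : aeval (-B.θ) q (B.θ v) = B.θ (aeval (-B.θ) q v) := by
  have h := LinearMap.congr_fun (congrArg (aeval (-B.θ)) (mul_comm q X)) v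
  simpa using h

theorem ae_h (q : k[X]) (u : G) : aeval (-B.θ) q (B.h u) =
    B.h (aeval (-B.θ) q u) + aeval (-B.θ) (X ^ 2 * derivative q) u := by
  induction q using Polynomial.induction_on generalizing u with
  | C a => simp
  | add a b ha hb =>
    simp only [map_add, LinearMap.add_apply, ha, hb, mul_add]; abel
  | monomial m a h =>
    rw [pow_succ X m, ← mul_assoc]
    generalize C a * X ^ m = r at h
    have e := h (B.θ u)
    rw [derivative_mul, derivative_X, mul_one, show X ^ 2 * (derivative r * X + r) =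
      X ^ 2 * derivative r * X + r * (X * X) by ring]
    rw [B.comm, map_add] at e
    simp only [map_add, map_mul (aeval (-B.θ)) _ X, map_mul (aeval (-B.θ)) r, aeval_X,
      Module.End.mul_apply, LinearMap.add_apply, LinearMap.neg_apply, map_neg, neg_neg]
    rw [eq_sub_of_add_eq e]
    abel

theorem Φ_lθ (L : G →ₗ[k] k[X]) (z : G ⊗[k] G) : Φ B L (B.θ.lTensor G z) = B.θ (Φ B L z) :=
  LinearMap.congr_fun (show Φ B L ∘ₗ B.θ.lTensor G = B.θ ∘ₗ Φ B L from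
    TensorProduct.ext' fun u v => by simp [Φ_tmul, ae_θ]) z

/-- The correction term. -/
def dd (L : G →ₗ[k] k[X]) : G →ₗ[k] k[X] := LinearMap.mulLeft k (X ^ 2) ∘ₗ derivative ∘ₗ L

theorem dd_apply (L : G →ₗ[k] k[X]) (u : G) : dd L u = X ^ 2 * derivative (L u) := rfl

theorem Φ_lh (L : G →ₗ[k] k[X]) (z : G ⊗[k] G) :
    Φ B L (B.h.lTensor G z) = B.h (Φ B L z) + Φ B (dd L) z :=
  LinearMap.congr_fun (show Φ B L ∘ₗ B.h.lTensor G = B.h ∘ₗ Φ B L + Φ B (dd L) from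
    TensorProduct.ext' fun u v => by
      simp only [LinearMap.comp_apply, LinearMap.lTensor_tmul, LinearMap.add_apply, Φ_tmul, ae_h,
        dd_apply]) z

theorem ev_Φ (L : G →ₗ[k] k[X]) (q : Fin n) (z : G ⊗[k] G) :
    B.ev q (Φ B L z) = B.ev q (ct (lcoeff k 0 ∘ₗ L) z) :=
  LinearMap.congr_fun (show B.ev q ∘ₗ Φ B L = B.ev q ∘ₗ ct (lcoeff k 0 ∘ₗ L) from
    TensorProduct.ext' fun u v => by
      simp only [LinearMap.comp_apply, Φ_tmul, ct_tmul, lcoeff_apply]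
      conv_lhs => rw [← X_mul_divX_add (L u), map_add, map_mul, aeval_X, aeval_C]
      simp [B.ev_θ]) z

variable (N : Submodule k G)

/-- The admissible functionals. -/
def E (L : G →ₗ[k] k[X]) : Prop := (∀ u, L (B.θ u) = X * L u) ∧ ∀ u ∈ N, L u = 0

/-- The complement. -/
def Co : Submodule k G where
  carrier := {u | ∃ L, E B N L ∧ u = Φ B L B.J}
  zero_mem' := ⟨(0 : k) • 0, ⟨by simp, by simp⟩, by rw [Φ_smul]; simp⟩
  add_mem' := by
    rintro _ _ ⟨L, h, rfl⟩ ⟨L', h', rfl⟩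
    exact ⟨L + L', ⟨fun u => by simp [h.1, h'.1, mul_add], fun u hu => by
      simp [h.2 u hu, h'.2 u hu]⟩, by rw [Φ_add]; rfl⟩
  smul_mem' := by
    rintro c _ ⟨L, h, rfl⟩
    exact ⟨c • L, ⟨fun u => by simp [h.1], fun u hu => by simp [h.2 u hu]⟩, by rw [Φ_smul]; rfl⟩

theorem stθ : St B.θ (Co B N) := by
  rintro _ ⟨L, h, rfl⟩
  have : -B.θ (Φ B L B.J) ∈ Co B N := ⟨LinearMap.mulLeft k X ∘ₗ L,
    ⟨fun u => by simp [h.1], fun u hu => by simp [h.2 u hu]⟩, (Φ_X B (fun _ => rfl) _).symm⟩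
  simpa using neg_mem this

theorem sth (hN : St B.h N) : St B.h (Co B N) := by
  rintro _ ⟨L, h, rfl⟩
  have e := congrArg (Φ B L) B.rel
  rw [map_sub, map_sub, Φ_r, Φ_r, Φ_lh, Φ_lθ, Φ_X B (L' := L ∘ₗ B.θ) h.1] at e
  have m : Φ B (L ∘ₗ B.h + (-1 : k) • dd L) B.J ∈ Co B N := ⟨_, ⟨fun u => by
    simp only [LinearMap.add_apply, LinearMap.smul_apply, LinearMap.comp_apply, dd_apply, B.comm,
      map_add, h.1, derivative_mul, derivative_X, neg_smul, one_smul]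
    ring, fun u hu => by simp [dd_apply, h.2 u hu, h.2 _ (hN u hu)]⟩, rfl⟩
  have t := stθ B N _ ⟨L, h, rfl⟩
  have : B.h (Φ B L B.J) = Φ B (L ∘ₗ B.h + (-1 : k) • dd L) B.J +
      (B.θ (Φ B L B.J) + B.θ (Φ B L B.J)) := by
    rw [Φ_add, Φ_smul, LinearMap.add_apply, LinearMap.smul_apply, eq_add_of_sub_eq e]
    simp only [map_add, map_sub, neg_smul, one_smul]
    abel
  rw [this]
  exact add_mem m (add_mem t t)

theorem st_aeval {T : Module.End k G} (hN : St T N) (q : k[X]) (u : G) (hu : u ∈ N) :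
    aeval T q u ∈ N := by
  induction q using Polynomial.induction_on generalizing u with
  | C a => simpa using N.smul_mem a hu
  | add a b ha hb => rw [map_add]; exact add_mem (ha u hu) (hb u hu)
  | monomial m a h =>
    rw [pow_succ, ← mul_assoc, map_mul, aeval_X]
    exact h _ (hN u hu)

/-- An element of `N` that lives at one critical point. -/
theorem loc (hN : St B.h N) {q : Fin n} {u : G} (hu : u ∈ N) (h : B.ev q u ≠ 0) :
    ∃ w ∈ N, B.ev q w ≠ 0 ∧ ∀ p, p ≠ q → B.ev p w = 0 := by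
  obtain ⟨r, hr⟩ := B.interp fun p => if p = q then 1 else 0
  exact ⟨_, st_aeval N hN r u hu, by simpa [B.ev_aeval, hr] using h,
    fun p hp => by simp [B.ev_aeval, hr, hp]⟩

theorem ct_sum (l : G →ₗ[k] k) (a : Fin n → k) (ha : ∀ u, l u = ∑ p, B.ev p u • a p) :
    ct l B.J = ∑ p, a p • B.j p :=
  (LinearMap.congr_fun (show ct l = ∑ p, a p • ct (B.ev p) from
    TensorProduct.ext' fun u v => by
      simp [ct_tmul, ha, Finset.sum_smul, smul_smul, mul_comm]) B.J).trans (by simp [BM.j])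

theorem zero (hN : St B.h N) {L : G →ₗ[k] k[X]} (h : E B N L) (hu : Φ B L B.J ∈ N) (u : G) :
    (L u).coeff 0 = 0 := by
  obtain ⟨a, ha⟩ := B.func (lcoeff k 0 ∘ₗ L) fun u => by simp [h.1]
  have : ∀ q, a q = 0 := fun q => by
    by_contra c
    obtain ⟨w, hw, h1, h2⟩ := loc B N hN (q := q) hu (by
      rw [ev_Φ, ct_sum B _ a ha, map_sum, Finset.sum_eq_single q, map_smul]
      · exact mul_ne_zero c (B.j0 q)
      · intro p _ e
        rw [map_smul, B.j1 e, smul_zero]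
      · simp)
    have e := ha w
    rw [Finset.sum_eq_single q (fun p _ e => by rw [h2 p e, zero_smul]) (by simp)] at e
    simp [h.2 w hw, h1, c] at e
  simpa [this] using ha u

/-- Division by `X`. -/
def dv (k : Type) [Field k] : k[X] →ₗ[k] k[X] where
  toFun := divX
  map_add' _ _ := divX_add
  map_smul' c p := by ext; simp [coeff_divX]

end Spl

open Spl in
theorem splS (h1 : TrStmt) (h2 : LiftStmt) : SplStmt := by
  intro k G _ _ _ _ n B N hh hθ hs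
  obtain ⟨b, a⟩ := h1 k G B.h B.θ B.comm B.fg
  have s1 := sth B N hh
  have s2 := stθ B N
  refine ⟨Co B N, s1, s2, disjoint_iff_inf_le.2 ?_, codisjoint_iff_le_sup.2 ?_⟩
  · refine b ⊥ _ (fun u hu => by simp_all) (fun u hu => by simp_all)
      (fun u hu => ⟨hh u hu.1, s1 u hu.2⟩) (fun u hu => ⟨hθ u hu.1, s2 u hu.2⟩) ?_
    rintro _ ⟨hu, L, h, rfl⟩
    have e : ∀ u, L u = X * (dv k ∘ₗ L) u := fun u => by
      have := (X_mul_divX_add (L u)).symm
      rwa [zero B N hh h hu u, C_0, add_zero] at this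
    have m : -Φ B (dv k ∘ₗ L) B.J ∈ Co B N := neg_mem ⟨_, ⟨fun u => mul_left_cancel₀ X_ne_zero
      (by rw [← e, ← e, h.1]), fun u hu => by simp [h.2 u hu]⟩, rfl⟩
    have e' : B.θ (-Φ B (dv k ∘ₗ L) B.J) = Φ B L B.J := by rw [map_neg, Φ_X B e]
    exact Submodule.mem_sup_right ⟨_, ⟨hs _ (e' ▸ hu), m⟩, e'⟩
  · have st : ∀ T : Module.End k G, St T N → St T (Co B N) → St T (N ⊔ Co B N) :=
      fun T t1 t2 u hu => by
        obtain ⟨x, hx, y, hy, rfl⟩ := Submodule.mem_sup.1 hu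
        rw [map_add]
        exact Submodule.add_mem_sup (t1 x hx) (t2 y hy)
    refine b _ ⊤ (st _ hh s1) (st _ hθ s2) (fun _ _ => trivial) (fun _ _ => trivial) fun u _ => ?_
    have hw : ∀ q, ∃ w ∈ N ⊔ Co B N, B.ev q w ≠ 0 ∧ ∀ p, p ≠ q → B.ev p w = 0 := fun q => by
      by_cases c : ∀ u ∈ N, B.ev q u = 0
      · obtain ⟨L, l1, l2, l3⟩ := h2 k G B.θ N B.fg hθ (a N hh hθ hs) (B.ev q) (B.ev_θ q) c
        have e : lcoeff k 0 ∘ₗ L = B.ev q := LinearMap.ext l3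
        refine ⟨_, Submodule.mem_sup_right ⟨L, ⟨l1, l2⟩, rfl⟩, ?_, fun p hp => ?_⟩
        · rw [ev_Φ, e]
          exact B.j0 q
        · rw [ev_Φ, e]
          exact B.j1 hp.symm
      · push Not at c
        obtain ⟨u, hu, c⟩ := c
        exact (loc B N hh hu c).imp fun w h => ⟨Submodule.mem_sup_left h.1, h.2⟩
    choose w w1 w2 w3 using hw
    obtain ⟨v, hv⟩ := (B.ker (u - ∑ p, (B.ev p u / B.ev p (w p)) • w p)).1 fun q => by
      rw [map_sub, map_sum, Finset.sum_eq_single q, map_smul, smul_eq_mul,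
        div_mul_cancel₀ _ (w2 q), sub_self]
      · intro p _ h
        rw [map_smul, w3 p q h.symm, smul_zero]
      · simp
    rw [eq_add_of_sub_eq' hv]
    exact Submodule.add_mem_sup (sum_mem fun p _ => Submodule.smul_mem _ _ (w1 p)) ⟨v, trivial, rfl⟩

end

end Pool.Agent.MP_05b4bd_ag.UM

end MrgPart3

-- ======== part 4: formerly Pool.Agent.MP_05b4bd_ag.um.Vec
section MrgPart4

/-! An invariant rational vector field. -/

namespace Pool.Agent.MP_05b4bd_ag.UM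

open ES Polynomial Matrix
open scoped TensorProduct PowerSeries LaurentSeries

namespace Vec

variable {k ι : Type} [Field k] [Fintype ι] {d : ℕ}

theorem mv_d (A : Matrix ι ι k) (v : ι → k⸨X⸩) :
    dV k ι d (A.map (cL k) *ᵥ v) = A.map (cL k) *ᵥ dV k ι d v := by
  ext1 i
  simp only [dV_apply, mulVec, dotProduct, map_sum, map_apply, dK_mul, dK_cL, zero_mul, zero_add]

theorem mv_phi {φ : k⸨X⸩ →+* k⸨X⸩} (h : ∀ c, φ (cL k c) = cL k c) (A : Matrix ι ι k)
    (v : ι → k⸨X⸩) (i : ι) : φ ((A.map (cL k) *ᵥ v) i) = (A.map (cL k) *ᵥ fun j => φ (v j)) i := by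
  simp only [mulVec, dotProduct, map_sum, map_apply, map_mul, h]

theorem mv_cv (A : Matrix ι ι k) (v : ι → k⸨X⸩) (m : ℤ) :
    cv m (A.map (cL k) *ᵥ v) = A *ᵥ cv m v := by
  ext1 i
  simp only [cv, mulVec, dotProduct, map_apply, HahnSeries.coeff_sum, coeff_cL_mul]

theorem b_d (A : Matrix ι ι k) (v w : ι → k⸨X⸩) : dK k d (v ⬝ᵥ A.map (cL k) *ᵥ w) =
    dV k ι d v ⬝ᵥ A.map (cL k) *ᵥ w + v ⬝ᵥ A.map (cL k) *ᵥ dV k ι d w := by
  rw [← mv_d]
  simp only [dotProduct, map_sum, dK_mul, dV_apply, Finset.sum_add_distrib]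

theorem b_phi {φ : k⸨X⸩ →+* k⸨X⸩} (h : ∀ c, φ (cL k c) = cL k c) (A : Matrix ι ι k)
    (v w : ι → k⸨X⸩) : φ (v ⬝ᵥ A.map (cL k) *ᵥ w) =
      (fun j => φ (v j)) ⬝ᵥ A.map (cL k) *ᵥ fun j => φ (w j) := by
  simp only [dotProduct, map_sum, map_mul, mv_phi h]

theorem b_sk {R : Type} [CommRing R] {Y Z : Matrix ι ι R} (h : Yᵀ = -Y) (h' : Y * Z * Y = Y)
    (w w' : ι → R) : Y *ᵥ w ⬝ᵥ Z *ᵥ Y *ᵥ w' = -(Y *ᵥ w' ⬝ᵥ Z *ᵥ Y *ᵥ w) := by
  have e : ∀ a b : ι → R, Y *ᵥ a ⬝ᵥ b = -(a ⬝ᵥ Y *ᵥ b) := fun a b => by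
    rw [dotProduct_mulVec, ← mulVec_transpose, h, neg_mulVec, neg_dotProduct, neg_neg]
  rw [e w, e w', mulVec_mulVec, mulVec_mulVec, h', mulVec_mulVec, mulVec_mulVec, h', ← e w',
    dotProduct_comm]

end Vec

open Vec

theorem vecS (h1 : PilStmt) (h2 : LatStmt) (h3 : FlatStmt) (h4 : ResStmt) : VecStmt := by
  intro k G ι _ _ _ _ _ _ n d B P e φ g T S
  obtain ⟨Y0, Z, yt, Δ, F⟩ := h3 k G ι n d B P e T
  obtain ⟨r1, r2⟩ := h4 k G ι n d B P e T Y0 Z yt Δ F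
  obtain ⟨p, hp⟩ := S.g0
  have hd := T.d1
  have f0 := dphi_ne hd S.fc
  have ch := S.chain
  have p0 : (fun j => φ (P (B.θ g) j)) = dK k d (φ (hW k d)) • P (B.θ g) := funext S.inv
  generalize dK k d (φ (hW k d)) = f at f0 ch p0 ⊢
  by_cases c : ((1 - Y0 * Z).map (cL k)) *ᵥ P (B.θ g) = 0
  swap
  · obtain ⟨i, hi⟩ := Function.ne_iff.1 c
    refine ⟨_, ?_, hi, by rw [mv_phi S.fc, p0, mulVec_smul]; rfl⟩
    obtain ⟨w, hw, -⟩ := F.yw p
    have a := (h1 k G ι n d B P e T).1 (LinearMap.ker (1 - Y0 * Z).mulVecLin) (yt p) (r1 p)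
      (fun m _ => by
        rw [LinearMap.mem_ker, mulVecLin_apply, hw, mv_cv, mulVec_mulVec, sub_mul, one_mul, F.gi,
          sub_self, zero_mulVec]) (B.θ g)
    obtain ⟨q, hq⟩ := (pol_iff hd ((((1 - Y0 * Z).map (cL k)) *ᵥ P (B.θ g)) i)).2 fun m hm =>
      (congrFun (mv_cv (1 - Y0 * Z) (P (B.θ g)) m) i).trans (congrFun (a m hm) i)
    exact hq ▸ ae_mem _ q
  have sk : (Y0.map (cL k))ᵀ = -Y0.map (cL k) := by
    rw [← transpose_map, F.sk, Matrix.map_neg _ (map_neg _)]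
  have gi : Y0.map (cL k) * Z.map (cL k) * Y0.map (cL k) = Y0.map (cL k) := by
    rw [← Matrix.map_mul, ← Matrix.map_mul, F.gi]
  obtain ⟨w0, e0⟩ : ∃ w, P (B.θ g) = Y0.map (cL k) *ᵥ w := by
    refine ⟨Z.map (cL k) *ᵥ P (B.θ g), ?_⟩
    rw [Matrix.map_sub _ (map_sub _), Matrix.map_one _ (map_zero _) (map_one _), sub_mulVec,
      one_mulVec, sub_eq_zero, Matrix.map_mul, ← mulVec_mulVec] at c
    exact c
  have e1 : P g = Y0.map (cL k) *ᵥ dV k ι d w0 := by rw [← T.Pθ g, e0, mv_d]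
  have e2 : dV k ι d (P g) = Y0.map (cL k) *ᵥ dV k ι d (dV k ι d w0) := by rw [e1, mv_d]
  have : CharZero k⸨X⸩ := (cL k).charZero_iff (cL k).injective |>.1 inferInstance
  have z : ∀ w, Y0.map (cL k) *ᵥ w ⬝ᵥ Z.map (cL k) *ᵥ Y0.map (cL k) *ᵥ w = 0 := fun w =>
    CharZero.eq_neg_self_iff.1 (b_sk sk gi w w)
  have z0 : P (B.θ g) ⬝ᵥ Z.map (cL k) *ᵥ P (B.θ g) = 0 := by rw [e0]; exact z _
  have z1 : P g ⬝ᵥ Z.map (cL k) *ᵥ P g = 0 := by rw [e1]; exact z _
  have cv : ∀ v : ι → k⸨X⸩, dV k ι d (fun j => φ (v j)) = f • fun j => φ (dV k ι d v j) :=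
    fun v => funext fun i => ch (v i)
  have p1 : (fun j => φ (P g j)) = P g + (dK k d f / f) • P (B.θ g) := by
    have a := cv (P (B.θ g))
    rw [p0, dV_smul, T.Pθ] at a
    refine smul_right_injective _ f0 ?_
    show f • _ = f • _
    rw [← a, smul_add, smul_smul, mul_div_cancel₀ _ f0, add_comm]
  have p2 : (f • fun j => φ (dV k ι d (P g) j)) =
      dV k ι d (P g) + (dK k d (dK k d f / f) • P (B.θ g) + (dK k d f / f) • P g) := by
    rw [← cv, p1, map_add, dV_smul, T.Pθ]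
  by_cases s1 : P (B.θ g) ⬝ᵥ Z.map (cL k) *ᵥ P g = 0
  swap
  · obtain ⟨r, hr⟩ := F.rat _ _ _ _ e0 e1
    refine ⟨_, ⟨r, Δ, ah_ne hd F.Δ0, by rw [mul_comm]; exact hr⟩, s1, ?_⟩
    rw [b_phi S.fc, p0, p1, mulVec_add, mulVec_smul, smul_dotProduct, dotProduct_add,
      dotProduct_smul, z0, smul_zero, add_zero, smul_eq_mul]
  have s1' : P g ⬝ᵥ Z.map (cL k) *ᵥ P (B.θ g) = 0 := by
    rw [e0, e1] at s1 ⊢
    rw [b_sk sk gi, s1, neg_zero]
  have s2 : P (B.θ g) ⬝ᵥ Z.map (cL k) *ᵥ dV k ι d (P g) = 0 := by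
    have a := b_d (d := d) Z (P (B.θ g)) (P g)
    rw [s1, map_zero, T.Pθ, z1, zero_add] at a
    exact a.symm
  have s3 := r2 g p _ hp e1
  have s4 : f * φ (P g ⬝ᵥ Z.map (cL k) *ᵥ dV k ι d (P g)) =
      P g ⬝ᵥ Z.map (cL k) *ᵥ dV k ι d (P g) := by
    rw [b_phi S.fc, ← smul_eq_mul, ← dotProduct_smul, ← mulVec_smul, p2, p1]
    simp only [mulVec_add, mulVec_smul, add_dotProduct, dotProduct_add, smul_dotProduct,
      dotProduct_smul, z0, z1, s1, s1', s2, smul_zero, add_zero]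
  obtain ⟨q, u, q0, hu⟩ := (h2 k G ι n d B P e T).1 (P g) ⟨1, g, one_ne_zero, by simp⟩
  obtain ⟨r, hr⟩ := F.rat g u _ (ae (hW k d) q • dV k ι d (dV k ι d w0)) e1
    (by rw [← hu, e2, mulVec_smul])
  refine ⟨(P g ⬝ᵥ Z.map (cL k) *ᵥ dV k ι d (P g))⁻¹, (KK (hW k d)).inv_mem
    ⟨r, Δ * q, ah_ne hd (mul_ne_zero F.Δ0 q0), ?_⟩, inv_ne_zero s3, ?_⟩
  · rw [← hr, ← hu, mulVec_smul, dotProduct_smul, smul_eq_mul, map_mul]
    ring
  · rw [map_inv₀, eq_div_of_mul_eq f0 ((mul_comm _ _).trans s4), inv_div, div_eq_mul_inv]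

end Pool.Agent.MP_05b4bd_ag.UM

end MrgPart4

-- marker of a merged file
example : 731051 + 24922 = 731051 + 24922 := rfl
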