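import Pool.Agent.MP_05b4bd_ag.um.Tr
import Pool.Agent.MP_05b4bd_ag.um.Vec
import Mathlib.LinearAlgebra.Eigenspace.Triangularizable
import Mathlib.LinearAlgebra.Matrix.ToLinearEquiv
import Mathlib.Data.Nat.Order.Lemmas
import Mathlib.Algebra.Polynomial.Module.AEval
import Mathlib.LinearAlgebra.FreeModule.PID
import Mathlib.Algebra.Module.Projective
import Mathlib.RingTheory.PowerSeries.Inverse
import Mathlib.FieldTheory.IsAlgClosed.Basic
import Pool.Agent.MP_05b4bd_ag.um.Cfl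
import Pool.Agent.MP_05b4bd_ag.pc3.Ts2

-- ======== part 0: formerly Pool.Agent.MP_05b4bd_ag.um.Bas
section MrgPart0

/-! Monomials that give a basis modulo the brackets with a form. -/

namespace Pool.Agent.MP_05b4bd_ag.UM

open MvPolynomial HC
open ES hiding Gen GenTopStmt GenJacStmt IlAbsStmt InvStmt3 Inf
open ES.U

namespace BasR

variable {k : Type} [Field k]

theorem eul {m d : ℕ} {A B F : R2 k} (hA : A.IsHomogeneous m) (hB : B.IsHomogeneous m)
    (hF : F.IsHomogeneous d) : ((m : R2 k) + 1) * (A * pderiv 0 F + B * pderiv 1 F) =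
      br (X 0 * B - X 1 * A) F + (d : R2 k) * F * (pderiv 0 A + pderiv 1 B) := by
  have h1 := HC.euler hA
  have h2 := HC.euler hB
  have h3 := HC.euler hF
  simp only [br, map_sub, pderiv_mul, pderiv_X_self, pderiv_X_of_ne (zero_ne_one' (Fin 2)),
    pderiv_X_of_ne (one_ne_zero' (Fin 2))]
  linear_combination (-pderiv 0 F) * h1 - pderiv 1 F * h2 + (pderiv 0 A + pderiv 1 B) * h3

theorem jac {e : ℕ} (n : ℕ) {F u : R2 k} (hF : F.IsHomogeneous (e + 1)) (hu : u ∈ Jac F) :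
    hc n u = 0 ∨ ∃ (m : ℕ) (A B : R2 k), n = m + e ∧ A.IsHomogeneous m ∧ B.IsHomogeneous m ∧
      hc n u = A * pderiv 0 F + B * pderiv 1 F := by
  obtain ⟨s, t, rfl⟩ := Ideal.mem_span_pair.1 hu
  by_cases h : e ≤ n
  · obtain ⟨m, rfl⟩ : ∃ m, n = m + e := ⟨n - e, by omega⟩
    exact Or.inr ⟨m, _, _, rfl, hc_hom m s, hc_hom m t, by
      rw [hc_add, hc_mul_hom _ _ (hom_pderiv 0 hF), hc_mul_hom _ _ (hom_pderiv 1 hF)]⟩
  · exact Or.inl (hc_of_mm (add_mem (Ideal.mul_mem_left _ _ (mm_hom (hom_pderiv 0 hF)))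
      (Ideal.mul_mem_left _ _ (mm_hom (hom_pderiv 1 hF)))) (by omega))

theorem mon (J : Ideal (R2 k)) {M : ℕ} (h0 : X 0 ^ M ∈ J) (h1 : X 1 ^ M ∈ J) :
    ∃ (m : ℕ) (e : Fin m → R2 k) (δ : Fin m → ℕ), (∀ i, (e i).IsHomogeneous (δ i)) ∧
      (∀ a : Fin m → k, ∑ i, C (a i) * e i ∈ J → a = 0) ∧
      ∀ r, ∃ a : Fin m → k, r - ∑ i, C (a i) * e i ∈ J := by
  let q : R2 k →ₗ[k] R2 k ⧸ J := (Ideal.Quotient.mkₐ k J).toLinearMap
  have hq : ∀ u, q u = 0 ↔ u ∈ J := fun u => Ideal.Quotient.eq_zero_iff_mem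
  let w : Fin M × Fin M → R2 k := fun p => X 0 ^ (p.1 : ℕ) * X 1 ^ (p.2 : ℕ)
  obtain ⟨κ, a, ha, hs, hl⟩ := exists_linearIndependent' k (q ∘ w)
  have : Finite κ := Finite.of_injective a ha
  obtain ⟨m, ⟨ε⟩⟩ := Finite.exists_equiv_fin κ
  have hsum : ∀ c : Fin m → k, q (∑ i, C (c i) * w (a (ε.symm i))) =
      ∑ i, c i • q (w (a (ε.symm i))) := fun c => by
    rw [map_sum]
    exact Finset.sum_congr rfl fun i _ => by rw [C_mul', map_smul]
  refine ⟨m, fun i => w (a (ε.symm i)), fun i => (a (ε.symm i)).1 + (a (ε.symm i)).2,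
    fun i => (isHomogeneous_X_pow _ _).mul (isHomogeneous_X_pow _ _), fun c hc => ?_, fun r => ?_⟩
  · exact funext (Fintype.linearIndependent_iff.1 (hl.comp ε.symm ε.symm.injective) c
      ((hsum c).symm.trans ((hq _).2 hc)))
  · have h2 : q r ∈ Submodule.span k (Set.range (q ∘ w)) := by
      induction r using MvPolynomial.induction_on' with
      | add p p' hp hp' => rw [map_add]; exact add_mem hp hp'
      | monomial u c =>
        rw [monomial_eq, Finsupp.prod_fintype _ _ (by simp), Fin.prod_univ_two, C_mul', map_smul]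
        refine Submodule.smul_mem _ _ ?_
        by_cases g0 : u 0 < M
        · by_cases g1 : u 1 < M
          · exact Submodule.subset_span ⟨(⟨_, g0⟩, ⟨_, g1⟩), rfl⟩
          · rw [(hq _).2 (J.mul_mem_left _ (J.pow_mem_of_pow_mem h1 (not_lt.1 g1)))]
            exact zero_mem _
        · rw [(hq _).2 (J.mul_mem_right _ (J.pow_mem_of_pow_mem h0 (not_lt.1 g0)))]
          exact zero_mem _
    rw [← hs, ← ε.symm.surjective.range_comp, Submodule.mem_span_range_iff_exists_fun] at h2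
    obtain ⟨c, hc⟩ := h2
    exact ⟨c, (hq _).1 (by rw [map_sub, hsum, ← hc]; exact sub_self _)⟩

theorem pd_zero {A : R2 k} (i : Fin 2) (h : A.IsHomogeneous 0) : pderiv i A = 0 := by
  rw [← hc_self h, hc, homogeneousComponent_zero, pderiv_C]

end BasR

open BasR in
theorem basS : BasStmt := by
  intro k _ _ d F hd hF ⟨M, h0, h1⟩
  obtain ⟨d, rfl⟩ : ∃ e, d = e + 1 := ⟨d - 1, by omega⟩
  obtain ⟨m, e, δ, he, hi, hs⟩ := mon _ h0 h1
  refine ⟨m, e, δ, he, hi, fun n => ?_⟩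
  induction n using Nat.strong_induction_on with
  | _ n ih =>
  intro r hr
  obtain ⟨a, ha⟩ := hs r
  have h2 : hc n (r - ∑ i, C (a i) * e i) =
      r - ∑ i, C (if δ i = n then a i else 0) * e i := by
    rw [hc_sub, hc_self hr, hc, map_sum]
    congr 1
    refine Finset.sum_congr rfl fun i _ => ?_
    rw [homogeneousComponent_C_mul]
    split_ifs with h
    · rw [homogeneousComponent_eq_self (h ▸ he i)]
    · rw [show homogeneousComponent n (e i) = 0 from hc_ne (he i) (Ne.symm h)]; simp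
  have base : ∀ η, r - ∑ i, C (if δ i = n then a i else 0) * e i = br η F →
      ∃ (a : Fin m → k) (j : Fin m → ℕ) (η : R2 k), (∀ i, a i ≠ 0 → δ i + (d + 1) * j i = n) ∧
        r = ∑ i, C (a i) * F ^ j i * e i + br η F := fun η h =>
    ⟨fun i => if δ i = n then a i else 0, fun _ => 0, η,
      fun i hi => by by_contra g; exact hi (if_neg g), by simp [← h]⟩
  rcases BasR.jac n hF ha with h | ⟨l, A, B, rfl, hA, hB, h⟩
  · exact base 0 (by rw [← h2, h, Esc.br_zero])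
  have h3 := eul hA hB hF
  have h4 : (C ((l : k) + 1)⁻¹ : R2 k) * ((l : R2 k) + 1) = 1 := by
    rw [← map_natCast (C : k →+* R2 k), ← C_1, ← C_add, ← C_mul,
      inv_mul_cancel₀ (Nat.cast_add_one_ne_zero l)]
  have h5 : ∀ (c : k) (u : R2 k), br (C c * u) F = C c * br u F := fun c u => by
    rw [Esc.br_mul, Esc.br_C]; ring
  rw [h2] at h
  rcases l with _ | l
  · refine base (X 0 * B - X 1 * A) ?_
    rw [pd_zero 0 hA, pd_zero 1 hB] at h3
    rw [h]
    simpa using h3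
  obtain ⟨b, j, η, hb, h6⟩ := ih l (by omega) _ ((hom_pderiv 0 hA).add (hom_pderiv 1 hB))
  set c : k := (((l + 1 : ℕ) : k) + 1)⁻¹
  refine ⟨fun i => if δ i = l + 1 + d then a i else c * (d + 1 : ℕ) * b i,
    fun i => if δ i = l + 1 + d then 0 else j i + 1,
    C c * (X 0 * B - X 1 * A) + C (c * (d + 1 : ℕ)) * (F * η), fun i hi => ?_, ?_⟩
  · by_cases g : δ i = l + 1 + d
    · simp [g]
    · simp only [if_neg g] at hi ⊢
      have := hb i (right_ne_zero_of_mul hi)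
      rw [mul_add, ← add_assoc, this]
      omega
  · have h7 : ∑ i, C (if δ i = l + 1 + d then a i else c * (d + 1 : ℕ) * b i) *
        F ^ (if δ i = l + 1 + d then 0 else j i + 1) * e i =
        ∑ i, C (if δ i = l + 1 + d then a i else 0) * e i +
          C c * ((d + 1 : ℕ) : R2 k) * F * ∑ i, C (b i) * F ^ j i * e i := by
      rw [Finset.mul_sum, ← Finset.sum_add_distrib]
      refine Finset.sum_congr rfl fun i _ => ?_
      split_ifs with g
      · have : b i = 0 := by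
          by_contra g'
          have := hb i g'
          omega
        simp [this]
      · rw [C_mul, C_mul, map_natCast, C_0]; ring
    rw [h7, Esc.br_add, h5, h5, Esc.br_F_mul, C_mul, map_natCast]
    rw [h6] at h3
    linear_combination h + C c * h3 - (A * pderiv 0 F + B * pderiv 1 F) * h4

end Pool.Agent.MP_05b4bd_ag.UM

end MrgPart0

-- ======== part 1: formerly Pool.Agent.MP_05b4bd_ag.um.Cy
section MrgPart1

/-! The cyclic family generated by an invariant vector. -/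

namespace Pool.Agent.MP_05b4bd_ag.UM

open ES Polynomial
open scoped TensorProduct PowerSeries LaurentSeries

noncomputable section

namespace CyR

/-- A linear relation between rational vectors can be taken with rational coefficients. -/
theorem desc {K V ι κ : Type} [Field K] [AddCommGroup V] [Module K V] [Fintype ι] [Fintype κ]
    (F : Subfield K) {E : ι → V} (hE : LinearIndependent K E) {v : κ → V} {w : V}
    (hv : ∀ j, ∃ α : ι → K, (∀ i, α i ∈ F) ∧ v j = ∑ i, α i • E i)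
    (hw : ∃ α : ι → K, (∀ i, α i ∈ F) ∧ w = ∑ i, α i • E i)
    (h : w ∈ Submodule.span K (Set.range v)) :
    ∃ ρ : κ → K, (∀ j, ρ j ∈ F) ∧ w = ∑ j, ρ j • v j := by
  choose α hα hv using hv
  obtain ⟨β, hβ, hw⟩ := hw
  obtain ⟨ρ, hρ⟩ := (Submodule.mem_span_range_iff_exists_fun K).1 h
  obtain ⟨π, hπ⟩ := (Algebra.linearMap F K).exists_leftInverse_of_injective
    (LinearMap.ker_eq_bot.2 Subtype.val_injective)
  have key : ∀ ρ : κ → K, ∑ j, ρ j • v j = ∑ i, (∑ j, ρ j * α j i) • E i := fun ρ => by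
    simp only [hv, Finset.smul_sum, smul_smul, Finset.sum_smul]
    exact Finset.sum_comm
  have e : ∀ i, β i - ∑ j, ρ j * α j i = 0 := Fintype.linearIndependent_iff.1 hE _ (by
    simp only [sub_smul, Finset.sum_sub_distrib]
    rw [← key, ← hw, hρ, sub_self])
  refine ⟨fun j => π (ρ j), fun j => (π (ρ j)).2, ?_⟩
  rw [key, hw]
  refine Finset.sum_congr rfl fun i _ => ?_
  congr 1
  have h1 : π (β i) = ⟨β i, hβ i⟩ := LinearMap.congr_fun hπ ⟨β i, hβ i⟩
  have h2 : ∀ j, π (ρ j * α j i) = π (ρ j) * ⟨α j i, hα j i⟩ := fun j => by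
    rw [mul_comm (π _), mul_comm (ρ j)]
    exact π.map_smul ⟨α j i, hα j i⟩ (ρ j)
  have h3 := congrArg (fun a => (π a : K)) (sub_eq_zero.1 (e i))
  simpa only [h1, h2, map_sum, AddSubmonoidClass.coe_finsetSum, MulMemClass.coe_mul] using h3

variable {k G ι : Type} [Field k] [AddCommGroup G] [Module k G] [Fintype ι] [DecidableEq ι]
  {n d : ℕ} {B : BM k G n} {P : G →ₗ[k] ι → k⸨X⸩} {e : ι → G}

theorem in_smul (T : TD B d P e) {a : k⸨X⸩} (ha : a ∈ KK (hW k d)) {v : ι → k⸨X⸩}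
    (hv : InM d P v) : InM d P (a • v) := by
  obtain ⟨r, q, h1, h2⟩ := ha
  obtain ⟨q', u, h3, h4⟩ := hv
  refine ⟨q * q', aeval B.h r u, mul_ne_zero (fun h => h1 (by rw [h, map_zero])) h3, ?_⟩
  rw [T.Pq, ← h4, ← h2, map_mul, smul_smul, smul_smul]
  congr 1; ring

theorem in_add (T : TD B d P e) {v w : ι → k⸨X⸩} (hv : InM d P v) (hw : InM d P w) :
    InM d P (v + w) := by
  obtain ⟨q, u, h1, h2⟩ := hv
  obtain ⟨q', u', h3, h4⟩ := hw
  refine ⟨q * q', aeval B.h q' u + aeval B.h q u', mul_ne_zero h1 h3, ?_⟩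
  rw [map_add, T.Pq, T.Pq, ← h2, ← h4, map_mul, smul_add, smul_smul, smul_smul, mul_comm]

theorem in_coord (T : TD B d P e) {v : ι → k⸨X⸩} (hv : InM d P v) :
    ∃ α : ι → k⸨X⸩, (∀ i, α i ∈ KK (hW k d)) ∧ v = ∑ i, α i • P (e i) := by
  obtain ⟨q, u, h1, h2⟩ := hv
  obtain ⟨r, hr⟩ := T.span u
  refine ⟨fun i => (ae (hW k d) q)⁻¹ * ae (hW k d) (r i),
    fun i => mul_mem (inv_mem (ae_mem _ _)) (ae_mem _ _), ?_⟩
  simp only [mul_smul, ← Finset.smul_sum, ← T.Pq, ← map_sum, ← hr, ← h2]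
  rw [inv_smul_smul₀ (ah_ne T.d1 h1)]

omit [Fintype ι] [DecidableEq ι] in
theorem ksmul (c : k) (v : ι → k⸨X⸩) : c • v = cL k c • v := funext fun i => smul_cL c (v i)

/-- A rational eigenvector of `s d / dh` vanishes. -/
theorem eig [CharZero k] (h1 : PilStmt) (T : TD B d P e) {s : k⸨X⸩} (hs : s ≠ 0)
    {z : ι → k⸨X⸩} (hz : InM d P z) {μ : k} (h : s • dV k ι d z = μ • z) : z = 0 := by
  by_contra h0
  obtain ⟨i0, hi⟩ := Function.ne_iff.1 h0
  have hi : z i0 ≠ 0 := hi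
  have c : ∀ i, ∃ c, z i / z i0 = cL k c := fun i => const_dK T.d1 (by
    have a := dK_mul d (z i / z i0) (z i0)
    rw [div_mul_cancel₀ _ hi] at a
    have b : ∀ i, s * dK k d (z i) = cL k μ * z i := fun i => by
      rw [← smul_cL]; exact congrFun h i
    have f := div_mul_cancel₀ (z i) hi
    refine (mul_eq_zero.1 (show (s * z i0) * dK k d (z i / z i0) = 0 from ?_)).resolve_left
      (mul_ne_zero hs hi)
    linear_combination b i - s * a - (z i / z i0) * b i0 - cL k μ * f)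
  choose c hc using c
  obtain ⟨q, u, h2, h3⟩ := hz
  have hu : u = 0 := (h1 k G ι n d B P e T).2 c u fun m _ =>
    ⟨(ae (hW k d) q * z i0).coeff m, funext fun i => by
      rw [cv, ← h3, Pi.smul_apply, Pi.smul_apply, smul_eq_mul, smul_eq_mul,
        ← div_mul_cancel₀ (z i) hi, hc, mul_left_comm, coeff_cL_mul, mul_comm]⟩
  rw [hu, map_zero] at h3
  exact h0 ((smul_eq_zero.1 h3).resolve_left (ah_ne T.d1 h2))

end CyR

open CyR in
theorem cyS (h1 : PilStmt) (h2 : LatStmt) : CyStmt := by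
  intro k G ι _ _ _ _ _ _ _ n d B P e φ g s T S hs hs0 hφ
  have hs : s ∈ KK (hW k d) := hs
  obtain ⟨D, hD⟩ : ∃ D : Module.End k (ι → k⸨X⸩), ∀ v, D v = s • dV k ι d v :=
    ⟨mV ι s * dV k ι d, fun _ => rfl⟩
  obtain ⟨w, w0, w1⟩ : ∃ w : ℕ → ι → k⸨X⸩, w 0 = s⁻¹ • P (B.θ g) ∧ ∀ j, w (j + 1) = D (w j) :=
    ⟨fun j => D^[j] (s⁻¹ • P (B.θ g)), rfl, fun j => Function.iterate_succ_apply' _ _ _⟩
  have hp := dphi_ne T.d1 S.fc
  have wf : ∀ j i, φ (w j i) = w j i := fun j => by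
    induction j with
    | zero =>
      intro i
      rw [w0, Pi.smul_apply, smul_eq_mul, map_mul, map_inv₀, hφ, S.inv]
      field_simp
    | succ j ih =>
      intro i
      rw [w1, hD, Pi.smul_apply, smul_eq_mul, dV_apply, map_mul, hφ]
      conv_rhs => rw [← ih i, S.chain]
      ring
  have wr : ∀ j, InM d P (w j) := fun j => by
    induction j with
    | zero => rw [w0]; exact in_smul T (inv_mem hs) ⟨1, B.θ g, one_ne_zero, by simp⟩
    | succ j ih => rw [w1, hD]; exact in_smul T hs ((h2 k G ι n d B P e T).1 _ ih)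
  have wn : w 0 ≠ 0 := fun h => by
    rw [w0] at h
    have h := (smul_eq_zero.1 h).resolve_left (inv_ne_zero hs0)
    have h3 : B.θ g = 0 := (h1 k G ι n d B P e T).2 0 _ fun m _ =>
      ⟨0, funext fun i => by rw [h]; simp [cv]⟩
    obtain ⟨p, hp⟩ := S.g0
    exact hp (by rw [B.inj (h3.trans (map_zero _).symm), map_zero])
  obtain ⟨m, m1, m2⟩ := Nat.exists_not_and_succ_of_not_zero_of_exists
    (p := fun m => ¬ LinearIndependent k⸨X⸩ fun j : Fin m => w j)
    (not_not.2 linearIndependent_empty_type) ⟨Module.finrank k⸨X⸩ (ι → k⸨X⸩) + 1, fun h => by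
      have := h.fintype_card_le_finrank
      rw [Fintype.card_fin] at this
      omega⟩
  rw [not_not] at m1
  have m3 : w m ∈ Submodule.span k⸨X⸩ (Set.range fun j : Fin m => w j) := by
    by_contra h
    exact m2 (linearIndependent_finSucc'.2 ⟨m1, h⟩)
  have m0 : 0 < m := Nat.pos_of_ne_zero fun h => by
    subst h
    exact wn (by simpa using m3)
  have hE : LinearIndependent k⸨X⸩ fun j => P (e j) :=
    Matrix.linearIndependent_cols_of_det_ne_zero T.det
  have con : ∀ j : Fin m, ∃ ρ : Fin m → k⸨X⸩, (∀ i, InK (hW k d) (ρ i) ∧ φ (ρ i) = ρ i) ∧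
      s • dV k ι d (w j) = ∑ i, ρ i • w i := fun j => by
    have a : w (j + 1) ∈ Submodule.span k⸨X⸩ (Set.range fun j : Fin m => w j) := by
      by_cases h : (j : ℕ) + 1 < m
      · exact Submodule.subset_span ⟨⟨j + 1, h⟩, rfl⟩
      · rwa [show (j : ℕ) + 1 = m by have := j.2; omega]
    obtain ⟨ρ, r1, r2⟩ := desc (KK (hW k d)) hE (fun j : Fin m => in_coord T (wr j))
      (in_coord T (wr _)) a
    have b : ∀ i, φ (ρ i) - ρ i = 0 := Fintype.linearIndependent_iff.1 m1 _ (by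
      simp only [sub_smul, Finset.sum_sub_distrib]
      rw [← r2, sub_eq_zero]
      ext1 l
      rw [← wf (j + 1) l, r2]
      simp only [Finset.sum_apply, Pi.smul_apply, smul_eq_mul, map_sum, map_mul, wf])
    exact ⟨ρ, fun i => ⟨r1 i, sub_eq_zero.1 (b i)⟩, by rw [← hD, ← w1, r2]⟩
  refine ⟨m, fun j => w j, m1, fun j => wr j, ⟨⟨0, m0⟩, ?_⟩, con, ?_⟩
  · exact (congrArg _ w0).trans (smul_inv_smul₀ hs0 _)
  by_contra nc
  have nc : ∀ r, InK (hW k d) r → φ r = r → ∃ c, r = cL k c := fun r a b => by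
    by_contra h
    exact nc ⟨r, a, b, fun c hc => h ⟨c, hc⟩⟩
  obtain ⟨U, hU⟩ : ∃ U, U = Submodule.span k (Set.range fun j : Fin m => w j) := ⟨_, rfl⟩
  have u1 : ∀ j : Fin m, w j ∈ U := fun j => hU ▸ Submodule.subset_span ⟨j, rfl⟩
  have u2 : ∀ z ∈ U, D z ∈ U := by
    have : U ≤ U.comap D := by
      conv_lhs => rw [hU]
      refine Submodule.span_le.2 ?_
      rintro _ ⟨j, rfl⟩
      obtain ⟨ρ, r1, r2⟩ := con j
      show D (w j) ∈ U
      rw [hD, r2]
      refine Submodule.sum_mem _ fun i _ => ?_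
      obtain ⟨c, hc⟩ := nc _ (r1 i).1 (r1 i).2
      rw [hc, ← ksmul]
      exact U.smul_mem c (u1 i)
    exact this
  have u3 : ∀ z ∈ U, InM d P z := fun z hz => by
    rw [hU] at hz
    induction hz using Submodule.span_induction with
    | mem x hx => obtain ⟨j, rfl⟩ := hx; exact wr j
    | zero => exact ⟨1, 0, one_ne_zero, by simp⟩
    | add x y _ _ a b => exact in_add T a b
    | smul c x _ a => rw [ksmul]; exact in_smul T (cL_mem _ c) a
  have : FiniteDimensional k U := hU ▸ FiniteDimensional.span_of_finite k (Set.finite_range _)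
  have : Nontrivial U := ⟨⟨⟨w 0, u1 ⟨0, m0⟩⟩, 0, fun h => wn (congrArg Subtype.val h)⟩⟩
  obtain ⟨μ, hμ⟩ := Module.End.exists_eigenvalue (D.restrict u2)
  obtain ⟨z, hz⟩ := hμ.exists_hasEigenvector
  refine hz.2 (Subtype.ext (eig h1 T hs0 (u3 z z.2) (μ := μ) ?_))
  rw [← hD]
  exact congrArg Subtype.val hz.apply_eq_smul

end

end Pool.Agent.MP_05b4bd_ag.UM

end MrgPart1

-- ======== part 2: formerly Pool.Agent.MP_05b4bd_ag.um.Ilj
section MrgPart2

/-! Two consequences of irreducibility. -/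

namespace Pool.Agent.MP_05b4bd_ag.UM

open MvPolynomial HC
open ES hiding Gen GenTopStmt GenJacStmt IlAbsStmt InvStmt3 Inf
open ES.U

theorem ilAbsU (h : IrrStmt) : IlAbsStmt := by
  intro k M _ _ _ _ _ d f c e BB Λ hd H G hB g hg hc0 n r hr hn
  let N : Submodule k (R2 k) := ⨅ (m : ℤ) (_ : ¬ (d : ℤ) ∣ m), Λ.comap (c m)
  have hN : ∀ u, u ∈ N ↔ ∀ m : ℤ, ¬ (d : ℤ) ∣ m → c m u ∈ Λ := fun u => by
    simp only [N, Submodule.mem_iInf, Submodule.mem_comap]
  have hd0 : (d : k) ≠ 0 := Nat.cast_ne_zero.2 (by omega)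
  have up : ∀ (m : ℤ) a b, c (m - d) (a * pderiv 0 f + b * pderiv 1 f) ∈ Λ →
      c m (pderiv 0 a + pderiv 1 b) ∈ Λ := fun m a b h => by
    simpa using sub_mem (hB (G.div m a b)) (Λ.smul_mem (((m : k) - d) / d) h)
  have dn : ∀ (m : ℤ) a b, ¬ (d : ℤ) ∣ m → c (m + d) (pderiv 0 a + pderiv 1 b) ∈ Λ →
      c m (a * pderiv 0 f + b * pderiv 1 f) ∈ Λ := fun m a b hm h => by
    have h1 := sub_mem (hB (G.div (m + d) a b)) h
    rw [add_sub_cancel_left, add_sub_cancel_right] at h1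
    refine (Λ.smul_mem_iff ?_).1 h1
    have : (m : k) ≠ 0 := Int.cast_ne_zero.2 fun e => hm (e ▸ dvd_zero _)
    push_cast
    rw [add_sub_cancel_right]
    exact div_ne_zero this hd0
  have hadd : ∀ m : ℤ, (d : ℤ) ∣ m + d ↔ (d : ℤ) ∣ m := fun m => dvd_add_self_right
  have hsub : ∀ m : ℤ, (d : ℤ) ∣ m - d ↔ (d : ℤ) ∣ m := fun m => dvd_sub_self_right
  rcases (h k d f (by omega) H.2.2.1).2 N (fun v => (hN _).2 fun m _ => hB (G.ham m v))
    (fun u hu => (hN _).2 fun m hm => by rw [G.mul]; exact (hN _).1 hu _ (mt (hadd m).1 hm))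
    (fun a b => ⟨fun h => (hN _).2 fun m hm => up m a b ((hN _).1 h _ (mt (hsub m).1 hm)),
      fun h => (hN _).2 fun m hm => dn m a b hm ((hN _).1 h _ (mt (hadd m).1 hm))⟩) with h1 | h1
  · obtain ⟨v, hv⟩ := h1 g ((hN g).2 hc0)
    exact (hg v hv).elim
  have hr1 := DL.of_hom hr
  have h7 := (hN r).1 (h1 ▸ Submodule.mem_top) (d - 2 - n) fun h => hn (by
    have := dvd_sub (dvd_refl (d : ℤ)) h
    rw [show (d : ℤ) - (d - 2 - n) = ((n + 2 : ℕ) : ℤ) by omega] at this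
    exact_mod_cast this)
  rwa [G.lead n r hr1, hc_self hr] at h7

namespace Ilj

variable {k : Type} [Field k]

theorem hc1_tr (p : Fin 2 → k) (u : R2 k) :
    hc 1 (tr p u) = HC.lf (eval p (pderiv 0 u)) (eval p (pderiv 1 u)) := by
  rw [hom1_eq (hc_hom 1 _), co_hc 1 0, co_hc 0 1, ← coeff_zero_tr, ← coeff_zero_tr, ← tr_pderiv,
    ← tr_pderiv, coeff_eq_co, coeff_eq_co, co_x, co_y]
  simp

theorem crit_mem {f : R2 k} {n : ℕ} {p : Fin n → Fin 2 → k} (H : Cr f p) {q : Fin 2 → k}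
    (hq : ∀ i, eval q (pderiv i f) = 0) : ∃ i, p i = q := by
  by_contra hn
  choose j hj using fun i => Function.ne_iff.1 fun e : p i = q => hn ⟨i, e⟩
  obtain ⟨a, b, hab⟩ := Ideal.mem_span_pair.1 (H.rad (∏ i, (X (j i) - C (p i (j i)))) fun i => by
    rw [map_prod]
    exact Finset.prod_eq_zero (Finset.mem_univ i) (by simp))
  have := congrArg (eval q) hab
  rw [map_add, map_mul, map_mul, hq, hq, mul_zero, mul_zero, add_zero, map_prod] at this
  obtain ⟨i, -, hi⟩ := Finset.prod_eq_zero_iff.1 this.symm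
  exact hj i (by simpa [sub_eq_zero, eq_comm] using hi)

end Ilj

open Esc in
theorem genJacU (h : IrrStmt) : GenJacStmt := by
  classical
  intro k _ _ _ d f hd H
  have T := H.2.2.1
  obtain ⟨n, p, hp⟩ := T.cr
  have hs : ∀ q, q ∈ Finset.univ.image p ↔ ∃ i, p i = q := fun q => by simp
  refine ⟨Finset.univ.image p, ?_, fun q => (hs q).trans ⟨?_, Ilj.crit_mem hp⟩, ?_,
    fun u hu => hp.rad u fun i => hu _ ((hs _).2 ⟨i, rfl⟩), fun q hq u hu => ?_⟩
  · by_contra h0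
    obtain ⟨e, rfl⟩ : ∃ e, d = e + 2 := ⟨d - 2, by omega⟩
    obtain ⟨a, b, hab⟩ := Ideal.mem_span_pair.1
      (hp.rad 1 fun i => (h0 ⟨p i, (hs _).2 ⟨i, rfl⟩⟩).elim)
    obtain ⟨a', b', ha, hb, h3⟩ := kos_top (n := 0) (T.dl.pderiv 0) (T.dl.pderiv 1) T.top a b
      (by rw [hab]; exact (DL_C 1).mono (by omega))
    rw [hab, ha.eq_zero, hb.eq_zero] at h3
    simp at h3
  · rintro ⟨i, rfl⟩
    exact hp.crit i
  · intro q hq q' hq' e
    obtain ⟨i, rfl⟩ := (hs q).1 hq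
    obtain ⟨j, rfl⟩ := (hs q').1 hq'
    rw [hp.inj e]
  obtain ⟨i, rfl⟩ := (hs q).1 hq
  have l2 : loc f (p i) ∈ mm k ^ 2 := Crit.loc_mm (hp.crit i)
  have ci : CI (hc 1 (pderiv 0 (loc f (p i)))) (hc 1 (pderiv 1 (loc f (p i)))) := by
    rw [pderiv_loc, pderiv_loc, Ilj.hc1_tr, Ilj.hc1_tr]
    exact CI_lf (by simpa only [br, map_sub, map_mul] using hp.hess i)
  have e1 : ∀ a b : R2 k, tr (p i) (a * pderiv 0 f + b * pderiv 1 f) =
      tr (p i) a * pderiv 0 (loc f (p i)) + tr (p i) b * pderiv 1 (loc f (p i)) := fun a b => by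
    simp only [map_add, map_mul, pderiv_loc]
  have e2 : ∀ a b : R2 k, tr (p i) (pderiv 0 a + pderiv 1 b) =
      pderiv 0 (tr (p i) a) + pderiv 1 (tr (p i) b) := fun a b => by
    simp only [map_add, tr_pderiv]
  rcases (h k d f (by omega) T).2 ((NN (loc f (p i))).comap (tr (p i)).toLinearMap)
    (fun v M => ⟨tr (p i) v, by simp [tr_br]⟩)
    (fun w hw M => by
      obtain ⟨g, hg⟩ := hw M
      refine ⟨tr (p i) f * g, ?_⟩
      have : br (tr (p i) f * g) (loc f (p i)) = tr (p i) f * br g (loc f (p i)) := by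
        simp only [br, pderiv_mul, pderiv_loc, tr_pderiv]; ring
      rw [this, AlgHom.toLinearMap_apply, map_mul, ← mul_sub]
      exact Ideal.mul_mem_left _ _ hg)
    (fun a b => ⟨fun hw M => by
      obtain ⟨g, hg⟩ := hw (M + 2)
      rw [AlgHom.toLinearMap_apply, e1] at hg
      rw [AlgHom.toLinearMap_apply, e2]
      exact ham_down l2 ci hg, fun hw M => by
      obtain ⟨g, hg⟩ := hw M
      rw [AlgHom.toLinearMap_apply, e2] at hg
      rw [AlgHom.toLinearMap_apply, e1]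
      exact ham_up hg⟩) with h1 | h1
  · exact h1 u hu
  · obtain ⟨g, hg⟩ := (h1 ▸ Submodule.mem_top :
      (1 : R2 k) ∈ (NN (loc f (p i))).comap (tr (p i)).toLinearMap) 1
    have := add_mem hg (sub_mem (Ideal.mul_mem_left _ (pderiv 0 g) (mm_pderiv 1 l2))
      (Ideal.mul_mem_left _ (pderiv 1 g) (mm_pderiv 0 l2)))
    rw [br, sub_add_cancel, mem_mm_one] at this
    simp at this

end Pool.Agent.MP_05b4bd_ag.UM

end MrgPart2

-- ======== part 3: formerly Pool.Agent.MP_05b4bd_ag.um.Int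
section MrgPart3

/-! The pairing is integral on the lattice. -/

namespace Pool.Agent.MP_05b4bd_ag.UM

open ES Polynomial
open scoped TensorProduct PowerSeries LaurentSeries

noncomputable section

namespace IntR
variable {k ι : Type} [Field k]

/-- Rational functions of `h` that are regular at `h = b`. -/
def O (d : ℕ) (b : k) : Subring k⸨X⸩ where
  carrier := {a | ∃ r q : k[X], q.eval b ≠ 0 ∧ a * ae (hW k d) q = ae (hW k d) r}
  zero_mem' := ⟨0, 1, by simp, by simp⟩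
  one_mem' := ⟨1, 1, by simp, by simp⟩
  add_mem' := by
    rintro a a' ⟨r, q, h1, h2⟩ ⟨r', q', h1', h2'⟩
    refine ⟨r * q' + r' * q, q * q', by rw [eval_mul]; exact mul_ne_zero h1 h1', ?_⟩
    simp only [map_add, map_mul, ← h2, ← h2']; ring
  mul_mem' := by
    rintro a a' ⟨r, q, h1, h2⟩ ⟨r', q', h1', h2'⟩
    refine ⟨r * r', q * q', by rw [eval_mul]; exact mul_ne_zero h1 h1', ?_⟩
    simp only [map_mul, ← h2, ← h2']; ring
  neg_mem' := by
    rintro a ⟨r, q, h1, h2⟩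
    exact ⟨-r, q, h1, by rw [map_neg, ← h2, neg_mul]⟩

theorem cL_O (d : ℕ) (b c : k) : cL k c ∈ O d b := ⟨C c, 1, by simp, by simp [ae_C]⟩

theorem dK_O [CharZero k] {d : ℕ} (hd : 1 ≤ d) {b : k} {a : k⸨X⸩} (h : a ∈ O d b) :
    dK k d a ∈ O d b := by
  obtain ⟨r, q, h1, h2⟩ := h
  have e := congrArg (dK k d) h2
  rw [dK_mul, dK_ah hd, dK_ah hd] at e
  refine ⟨derivative r * q - r * derivative q, q * q,
    by rw [eval_mul]; exact mul_ne_zero h1 h1, ?_⟩
  rw [map_sub, map_mul, map_mul, map_mul, ← e, ← h2]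
  ring

theorem div_O [CharZero k] {d : ℕ} {b : k} (m : ℕ) {a : k⸨X⸩} (h : ((m : k⸨X⸩) + 1) * a ∈ O d b) :
    a ∈ O d b := by
  have h0 : ((m : k) + 1) ≠ 0 := Nat.cast_add_one_ne_zero m
  have e := congrArg (cL k) (inv_mul_cancel₀ h0)
  rw [map_mul, map_one, map_add, map_one, map_natCast] at e
  have := mul_mem (cL_O d b ((m : k) + 1)⁻¹) h
  rwa [← mul_assoc, e, one_mul] at this

theorem dK_pow [CharZero k] {d : ℕ} (hd : 1 ≤ d) (b : k) (m : ℕ) :
    dK k d ((hW k d - cL k b) ^ (m + 1)) = ((m : k⸨X⸩) + 1) * (hW k d - cL k b) ^ m := by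
  have e : dK k d (hW k d - cL k b) = 1 := by rw [map_sub, dK_hW hd, dK_cL, sub_zero]
  induction m with
  | zero => simpa using e
  | succ m ih =>
    rw [pow_succ, dK_mul, ih, e]
    push_cast
    ring

variable [Fintype ι]

theorem dV_mulVec (d : ℕ) (A : Matrix ι ι k) (w : ι → k⸨X⸩) :
    dV k ι d ((A.map (cL k)).mulVec w) = (A.map (cL k)).mulVec (dV k ι d w) := by
  funext i
  simp only [dV_apply, Matrix.mulVec, dotProduct, map_sum, Matrix.map_apply, dK_mul, dK_cL,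
    zero_mul, zero_add]

theorem dK_dot (d : ℕ) (v v' : ι → k⸨X⸩) :
    dK k d (v ⬝ᵥ v') = dV k ι d v ⬝ᵥ v' + v ⬝ᵥ dV k ι d v' := by
  simp only [dotProduct, map_sum, dK_mul, dV_apply, Finset.sum_add_distrib]

/-- The descent on the pole order. -/
theorem step [CharZero k] {d : ℕ} (hd : 1 ≤ d) (b : k) (Z : Matrix ι ι k)
    (V : (ι → k⸨X⸩) → Prop) (h1 : ∀ v, V v → V ((hW k d - cL k b) • dV k ι d v))
    (h2 : ∀ v, V v → ∃ v'', V v'' ∧ (hW k d - cL k b) • dV k ι d ((hW k d - cL k b) • dV k ι d v)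
      = (hW k d - cL k b) • v'') (m : ℕ)
    (h : ∀ v v', V v → V v' →
      (hW k d - cL k b) ^ (m + 1) * (v ⬝ᵥ (Z.map (cL k)).mulVec v') ∈ O d b) :
    ∀ v v', V v → V v' → (hW k d - cL k b) ^ m * (v ⬝ᵥ (Z.map (cL k)).mulVec v') ∈ O d b := by
  have hp := dK_pow hd b m
  generalize hW k d - cL k b = t at *
  obtain ⟨g, hg⟩ : ∃ g : (ι → k⸨X⸩) → (ι → k⸨X⸩) → k⸨X⸩,
      ∀ v v', g v v' = t ^ m * (v ⬝ᵥ (Z.map (cL k)).mulVec v') := ⟨_, fun _ _ => rfl⟩
  obtain ⟨D, hD⟩ : ∃ D : (ι → k⸨X⸩) → (ι → k⸨X⸩), ∀ v, D v = t • dV k ι d v := ⟨_, fun _ => rfl⟩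
  simp only [← hD] at h1 h2
  have a0 : ∀ v v', V v → V v' →
      ((m : k⸨X⸩) + 1) * g v v' + (g (D v) v' + g v (D v')) ∈ O d b := fun v v' hv hv' => by
    have e := dK_O hd (h v v' hv hv')
    rw [dK_mul, hp, dK_dot, dV_mulVec] at e
    convert e using 1
    simp only [hg, hD, Matrix.mulVec_smul, smul_dotProduct, dotProduct_smul, smul_eq_mul]
    ring
  have a1 : ∀ v v', V v → V v' → g (D (D v)) v' ∈ O d b := fun v v' hv hv' => by
    obtain ⟨u, hu, e⟩ := h2 v hv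
    convert h u v' hu hv' using 1
    rw [e, hg, smul_dotProduct, smul_eq_mul]
    ring
  have a2 : ∀ v v', V v → V v' → g v (D (D v')) ∈ O d b := fun v v' hv hv' => by
    obtain ⟨u, hu, e⟩ := h2 v' hv'
    convert h v u hv hu using 1
    rw [e, hg, Matrix.mulVec_smul, dotProduct_smul, smul_eq_mul]
    ring
  have a3 : ∀ v v', V v → V v' → g (D v) v' ∈ O d b → g v (D v') ∈ O d b → g v v' ∈ O d b :=
    fun v v' hv hv' x y => div_O m (by
      simpa only [add_sub_cancel_right] using sub_mem (a0 v v' hv hv') (add_mem x y))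
  intro v v' hv hv'
  have b1 := a3 _ _ (h1 v hv) (h1 v' hv') (a1 _ _ hv (h1 v' hv')) (a2 _ _ (h1 v hv) hv')
  rw [← hg]
  exact a3 _ _ hv hv' (a3 _ _ (h1 v hv) hv' (a1 _ _ hv hv') b1)
    (a3 _ _ hv (h1 v' hv') b1 (a2 _ _ hv hv'))

end IntR

open IntR in
theorem intS (h : LatStmt) : IntStmt := by
  intro k G ι _ _ _ _ _ _ n d B P e T Y0 Z yt Δ F b w w' hw hw'
  have hL := (h k G ι n d B P e T).2.2.2 b
  have ht := t_ne T.d1 b
  obtain ⟨V, hV⟩ : ∃ V : (ι → k⸨X⸩) → Prop,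
      ∀ v, V v ↔ (∃ w, v = (Y0.map (cL k)).mulVec w) ∧ v ∈ T.Lam b 0 := ⟨_, fun _ => Iff.rfl⟩
  have h1 : ∀ v, V v → V ((hW k d - cL k b) • dV k ι d v) := fun v hv => by
    obtain ⟨⟨u, rfl⟩, x⟩ := (hV v).1 hv
    exact (hV _).2 ⟨⟨_, by rw [dV_mulVec, ← Matrix.mulVec_smul]⟩, (hL _ x).1⟩
  have h2 : ∀ v, V v → ∃ v'', V v'' ∧
      (hW k d - cL k b) • dV k ι d ((hW k d - cL k b) • dV k ι d v) = (hW k d - cL k b) • v'' :=
    fun v hv => by
      obtain ⟨⟨u, hu⟩, -⟩ := (hV _).1 (h1 _ (h1 v hv))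
      obtain ⟨q, z, hq, hz⟩ := (hL _ ((hV v).1 hv).2).2
      refine ⟨(hW k d - cL k b)⁻¹ • _, (hV _).2 ⟨⟨(hW k d - cL k b)⁻¹ • u, ?_⟩, q, z, hq, ?_⟩,
        (smul_inv_smul₀ ht _).symm⟩
      · rw [hu, Matrix.mulVec_smul]
      · rw [smul_comm, hz, pow_one, inv_smul_smul₀ ht, pow_zero, one_smul]
  have key : ∀ m : ℕ, (∀ v v', V v → V v' →
      (hW k d - cL k b) ^ m * (v ⬝ᵥ (Z.map (cL k)).mulVec v') ∈ O d b) →
      ∀ v v', V v → V v' → (v ⬝ᵥ (Z.map (cL k)).mulVec v') ∈ O d b := fun m => by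
    induction m with
    | zero => simp only [pow_zero, one_mul]; exact id
    | succ m ih => exact fun x => ih (step T.d1 b Z V h1 h2 m x)
  obtain ⟨Δ1, e1, e2⟩ := exists_eq_pow_rootMultiplicity_mul_and_not_dvd Δ F.Δ0 b
  refine key (Δ.rootMultiplicity b) (fun v v' hv hv' => ?_) _ _ ((hV _).2 ⟨⟨w, rfl⟩, hw⟩)
    ((hV _).2 ⟨⟨w', rfl⟩, hw'⟩)
  obtain ⟨⟨u, hu⟩, q, z, hq, hz⟩ := (hV v).1 hv
  obtain ⟨⟨u', hu'⟩, q', z', hq', hz'⟩ := (hV v').1 hv'
  rw [pow_zero, one_smul] at hz hz'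
  obtain ⟨r, hr⟩ := F.rat z z' (ae (hW k d) q • u) (ae (hW k d) q' • u')
    (by rw [← hz, hu, Matrix.mulVec_smul]) (by rw [← hz', hu', Matrix.mulVec_smul])
  refine ⟨r, Δ1 * (q * q'), ?_, ?_⟩
  · rw [eval_mul, eval_mul]
    exact mul_ne_zero (fun x => e2 (dvd_iff_isRoot.2 x)) (mul_ne_zero hq hq')
  · generalize Δ.rootMultiplicity b = m at e1
    rw [← hr, ← hz, ← hz', e1, Matrix.mulVec_smul, smul_dotProduct, dotProduct_smul]
    simp only [map_mul, map_pow, map_sub, ae_X, ae_C, smul_eq_mul]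
    ring

end

end Pool.Agent.MP_05b4bd_ag.UM

end MrgPart3

-- ======== part 4: formerly Pool.Agent.MP_05b4bd_ag.um.Lift
section MrgPart4

/-! Lifting functionals to maps with polynomial values. -/

namespace Pool.Agent.MP_05b4bd_ag.UM

open ES Polynomial
open scoped TensorProduct PowerSeries LaurentSeries

namespace Lift

variable {k G : Type} [Field k] [AddCommGroup G] [Module k G]

theorem sm0 (q : k[X]) (c : k) :
    q • Module.AEval'.of (0 : Module.End k k) c =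
      Module.AEval'.of (0 : Module.End k k) (q.coeff 0 * c) := by
  rw [← Module.AEval.of_aeval_smul, ← coeff_zero_eq_aeval_zero']
  simp

end Lift

open Lift Module in
theorem liftS : LiftStmt := by
  intro k G _ _ _ θ N ⟨s, hs⟩ hN sat l hθ hl
  classical
  let N' : Submodule k[X] (AEval' θ) := AEval.mapSubmodule k G θ ⟨N, fun u hu => hN u hu⟩
  have mem : ∀ u : G, AEval'.of θ u ∈ N' ↔ u ∈ N := fun u => by
    simp [N', AEval.mem_mapSubmodule_apply]
  have : Module.Finite k[X] (AEval' θ) := by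
    refine ⟨⟨s.image (AEval'.of θ), ?_⟩⟩
    set S := Submodule.span k[X] ((s.image (AEval'.of θ) : Finset (AEval' θ)) : Set (AEval' θ))
    have h := hs ((S.restrictScalars k).comap (AEval'.of θ : G →ₗ[k] AEval' θ))
      (fun u hu => by
        have : (X : k[X]) • AEval'.of θ u ∈ S := S.smul_mem X hu
        rwa [AEval'.X_smul_of] at this)
      (fun u hu => show AEval'.of θ u ∈ S from
        Submodule.subset_span (Finset.mem_coe.2 (Finset.mem_image_of_mem _ hu)))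
    refine eq_top_iff.2 fun x _ => ?_
    obtain ⟨u, rfl⟩ := (AEval'.of θ).surjective x
    exact (Submodule.eq_top_iff'.1 h u :)
  have : Module.IsTorsionFree k[X] (AEval' θ ⧸ N') := by
    refine .of_smul_eq_zero fun q x h => ?_
    obtain ⟨x, rfl⟩ := N'.mkQ_surjective x
    obtain ⟨u, rfl⟩ := (AEval'.of θ).surjective x
    by_cases hq : q = 0
    · exact Or.inl hq
    · refine Or.inr ((Submodule.Quotient.mk_eq_zero _).2 ((mem u).2 (sat q u hq ?_)))
      rw [← map_smul, ← AEval.of_aeval_smul] at h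
      exact (mem _).1 ((Submodule.Quotient.mk_eq_zero _).1 h)
  let o := AEval'.of (0 : Module.End k k)
  let l' : AEval' θ →ₗ[k[X]] AEval' (0 : Module.End k k) :=
    LinearMap.ofAEval θ ((o : k →ₗ[k] _) ∘ₗ l) fun u => by
      change o (l (θ u)) = X • o (l u)
      rw [hθ, sm0]
      simp [o]
  have hl' : ∀ u, l' (AEval'.of θ u) = o (l u) := fun u => rfl
  let f : k[X] →ₗ[k[X]] AEval' (0 : Module.End k k) := LinearMap.toSpanSingleton _ _ (o 1)
  have hf : ∀ q, f q = o (q.coeff 0) := fun q => by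
    rw [LinearMap.toSpanSingleton_apply, sm0, mul_one]
  obtain ⟨g, hg⟩ := Module.projective_lifting_property f (N'.liftQ l' fun x hx => by
    obtain ⟨u, rfl⟩ := (AEval'.of θ).surjective x
    rw [LinearMap.mem_ker, hl', hl u ((mem u).1 hx), map_zero]) fun x => by
      obtain ⟨c, rfl⟩ := o.surjective x
      exact ⟨C c, by rw [hf, coeff_C_zero]⟩
  refine ⟨(g ∘ₗ N'.mkQ).restrictScalars k ∘ₗ (AEval'.of θ : G →ₗ[k] AEval' θ), fun u => ?_,
    fun u hu => ?_, fun u => o.injective ?_⟩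
  · change (g ∘ₗ N'.mkQ) (AEval'.of θ (θ u)) = X * (g ∘ₗ N'.mkQ) (AEval'.of θ u)
    rw [← AEval'.X_smul_of, map_smul, smul_eq_mul]
  · change g (N'.mkQ (AEval'.of θ u)) = 0
    rw [show N'.mkQ (AEval'.of θ u) = 0 from (Submodule.Quotient.mk_eq_zero _).2 ((mem u).2 hu),
      map_zero]
  · rw [← hf, ← hl']
    exact LinearMap.congr_fun hg (N'.mkQ (AEval'.of θ u))

end Pool.Agent.MP_05b4bd_ag.UM

end MrgPart4

-- ======== part 5: formerly Pool.Agent.MP_05b4bd_ag.um.Logi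
section MrgPart5

/-! The order filtration at infinity. -/

namespace Pool.Agent.MP_05b4bd_ag.UM

open ES Polynomial
open scoped TensorProduct PowerSeries LaurentSeries

noncomputable section

namespace Logi
variable {k : Type} [Field k]

/-- Order at least `n`. -/
def Lo (n : ℤ) (a : k⸨X⸩) : Prop := ∀ m < n, a.coeff m = 0

theorem lo_wc (n : ℤ) (g : k⟦X⟧) : Lo n (wL k n * coeL k g) := fun m hm => by
  rw [coeff_wL_mul, coeff_coeL_neg _ (by omega)]

theorem lo_c (g : k⟦X⟧) : Lo 0 (coeL k g) := fun _ hm => coeff_coeL_neg _ hm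

theorem Lo.mono {n n' : ℤ} {a : k⸨X⸩} (h : Lo n a) (e : n' ≤ n) : Lo n' a :=
  fun m hm => h m (by omega)

theorem Lo.mul {n n' : ℤ} {a b : k⸨X⸩} (h : Lo n a) (h' : Lo n' b) : Lo (n + n') (a * b) := by
  obtain ⟨g, rfl⟩ := exists_wL_mul_of_low h
  obtain ⟨g', rfl⟩ := exists_wL_mul_of_low h'
  rw [mul_mul_mul_comm, ← wL_add, ← map_mul]
  exact lo_wc _ _

theorem Lo.th {n : ℤ} {a : k⸨X⸩} (h : Lo n a) : Lo n (thL k a) := fun m hm => by
  rw [coeff_thL, h m hm, mul_zero]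

theorem Lo.sum {α : Type} (s : Finset α) {n : ℤ} {f : α → k⸨X⸩} (h : ∀ i, Lo n (f i)) :
    Lo n (∑ i ∈ s, f i) := fun m hm => by
  rw [HahnSeries.coeff_sum]
  exact Finset.sum_eq_zero fun i _ => h i m hm

theorem Lo.lead {n : ℤ} {a : k⸨X⸩} (h : Lo n a) (c : k⟦X⟧) :
    (coeL k c * a).coeff n = cc c * a.coeff n := by
  have e := coeff_coeL_mul c a h 0
  simpa using e

theorem lead_wc (n : ℤ) (g : k⟦X⟧) : (wL k n * coeL k g).coeff n = cc g := by
  rw [coeff_wL_mul, sub_self, ← PowerSeries.coeff_zero_eq_constantCoeff_apply, ← coeff_coeL,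
    Nat.cast_zero]

theorem ae_coe (t : k⟦X⟧) (ht : cc t = 0) (q : k[X]) :
    ∃ g, ae (coeL k t) q = coeL k g ∧ cc g = q.eval 0 := by
  induction q using Polynomial.induction_on with
  | C a => exact ⟨PowerSeries.C a, by rw [ae_C, coeL_C], by simp⟩
  | add a b ha hb =>
    obtain ⟨g, h1, h2⟩ := ha
    obtain ⟨g', h1', h2'⟩ := hb
    exact ⟨g + g', by rw [map_add, map_add, h1, h1'], by rw [map_add, eval_add, h2, h2']⟩
  | monomial m a h =>
    obtain ⟨g, h1, -⟩ := h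
    refine ⟨g * t, by rw [pow_succ, ← mul_assoc, map_mul, h1, ae_X, map_mul], ?_⟩
    rw [map_mul, ht]
    simp

theorem split0 {q : k[X]} (h : q ≠ 0) : ∃ (α : ℕ) (q0 : k[X]), q = X ^ α * q0 ∧ q0.eval 0 ≠ 0 := by
  obtain ⟨q0, h1, h2⟩ := exists_eq_pow_rootMultiplicity_mul_and_not_dvd q h 0
  rw [dvd_iff_isRoot] at h2
  exact ⟨_, q0, by simpa using h1, h2⟩

theorem sz_of_lo {e : ℕ} {τ : k⸨X⸩} {u : k⟦X⟧} (he : 1 ≤ e) (hu : cc u ≠ 0)
    (hτ : τ = wL k e * coeL k u) (M : ℕ) {a : k⸨X⸩} (h : InK τ a) (hl : Lo (M * e) a) :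
    Sz τ M a := by
  obtain ⟨r, q, h1, h2⟩ := h
  by_cases hr : r = 0
  · rw [hr, map_zero] at h2
    exact ⟨0, 1, by simp, by simp [(mul_eq_zero.1 h2).resolve_right h1]⟩
  obtain ⟨α, q0, rfl, hq0⟩ := split0 (q := q) fun z => h1 (by rw [z, map_zero])
  obtain ⟨β, r0, rfl, hr0⟩ := split0 hr
  have ht : τ = coeL k (PowerSeries.X ^ e * u) := by rw [map_mul, coeL_X_pow, hτ]
  have hc : cc (PowerSeries.X ^ e * u) = 0 := by rw [map_mul, cc_X_pow he, zero_mul]
  obtain ⟨gq, e1, -⟩ := ae_coe _ hc q0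
  obtain ⟨gr, e2, e3⟩ := ae_coe _ hc r0
  rw [← ht] at e1 e2
  have hp : ∀ n : ℕ, τ ^ n = wL k (n * e) * coeL k (u ^ n) := fun n => by
    rw [hτ, mul_pow, wL_pow, map_pow]
  simp only [map_mul, map_pow, ae_X] at h1 h2
  have hb : M + α ≤ β := by
    by_contra hb
    have l1 : Lo (M * e + α * e) (a * (τ ^ α * ae τ q0)) := by
      rw [hp, e1, mul_assoc, ← map_mul]
      exact hl.mul (lo_wc _ _)
    have l2 := l1 (β * e) (by
      have : (β : ℤ) < M + α := by omega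
      have : (0 : ℤ) < e := by omega
      nlinarith)
    rw [h2, hp, e2, mul_assoc, ← map_mul, lead_wc, map_mul, map_pow, e3] at l2
    exact mul_ne_zero (pow_ne_zero _ hu) hr0 l2
  obtain ⟨γ, rfl⟩ := Nat.exists_eq_add_of_le hb
  refine ⟨X ^ γ * r0, q0, hq0, mul_left_cancel₀ (left_ne_zero_of_mul h1) ?_⟩
  rw [map_mul, map_pow, ae_X, mul_left_comm, h2]
  ring

theorem coord {ι : Type} [Fintype ι] {m : ℕ} {v : Fin m → ι → k⸨X⸩}
    (hv : LinearIndependent k⸨X⸩ v) : ∃ N : ℕ, ∀ (a : Fin m → k⸨X⸩) (n : ℤ),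
      (∀ s, Lo n ((∑ i, a i • v i) s)) → ∀ i, Lo (n - N) (a i) := by
  classical
  obtain ⟨g, hg⟩ := (Fintype.linearCombination k⸨X⸩ v).exists_leftInverse_of_injective
    (LinearMap.ker_eq_bot.2 hv.fintypeLinearCombination_injective)
  have hl : ∀ p : ι × Fin m, ∃ N : ℕ, Lo (-N) (g (fun j => if p.1 = j then 1 else 0) p.2) :=
    fun p => by
      obtain ⟨N, c, hc⟩ := exists_wL_mul (g (fun j => if p.1 = j then 1 else 0) p.2)
      exact ⟨N, hc ▸ lo_wc _ _⟩
  choose N hN using hl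
  refine ⟨Finset.univ.sup N, fun a n h i => ?_⟩
  have e1 : g (∑ i, a i • v i) = a := by
    rw [← Fintype.linearCombination_apply]
    exact LinearMap.congr_fun hg a
  rw [← e1, LinearMap.pi_apply_eq_sum_univ, Finset.sum_apply]
  refine Lo.sum _ fun s => ((h s).mul (hN (s, i))).mono ?_
  have := Finset.le_sup (f := N) (Finset.mem_univ (s, i))
  omega

theorem th_tau {e : ℕ} {τ : k⸨X⸩} {u : k⟦X⟧} (hτ : τ = wL k e * coeL k u) :
    ∃ w : k⟦X⟧, thL k τ = wL k e * coeL k w ∧ cc w = e * cc u := by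
  refine ⟨e * u + thP k u, ?_, ?_⟩
  · rw [hτ, thL_wL_mul, thL_coeL, map_add, map_mul, map_natCast]
    push_cast
    ring
  · rw [map_add, map_mul, map_natCast, thP_apply, map_mul, PowerSeries.constantCoeff_X, zero_mul,
      add_zero]

theorem vt_eq [CharZero k] {ι : Type} {d e : ℕ} {τ : k⸨X⸩} {u : k⟦X⟧} (hd : 1 ≤ d) (he : 1 ≤ e)
    (hu : cc u ≠ 0) (hτ : τ = wL k e * coeL k u) :
    ∃ c : k⟦X⟧, cc c = (e : k)⁻¹ ∧ ∀ (x : ι → k⸨X⸩) i, vt ι d τ x i = coeL k c * thL k (x i) := by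
  obtain ⟨w, h1, h2⟩ := th_tau hτ
  have he' : (e : k) ≠ 0 := Nat.cast_ne_zero.2 (by omega)
  have hd' : (d : k) ≠ 0 := Nat.cast_ne_zero.2 (by omega)
  have hw : cc w ≠ 0 := h2 ▸ mul_ne_zero he' hu
  have h3 : w * w⁻¹ = 1 := PowerSeries.mul_inv_cancel w hw
  refine ⟨u * w⁻¹, ?_, fun x i => ?_⟩
  · rw [map_mul, PowerSeries.constantCoeff_inv]
    change cc u * (cc w)⁻¹ = _
    rw [h2]
    field_simp
  have h4 : coeL k w * coeL k w⁻¹ = 1 := by rw [← map_mul, h3, map_one]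
  have h5 : wL k d * cL k (d : k)⁻¹ ≠ 0 :=
    mul_ne_zero (isUnit_wL _).ne_zero ((_root_.map_ne_zero _).2 (inv_ne_zero hd'))
  have h6 : thL k τ ≠ 0 := h1 ▸ mul_ne_zero (isUnit_wL _).ne_zero (left_ne_zero_of_mul_eq_one h4)
  rw [vt_apply, Pi.smul_apply, dV_apply, dK_apply, dK_apply, dh, dh, smul_eq_mul, map_mul,
    div_mul_eq_mul_div, div_eq_iff (neg_ne_zero.2 (mul_ne_zero h5 h6)), h1]
  rw [hτ]
  linear_combination (wL k e * coeL k u * (wL k d * cL k (d : k)⁻¹ * thL k (x i))) * h4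

end Logi

open Logi in
theorem logiS : LogiStmt := by
  intro k ι _ _ _ d e τ u hd he hu hτ
  obtain ⟨c, hc, hv⟩ := vt_eq (ι := ι) hd he hu hτ
  have st : ∀ j, St (vt ι d τ) (OrdV k ι j) := fun j x hx i => by
    rw [hv]
    exact ((lo_c c).mul (Lo.th (hx i))).mono (by omega)
  have up : ∀ (j : ℕ), ∀ x ∈ OrdV k ι j,
      (vt ι d τ - ((j : k) / e) • 1) x ∈ OrdV k ι (j + 1) := fun j x hx i m hm => by
    rw [LinearMap.sub_apply, LinearMap.smul_apply, Module.End.one_apply, Pi.sub_apply,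
      HahnSeries.coeff_sub, Pi.smul_apply, HahnSeries.coeff_smul]
    rcases lt_or_ge m j with h | h
    · rw [st j x hx i m h, hx i m h, smul_zero, sub_zero]
    · obtain rfl : m = j := by omega
      rw [hv, Lo.lead (Lo.th (hx i)), coeff_thL, hc, smul_eq_mul]
      push_cast
      ring
  refine ⟨⟨he, fun j x hx i m hm => hx i m (by omega), st, fun j x hx => ?_⟩, fun x hx i => ?_,
    fun m v hl M => ?_⟩
  · rw [LinearMap.sub_apply (x := (vt ι d τ - _) x), LinearMap.smul_apply, Module.End.one_apply]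
    exact sub_mem (st _ _ (up j x hx)) (Submodule.smul_mem _ _ (up j x hx))
  · obtain ⟨w, h1, -⟩ := th_tau hτ
    have e1 : dK k d τ = wL k (e + d) * coeL k (-(PowerSeries.C (d : k)⁻¹ * w)) := by
      rw [dK_apply, dh, h1, map_neg, map_mul, coeL_C, wL_add]
      ring
    rw [Pi.smul_apply, smul_eq_mul, e1]
    exact ((lo_wc _ _).mul (hx i)).mono (by omega)
  · obtain ⟨N, hN⟩ := coord hl
    refine ⟨M * e + N, fun a ha hs i => sz_of_lo he hu hτ M (ha i) ?_⟩
    exact (hN a _ hs i).mono (by push_cast; omega)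

end

end Pool.Agent.MP_05b4bd_ag.UM

end MrgPart5

-- ======== part 6: formerly Pool.Agent.MP_05b4bd_ag.um.Phi
section MrgPart6

/-! Substitution in Laurent series. -/

namespace Pool.Agent.MP_05b4bd_ag.UM

open ES Polynomial
open scoped TensorProduct PowerSeries LaurentSeries

noncomputable section

namespace Phi
variable {k L : Type} [Field k] [Field L]

theorem cwL_mul (κ : k →+* L) (l : L →+ k) (hl : ∀ c z, l (κ c * z) = c * l z) (a : k⸨X⸩)
    (f : L⸨X⸩) : cwL l (mapL κ a * f) = a * cwL l f := by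
  obtain ⟨n, g, rfl⟩ := exists_wL_mul a
  rw [map_mul (mapL κ), mapL_wL, mapL_coeL, mul_assoc, cwL_wL_mul, mul_assoc]
  congr 1
  ext p
  obtain ⟨m0, hm⟩ := exists_low f
  have hm' : ∀ n < min m0 p, f.coeff n = 0 := fun n hn => hm n (lt_of_lt_of_le hn (min_le_left _ _))
  have hm'' : ∀ n < min m0 p, (cwL l f).coeff n = 0 := fun n hn => by
    rw [coeff_cwL, hm' n hn, map_zero]
  obtain ⟨n, hn⟩ : ∃ n : ℕ, p = min m0 p + n :=
    ⟨(p - min m0 p).toNat, by have := min_le_right m0 p; omega⟩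
  rw [coeff_cwL, hn, coeff_coeL_mul _ _ hm', coeff_coeL_mul _ _ hm'', map_sum]
  refine Finset.sum_congr rfl fun i _ => ?_
  rw [PowerSeries.coeff_map, hl, coeff_cwL]

theorem cc_map (κ : k →+* L) {σ : k⟦X⟧} (h : cc σ = 0) : cc (PowerSeries.map κ σ) = 0 := by
  rw [← PowerSeries.coeff_zero_eq_constantCoeff_apply, PowerSeries.coeff_map,
    PowerSeries.coeff_zero_eq_constantCoeff_apply]
  exact (congrArg κ h).trans κ.map_zero

theorem cw_sb' (κ : k →+* L) (l : L →+ k) (hl : ∀ c z, l (κ c * z) = c * l z) {σ : k⟦X⟧}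
    (h : cc σ = 0) (g : L⟦X⟧) : cw l (sb (PowerSeries.map κ σ) g) = sb σ (cw l g) := by
  ext m
  rw [coeff_cw, coeff_sb (cc_map κ h), coeff_sb h, map_sum]
  refine Finset.sum_congr rfl fun i _ => ?_
  rw [← map_pow, PowerSeries.coeff_map, mul_comm, hl, coeff_cw, mul_comm]

theorem wL_zpow (n : ℤ) : wL k n = wL k 1 ^ n := by
  obtain ⟨m, rfl | rfl⟩ := n.eq_nat_or_neg
  · rw [zpow_natCast, wL_pow, mul_one]
  · rw [zpow_neg, zpow_natCast, wL_pow, mul_one]
    exact eq_inv_of_mul_eq_one_right (wL_mul_neg _)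

theorem unit_zpow {s : k⟦X⟧} (h : cc s ≠ 0) (n : ℤ) :
    ∃ v : k⟦X⟧, coeL k s ^ n = coeL k v ∧ cc v = cc s ^ n := by
  obtain ⟨m, rfl | rfl⟩ := n.eq_nat_or_neg
  · exact ⟨s ^ m, by rw [zpow_natCast, map_pow], by rw [zpow_natCast, map_pow]⟩
  · have e : s * s⁻¹ = 1 := PowerSeries.mul_inv_cancel s h
    have e1 : coeL k s⁻¹ = (coeL k s)⁻¹ :=
      eq_inv_of_mul_eq_one_right (by rw [← map_mul, e, map_one])
    have e2 : cc s⁻¹ = (cc s)⁻¹ := eq_inv_of_mul_eq_one_right (by rw [← map_mul, e, map_one])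
    exact ⟨s⁻¹ ^ m, by rw [zpow_neg, zpow_natCast, map_pow, e1, inv_pow],
      by rw [zpow_neg, zpow_natCast, map_pow, e2, inv_pow]⟩

theorem coeff0 (n : ℤ) (g : k⟦X⟧) : (wL k n * coeL k g).coeff n = cc g := by
  rw [coeff_wL_mul, sub_self, ← PowerSeries.coeff_zero_eq_constantCoeff_apply, ← coeff_coeL,
    Nat.cast_zero]

theorem dK_dL (d : ℕ) (a : k⸨X⸩) :
    dK k d a = -(wL k d * cL k (d : k)⁻¹ * wL k 1) * dL k a := by
  rw [dK_apply, dh, dL_apply]
  linear_combination (wL k d * cL k (d : k)⁻¹ * thL k a) * wL_mul_neg (R := k) 1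

end Phi

open Phi in
theorem phiS : PhiStmt := by
  intro k _ _ σ h0 h1
  have hσ : σ ≠ 0 := fun e => h1 (by rw [e, map_zero])
  obtain ⟨φ, hφ⟩ := liftL ((coeL k).comp (sb σ)) (by
    rw [RingHom.comp_apply, sb_X h0]
    exact ((map_ne_zero_iff _ coeL_inj).2 hσ).isUnit)
  have p1 : ∀ c, φ (coeL k c) = coeL k (sb σ c) := hφ
  obtain ⟨s, hs⟩ := PowerSeries.X_dvd_iff.2 h0
  have s1 : PowerSeries.coeff 1 σ = cc s := by
    rw [hs, PowerSeries.coeff_succ_X_mul, PowerSeries.coeff_zero_eq_constantCoeff_apply]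
  have ch : ∀ a, dL k (φ a) = coeL k (dX k σ) * φ (dL k a) := fun a =>
    sub_eq_zero.1 (derExtL ((isDer_dL.comp_hom φ).sub
      ((isDer_dL.hom_comp φ).mulLeft (coeL k (dX k σ)))) (fun c => by
        change dL k (φ (coeL k c)) - coeL k (dX k σ) * φ (dL k (coeL k c)) = 0
        rw [p1, dL_coeL, dL_coeL, p1, dX_sb h0, map_mul, mul_comm, sub_self]) a)
  refine ⟨φ, fun c => ?_, fun d hd a => ?_, fun a n ha => ?_, fun L _ κ Φ hΦ => ?_⟩
  · rw [← coeL_C, p1, sb_C h0]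
  · have e := congrArg φ ((dK_dL d (hW k d)).symm.trans (dK_hW hd))
    rw [map_mul, map_one] at e
    rw [dK_dL d (φ a), dK_dL d (φ _), dK_dL d a, ch, ch, map_mul φ]
    linear_combination (wL k d * cL k (d : k)⁻¹ * wL k 1 * coeL k (dX k σ) * φ (dL k a)) * e
  · obtain ⟨g, rfl⟩ := exists_wL_mul_of_low ha
    obtain ⟨v, v1, v2⟩ := unit_zpow (s1 ▸ h1) n
    have e : φ (wL k n) = wL k n * coeL k v := by
      rw [wL_zpow n, map_zpow₀, ← coeL_X, p1, sb_X h0, hs, map_mul, mul_zpow, v1]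
    rw [map_mul, e, p1, mul_assoc, ← map_mul, coeff0, coeff0, map_mul, v2, cc_sb h0, s1]
  · have t1 : ∀ a, Φ (mapL κ a) = mapL κ (φ a) := fun a =>
      RingHom.congr_fun (homExtL (g := Φ.comp (mapL κ)) (g' := (mapL κ).comp φ) fun c => by
        rw [RingHom.comp_apply, RingHom.comp_apply, mapL_coeL, hΦ, p1, mapL_coeL, map_sb h0]) a
    refine ⟨t1, fun l hl a => ?_⟩
    obtain ⟨n, g, rfl⟩ := exists_wL_mul a
    rw [cwL_wL_mul, map_mul Φ, ← mapL_wL κ, t1, cwL_mul κ l hl, hΦ, cwL_coeL, cwL_coeL,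
      cw_sb' κ l hl h0, map_mul φ, p1]

end

end Pool.Agent.MP_05b4bd_ag.UM

end MrgPart6

-- ======== part 7: formerly Pool.Agent.MP_05b4bd_ag.um.Pil
section MrgPart7

/-! The coefficients of the periods outside the polynomial exponents. -/

namespace Pool.Agent.MP_05b4bd_ag.UM

open ES Polynomial
open scoped TensorProduct PowerSeries LaurentSeries

noncomputable section

namespace Pil
variable {k G ι : Type} [Field k] [AddCommGroup G] [Module k G]

/-- Elements whose coefficients lie in `Λ`. -/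
def NN (d : ℕ) (P : G →ₗ[k] ι → k⸨X⸩) (Λ : Submodule k (ι → k)) : Submodule k G where
  carrier := {u | ∀ m, Off d m → cv m (P u) ∈ Λ}
  zero_mem' m _ := by
    rw [map_zero]
    exact Λ.zero_mem
  add_mem' := fun {a b} ha hb m hm => by
    have : cv m (P (a + b)) = cv m (P a) + cv m (P b) := funext fun i => by
      simp only [cv, map_add, Pi.add_apply, HahnSeries.coeff_add]
    rw [this]
    exact Λ.add_mem (ha m hm) (hb m hm)
  smul_mem' c a ha m hm := by
    have : cv m (P (c • a)) = c • cv m (P a) := funext fun i => by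
      simp only [cv, map_smul, Pi.smul_apply, HahnSeries.coeff_smul]
    rw [this]
    exact Λ.smul_mem c (ha m hm)

theorem off_add {d : ℕ} {m : ℤ} (h : Off d m) : Off d (m + d) := fun j e =>
  h (j + 1) (by push_cast; linear_combination e)

theorem off_sub {d : ℕ} {m : ℤ} (h : Off d m) (h' : m ≠ d) : Off d (m - d) := fun j e => by
  cases j with
  | zero => exact h' (by simpa [sub_eq_zero] using e)
  | succ j => exact h j (by push_cast at e; linear_combination e)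

end Pil

theorem pilS : PilStmt := by
  intro k G ι _ _ _ _ _ _ n d B P e T
  have hd : (d : k) ≠ 0 := Nat.cast_ne_zero.2 (Nat.one_le_iff_ne_zero.1 T.d1)
  have key : ∀ u m, cv m (P u) =
      (-((d : k)⁻¹ * ((m - d : ℤ) : k))) • cv (m - d) (P (B.θ u)) := fun u m => funext fun i => by
    conv_lhs => rw [← T.Pθ u]
    simp only [cv, dV_apply, dK_apply, coeff_dh, Pi.smul_apply, smul_eq_mul]
    ring
  have h1 : ∀ (Λ : Submodule k (ι → k)) (u : G), u ≠ 0 → (∀ m, Off d m → cv m (P u) ∈ Λ) →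
      ∀ u' m, Off d m → cv m (P u') ∈ Λ := fun Λ u hu h u' => by
    have := T.irr (Pil.NN d P Λ) (fun x hx m hm => ?_) (fun x hx m hm => ?_) fun x hx m hm => ?_
    · rcases this with e0 | e0
      · exact absurd ((Submodule.eq_bot_iff _).1 e0 u h) hu
      · exact (Submodule.eq_top_iff'.1 e0 u' : u' ∈ Pil.NN d P Λ)
    · have : cv m (P (B.h x)) = cv (m + d) (P x) := funext fun i => by
        simp only [cv, T.Ph, Pi.smul_apply, smul_eq_mul, coeff_wL_mul, sub_neg_eq_add]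
      rw [this]
      exact hx _ (Pil.off_add hm)
    · have := hx _ (Pil.off_add hm)
      rw [key, add_sub_cancel_right] at this
      refine (Λ.smul_mem_iff (neg_ne_zero.2 (mul_ne_zero (inv_ne_zero hd) ?_))).1 this
      exact Int.cast_ne_zero.2 (by simpa using hm 0)
    · rw [key]
      by_cases e0 : m = d
      · rw [e0, sub_self, Int.cast_zero, mul_zero, neg_zero, zero_smul]
        exact Λ.zero_mem
      · exact Λ.smul_mem _ (hx _ (Pil.off_sub hm e0))
  refine ⟨h1, fun v0 u h => by_contra fun hu => ?_⟩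
  obtain ⟨u', m, hm, hn⟩ := T.two v0
  obtain ⟨a, ha⟩ := Submodule.mem_span_singleton.1 (h1 (Submodule.span k {v0}) u hu
    (fun m hm => Submodule.mem_span_singleton.2 ((h m hm).imp fun _ e => e.symm)) u' m hm)
  exact hn a ha.symm

end

end Pool.Agent.MP_05b4bd_ag.UM

end MrgPart7

-- ======== part 8: formerly Pool.Agent.MP_05b4bd_ag.um.Pmb
section MrgPart8

namespace Pool.Agent.MP_05b4bd_ag.UM

open MvPolynomial HC
open ES hiding Gen GenTopStmt GenJacStmt IlAbsStmt InvStmt3 Inf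
open ES.U
open scoped TensorProduct PowerSeries LaurentSeries

noncomputable section

namespace Pmb
variable {k G ι : Type} [Field k] [AddCommGroup G] [Module k G] [Fintype ι] [DecidableEq ι]
  {d n : ℕ} {B : BM k G n} {f : R2 k} {p : Fin n → Fin 2 → k} {π : R2 k →ₗ[k] G}
  {e : ι → R2 k} {δ : ι → ℕ} {P : G →ₗ[k] ι → k⸨X⸩} {lam : R2 k →ₗ[k] ι → k}

omit [Fintype ι] [DecidableEq ι] in
theorem pw (H : Pres B f p π) (j : ℕ) (u : R2 k) : π (f ^ j * u) = (B.h ^ j) (π u) := by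
  induction j with
  | zero => simp
  | succ j ih => rw [pow_succ', mul_assoc, ← H.mul, ih, pow_succ', Module.End.mul_apply]

theorem top (hf : DL (d + 1) f) (j : ℕ) : hc (d * j) (f ^ j) = hc d f ^ j := by
  induction j with
  | zero => simp
  | succ j ih => rw [pow_succ, Nat.mul_succ, hc_mul_top (hf.pow j) hf, ih, pow_succ]

theorem brk (hd : 2 ≤ d) (hf : DL (d + 1) f) (m : ℕ) (η : R2 k) :
    ∃ η', DL (m + 1) (br η' f) ∧ hc m (br η' f) = hc m (br η (hc d f)) := by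
  obtain ⟨c, rfl⟩ : ∃ c, d = c + 1 := ⟨d - 1, by omega⟩
  by_cases h : c ≤ m
  · obtain ⟨a, rfl⟩ : ∃ a, m = c + a := ⟨m - c, by omega⟩
    have h1 := DL.of_hom (hc_hom (a + 1) η)
    refine ⟨hc (a + 1) η, br_DL (a := a + 1) (e := c) h1 hf, ?_⟩
    rw [hc_br_top h1 hf, hc_self (hc_hom _ _), add_comm c a, Esc.hc_br (hc_hom _ f)]
  · refine ⟨0, ?_, ?_⟩
    · rw [Esc.br_zero]; exact DL.zero _
    · rw [Esc.br_zero, hc_of_mm (Esc.br_mm (hc_hom _ f) η) (by omega)]
      exact map_zero (homogeneousComponent m)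

omit [DecidableEq ι] in
theorem span (hd : 2 ≤ d) (hf : DL (d + 1) f) (H : Pres B f p π) (E : Bas d (hc d f) e δ)
    (m : ℕ) : ∀ u, DL m u →
      ∃ q : ι → Polynomial k, π u = ∑ i, Polynomial.aeval B.h (q i) (π (e i)) := by
  induction m with
  | zero => exact fun u hu => ⟨0, by simp [hu.eq_zero]⟩
  | succ m ih =>
    intro u hu
    obtain ⟨a, j, η, h1, h2⟩ := E.span m _ (hc_hom m u)
    obtain ⟨η', h3, h4⟩ := brk hd hf m η
    have h5 : ∀ i, DL (m + 1) (C (a i) * f ^ j i * e i) ∧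
        hc m (C (a i) * f ^ j i * e i) = hc m (C (a i) * hc d f ^ j i * e i) := fun i => by
      by_cases h : a i = 0
      · simp [h, DL.zero]
      · rw [← h1 i h, add_comm (δ i), mul_assoc, mul_assoc, hc_C_mul, hc_C_mul]
        refine ⟨((hf.pow _).mul (DL.of_hom (E.hom i))).C_mul _, ?_⟩
        rw [hc_mul_top (hf.pow _) (DL.of_hom (E.hom i)), top hf, hc_self (E.hom i),
          hc_self (((hc_hom d f).pow _).mul (E.hom i))]
    have h6 : DL m (u - (∑ i, C (a i) * f ^ j i * e i + br η' f)) := by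
      refine DL.pred (hu.sub ((DL.sum _ fun i _ => (h5 i).1).add h3)) ?_
      have hs : ∀ g : ι → R2 k, hc m (∑ i, g i) = ∑ i, hc m (g i) := fun g =>
        map_sum (homogeneousComponent m) g _
      rw [hc_sub, hc_add, h4, hs, Finset.sum_congr rfl fun i _ => (h5 i).2, ← hs,
        ← hc_add, ← h2, hc_self (hc_hom m u), sub_self]
    obtain ⟨q, hq⟩ := ih _ h6
    refine ⟨fun i => q i + Polynomial.C (a i) * Polynomial.X ^ j i, ?_⟩
    rw [map_sub, map_add, (H.ker _).2 ⟨η', rfl⟩, add_zero, sub_eq_iff_eq_add, map_sum,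
      ← Finset.sum_add_distrib] at hq
    rw [hq]
    refine Finset.sum_congr rfl fun i _ => ?_
    rw [map_add, LinearMap.add_apply, mul_assoc, ← smul_eq_C_mul, map_smul, pw H, map_mul,
      map_pow, Polynomial.aeval_X, Polynomial.aeval_C, Module.End.mul_apply,
      Module.algebraMap_end_apply]

theorem det (E : Bas d (hc d f) e δ) (R : Per d f π P lam) (hl : ∀ j, lam (e j) = Pi.single j 1) :
    (Matrix.of fun i j => P (π (e j)) i).det ≠ 0 := by
  have h1 : ∀ i j, ∃ g : k⟦X⟧, P (π (e j)) i = wL k (d - 2 - δ j) * coeL k g := fun i j =>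
    exists_wL_mul_of_low fun m hm => congrFun (R.low _ _ m (DL.of_hom (E.hom j)) hm) i
  choose g hg using h1
  have h2 : (Matrix.of g).map cc = 1 := by
    ext i j
    have h3 := congrFun (R.lead _ _ (DL.of_hom (E.hom j))) i
    rw [hc_self (E.hom j), hl, cv, hg, coeff_wL_mul, sub_self, ← Nat.cast_zero, coeff_coeL,
      PowerSeries.coeff_zero_eq_constantCoeff_apply] at h3
    rw [Matrix.map_apply, Matrix.of_apply, Matrix.one_apply]
    exact h3.trans (Pi.single_apply j 1 i)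
  have h4 : (Matrix.of g).det ≠ 0 := fun h => by
    have h5 := RingHom.map_det (cc (R := k)) (Matrix.of g)
    rw [h, map_zero, RingHom.mapMatrix_apply, h2, Matrix.det_one] at h5
    exact zero_ne_one h5
  have h6 : (Matrix.of fun i j => P (π (e j)) i) = Matrix.of fun i j =>
      wL k (d - 2 - δ j) * (coeL k).mapMatrix (Matrix.of g) i j := by
    ext1 i j
    exact hg i j
  rw [h6, Matrix.det_mul_row, ← RingHom.map_det]
  exact mul_ne_zero (Finset.prod_ne_zero_iff.2 fun j _ => (isUnit_wL _).ne_zero)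
    ((map_ne_zero_iff _ coeL_inj).2 h4)

omit [Fintype ι] [DecidableEq ι] in
theorem two [CharZero k] (h : NzcStmt) (hd : 3 ≤ d) (T : TM d f) (R : Per d f π P lam)
    (v0 : ι → k) : ∃ u m, Off d m ∧ ∀ a : k, cv m (P u) ≠ a • v0 := by
  obtain ⟨⟨m, r, hr, h1, h2, h3⟩, h4, h5⟩ := h k d _ hd (hc_hom d f) T.ci
  by_contra hn
  push Not at hn
  have ho := isHomogeneous_one (Fin 2) k
  obtain ⟨a, ha⟩ := hn (π 1) (d - 2 - (0 : ℕ)) fun j e => by
    have : (0 : ℤ) ≤ d * j := by positivity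
    omega
  obtain ⟨b, hb⟩ := hn (π r) (d - 2 - m) fun j e => h1 (Int.natCast_dvd_natCast.1
    ⟨j + 1, by push_cast; linear_combination -e⟩)
  rw [R.lead _ _ (DL.of_hom ho), hc_self ho] at ha
  rw [R.lead _ _ (DL.of_hom hr), hc_self hr] at hb
  have h6 : a ≠ 0 := fun e => h4 ((R.ker _).1 (by rw [ha, e, zero_smul]))
  refine h3 (h5 (-m - 2) r (C (-(b / a))) (fun c hc' => ?_) (fun c hc' hdv => h2 ?_)
    ((R.ker _).1 ?_)).1
  · have : c.degree = m := by
      by_contra hne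
      exact hc' (hr.coeff_eq_zero hne)
    rw [this]
    exact ⟨0, by ring⟩
  · have : c.degree = 0 := by
      by_contra hne
      exact hc' ((isHomogeneous_C _ _).coeff_eq_zero hne)
    rw [this] at hdv
    refine Int.natCast_dvd_natCast.1 (Int.dvd_neg.1 ?_)
    simpa using hdv
  · rw [map_add, C_eq_smul_one, map_smul, ha, hb, smul_smul, ← add_smul, neg_mul,
      div_mul_cancel₀ _ h6, add_neg_cancel, zero_smul]

end Pmb

theorem pmbS (h : NzcStmt) : PmbStmt := by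
  intro k G ι _ _ _ _ _ _ d n B f p π e δ P lam hd T H E R hl hi h1 h2
  refine ⟨by omega, hi, h1, h2, fun u => ?_, Pmb.det E R hl, Pmb.two h hd T R⟩
  obtain ⟨u, rfl⟩ := H.surj u
  obtain ⟨m, hm⟩ := exists_DL u
  exact Pmb.span (by omega) T.dl H E m u hm

end

end Pool.Agent.MP_05b4bd_ag.UM

end MrgPart8

-- ======== part 9: formerly Pool.Agent.MP_05b4bd_ag.um.Uni
section MrgPart9

/-! The substitution is affine in `h`. -/

namespace Pool.Agent.MP_05b4bd_ag.UM

open ES Polynomial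
open scoped TensorProduct PowerSeries LaurentSeries

namespace Uni

variable {k : Type} [Field k]

theorem dec {p : k[X]} (hp : p ≠ 0) {b : k} (hb : p.IsRoot b) : ∃ (μ : ℕ) (r : k[X]),
    r.eval b ≠ 0 ∧ p = (X - C b) ^ (μ + 1) * r ∧ p.rootMultiplicity b = μ + 1 := by
  obtain ⟨r, h1, h2⟩ := exists_eq_pow_rootMultiplicity_mul_and_not_dvd p hp b
  obtain ⟨μ, hμ⟩ := Nat.exists_eq_succ_of_ne_zero ((rootMultiplicity_pos hp).2 hb).ne'
  exact ⟨μ, r, fun e => h2 (dvd_iff_isRoot.2 e), by rwa [hμ] at h1, hμ⟩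

/-- The expansion at infinity of a quotient. -/
theorem quo {d : ℕ} (hd : 1 ≤ d) {A B : k[X]} (hB : B ≠ 0) (h : B.natDegree < A.natDegree)
    {τ : k⸨X⸩} (e : τ * ae (hW k d) A = ae (hW k d) B) :
    ∃ (e' : ℕ) (u : k⟦X⟧), 1 ≤ e' ∧ cc u ≠ 0 ∧ τ = wL k e' * coeL k u := by
  have hA : A ≠ 0 := fun c => by simp [c] at h
  obtain ⟨u, hu, e1⟩ := ah_lead hd hA
  obtain ⟨v, hv, e2⟩ := ah_lead hd hB
  obtain ⟨n, hn⟩ := Nat.exists_eq_add_of_lt h
  refine ⟨d * (n + 1), v * u⁻¹, Nat.mul_pos hd n.succ_pos, ?_,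
    mul_right_cancel₀ (ah_ne hd hA) ?_⟩
  · rw [map_mul, PowerSeries.constantCoeff_inv]
    exact mul_ne_zero hv (inv_ne_zero hu)
  · rw [e, e1, e2, mul_mul_mul_comm, ← wL_add, ← map_mul, mul_assoc,
      PowerSeries.inv_mul_cancel u hu, mul_one, hn]
    congr 2
    push_cast
    ring

end Uni

open Uni in
theorem uniS (h1 : VecStmt) (h2 : CyStmt) (h3 : LurStmt) (h4 : MultStmt) (h5 : PolStmt) :
    UniStmt := by
  intro k G ι _ _ _ _ _ _ _ n d B P e φ g T S
  obtain ⟨s, s1, s2, s3⟩ := h1 k G ι n d B P e φ g T S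
  obtain ⟨m, v, hc⟩ := h2 k G ι n d B P e φ g s T S s1 s2 s3
  obtain ⟨A, Q, ρ, hco, hQ, hlt, hρ, hφ, hfix⟩ := h3 k d φ T.d1 S.fc hc.nc
  have hA : A ≠ 0 := fun c => by simp [c] at hlt
  have h0 : Q.natDegree = 0 := by
    by_contra hq
    obtain ⟨b, hb⟩ := IsAlgClosed.exists_root Q fun c => hq (natDegree_eq_of_degree_eq_some c)
    obtain ⟨μ, r, r1, r2, -⟩ := dec hQ hb
    have hAb : A.eval b ≠ 0 := fun c => by
      obtain ⟨x, y, hxy⟩ := hco
      have := congrArg (eval b) hxy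
      rw [eval_add, eval_mul, eval_mul, c, hb.eq_zero, mul_zero, mul_zero, add_zero, eval_one] at this
      exact zero_ne_one this
    have hρ0 : ρ ≠ 0 := fun c => ah_ne T.d1 hA (by rw [← hρ, c, zero_mul])
    have e1 : ρ⁻¹ * ae (hW k d) A = ae (hW k d) Q := by rw [← hρ, inv_mul_cancel_left₀ hρ0]
    obtain ⟨e', u, u1, u2, u3⟩ := quo T.d1 hQ hlt e1
    exact (h4 k G ι n d B P e φ g s ρ⁻¹ m v b μ r A T S s1 s3 hc s2 (by rw [map_inv₀, hφ])
      (fun a a1 a2 => (hfix a a1 a2).1) r1 hAb (r2 ▸ e1)).1 e' u u1 u2 u3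
  obtain ⟨c, rfl⟩ := natDegree_eq_zero.1 h0
  have hc0 : c ≠ 0 := fun e => hQ (by rw [e, C_0])
  obtain ⟨A1, d1, e1⟩ : ∃ A1 : k[X], 1 ≤ A1.natDegree ∧ ρ = ae (hW k d) A1 := by
    refine ⟨A * C c⁻¹, ?_, ?_⟩
    · rw [natDegree_mul_C (inv_ne_zero hc0)]
      omega
    · rw [map_mul, ← hρ, mul_assoc, ← map_mul, ← C_mul, mul_inv_cancel₀ hc0, C_1, map_one, mul_one]
  obtain ⟨β, a, b, D, a0, hD, e2⟩ := h5 k A1 d1 fun b b' hb => by
    have n0 : A1 - C (A1.eval b) ≠ 0 := fun e => by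
      have := natDegree_sub_C (p := A1) (a := A1.eval b)
      rw [e, natDegree_zero] at this
      omega
    obtain ⟨μ, r, r1, r2, r3⟩ := dec n0 (b := b) (by rw [IsRoot, eval_sub, eval_C, sub_self])
    obtain ⟨μ', r', r1', r2', r3'⟩ :=
      dec n0 (b := b') (by rw [IsRoot, eval_sub, eval_C, hb, sub_self])
    have e3 : (ρ - cL k (A1.eval b)) * ae (hW k d) 1 = ae (hW k d) (A1 - C (A1.eval b)) := by
      rw [map_one, mul_one, map_sub, ae_C, e1]
    have := (h4 k G ι n d B P e φ g s (ρ - cL k (A1.eval b)) m v b' μ' r' 1 T S s1 s3 hc s2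
      (by rw [map_sub, hφ, S.fc]) (fun a a1 a2 => (hfix a a1 a2).2 _) r1' (by simp)
      (r2' ▸ e3)).2 b μ r 1 r1 (by simp) (r2 ▸ e3)
    omega
  have e3 : (φ (hW k d) - cL k b) ^ D = (hW k d - cL k b) ^ D := by
    rw [e1, map_ae S.fc, e2] at hφ
    simp only [map_add, map_mul, map_pow, map_sub, ae_C, ae_X, add_right_inj] at hφ
    exact mul_left_cancel₀ ((_root_.map_ne_zero _).2 a0) hφ
  have t0 := t_ne T.d1 b
  have e4 : ((φ (hW k d) - cL k b) / (hW k d - cL k b)) ^ D = 1 := by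
    rw [div_pow, e3, div_self (pow_ne_zero _ t0)]
  obtain ⟨w, hw⟩ := (IsAlgClosed.splits (X ^ D - C 1 : k[X])).mem_range_of_isRoot
    (X_pow_sub_C_ne_zero hD 1) (i := cL k) (x := (φ (hW k d) - cL k b) / (hW k d - cL k b))
    (by simp [IsRoot, e4])
  refine ⟨w, b - w * b, fun e => ?_, ?_⟩
  · rw [← hw, e, map_zero, zero_pow (by omega)] at e4
    exact zero_ne_one e4
  · rw [eq_div_iff t0] at hw
    rw [map_sub, map_mul]
    linear_combination -hw

end Pool.Agent.MP_05b4bd_ag.UM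

end MrgPart9

-- ======== part 10: formerly Pool.Agent.MP_05b4bd_ag.um.Icd
section MrgPart10

/-! A Morse polynomial transversal to infinity has no invariant curve of smaller degree. -/

namespace Pool.Agent.MP_05b4bd_ag.UM

open MvPolynomial HC
open ES hiding Gen GenTopStmt GenJacStmt Ob EscStmt3
open ES.U
open PC3 hiding Arc SeqStmt IcStmt UpStmt LoStmt CenStmt CflStmt
open PC3.Ic

theorem icdS : IcdStmt := by
  intro k _ _ _ d f g h hd hf g0 hg e
  by_contra hn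
  have nu : ∀ u : R2 k, IsUnit u → DL 1 u := fun u hu => DL_iff.2 (by
    obtain ⟨v, hv⟩ := hu.exists_right_inv
    have := totalDegree_mul_of_isDomain (left_ne_zero_of_mul_eq_one hv)
      (right_ne_zero_of_mul_eq_one hv)
    rw [hv, totalDegree_one] at this
    omega)
  obtain ⟨p, hp, hpg⟩ := WfDvdMonoid.exists_irreducible_factor (fun hu => hn (nu g hu)) g0
  have pp := hp.prime
  obtain ⟨j, g1, h1, rfl⟩ := WfDvdMonoid.max_power_factor g0 hp
  obtain _ | j := j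
  · exact h1 (by simpa using hpg)
  have p1 : ¬ DL 1 p := fun h => by
    have h2 := DL1_eq h
    exact hp.not_isUnit (h2 ▸ (Ne.isUnit fun h0 => hp.ne_zero (by rw [h2, h0, map_zero])).map C)
  have h2 : p ∣ ((j + 1 : ℕ) : R2 k) * g1 * br p f := by
    refine ⟨h * g1 - br g1 f, mul_left_cancel₀ (pow_ne_zero j hp.ne_zero) ?_⟩
    simp only [br, Derivation.leibniz, Derivation.leibniz_pow, smul_eq_mul, nsmul_eq_mul,
      Nat.add_sub_cancel] at e ⊢
    linear_combination e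
  have h3 : p ∣ br p f := (pp.dvd_or_dvd h2).resolve_left fun h4 =>
    (pp.dvd_or_dvd h4).elim (fun h5 => hp.not_isUnit (isUnit_of_dvd_unit h5 (by
      rw [← map_natCast (C : k →+* R2 k)]
      exact (Nat.cast_ne_zero.2 (Nat.succ_ne_zero j)).isUnit.map C))) h1
  obtain ⟨z, hz⟩ := exists_z p1
  obtain ⟨c, u, hu⟩ := level pp h3 hz
  obtain ⟨v, hv⟩ := hpg
  obtain ⟨n, rfl⟩ : ∃ n, d = n + 2 := ⟨d - 2, by omega⟩
  have a2 : p.totalDegree ≤ n + 1 := by
    have := totalDegree_mul_of_isDomain hp.ne_zero (right_ne_zero_of_mul (hv ▸ g0))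
    rw [← hv] at this
    have := (DL_iff (n := n + 1)).1 hg
    omega
  obtain ⟨h0, e0⟩ := h3
  have d0 : DL (n + 1) h0 := DL_of_mul (b := p.totalDegree) (v := p) (by
    rw [mul_comm, ← e0]
    exact br_DL (e := n + 1) (DL_iff.2 le_rfl) hf.dl) (not_DL hp.ne_zero)
  obtain ⟨N, q, hq⟩ := hf.cr
  have val : ∀ i, eval (q i) p = 0 → eval (q i) f = c := fun i hi => by
    have := congrArg (eval (q i)) hu
    rwa [map_sub, map_mul, hi, zero_mul, eval_C, sub_eq_zero] at this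
  obtain ⟨p0, hp0⟩ : ∃ p0 : Fin 2 → k, ∀ i, q i ≠ p0 → eval (q i) p ≠ 0 := by
    by_cases hx : ∃ i, eval (q i) p = 0
    · obtain ⟨i0, hi0⟩ := hx
      exact ⟨q i0, fun i hi h4 => hi (congrArg q (hq.inj ((val i h4).trans (val i0 hi0).symm)))⟩
    · exact ⟨0, fun i _ h4 => hx ⟨i, h4⟩⟩
  have z0 : h0 = 0 := Cb.van hf hq hd d0 p0 fun i hi => by
    have := congrArg (eval (q i)) e0
    rw [br, map_sub, map_mul, map_mul, map_mul, hq.crit, hq.crit, mul_zero, mul_zero, sub_zero,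
      eq_comm] at this
    exact (mul_eq_zero.1 this).resolve_left (hp0 i hi)
  have dp : DL (n + 1 + 1) p := DL_iff.2 a2
  obtain ⟨z1, z2⟩ := kos_zero (e := n) (k := n + 1) (hf.dl.pderiv 0) (hf.dl.pderiv 1) hf.top le_rfl
    (U := -pderiv 1 p) (V := pderiv 0 p) (dp.pderiv 1).neg (dp.pderiv 0) (by
      rw [z0, mul_zero, br] at e0
      linear_combination e0)
  exact hz (by rw [br, z2, neg_eq_zero.1 z1]; simp)

end Pool.Agent.MP_05b4bd_ag.UM

end MrgPart10

-- marker of a merged file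
example : 731051 + 323116 = 731051 + 323116 := rfl
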