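import Pool.Agent.MP_05b4bd_ag.um.Cfl
import Pool.Agent.MP_05b4bd_ag.pc3.Ts2

/-! Two lines and a curve in every degree, and the parabolic families. -/

namespace Pool.Agent.MP_05b4bd_ag.UM

open MvPolynomial HC
open ES hiding Gen GenTopStmt GenJacStmt Ob EscStmt3
open ES.U
open PC3 hiding Arc SeqStmt IcStmt UpStmt LoStmt CenStmt CflStmt
open PC3.U
open scoped PowerSeries LaurentSeries

open PC3.Mem3 in
theorem memlS : MemlStmt := by
  rintro e he _ ⟨f, l, hf, rfl⟩
  obtain ⟨n, rfl⟩ := Nat.exists_eq_add_of_le' he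
  have e0 : (∑ i, (C (l i) * ∏ j ∈ Finset.univ.erase i, f j) • dform (f i)) =
      D3 (l 0) (l 1) (l 2) (f 0) (f 1) (f 2) := by
    rw [Fin.sum_univ_three, show (Finset.univ : Finset (Fin 3)).erase 0 = {1, 2} by decide,
      show (Finset.univ : Finset (Fin 3)).erase 1 = {0, 2} by decide,
      show (Finset.univ : Finset (Fin 3)).erase 2 = {0, 1} by decide,
      Finset.prod_pair (by decide), Finset.prod_pair (by decide), Finset.prod_pair (by decide)]
    rfl
  rw [e0]
  set G : Poly := X 0 ^ (n + 2) + (X 1 - X 0 + C 2) with hGd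
  have d0 : (X 0 + C 1 : Poly).totalDegree ≤ 1 := dg_add (dg_X 0) (dg_C _ _)
  have hG : G.totalDegree ≤ n + 2 := dg_add (dg_pow (dg_X 0) _ (by omega))
    ((dg_add (dg_sub (dg_X 1) (dg_X 0)) (dg_C _ _)).trans (by omega))
  have e1 : (D3 1 1 1 (X 0 + C 1) (X 1) G).1 =
      (X 0 + C 1) * (X 0 ^ (n + 2) + (C 2 * X 1 - X 0 + C 2)) := by
    simp [D3, dform, hGd, map_ofNat]; ring
  have e2 : (D3 1 1 1 (X 0 + C 1) (X 1) G).2 =
      -(X 1 * (G + (X 0 + C 1) * (C ((n : ℂ) + 2) * X 0 ^ (n + 1) - 1))) := by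
    simp [D3, dform, hGd, map_ofNat]; ring
  have hV := V_D3 1 1 1 d0 (dg_X 1) hG
  have := curve3 (n := n + 2) (u := l 0) (v := l 1) (w := l 2) (PC.line (X 0 + C 1) (f 0))
    (PC.line (X 1) (f 1)) (PC.line G (f 2))
    (fun τ => V_D3 _ _ _ (dg_line d0 (hf 0) τ) (dg_line (dg_X 1) (hf 1) τ) (dg_line hG (hf 2) τ))
    (p := ![0, -1]) ?_ (by simp) (by simp) ?_ ?_ ?_
  · simpa using this
  all_goals simp only [add_zero, zero_smul]
  · have d1 : (X 0 ^ (n + 2) + (C 2 * X 1 - X 0 + C 2) : Poly).totalDegree = n + 2 := by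
      have : (C 2 * X 1 - X 0 + C 2 : Poly).totalDegree ≤ 1 :=
        dg_add (dg_sub (dg_Cmul _ (dg_X 1)) (dg_X 0)) (dg_C _ _)
      rw [totalDegree_add_eq_left_of_totalDegree_lt] <;> rw [totalDegree_X_pow]
      omega
    have d2 : (X 0 + C 1 : Poly).totalDegree = 1 := by
      rw [totalDegree_add_eq_left_of_totalDegree_lt] <;> simp
    have n1 : (X 0 ^ (n + 2) + (C 2 * X 1 - X 0 + C 2) : Poly) ≠ 0 := fun h => by
      rw [h] at d1; simp at d1
    have n2 : (X 0 + C 1 : Poly) ≠ 0 := fun h => by rw [h] at d2; simp at d2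
    refine ⟨?_, le_antisymm (max_le hV.1 hV.2) (le_max_of_le_left ?_)⟩
    · rw [e1, e2]
      refine IsRelPrime.mul_left (relP ![-C 1, X 1] (fun j => ?_) (by simp) n2 ![-1, 1] (by simp) ?_)
        (relP ![X 0, -C (1 / 2) * (X 0 ^ (n + 2) - X 0 + C 2)] (fun j => ?_) ?_ n1 ![1, -1]
          (by simp; norm_num) ?_)
      · fin_cases j <;> simp
      · rcases neg_one_pow_eq_or ℂ (n + 2) with h | h <;> simp [hGd, h] <;> norm_num
      · have h2 : (C (1 / 2) * C 2 : Poly) = 1 := by rw [← map_mul]; norm_num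
        fin_cases j
        · simp
        · exact ⟨C (1 / 2), by
            simp only [Fin.mk_one, Matrix.cons_val_one, Matrix.cons_val_zero]
            linear_combination -X 1 * h2⟩
      · have h2 : (C (1 / 2) * C 2 : Poly) = 1 := by rw [← map_mul]; norm_num
        simp only [map_add, map_sub, map_mul, map_pow, aeval_X, aeval_C, algebraMap_eq,
          Matrix.cons_val_one, Matrix.cons_val_zero]
        linear_combination -(X 0 ^ (n + 2) - X 0 + C 2) * h2
      · have : (2 * n + 3 : ℂ) ≠ 0 := by exact_mod_cast (by omega : 2 * n + 3 ≠ 0)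
        simp [hGd]
        intro h; apply this; linear_combination h
    · rw [e1, totalDegree_mul_of_isDomain n2 n1, d1, d2]
      omega
  · rw [e1]; simp
  · rw [e2]; simp [hGd]; norm_num
  · rw [jac, e1, e2]
    rcases n with _ | n <;> simp [hGd] <;> norm_num

namespace Meml

theorem Dm_not_inj {k α : ℂ} (hk : 2 - α = k * 2) {c : Poly} (hc : c.totalDegree ≤ 2) (R : Poly) :
    ¬ Function.Injective (lamI k 2 (Dm 2 α c R)) := by
  by_cases h0 : c = 0
  · refine not_inj_lamI (r := 1) one_ne_zero (by simp) ?_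
    simp [h0, Dm_fst, Dm_snd]
  refine not_inj_lamI h0 hc ?_
  have e : (2 : Poly) - C α = C k * 2 := by
    have := congrArg (C : ℂ → Poly) hk
    simpa [map_ofNat] using this
  have e2 : (C 2 : Poly) = 2 := rfl
  simp only [Dm_fst, Dm_snd, map_add, map_neg, pderiv_mul, pderiv_C, pderiv_comm]
  rw [e2]
  linear_combination (c * (pderiv 0 c * pderiv 1 R - pderiv 1 c * pderiv 0 R)) * e

end Meml

theorem irpS : IrpStmt := by
  intro d n hd hn
  refine ⟨?_, ?_, ?_⟩
  · refine irred_of_curves ⟨_, mem_PN.2 ⟨0, 0, 0, 0, by simp, by simp, by simp, rfl⟩⟩ ?_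
    intro w hw w' hw'
    obtain ⟨c, u, v, g, hu, hv, hg, rfl⟩ := mem_PN.1 hw
    obtain ⟨c', u', v', g', hu', hv', hg', rfl⟩ := mem_PN.1 hw'
    exact ⟨_, PF.fam n (PS.line c c') (PC.line u u') (PC.line v v') (PC.line g g'), by simp,
      by simp, fun τ => mem_PN.2 ⟨_, _, _, _, dg_line hu hu' τ, dg_line hv hv' τ,
        dg_line hg hg' τ, rfl⟩⟩
  · intro w hw
    obtain ⟨c, u, v, g, hu, hv, hg, rfl⟩ := mem_PN.1 hw
    rw [fam_eq]
    refine V_add (V_smul _ (V_sub (V_psmul_dform (a := n + 1) ?_ hu (by omega))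
      (V_psmul_dform (a := n + 1) ?_ hv (by omega)))) (V_Dm (a := 2) _ _ ?_ hg (by omega))
    · exact dg_mul (dg_nat 2 0) (dg_pow hv _ le_rfl) (by omega)
    · exact dg_mul hu (dg_pow hv _ le_rfl) (by omega)
    · exact dg_add (dg_pow hu 2 le_rfl) (hv.trans (by omega))
  · intro w hw
    obtain ⟨c, u, v, g, hu, hv, -, rfl⟩ := mem_PN.1 hw
    exact Meml.Dm_not_inj (by ring) (dg_add (dg_pow hu 2 le_rfl) (hv.trans (by omega))) _

end Pool.Agent.MP_05b4bd_ag.UM
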