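import Pool.Agent.MP_05b4bd_ag.um.Cfl
import Pool.Agent.MP_05b4bd_ag.pc3.Minp3

/-! From arcs to minimal primes through a given point. -/

namespace Pool.Agent.MP_05b4bd_ag.UM

open MvPolynomial HC
open ES hiding Gen GenTopStmt GenJacStmt Ob EscStmt3
open ES.U
open PC3 hiding Arc SeqStmt IcStmt UpStmt LoStmt CenStmt CflStmt
open PC3.U
open scoped PowerSeries LaurentSeries

namespace Minq

open Minp in
theorem point {d : ℕ} {f : Poly} (hf : DL (d + 1) f) {k : Type} [Field k] (κ : Co →+* k)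
    (h : ∀ R, κ R = 0 ↔ Pool.Agent.MP_05b4bd_ag.ev R (dform f) = 0) :
    ∃ i : ℂ →+* k, map κ (un0 d true) = pderiv 1 (map i f) ∧
      map κ (un0 d false) = -pderiv 0 (map i f) := by
  have hX : ∀ m, κ (X m) = κ (C (Pool.Agent.MP_05b4bd_ag.co (dform f) m)) := fun m => by
    rw [← sub_eq_zero, ← map_sub, h]
    simp [Pool.Agent.MP_05b4bd_ag.ev]
  have key : ∀ b, map κ (un0 d b) = map (κ.comp C) (cond b (dform f).1 (dform f).2) := fun b => by
    have hb : DL (d + 1) (cond b (dform f).1 (dform f).2) := by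
      have h' : DL (d + 1 + 1) f := hf.mono (by omega)
      cases b
      exacts [(h'.pderiv 0).neg, h'.pderiv 1]
    ext1 m
    rw [coeff_map, coeff_map, un0, coeff_fA]
    split_ifs with hm
    · exact hX (b, m)
    · rw [hb m (by omega), map_zero, map_zero]
  refine ⟨κ.comp C, ?_, ?_⟩
  · rw [key, pderiv_map]; rfl
  · rw [key, pderiv_map, ← map_neg]; rfl

end Minq

open Minp in
theorem minqS (hA : ArcStmt) (hD : DerAlgStmt) (hC : CorsStmt) (hV : VanfStmt) : MinqStmt := by
  intro d f hd tm ns q hq hk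
  have := hq.1.1
  let D := PCo ⧸ q
  let μ : PCo →ₐ[ℂ] D := Ideal.Quotient.mkₐ ℂ q
  have hμ : ∀ a, μ a = 0 ↔ a ∈ q := fun _ => Ideal.Quotient.eq_zero_iff_mem
  let ν : Co →ₐ[ℂ] D := μ.comp (rename Sum.inl)
  let B := ν.range
  let β : Co →ₐ[ℂ] B := ν.rangeRestrict
  have hβ : Function.Surjective β := ν.rangeRestrict_surjective
  have hi : Function.Injective (algebraMap B D) := Subtype.val_injective
  have : CharZero D := charZero_of_injective_algebraMap (algebraMap ℂ D).injective
  have high : ∀ b m, d < m.degree → μ (X (.inl (b, m))) = 0 := fun b m h =>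
    (hμ _).2 (hq.1.2 (high_mem b m h))
  have top : ∀ T : Subalgebra B D, (∀ i, μ (pU i) ∈ T) → ∀ x, x ∈ T := fun T hT x => by
    obtain ⟨R, rfl⟩ := Ideal.Quotient.mkₐ_surjective ℂ q x
    induction R using MvPolynomial.induction_on with
    | C a => exact T.algebraMap_mem ⟨_, C a, congrArg μ (rename_C _ _)⟩
    | add p q hp hq => rw [map_add]; exact add_mem hp hq
    | mul_X p k hp =>
      rw [map_mul]
      refine mul_mem hp ?_
      rcases k with k | i
      exacts [T.algebraMap_mem ⟨_, X k, congrArg μ (rename_X _ _)⟩, hT i]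
  have f1 : Algebra.FiniteType ℂ B := by
    let θ := β.comp (rename fun k : Bool × Mo0 d => (k.1, k.2.1))
    refine Algebra.FiniteType.of_surjective θ fun x => ?_
    obtain ⟨R, rfl⟩ := hβ x
    change _ ∈ θ.range
    induction R using MvPolynomial.induction_on with
    | C a => exact ⟨C a, congrArg β (rename_C _ _)⟩
    | add p q hp hq => rw [map_add]; exact add_mem hp hq
    | mul_X p k hp =>
      rw [map_mul]
      refine mul_mem hp ?_
      by_cases h : k.2.degree ≤ d
      · exact ⟨X (k.1, ⟨k.2, h⟩), congrArg β (rename_X _ _)⟩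
      · rw [show β (X k) = 0 from Subtype.ext
          ((congrArg μ (rename_X _ _)).trans (high k.1 k.2 (by omega)))]
        exact zero_mem _
  have f2 : Algebra.FiniteType B D :=
    Algebra.FiniteType.of_surjective (aeval fun i => μ (pU i) : MvPolynomial (Fin 2) B →ₐ[B] D)
      (top (AlgHom.range _) fun i => ⟨X i, aeval_X _ _⟩)
  have eU : ∀ b, map (algebraMap B D) (map (β : Co →+* B) (un0 d b)) =
      map (μ : PCo →+* D) (uni d b) := fun b => by
    rw [← ren_un0, map_map, map_map]; rfl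
  have mU : ∀ b, map (μ : PCo →+* D) (tr pU (uni d b)) ∈ mm D ^ 1 := fun b =>
    mem_mm_one.2 (by rw [coeff_map]; exact (hμ _).2 (hq.1.2 (sing_mem b)))
  have hJ : μ (eval pU (br (uni d true) (uni d false))) ≠ 0 := fun h => by
    obtain ⟨w, hw, -, h2⟩ := dense_pts (fin_min high_mem) hq
      ((Ideal.ne_top_iff_one q).1 hq.1.1.ne_top)
    have := h2 _ ((hμ _).1 h)
    rw [← RingHom.coe_coe, map_ev, map_br, map_uni _ true (cen_DL hw true),
      map_uni _ false (cen_DL hw false)] at this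
    refine hw.2.2.2.1 (Eq.trans ?_ this)
    congr 2
    exact funext fun i => (pev_inr _ _ _ i).symm
  have eE : ∀ u : R2 B, eval₂ (algebraMap B D) ![μ (pU 0), μ (pU 1)] u =
      eval (fun i => μ (pU i)) (map (algebraMap B D) u) := fun u => by
    rw [eval_map]
    congr 1
    funext i; fin_cases i <;> rfl
  have eZ : ∀ b, eval₂ (algebraMap B D) ![μ (pU 0), μ (pU 1)] (map (β : Co →+* B) (un0 d b)) = 0 :=
    fun b => by
      have := mem_mm_one.1 (mU b)
      rw [map_tr, coeff_zero_tr, ← eU] at this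
      exact (eE _).trans this
  have f3 : Algebra.IsAlgebraic B D := by
    have := alg_pt hD hi (eZ true) (eZ false) (by
      rw [eE, map_br, eU, eU, ← map_br]
      exact (map_ev (μ : PCo →+* D) _ _) ▸ hJ)
    exact ⟨top (Subalgebra.algebraicClosure B D) (Fin.forall_fin_two.2 this)⟩
  let χ0 : Co →ₐ[ℂ] ℂ := aeval (Pool.Agent.MP_05b4bd_ag.co (dform f))
  have hker : RingHom.ker β ≤ RingHom.ker χ0 := fun R hR =>
    hk R ((hμ _).1 (congrArg Subtype.val hR))
  have := RingHom.ker_isPrime χ0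
  obtain ⟨k, _, _, _, α, ψ, hψ, c1, c2⟩ := hA B D hi f1 f2 f3 _
    (Ideal.map_isPrime_of_surjective hβ hker)
  obtain ⟨i, g1, g2⟩ := Minq.point (tm.dl) ((cc.comp α).comp (β : Co →+* B)) fun R => by
    refine (c2 (β R)).trans ?_
    rw [← Ideal.mem_comap, Ideal.comap_map_of_surjective _ hβ, ← RingHom.ker_eq_comap_bot,
      sup_eq_left.2 hker]
    rfl
  let U : Bool → R2 k⟦X⟧ := fun b => map (α.comp (β : Co →+* B)) (un0 d b)
  have eL : ∀ b, map (coeL k) (U b) = map ψ (map (μ : PCo →+* D) (uni d b)) := fun b => by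
    rw [← eU, map_map, map_map, map_map]
    congr 2
    exact RingHom.ext fun R => (c1 _).symm
  have eT : ∀ b, tr (fun i => ψ (μ (pU i))) (map (coeL k) (U b)) =
      map ψ (map (μ : PCo →+* D) (tr pU (uni d b))) := fun b => by
    rw [eL, map_tr, map_tr]; rfl
  let Ω := AlgebraicClosure k⸨X⸩
  let j : k⸨X⸩ →+* Ω := algebraMap _ _
  let _ : Algebra ℂ Ω := ((j.comp ψ).comp (algebraMap ℂ D)).toAlgebra
  have : CharZero Ω := charZero_of_injective_algebraMap (algebraMap ℂ Ω).injective
  have main := hC k d (map i f) (U true, U false) (fun i => ψ (μ (pU i))) hd (tm.map i) (ns.map i)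
    ⟨(fA_DL _).map _, (fA_DL _).map _⟩
    (Prod.ext (by rw [d1, ← g1]; exact map_map _ _ _) (by rw [d1, ← g2]; exact map_map _ _ _))
    ⟨eT true ▸ mm_map _ (mU true), eT false ▸ mm_map _ (mU false),
    (by
      rw [eL, eL, ← map_br, ← map_br]
      refine fun h => hJ (hψ ?_)
      rw [map_zero, ← h]
      exact (congrArg ψ (map_ev (μ : PCo →+* D) _ _)).trans (map_ev ψ _ _)),
    (by
      rw [eT, eT]
      refine fi_gen (k := ℂ) hψ (mU true) (mU false) ?_ fun s hs => ?_
      · rw [← map_br, coeff_map, br, tr_pderiv, tr_pderiv, tr_pderiv, tr_pderiv, ← map_mul,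
          ← map_mul, ← map_sub, coeff_zero_tr]
        exact hJ
      · obtain ⟨s, rfl⟩ := Ideal.Quotient.mkₐ_surjective ℂ q s
        obtain ⟨w, hw, h1, h2⟩ := dense_pts (fin_min high_mem) hq (mt (hμ s).2 hs)
        refine ⟨Ideal.Quotient.lift q (pe w : PCo →+* ℂ) h2, h1, ?_⟩
        rw [map_map, map_map]
        have := fi_of_center hw.2
        rwa [← show _ = tr w.2 w.1.1 from map_tr_uni w.2 true (cen_DL hw true),
          ← show _ = tr w.2 w.1.2 from map_tr_uni w.2 false (cen_DL hw false)] at this)⟩ Ω j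
  refine (hV Ω d _ hd main).imp fun W ⟨hW, h⟩ => ⟨hW, fun R hR => ?_⟩
  let χ : PCo →ₐ[ℂ] Ω :=
    ⟨(j.comp ψ).comp (μ : PCo →+* D), fun c => congrArg (j.comp ψ) (μ.commutes c)⟩
  have := h R hR
  have e : ∀ b, map j (map (coeL k) (U b)) = map (χ : PCo →+* Ω) (uni d b) := fun b => by
    rw [eL, map_map, map_map]; rfl
  simp only [mapF, e] at this
  rw [pev_ren _ _ _ (fun i => χ (pU i)), eq_pev χ fun b m hm =>
    (congrArg (j.comp ψ) (high b m hm)).trans (map_zero _)] at this
  exact (hμ _).1 (hψ (j.injective (this.trans (by rw [map_zero, map_zero]))))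

end Pool.Agent.MP_05b4bd_ag.UM
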