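import Pool.Agent.MP_05b4bd_ag.um.Cfl
import Pool.Agent.MP_05b4bd_ag.pc3.Final

/-! No family of the list lies in the closure of another one. -/

namespace Pool.Agent.MP_05b4bd_ag.UM

open MvPolynomial HC
open ES hiding Gen GenTopStmt GenJacStmt Ob EscStmt3
open ES.U
open PC3 hiding Arc SeqStmt IcStmt UpStmt LoStmt CenStmt CflStmt
open PC3.U
open scoped PowerSeries LaurentSeries

namespace SepR

theorem mem3 (e : ℕ) : ((X 0, 0) : Form) ∈ L ![1, 1, e] := by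
  refine ⟨![X 0, X 1, 1], ![0, 1, 0], fun i => ?_, ?_⟩
  · fin_cases i
    · exact dg_X 0
    · exact dg_X 1
    · simp
  · have e : (Finset.univ.erase (1 : Fin 3)) = {0, 2} := by decide
    simp [Fin.sum_univ_three, e, dform]

theorem w0_mem {e : ℕ} (he : 1 ≤ e) (n : ℕ) : w0 n ∈ PN (e + 1) n :=
  mem_PN.2 ⟨1, _, _, _, dg_X 0, dg_X 1, dg_neg ((dg_X 0).trans he), rfl⟩

theorem back (m : MemStmt) {d : ℕ} (hd : 3 ≤ d) {W W' : Set Form} (h : IsComponent (M d) (zcl W))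
    (h' : W' ∈ Wl d) (k : W ⊆ zcl W') : W' ⊆ zcl W :=
  (subset_zcl W').trans (h.2 ⟨zcl_subset (m d hd W' h').1, (m d hd W' h').2.zcl⟩ (zcl_subset k))

end SepR

open SepR Sep12 in
theorem sepU (m : MemStmt) (ip : IrpStmt) (wi : WitStmt) : SepStmt := by
  intro d hd
  obtain ⟨G, ⟨f, f1, -, f2⟩, hG⟩ := main_all d hd
  have kA := ((hG f f1.le f2 _).2 (Or.inl rfl)).1
  have kB := ((hG f f1.le f2 _).2 (Or.inr (Or.inl rfl))).1
  obtain ⟨e, rfl⟩ : ∃ e, d = e + 1 + 1 := ⟨d - 2, by omega⟩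
  have he : 2 ≤ e + 1 := by omega
  have sA : ∑ i, ![e + 1 + 1 + 1] i = e + 1 + 1 + 1 := by simp
  have sB : ∑ i, ![1, e + 1 + 1] i = e + 1 + 1 + 1 := by simp; omega
  have sC : ∑ i, ![1, 1, e + 1] i = e + 1 + 1 + 1 := by simp [Fin.sum_univ_three]; omega
  have sD : ∑ i, ![2, e + 1] i = e + 1 + 1 + 1 := by simp; omega
  have aB : ¬ L ![e + 1 + 1 + 1] ⊆ zcl (L ![1, e + 1 + 1]) := by
    rw [Top.L_ham, Top.L_log]; exact Top.ham_not_log (by omega)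
  have bA : ¬ L ![1, e + 1 + 1] ⊆ zcl (L ![e + 1 + 1 + 1]) := by
    rw [Top.L_ham, Top.L_log]; exact Top.log_not_ham (by omega)
  have vA := L_V sC (wA_mem he)
  have vB := L_V sD (wB_mem he)
  have cA : ¬ L ![1, 1, e + 1] ⊆ zcl (L ![e + 1 + 1 + 1]) := fun h =>
    sep vA (L_V sA) wA_inj (rel_one 2 _) (h (wA_mem he))
  have cB : ¬ L ![1, 1, e + 1] ⊆ zcl (L ![1, e + 1 + 1]) := fun h =>
    sep vA (L_V sB) wA_inj (rel_two one_le_two _) (h (wA_mem he))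
  have cD : ¬ L ![1, 1, e + 1] ⊆ zcl (L ![2, e + 1]) := fun h =>
    sep vA (L_V sD) wA_inj (rel_two le_rfl _) (h (wA_mem he))
  have dA : ¬ L ![2, e + 1] ⊆ zcl (L ![e + 1 + 1 + 1]) := fun h =>
    sep vB (L_V sA) wB_inj (rel_one 1 _) (h (wB_mem he))
  have dB : ¬ L ![2, e + 1] ⊆ zcl (L ![1, e + 1 + 1]) := fun h =>
    sep vB (L_V sB) wB_inj (rel_two le_rfl _) (h (wB_mem he))
  have dC : ¬ L ![2, e + 1] ⊆ zcl (L ![1, 1, e + 1]) := by
    obtain ⟨r, hr⟩ := Nat.even_mul_succ_self (e + 2)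
    have hr : (e + 2) * (e + 3) = r + r := hr
    refine (dimS denseS).2 _ _ _ _ (6 + r) cD (Tan2.tan e _ (by omega)) ?_
    rw [Fin.sum_univ_three]
    change (1 + 1) * (1 + 2) + (1 + 1) * (1 + 2) + (e + 2) * (e + 3) ≤ _
    omega
  have lP : ∀ {W : Set Form} {n : ℕ}, n < e + 1 + 1 → W ⊆ V (e + 1 + 1) → ((X 0, 0) : Form) ∈ W →
      ¬ W ⊆ zcl (PN (e + 1 + 1) n) := fun {W n} h1 h2 h3 k =>
    not_mem_zcl _ (h2 h3) (wi.1 n) (ip _ n (by omega) h1).2.1 (ip _ n (by omega) h1).2.2 (k h3)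
  have pL : ∀ {s n : ℕ} {δ : Fin s → ℕ}, ∑ i, δ i = e + 1 + 1 + 1 → e + 1 + 1 ≤ 2 * n + 1 →
      n < e + 1 + 1 → ¬ PN (e + 1 + 1) n ⊆ zcl (L δ) := fun {s n δ} h h1 h2 k =>
    not_mem_zcl _ ((ip _ n (by omega) h2).2.1 (w0_mem (by omega) n))
      (wi.2.1 n _ (by omega) (by omega)) (L_V h) (fun _ => L_not_inj h) (k (w0_mem (by omega) n))
  intro W hW W' hW' k
  have bk := fun {U : Set Form} (h : IsComponent (M (e + 1 + 1)) (zcl U)) => back m hd h hW'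
  simp only [Wl, Set.mem_ofPred_eq, Nat.add_sub_cancel] at hW hW'
  rcases hW with rfl | rfl | rfl | rfl | ⟨n, n1, n2, rfl⟩ <;>
    rcases hW' with rfl | rfl | rfl | rfl | ⟨n', n3, n4, rfl⟩
  any_goals rfl
  exacts [(aB k).elim, (cA (bk kA k)).elim, (dA (bk kA k)).elim, (pL sA n3 n4 (bk kA k)).elim,
    (bA k).elim, (cB (bk kB k)).elim, (dB (bk kB k)).elim, (pL sB n3 n4 (bk kB k)).elim,
    (cA k).elim, (cB k).elim, (cD k).elim, (lP n4 (L_V sC) (mem3 _) k).elim,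
    (dA k).elim, (dB k).elim, (dC k).elim,
    (lP n4 (L_V sD) (Sep3.mem2 one_le_two (by omega)) k).elim,
    (pL sA n1 n2 k).elim, (pL sB n1 n2 k).elim, (pL sC n1 n2 k).elim, (pL sD n1 n2 k).elim, by
      by_contra h
      exact not_mem_zcl _ ((ip _ n (by omega) n2).2.1 (w0_mem (by omega) n))
        (wi.2.2 n n' (by omega) fun z => h (by rw [z])) (ip _ n' (by omega) n4).2.1
        (ip _ n' (by omega) n4).2.2 (k (w0_mem (by omega) n))]

end Pool.Agent.MP_05b4bd_ag.UM
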