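import Pool.Agent.MP_05b4bd_ag.um.Cfl
import Pool.Agent.MP_05b4bd_ag.pc3.Seq

/-! Approximate first integrals along an arc of centres through a Morse polynomial. -/

namespace Pool.Agent.MP_05b4bd_ag.UM

open MvPolynomial HC
open ES hiding Gen GenTopStmt GenJacStmt Ob EscStmt3
open ES.U
open PC3 hiding Arc SeqStmt IcStmt UpStmt LoStmt CenStmt CflStmt
open PC3.U
open scoped PowerSeries LaurentSeries

namespace SeqU

theorem eig {A : Type} [CommRing A] {P Q : R2 A} {p0 p1 q0 δ : A} (hP : P ∈ mm A ^ 1)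
    (hQ : Q ∈ mm A ^ 1) (eP : hc 1 P = HC.lf p0 p1) (eQ : hc 1 Q = HC.lf q0 (-p0))
    (hδ : δ * δ = p0 * p0 + p1 * q0) (u : IsUnit (2 * δ * (δ + p0))) : Eig P Q := by
  obtain ⟨t, ht⟩ := u.exists_right_inv
  have h : (δ + p0) * ((δ + p0) * t) - p1 * (-q0 * t) = 1 := by linear_combination ht - t * hδ
  refine ⟨δ + p0, p1, -q0 * t, (δ + p0) * t, δ, _, _, h,
    isUnit_of_mul_isUnit_right (isUnit_of_mul_isUnit_left u), exists_Tr h P Q, ?_, ?_, ?_, ?_⟩
  · exact lin_mm (add_mem (Ideal.mul_mem_left _ _ hP) (Ideal.mul_mem_left _ _ hQ))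
  · exact lin_mm (add_mem (Ideal.mul_mem_left _ _ hP) (Ideal.mul_mem_left _ _ hQ))
  · apply lin_inj h
    rw [hc_lin, lin_inv h, map_mul, lin_C, lin_X0, hc_add, hc_C_mul, hc_C_mul, eP, eQ]
    have := congrArg (C : A → R2 A) hδ
    simp only [HC.lf, map_add, map_mul, map_neg] at this ⊢
    linear_combination (-X 0 : R2 A) * this
  · apply lin_inj h
    rw [hc_lin, lin_inv h, hc_add, hc_C_mul, hc_C_mul, eP, eQ, map_neg (lin _ _ _ _),
      map_mul (lin _ _ _ _), lin_C, lin_X1]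
    have := congrArg (C : A → R2 A) hδ
    simp only [HC.lf, map_add, map_mul, map_neg] at this ⊢
    linear_combination (C t * X 1 : R2 A) * this

theorem co_tr {A : Type} [CommRing A] (p : Fin 2 → A) (u : R2 A) :
    HC.co 1 0 (tr p u) = eval p (pderiv 0 u) ∧ HC.co 0 1 (tr p u) = eval p (pderiv 1 u) := by
  have c0 := co_x 0 0 (tr p u)
  have c1 := co_y 0 0 (tr p u)
  rw [tr_pderiv, HC.co, Finsupp.single_zero, Finsupp.single_zero, add_zero, coeff_zero_tr] at c0 c1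
  exact ⟨by simpa using c0.symm, by simpa using c1.symm⟩

variable {k : Type} [Field k] [CharZero k]

/-- The Hessian does not vanish at a critical point. -/
theorem hess {d : ℕ} {f : R2 k} (H : Gen d f) {q : Fin 2 → k}
    (hq : ∀ i, eval q (pderiv i f) = 0) : eval q (br (pderiv 1 f) (-pderiv 0 f)) ≠ 0 := by
  obtain ⟨n, p, h⟩ := H.2.2.1.cr
  obtain ⟨i, rfl⟩ := cr_mem h hq
  rw [show br (pderiv 1 f) (-pderiv 0 f) = br (pderiv 0 f) (pderiv 1 f) by
    simp only [br, map_neg]; ring]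
  exact h.hess i

variable [IsAlgClosed k]

/-- Images descend from the Laurent series to the power series. -/
theorem star {P Q b : R2 k⟦X⟧} (mP : P ∈ mm k⟦X⟧ ^ 1) (mQ : Q ∈ mm k⟦X⟧ ^ 1)
    (l1 : cc (HC.co 1 0 P * HC.co 0 1 Q - HC.co 0 1 P * HC.co 1 0 Q) ≠ 0)
    (hI : FI (map (coeL k) P) (map (coeL k) Q))
    (hb : InIm (map (coeL k) P) (map (coeL k) Q) (map (coeL k) b)) : InIm P Q b := by
  have : CharZero k⸨X⸩ := charZero_of_injective_ringHom (cL_inj (R := k))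
  have l : ∀ u : R2 k⟦X⟧, hc 1 u = HC.lf (HC.co 1 0 u) (HC.co 0 1 u) := fun u => by
    rw [hom1_eq (hc_hom 1 u), co_hc 1 0, co_hc 0 1]
  have hv : IK (coeL k) P Q (pderiv 0 P + pderiv 1 Q) := by
    rw [IK, map_add, ← pderiv_map, ← pderiv_map]
    refine div_inIm (mm_map _ mP) (mm_map _ mQ) ?_ hI
    rw [hc_map, hc_map, l, l, map_lf, map_lf]
    refine CI_lf fun h => l1 ?_
    rw [← map_mul, ← map_mul, ← map_sub, map_eq_zero_iff _ coeL_inj] at h
    rw [h, map_zero]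
  have tr0 : HC.co 0 1 Q = -HC.co 1 0 P := by
    obtain ⟨g, hg⟩ := hv 1
    have h1 := add_mem hg (add_mem (Ideal.mul_mem_right (pderiv 0 g) _ (mm_map (coeL k) mP))
      (Ideal.mul_mem_right (pderiv 1 g) _ (mm_map (coeL k) mQ)))
    rw [vf, sub_add_cancel] at h1
    have := co_of_mm (mm_of_map _ coeL_inj h1) (show 0 + 0 < 1 by omega)
    rw [co_add, co_x, co_y] at this
    simp only [Nat.cast_zero, zero_add, mul_one] at this
    linear_combination this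
  have n0 : cc (HC.co 1 0 P * HC.co 1 0 P + HC.co 0 1 P * HC.co 1 0 Q) ≠ 0 := fun h => l1 (by
    rw [tr0, ← neg_eq_zero, ← map_neg, ← h]
    congr 1
    ring)
  obtain ⟨δ, hδ⟩ := Seq.sqrt n0
  have d0 : cc δ ≠ 0 := fun h => n0 (by rw [← hδ, map_mul, h, zero_mul])
  refine Eig.star coeL_inj ?_ hI hb
  by_cases h : cc δ + cc (HC.co 1 0 P) = 0
  · refine eig (δ := -δ) mP mQ (l P) (by rw [l, tr0]) (by rw [neg_mul_neg, hδ]) ?_
    rw [unit_iff, map_mul, map_mul, map_ofNat, map_add, map_neg]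
    exact mul_ne_zero (mul_ne_zero two_ne_zero (neg_ne_zero.2 d0)) fun h' =>
      mul_ne_zero two_ne_zero d0 (by linear_combination h - h')
  · refine eig mP mQ (l P) (by rw [l, tr0]) hδ ?_
    rw [unit_iff, map_mul, map_mul, map_ofNat, map_add]
    exact mul_ne_zero (mul_ne_zero two_ne_zero d0) h

theorem no_ob (hE : EscStmt3) (h3 : GenJacStmt) {d : ℕ} (hd : 3 ≤ d)
    (o : Ob k d) {p : Fin 2 → k⸨X⸩} (h : CenK (o.P, o.Q) p) : False := by
  have : CharZero k⸨X⸩ := charZero_of_injective_ringHom (cL_inj (R := k))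
  obtain ⟨mP, mQ, hb, hI⟩ := h
  choose c hc using hE k d hd o p (Core.cab_of_fi p mP mQ hb hI)
  obtain rfl : p = fun i => coeL k (c i) := funext hc
  dsimp only at mP mQ hI
  rw [← map_tr] at mP mQ
  rw [← map_tr, ← map_tr] at hI
  replace mP := mm_of_map _ coeL_inj mP
  replace mQ := mm_of_map _ coeL_inj mQ
  obtain ⟨q, hq⟩ : ∃ q : Fin 2 → k, q = fun i => cc (c i) := ⟨_, rfl⟩
  have eP : map cc (tr c o.P) = pderiv 1 (tr q o.f) := by rw [map_tr, o.rP, tr_pderiv, hq]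
  have eQ : map cc (tr c o.Q) = -pderiv 0 (tr q o.f) := by
    rw [map_tr, o.rQ, tr_pderiv, map_neg, hq]
  have crit : ∀ i, eval q (pderiv i o.f) = 0 := by
    have a := mem_mm_one.1 (mm_map (cc : k⟦X⟧ →+* k) mP)
    have b := mem_mm_one.1 (mm_map (cc : k⟦X⟧ →+* k) mQ)
    rw [eP, tr_pderiv, coeff_zero_tr] at a
    rw [eQ, tr_pderiv, coeff_neg, coeff_zero_tr, neg_eq_zero] at b
    intro i
    fin_cases i
    exacts [b, a]
  have dg : ∀ i, pderiv i (tr q o.f) = pderiv i (tr q o.f - C (eval q o.f)) := fun i => by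
    rw [map_sub, pderiv_C, sub_zero]
  rw [dg] at eP eQ
  have x0 : coeL k (PowerSeries.X ^ o.n) ≠ 0 := fun e =>
    pow_ne_zero _ PowerSeries.X_ne_zero (coeL_inj (e.trans (map_zero _).symm))
  have l1 : cc (HC.co 1 0 (tr c o.P) * HC.co 0 1 (tr c o.Q) -
      HC.co 0 1 (tr c o.P) * HC.co 1 0 (tr c o.Q)) ≠ 0 := by
    have := hess o.gen crit
    rw [← o.rQ, ← o.rP, ← map_br, hq, ← Fra.cc_eval, br, map_sub, map_mul, map_mul] at this
    rwa [(co_tr c o.P).1, (co_tr c o.P).2, (co_tr c o.Q).1, (co_tr c o.Q).2]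
  have key := star (b := tr c o.gt) mP mQ l1 hI
    fun N => ⟨C (coeL k (PowerSeries.X ^ o.n))⁻¹ * map (coeL k) (tr c o.H), by
      rw [vf_C_mul, ← map_vf, ← tr_vf, o.eq, map_mul, map_mul, algHom_C, algebraMap_eq, map_C,
        ← mul_assoc, ← map_mul, inv_mul_cancel₀ x0, map_one, one_mul, sub_self]
      exact zero_mem _⟩
  obtain ⟨s, -, hs, -, -, hN⟩ := h3 k d o.f hd o.gen
  obtain ⟨v, hv⟩ := hN q ((hs q).2 crit) (map cc o.gt) (mem_NN.2 fun N => by
    obtain ⟨h, hh⟩ := key N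
    have := mm_map (cc : k⟦X⟧ →+* k) hh
    rw [map_sub, map_vf, eP, eQ, map_tr, ← hq] at this
    exact ⟨_, this⟩)
  exact o.ng v hv

end SeqU

theorem seqU (hE : EscStmt3) (hJ : GenJacStmt) : SeqStmt := by
  rintro k _ _ _ d f ⟨P, Q⟩ p hd ⟨hf, ⟨dP, dQ⟩, hr⟩ hp
  have rP : map cc P = pderiv 1 f := congrArg Prod.fst hr
  have rQ : map cc Q = -pderiv 0 f := congrArg Prod.snd hr
  obtain ⟨s, -, hs, -, h3, -⟩ := hJ k d f hd hf
  have hb : map cc (br P Q) = br (pderiv 1 f) (-pderiv 0 f) := by rw [map_br, rP, rQ]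
  have lf : ∀ q ∈ s, ∃ p : Fin 2 → k⟦X⟧, (∀ i, cc (p i) = q i) ∧ eval p P = 0 ∧ eval p Q = 0 := by
    intro q hq
    refine Fra.lift P Q q ?_ ?_ ?_
    · rw [rP]; exact (hs q).1 hq 1
    · rw [rQ, map_neg, (hs q).1 hq 0, neg_zero]
    · rw [hb]
      exact SeqU.hess hf ((hs q).1 hq)
  have st : ∀ (n : ℕ) (H : R2 k⟦X⟧), map cc H = f ∧ C (PowerSeries.X ^ (n + 1)) ∣ vf P Q H →
      ∃ H' : R2 k⟦X⟧, (map cc H' = f ∧ C (PowerSeries.X ^ (n + 1 + 1)) ∣ vf P Q H') ∧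
        C (PowerSeries.X ^ (n + 1)) ∣ H' - H := by
    rintro n H ⟨r1, g, hg⟩
    have hj : map cc g ∈ Jac f := by
      refine h3 _ fun q hq => ?_
      obtain ⟨p, p1, p2, p3⟩ := lf q hq
      have := Fra.van hg p2 p3
      rwa [funext p1] at this
    by_cases hc : ∃ u, map cc g = br u f
    · obtain ⟨u, hu⟩ := hc
      exact Fra.step rP rQ r1 hg hu
    · exact (SeqU.no_ob hE hJ hd ⟨P, Q, H, g, f, n + 1, hf, dP, dQ, rP, rQ, r1,
        Nat.le_add_left 1 n, hg, fun u e => hc ⟨u, e⟩, hj⟩ hp).elim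
  have s0 : C (PowerSeries.X ^ (0 + 1)) ∣ vf P Q (map (PowerSeries.C : k →+* k⟦X⟧) f) := by
    rw [zero_add, pow_one]
    refine Fra.ker_dvd ((Fra.rv rP rQ f).trans ?_)
    rw [br, mul_comm, sub_self]
  exact Fra.seq _ _ ⟨_, Fra.map_lift f, s0⟩ st

end Pool.Agent.MP_05b4bd_ag.UM
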