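import Pool.Agent.MP_05b4bd_ag.um.Cfl
import Pool.Agent.MP_05b4bd_ag.pc3.Ts2
import Pool.Agent.MP_05b4bd_ag.pc3.Van

-- ======== part 0: formerly Pool.Agent.MP_05b4bd_ag.um.Wit
section MrgPart0

/-! Witnesses with trivial linear kernels, in every degree. -/

namespace Pool.Agent.MP_05b4bd_ag.UM

open MvPolynomial

namespace Wit

/-- The recursion for the coefficients of a solution. -/
def Rc (k : ℂ) (K : ℕ) (F : Poly) : Prop := ∀ i j : ℕ,
  (k * ((2 * (K : ℂ) + 1) * i + 2 * j) - (2 * K + 3)) * cf F i j +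
    (if K ≤ j then ((2 * (K : ℂ) + 3) - k * (i + 2 * (j - K : ℕ))) * cf F i (j - K) else 0) -
    (if 2 ≤ i then 4 * K * k * (cf F (i - 2) (j + 1) * (j + 1)) else 0) = 0

theorem rc {k : ℂ} {K : ℕ} {F : Poly} (h : F * (pderiv 0 (w0 K).1 + pderiv 1 (w0 K).2) -
    C k * (pderiv 0 F * (w0 K).1 + pderiv 1 F * (w0 K).2) = 0) : Rc k K F := fun i j => by
  have E : C k * (C (2 * (K : ℂ) + 1) * (X 0 * pderiv 0 F) + C 2 * (X 1 * pderiv 1 F)) -
      C (2 * (K : ℂ) + 3) * F + X 1 ^ K * (C (2 * (K : ℂ) + 3) * F - C k * (X 0 * pderiv 0 F +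
      C 2 * (X 1 * pderiv 1 F))) - C k * (C (4 * (K : ℂ)) * (X 0 ^ 2 * pderiv 1 F)) = 0 := by
    simp [w0_fst, w0_snd, map_ofNat] at h
    simp only [map_add, map_mul, map_ofNat, map_natCast, map_one]
    linear_combination -h
  have := congrArg (fun G => cf G i j) E
  simp only [cf_add, cf_sub, cf_C_mul, cf_e0, cf_e1, cf_X0, cf_X1, cf_p1,
    PC3.Sep3.cf_zero] at this
  split_ifs at this ⊢ <;> linear_combination this

theorem key {k : ℂ} {K : ℕ} {F : Poly} (hK : 1 ≤ K) (R : Rc k K F) (hd : ∀ i j : ℕ,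
    k * ((2 * (K : ℂ) + 1) * i + 2 * j) = 2 * K + 3 → cf F i j = 0) : F = 0 := by
  refine cf_ext fun i => ?_
  induction i using Nat.strong_induction_on with
  | _ i ihi =>
  intro j
  induction j using Nat.strong_induction_on with
  | _ j ihj =>
  have r := R i j
  have t1 : (if K ≤ j then ((2 * (K : ℂ) + 3) - k * (i + 2 * (j - K : ℕ))) * cf F i (j - K)
      else 0) = 0 := by
    split_ifs with h1
    · rw [ihj _ (by omega), mul_zero]
    · rfl
  have t2 : (if 2 ≤ i then 4 * K * k * (cf F (i - 2) (j + 1) * (j + 1)) else 0) = 0 := by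
    split_ifs with h1
    · rw [ihi _ (by omega)]; simp
    · rfl
  rw [t1, t2, add_zero, sub_zero] at r
  exact (mul_eq_zero.1 r).elim (fun h => hd i j (sub_eq_zero.1 h)) id

theorem c11 {K : ℕ} {F : Poly} (hK : 1 ≤ K) (R : Rc 1 K F) (hF : F.totalDegree ≤ 2 * K + 2) :
    cf F 1 1 = 0 := by
  have hK0 : (K : ℂ) ≠ 0 := by exact_mod_cast (by omega : K ≠ 0)
  have dn : ∀ j s, j + s = K → cf F (2 * s + 3) j = 0 := fun j => by
    induction j with
    | zero => exact fun s hs => cf_deg hF (by omega)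
    | succ j ih =>
      intro s hs
      have r := R (2 * (s + 1) + 3) j
      rw [ih (s + 1) (by omega), if_neg (by omega), if_pos (by omega),
        show 2 * (s + 1) + 3 - 2 = 2 * s + 3 by omega] at r
      refine mul_left_cancel₀ (mul_ne_zero hK0 (Nat.cast_add_one_ne_zero j)) ?_
      linear_combination -r / 4
  have r1 := R 1 (K + 1)
  have r2 := R 3 0
  have r3 := R 3 K
  rw [if_pos (by omega), if_neg (by omega), Nat.add_sub_cancel_left] at r1
  rw [if_neg (by omega), if_pos (by omega)] at r2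
  rw [if_pos le_rfl, if_pos (by omega), Nat.sub_self, dn K 0 rfl] at r3
  norm_num at r1 r2 r3
  have hK3 : (2 * (K : ℂ) + 3) ≠ 0 := by exact_mod_cast (by omega : 2 * K + 3 ≠ 0)
  refine mul_left_cancel₀ (mul_ne_zero hK0 hK3) ?_
  linear_combination r3 / 2 + ((K : ℂ) + 1) * r1 - r2 / 4

end Wit

open Wit PC3.Sep3 in
theorem witS : WitStmt := by
  refine ⟨fun n => inj_of fun r _ h => tri_zero 1 (-((2 * n + 3) / 2)) 0 0 (fun i j e => ?_) ?_,
    fun n N hn hN => inj_of fun r hr h => key hn (rc h) fun i j e => ?_,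
    fun n m hn hm => inj_of fun r hr h => key hn (rc h) fun i j e => ?_⟩
  · have : (2 * n + 3) * i = 2 := by
      have : (2 * (n : ℂ) + 3) * i = 2 := by linear_combination -2 * e
      exact_mod_cast this
    rcases i with _ | i
    · omega
    · have : (2 * n + 3) * (i + 1) = (2 * n + 3) * i + 2 * n + 3 := by ring
      omega
  · simp only [pderiv_X_self, map_zero, map_neg, map_one] at h ⊢
    linear_combination h
  · have h2 : (2 * n + 1) * i + 2 * j = 2 * n + 3 := by
      rw [one_mul] at e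
      exact_mod_cast e
    have : i = 1 ∧ j = 1 := by
      rcases i with _ | _ | i
      · omega
      · omega
      · have : (2 * n + 1) * (i + 1 + 1) = (2 * n + 1) * i + 4 * n + 2 := by ring
        omega
    rw [this.1, this.2]
    exact c11 hn (rc h) (hr.trans hN)
  · refine cf_deg hr (not_le.1 fun hij => ?_)
    have h2 : (2 * m + 3) * ((2 * n + 1) * i + 2 * j) = 2 * (2 * n + 3) := by
      have : (2 * (m : ℂ) + 3) * ((2 * n + 1) * i + 2 * j) = 2 * (2 * n + 3) := by
        linear_combination 2 * e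
      exact_mod_cast this
    have hi : i ≤ 2 := by omega
    have hj : j ≤ 2 := by omega
    interval_cases i <;> interval_cases j <;> ring_nf at h2 <;> omega

end Pool.Agent.MP_05b4bd_ag.UM

end MrgPart0

-- ======== part 1: formerly Pool.Agent.MP_05b4bd_ag.um.Memq
section MrgPart1

/-! The families with an invariant conic lie in the centre variety. -/

namespace Pool.Agent.MP_05b4bd_ag.UM

open MvPolynomial PC3.Mem2

namespace Memq

/-- The second curve of the base point. -/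
noncomputable def G0 (m : ℕ) : Poly := X 1 + 2 * X 0 ^ (m + 2) + 1

theorem dG (m : ℕ) : (G0 m).totalDegree ≤ m + 2 :=
  dg_add (dg_add ((dg_X 1).trans (by omega))
    (dg_mul (dg_nat 2 0) (dg_pow (dg_X 0) _ (mul_one _).le) (by omega))) (by simp)

theorem e1 (β α : ℂ) (m : ℕ) : (Dm β α (X 0 ^ 2 + X 1) (G0 m)).1 =
    C (α + β) * X 1 + C β * X 0 ^ 2 + C α * (2 * X 0 ^ (m + 2) + 1) := by
  simp [Dm_fst, G0]; ring

theorem e2 (β α : ℂ) (m : ℕ) : (Dm β α (X 0 ^ 2 + X 1) (G0 m)).2 =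
    C (-2 * (β * (m + 2) + 2 * α)) * (X 0 ^ (m + 3) * 1) - C (2 * α) * (X 0 ^ 1 * 1) -
      X 1 ^ 1 * (C (2 * β * (m + 2)) * X 0 ^ (m + 1) + C (2 * α) * X 0) := by
  simp [Dm_snd, G0, map_ofNat]; ring

theorem base {β α : ℂ → ℂ} {F G : ℂ → Poly} {m : ℕ} (hβ : PS β) (hα : PS α) (hF : PC F)
    (hG : PC G) (hV : ∀ τ, Dm (β τ) (α τ) (F τ) (G τ) ∈ V (m + 3)) (f0 : F 0 = X 0 ^ 2 + X 1)
    (g0 : G 0 = G0 m) (h1 : β 0 ≠ 0) (h2 : α 0 ≠ 0) (h3 : α 0 + β 0 ≠ 0)
    (h4 : β 0 * (m + 2) + 2 * α 0 ≠ 0) (τ : ℂ) : Dm (β τ) (α τ) (F τ) (G τ) ∈ M (m + 3) := by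
  have hV0 := hV 0
  refine curve_mem_M (n := m + 2) hβ hα hF hG hV (p := ![0, -α 0 / (α 0 + β 0)]) ?_ h1 ?_ ?_ ?_
    ?_ τ
  all_goals rw [f0]
  any_goals rw [g0]
  all_goals generalize α 0 = a at *
  all_goals generalize β 0 = b at *
  · rw [f0, g0] at hV0
    refine ⟨?_, le_antisymm (max_le hV0.1 hV0.2) (le_max_of_le_right (not_lt.1 fun h => ?_))⟩
    · rw [e1, e2]
      refine relPrime_lin h3 (p := ![1, -(b + 3 * a) / (a + b)]) (by simp) ?_ ?_
      · simp; field_simp; ring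
      · have : (m : ℂ) + 1 ≠ 0 := Nat.cast_add_one_ne_zero m
        refine fun h => mul_ne_zero (mul_ne_zero h2 h1) this ?_
        simp at h
        field_simp at h
        linear_combination h / 4
    · have := cf_deg (Nat.le_of_lt_succ h) (show m + 2 < m + 3 + 0 by omega)
      rw [e2] at this
      simp only [cf_sub, cf_C_mul, cf_X0, cf_X1] at this
      rw [if_pos le_rfl, if_pos (by omega), if_neg (by omega),
        cf_deg (F := 1) (n := 0) (i := m + 3 - 1) (by simp) (by omega)] at this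
      simp [cf] at this
      exact h4 this
  · simpa using ⟨h2, h3⟩
  · rw [e1]; simp; field_simp; ring
  · rw [e2]; simp
  · refine fun h => mul_ne_zero h2 h1 ?_
    simp only [jac, e1, e2] at h
    rcases m with _ | m
    · simp [h3] at h
      field_simp at h
      linear_combination h / 2
    · simp [h3] at h
      field_simp at h
      linear_combination -h / 2

theorem famV {d n : ℕ} (hn : n < d) (c : ℂ) {u v g : Poly} (hu : u.totalDegree ≤ 1)
    (hv : v.totalDegree ≤ 1) (hg : g.totalDegree ≤ d - 1) : fam n c u v g ∈ V d := by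
  rw [fam_eq]
  refine V_add (V_smul _ (V_sub (V_psmul_dform (a := n + 1) ?_ hu (by omega))
    (V_psmul_dform (a := n + 1) ?_ hv (by omega)))) (V_Dm (a := 2) _ _ ?_ hg (by omega))
  · exact dg_mul (dg_nat 2 0) (dg_pow hv _ le_rfl) (by omega)
  · exact dg_mul hu (dg_pow hv _ le_rfl) (by omega)
  · exact dg_add (dg_pow hu 2 le_rfl) (hv.trans (by omega))

end Memq

open Memq in
theorem memqS : MemqStmt := by
  refine ⟨fun e he ω hω => ?_, fun d n hd h1 h2 ω hω => ?_⟩
  · obtain ⟨m, rfl⟩ : ∃ m, e = m + 2 := ⟨e - 2, by omega⟩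
    obtain ⟨β, α, F, G, hF, hG, rfl⟩ := L_two hω
    have hm : (m : ℂ) + 4 ≠ 0 := by exact_mod_cast (by omega : m + 4 ≠ 0)
    simpa using base (PS.line 1 β) (PS.line 1 α) (PC.line (X 0 ^ 2 + X 1) F) (PC.line (G0 m) G)
      (fun τ => V_Dm _ _ (dg_line dF hF τ) (dg_line (dG m) hG τ) (by omega)) (by simp) (by simp)
      (by simp) (by simp) (by norm_num) (fun h => hm (by linear_combination h)) 1
  · obtain ⟨m, rfl⟩ : ∃ m, d = m + 3 := ⟨d - 3, by omega⟩
    obtain ⟨c, u, v, g, hu, hv, hg, rfl⟩ := mem_PN.1 hω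
    have k1 : 2 * (n : ℂ) + 1 ≠ 0 := by exact_mod_cast (by omega : 2 * n + 1 ≠ 0)
    have k2 : 2 * (n : ℂ) ≠ 1 := by exact_mod_cast (by omega : 2 * n ≠ 1)
    have k3 : (m : ℂ) + 1 ≠ 2 * n := by exact_mod_cast (by omega : m + 1 ≠ 2 * n)
    simpa [fam] using base (PS.const 2) (PS.const (-(2 * (n : ℂ) + 1)))
      (((PC.line (X 0) u).pow 2).add (PC.line (X 1) v))
      (((PS.line 0 c).toC.mul ((PC.line (X 0) u).Sp (PC.line (X 1) v) n)).add (PC.line (G0 m) g))
      (fun τ => famV h2 _ (dg_line (dg_X 0) hu τ) (dg_line (dg_X 1) hv τ) (dg_line (dG m) hg τ))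
      (by simp) (by simp) two_ne_zero (neg_ne_zero.2 k1) (fun h => k2 (by linear_combination -h))
      (fun h => k3 (by linear_combination h / 2)) 1

end Pool.Agent.MP_05b4bd_ag.UM

end MrgPart1

-- ======== part 2: formerly Pool.Agent.MP_05b4bd_ag.um.Vanf
section MrgPart2

/-! The families in every degree satisfy the equations of their complex points. -/

namespace Pool.Agent.MP_05b4bd_ag.UM

open MvPolynomial HC
open ES hiding Gen GenTopStmt GenJacStmt Ob EscStmt3
open ES.U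
open PC3 hiding Arc SeqStmt IcStmt UpStmt LoStmt CenStmt CflStmt
open PC3.U
open scoped PowerSeries LaurentSeries

open PC3.VanR in
theorem vanfS : VanfStmt := by
  intro Ω _ _ d w hd h
  obtain ⟨e, rfl⟩ : ∃ e, d = e + 1 := ⟨d - 1, by omega⟩
  obtain ⟨lm, h1, h2, h3, -, -⟩ := vanS Ω
  rcases h with h | h | h | h | ⟨n, n1, n2, a, u, v, g, _, hu, hv, hg, rfl, rfl⟩
  · exact ⟨_, .inl rfl, h1 _ _ h⟩
  · exact ⟨_, .inr (.inl rfl), lm _ _ (h2 _ _) _ h⟩
  · exact ⟨_, .inr (.inr (.inl rfl)), lm _ _ (h3 e) _ h⟩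
  · exact ⟨_, .inr (.inr (.inr (.inl rfl))), lm _ _ (h2 _ _) _ h⟩
  · refine ⟨_, .inr (.inr (.inr (.inr ⟨n, n1, n2, rfl⟩))), ?_⟩
    obtain ⟨u, ku, rfl⟩ := lift hu
    obtain ⟨v, kv, rfl⟩ := lift hv
    obtain ⟨g, kg, rfl⟩ := lift hg
    have := univ (W := PN (e + 1) n)
      (fm (2 * (u ^ 2 + v)) (C (X a) * E u v n + g) -
        fm ((2 * (n : R2 (MvPolynomial Ω ℂ)) + 1) * (C (X a) * E u v n + g)) (u ^ 2 + v))
      fun φ => ⟨φ (X a), map φ u, map φ v, map φ g, _, DL_iff.1 (ku.map φ), DL_iff.1 (kv.map φ),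
        DL_iff.1 (kg.map φ), rfl, by
        simp only [mapF_sub, mapF_fm, map_mul, map_add, map_pow, map_C, map_ofNat, map_natCast,
          map_one, map_E, fm_df]⟩
    simpa only [mapF_sub, mapF_fm, map_mul, map_add, map_pow, map_C, map_ofNat, map_natCast,
      map_one, map_E, ee_X] using this

end Pool.Agent.MP_05b4bd_ag.UM

end MrgPart2

-- marker of a merged file
example : 731051 + 358597 = 731051 + 358597 := rfl
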