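import Pool.Agent.MP_05b4bd_ag.um.AsmA
import Pool.Agent.MP_05b4bd_ag.um.Cfl
import Pool.Agent.MP_05b4bd_ag.um.Seq
import Pool.Agent.MP_05b4bd_ag.um.Minq
import Pool.Agent.MP_05b4bd_ag.um.Vanf
import Pool.Agent.MP_05b4bd_ag.um.Cen
import Pool.Agent.MP_05b4bd_ag.um.Sep
import Pool.Agent.MP_05b4bd_ag.um.Par
import Pool.Agent.MP_05b4bd_ag.um.Meml
import Pool.Agent.MP_05b4bd_ag.um.Icd
import Pool.Agent.MP_05b4bd_ag.um.Core
import Pool.Agent.MP_05b4bd_ag.um.Nc6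

/-! The components through `df` for every Morse polynomial transversal to infinity without radial
symmetry. -/

namespace Pool.Agent.MP_05b4bd_ag.UM

open MvPolynomial

theorem coreA : CoreStmt :=
  coreU (seqU escA jacA) icdS (nc6S PC3.kgS) (cenU PC3.diagS) cflU parU

theorem memA : MemStmt := memU PC3.irrS.1 memqS memlS irpS

theorem main_um (d : ℕ) (hd : 3 ≤ d) (f : Poly) (hf : f.totalDegree = d)
    (hs : Squarefree (homogeneousComponent d f)) (hM : Morse f) (hR : ¬ Radial d f)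
    (Z : Set Form) (hZ : dform f ∈ Z) :
    IsComponent (M d) Z ↔ Z = zcl (L ![d + 1]) ∨ Z = zcl (L ![1, d]) ∨
      Z = zcl (L ![1, 1, d - 1]) ∨ Z = zcl (L ![2, d - 1]) ∨
      ∃ n, d ≤ 2 * n + 1 ∧ n < d ∧ Z = zcl (PN d n) :=
  finalU (minqS (ES.arcS ES.npS) ES.derAlgS (corsS shearS coreA) vanfS) memA
    (sepU memA irpS witS) sqfS morS nsyS d hd f hf hs hM hR Z hZ

end Pool.Agent.MP_05b4bd_ag.UM
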