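import Pool.Agent.MP_05b4bd_ag.um.Vec

/-! An affine substitution acts on the Brieskorn module. -/

namespace Pool.Agent.MP_05b4bd_ag.UM

open ES Polynomial
open scoped TensorProduct PowerSeries LaurentSeries

noncomputable section

namespace Act

variable {k : Type} [Field k]

/-- Polynomials in `h`. -/
def Pol (k : Type) [Field k] (d : ℕ) : Subring k⸨X⸩ := (ae (hW k d)).range

variable {d : ℕ}

theorem cL_pol (c : k) : cL k c ∈ Pol k d := ⟨C c, ae_C _ _⟩

theorem hW_pol : hW k d ∈ Pol k d := ⟨X, ae_X _⟩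

theorem pol_off (hd : 1 ≤ d) {a : k⸨X⸩} (h : a ∈ Pol k d) {m : ℤ} (hm : Off d m) :
    a.coeff m = 0 := by
  obtain ⟨q, e⟩ := h
  exact (pol_iff hd a).1 ⟨q, e.symm⟩ m hm

variable [CharZero k]

theorem dK_pol (hd : 1 ≤ d) {a : k⸨X⸩} (h : a ∈ Pol k d) : dK k d a ∈ Pol k d := by
  obtain ⟨q, rfl⟩ := h
  exact ⟨_, (dK_ah hd q).symm⟩

theorem prim (q : k[X]) : ∃ r : k[X], derivative r = q := by
  induction q using Polynomial.induction_on' with
  | add a b ha hb =>
    obtain ⟨r, rfl⟩ := ha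
    obtain ⟨s, rfl⟩ := hb
    exact ⟨r + s, derivative_add⟩
  | monomial m a =>
    refine ⟨monomial (m + 1) (a / (m + 1)), ?_⟩
    rw [derivative_monomial_succ, div_mul_cancel₀ _ (Nat.cast_add_one_ne_zero m)]

theorem pol_of_dK (hd : 1 ≤ d) {a : k⸨X⸩} (h : dK k d a ∈ Pol k d) : a ∈ Pol k d := by
  obtain ⟨q, e⟩ := h
  obtain ⟨r, rfl⟩ := prim q
  obtain ⟨c, hc⟩ := const_dK hd (a := a - ae (hW k d) r) (by rw [map_sub, dK_ah hd, e, sub_self])
  rw [eq_add_of_sub_eq hc]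
  exact add_mem (cL_pol c) ⟨r, rfl⟩

variable {G ι : Type} [AddCommGroup G] [Module k G] [Fintype ι] [DecidableEq ι] {n : ℕ}

/-- `u'` is the image of `u`. -/
def R (d : ℕ) (P : G →ₗ[k] ι → k⸨X⸩) (φ : k⸨X⸩ →+* k⸨X⸩) (u u' : G) : Prop :=
  ∀ i, φ (P u i) - P u' i ∈ Pol k d

/-- The standing assumptions. -/
structure Hy (B : BM k G n) (d : ℕ) (P : G →ₗ[k] ι → k⸨X⸩) (φ : k⸨X⸩ →+* k⸨X⸩) (w c0 : k) :
    Prop where
  d1 : 1 ≤ d
  Ph : ∀ u, P (B.h u) = hW k d • P u
  Pθ : ∀ u, dV k ι d (P (B.θ u)) = P u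
  fc : ∀ c, φ (cL k c) = cL k c
  chain : ∀ a, dK k d (φ a) = cL k w * φ (dK k d a)
  w0 : w ≠ 0
  aff : φ (hW k d) = cL k w * hW k d + cL k c0
  uni : ∀ u, (∀ i, P u i ∈ Pol k d) → u = 0

variable {B : BM k G n} {P : G →ₗ[k] ι → k⸨X⸩} {φ : k⸨X⸩ →+* k⸨X⸩} {w c0 : k} {u u' v v' : G}

omit [CharZero k] [Fintype ι] [DecidableEq ι] in
theorem R.add (h : R d P φ u u') (h' : R d P φ v v') : R d P φ (u + v) (u' + v') := fun i => by
  have := add_mem (h i) (h' i)
  simp only [map_add, Pi.add_apply]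
  convert this using 1
  ring

namespace Hy
variable (H : Hy B d P φ w c0)
include H

omit [CharZero k] [Fintype ι] [DecidableEq ι] in
theorem smul (c : k) (h : R d P φ u u') : R d P φ (c • u) (c • u') := fun i => by
  have := mul_mem (cL_pol c) (h i)
  simp only [map_smul, Pi.smul_apply, smul_cL, map_mul, H.fc]
  convert this using 1
  ring

omit [CharZero k] [Fintype ι] [DecidableEq ι] in
theorem uniq (h : R d P φ u u') (h' : R d P φ u v') : u' = v' :=
  sub_eq_zero.1 (H.uni _ fun i => by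
    have := sub_mem (h' i) (h i)
    simp only [map_sub, Pi.sub_apply]
    convert this using 1
    ring)

omit [CharZero k] [Fintype ι] [DecidableEq ι] in
theorem rh (h : R d P φ u u') : R d P φ (B.h u) (w • B.h u' + c0 • u') := fun i => by
  have := mul_mem (add_mem (mul_mem (cL_pol w) hW_pol) (cL_pol c0)) (h i)
  simp only [map_add, map_smul, Pi.add_apply, Pi.smul_apply, smul_cL, H.Ph, smul_eq_mul, map_mul,
    H.aff]
  convert this using 1
  ring

omit [CharZero k] [Fintype ι] [DecidableEq ι] in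
theorem dθ (u : G) (i : ι) : dK k d (P (B.θ u) i) = P u i := congrFun (H.Pθ u) i

omit [Fintype ι] [DecidableEq ι] in
theorem rθ (h : R d P φ u u') : R d P φ (B.θ u) (w • B.θ u') := fun i => pol_of_dK H.d1 (by
  have := mul_mem (cL_pol w) (h i)
  rw [map_sub, H.chain, map_smul, Pi.smul_apply, map_smul, H.dθ, H.dθ, smul_cL]
  convert this using 1
  ring)

omit [Fintype ι] [DecidableEq ι] in
theorem down (h : R d P φ (B.θ u) (B.θ u')) : R d P φ u (w⁻¹ • u') := fun i => by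
  have h1 := dK_pol H.d1 (h i)
  rw [map_sub, H.chain, H.dθ, H.dθ] at h1
  have := mul_mem (cL_pol w⁻¹) h1
  rw [mul_sub, ← mul_assoc, ← map_mul, inv_mul_cancel₀ H.w0, map_one, one_mul] at this
  rwa [map_smul, Pi.smul_apply, smul_cL]

/-- The elements that have an image after `m` steps. -/
def N (m : ℕ) : Submodule k G where
  carrier := {u | ∃ u', R d P φ ((B.θ ^ m) u) u'}
  zero_mem' := ⟨0, fun i => by simp⟩
  add_mem' := by
    rintro u v ⟨u', h⟩ ⟨v', h'⟩
    exact ⟨_, by rw [map_add]; exact h.add h'⟩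
  smul_mem' := by
    rintro c u ⟨u', h⟩
    exact ⟨_, by rw [map_smul]; exact H.smul c h⟩

end Hy

omit [CharZero k] in
theorem pθ (m : ℕ) (u : G) : (B.θ ^ m) (B.θ u) = B.θ ((B.θ ^ m) u) := by
  rw [← Module.End.mul_apply, ← pow_succ, pow_succ', Module.End.mul_apply]

omit [CharZero k] in
theorem ph (m : ℕ) (u : G) :
    (B.θ ^ m) (B.h u) = B.h ((B.θ ^ m) u) + (-(m : k)) • B.θ ((B.θ ^ m) u) := by
  induction m with
  | zero => simp
  | succ m ih =>
    rw [pow_succ', Module.End.mul_apply, Module.End.mul_apply, ih, B.comm, map_add, map_smul]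
    push_cast
    module

namespace Hy
variable (H : Hy B d P φ w c0)
include H

omit [Fintype ι] [DecidableEq ι] in
theorem mono : Monotone H.N := monotone_nat_of_le_succ fun m => by
  rintro u ⟨u', h⟩
  exact ⟨_, by rw [pow_succ', Module.End.mul_apply]; exact H.rθ h⟩

omit [Fintype ι] [DecidableEq ι] in
theorem act {m : ℕ} (h : H.N m = ⊤) : ∃ S : Module.End k G, (∀ u, R d P φ ((B.θ ^ m) u) (S u)) ∧
    (∀ u, S (B.θ u) = w • B.θ (S u)) ∧
    ∀ u, S (B.h u) = w • B.h (S u) + c0 • S u + (-(m : k)) • w • B.θ (S u) := by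
  choose s hs using fun u => (h ▸ Submodule.mem_top : u ∈ H.N m)
  refine ⟨⟨⟨s, fun u v => H.uniq (hs _) ?_⟩, fun c u => H.uniq (hs _) ?_⟩, hs,
    fun u => H.uniq (hs _) ?_, fun u => H.uniq (hs _) ?_⟩
  · rw [map_add]; exact (hs u).add (hs v)
  · rw [map_smul]; exact H.smul c (hs u)
  · rw [pθ]; exact H.rθ (hs u)
  · rw [ph]; exact (H.rh (hs u)).add (H.smul _ (H.rθ (hs u)))

omit [Fintype ι] [DecidableEq ι] in
theorem step {m : ℕ} (h : H.N (m + 1) = ⊤) : H.N m = ⊤ := by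
  obtain ⟨S, h1, h2, h3⟩ := H.act h
  by_cases hz : ∀ p, B.ev p ∘ₗ S = 0
  · refine eq_top_iff.2 fun u _ => ?_
    obtain ⟨v, hv⟩ := (B.ker (S u)).1 fun p => LinearMap.congr_fun (hz p) u
    have := h1 u
    rw [hv, pow_succ', Module.End.mul_apply] at this
    exact ⟨_, H.down this⟩
  obtain ⟨p, hp⟩ := not_forall.1 hz
  obtain ⟨q, a, ha, hq, e⟩ := B.eig (B.ev p ∘ₗ S) (μ := w * B.c p + c0)
    (fun u => by simp [h2, B.ev_θ]) (fun u => by simp [h3, B.ev_θ, B.mul]; ring) hp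
  have e1 := congrArg S (B.jrel q)
  rw [map_sub, map_smul, h3, h2, hq, map_sub] at e1
  have e2 : B.h (S (B.j q)) - B.c p • S (B.j q) =
      B.θ ((((m + 1 : ℕ) : k) + 1) • S (B.j q) - S (B.y q)) := by
    apply smul_right_injective G H.w0
    simp only [map_sub, map_smul] at e1 ⊢
    linear_combination (norm := module) e1
  have e3 := B.expo p e2
  have f : ∀ u, B.ev p (S u) = a * B.ev q u := e
  rw [map_sub, map_smul, f, f, B.y0, smul_eq_mul] at e3
  exact absurd (show ((m + 1 : ℕ) : k) * (a * B.ev q (B.j q)) = 0 by linear_combination e3)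
    (mul_ne_zero (Nat.cast_ne_zero.2 m.succ_ne_zero) (mul_ne_zero ha (B.j0 q)))

end Hy

end Act

open Act in
theorem actS (h1 : PilStmt) : ActStmt := by
  intro k G ι _ _ _ _ _ _ n d B P e φ g w c0 T Y hw aff
  have hf : dK k d (φ (hW k d)) = cL k w := by
    rw [aff, map_add, dK_mul, dK_cL, dK_cL, dK_hW T.d1]; ring
  have H : Hy B d P φ w c0 := ⟨T.d1, T.Ph, T.Pθ, Y.fc, fun a => hf ▸ Y.chain a, hw, aff,
    fun u h => (h1 k G ι n d B P e T).2 0 u fun m hm =>
      ⟨0, funext fun i => by simpa [cv] using pol_off T.d1 (h i) hm⟩⟩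
  have mem : ∀ u, u ∈ ⨆ m, H.N m ↔ ∃ m, u ∈ H.N m := fun u =>
    Submodule.mem_iSup_of_directed _ H.mono.directed_le
  have st : ∀ m, St B.θ (H.N m) := by
    rintro m u ⟨u', h⟩
    exact ⟨_, by rw [pθ]; exact H.rθ h⟩
  have top : ⨆ m, H.N m = ⊤ := by
    refine (T.irr _ (fun u hu => ?_) (fun u hu => ?_) fun u hu => ?_).resolve_left fun h0 => ?_
    · obtain ⟨m, u', h⟩ := (mem u).1 hu
      exact (mem _).2 ⟨m, _, by rw [ph]; exact (H.rh h).add (H.smul _ (H.rθ h))⟩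
    · obtain ⟨m, h⟩ := (mem u).1 hu
      exact (mem _).2 ⟨m, st m u h⟩
    · obtain ⟨m, u', h⟩ := (mem _).1 hu
      exact (mem _).2 ⟨m + 1, u', by rwa [pow_succ, Module.End.mul_apply]⟩
    · have : B.θ g ∈ ⨆ m, H.N m := (mem _).2 ⟨0, w • B.θ g, fun i => by
        rw [pow_zero, Module.End.one_apply, Y.inv, hf, map_smul, Pi.smul_apply, smul_cL, sub_self]
        exact zero_mem _⟩
      rw [h0, Submodule.mem_bot, map_eq_zero_iff _ B.inj] at this
      obtain ⟨p, hp⟩ := Y.g0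
      exact hp (by rw [this, map_zero])
  obtain ⟨s, hs⟩ := B.fg
  choose f hf using fun u => (mem u).1 (top ▸ Submodule.mem_top)
  have t1 : H.N (s.sup f) = ⊤ := hs _ (st _) fun u hu => H.mono (Finset.le_sup hu) (hf u)
  have t0 : ∀ m, H.N m = ⊤ → H.N 0 = ⊤ := fun m => by
    induction m with
    | zero => exact id
    | succ m ih => exact fun h => ih (H.step h)
  obtain ⟨S, a1, a2, a3⟩ := H.act (t0 _ t1)
  refine ⟨S, a2, fun u => by simpa using a3 u, fun u i m hm => ?_⟩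
  have := pol_off T.d1 (a1 u i) hm
  rwa [pow_zero, Module.End.one_apply, HahnSeries.coeff_sub, sub_eq_zero] at this

end

end Pool.Agent.MP_05b4bd_ag.UM
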