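import Pool.Agent.MP_05b4bd_ag.um.Vec

/-! Comparison of two logarithmic filtrations. -/

namespace Pool.Agent.MP_05b4bd_ag.UM

open ES Polynomial
open scoped TensorProduct PowerSeries LaurentSeries

noncomputable section

namespace Cmpv
variable {k V : Type} [Field k] [AddCommGroup V] [Module k V] {T : Module.End k V}

theorem st_sub {N : Submodule k V} (h : St T N) (μ : k) : St (T - μ • 1) N := fun u hu => by
  rw [LinearMap.sub_apply, LinearMap.smul_apply, Module.End.one_apply]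
  exact N.sub_mem (h u hu) (N.smul_mem _ hu)

theorem inj {F : ℕ → Submodule k V} {e j : ℕ} (h : Log T F e) {μ : k} (hμ : μ ≠ (j : k) / e)
    {x : V} (hx : x ∈ F j) (hy : (T - μ • 1) x ∈ F (j + 1)) : x ∈ F (j + 1) := by
  have h1 := h.nil j x hx
  have h2 := h.st _ _ hy
  generalize (j : k) / e = a at hμ h1
  have e1 : ((μ - a) ^ 2) • x = (T - a • 1) ((T - a • 1) x) - T ((T - μ • 1) x)
      - (μ - 2 * a) • (T - μ • 1) x := by
    simp only [LinearMap.sub_apply, LinearMap.smul_apply, Module.End.one_apply, map_sub, map_smul]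
    module
  refine ((F (j + 1)).smul_mem_iff (pow_ne_zero 2 (sub_ne_zero.2 hμ))).1 ?_
  rw [e1]
  exact (F _).sub_mem ((F _).sub_mem h1 h2) ((F _).smul_mem _ hy)

end Cmpv

theorem cmpvS : CmpvStmt := by
  intro k V _ _ _ _ T F F' e e' N hF hF' hN hc w hw j j' h1 h2 h3
  by_contra hlt
  have key : ∀ i, ∃ x ∈ N, x ∈ F j ∧ x ∉ F (j + 1) ∧ x ∈ F' (j' + i) := by
    intro i
    induction i with
    | zero => exact ⟨w, hw, h1, h2, h3⟩
    | succ i ih =>
      obtain ⟨x, k0, k1, k2, k3⟩ := ih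
      have hμ : ((j' + i : ℕ) : k) / e' ≠ (j : k) / e := fun h => by
        have a1 : (e : k) ≠ 0 := Nat.cast_ne_zero.2 (Nat.one_le_iff_ne_zero.1 hF.e0)
        have a2 : (e' : k) ≠ 0 := Nat.cast_ne_zero.2 (Nat.one_le_iff_ne_zero.1 hF'.e0)
        rw [div_eq_div_iff a2 a1] at h
        have a3 : (j' + i) * e = j * e' := by exact_mod_cast h
        exact hlt (a3 ▸ Nat.mul_le_mul_right e (Nat.le_add_right j' i))
      have s1 := Cmpv.st_sub (hF.st j) (((j' + i : ℕ) : k) / e')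
      have s2 := Cmpv.st_sub hN (((j' + i : ℕ) : k) / e')
      exact ⟨_, s2 _ (s2 _ k0), s1 _ (s1 _ k1),
        fun h => k2 (Cmpv.inj hF hμ k1 (Cmpv.inj hF hμ (s1 _ k1) h)), hF'.nil _ x k3⟩
  obtain ⟨m, hm⟩ := hc (j + 1)
  obtain ⟨x, k0, -, k2, k3⟩ := key m
  exact k2 (hm x k0 (antitone_nat_of_succ_le hF'.anti (Nat.le_add_left m j') k3))

end

end Pool.Agent.MP_05b4bd_ag.UM
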