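import Pool.Agent.MP_05b4bd_ag.um.Tr

/-! A map that commutes with the two operators up to scalars keeps the degree filtration. -/

namespace Pool.Agent.MP_05b4bd_ag.UM

open MvPolynomial HC
open ES hiding Gen GenTopStmt GenJacStmt IlAbsStmt InvStmt3 Inf
open ES.U
open scoped TensorProduct PowerSeries LaurentSeries

namespace Deg

variable {k G : Type} [Field k] [CharZero k] [AddCommGroup G] [Module k G] {n e : ℕ}
  {B : BM k G n} {f : R2 k} {p : Fin n → Fin 2 → k} {π : R2 k →ₗ[k] G}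

/-- The filtration by the degree. -/
noncomputable def Fl (π : R2 k →ₗ[k] G) (m : ℕ) : Submodule k G := (dl k m).map π

omit [CharZero k] in
theorem mem {m : ℕ} {u : R2 k} (h : DL m u) : π u ∈ Fl π m := ⟨u, h, rfl⟩

omit [CharZero k] in
theorem mono {a b : ℕ} (h : a ≤ b) : Fl π a ≤ Fl π b := by
  rintro _ ⟨u, hu, rfl⟩
  exact mem (DL.mono hu h)

theorem th_mem (T : TM (e + 2) f) (P : Pres B f p π) {m : ℕ} {x : G} (h : x ∈ Fl π m) :
    B.θ x ∈ Fl π (m + (e + 2)) := by
  obtain ⟨v, hv, rfl⟩ := h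
  have := P.th (ad 0 v) 0
  rw [pderiv_ad, map_zero, add_zero, zero_mul, add_zero] at this
  rw [this]
  exact mem ((ad_DL 0 hv).mul (T.dl.pderiv 0))

omit [CharZero k] in
theorem h_mem (T : TM (e + 2) f) (P : Pres B f p π) {m : ℕ} {x : G} (h : x ∈ Fl π m) :
    B.h x ∈ Fl π (m + (e + 2)) := by
  obtain ⟨v, hv, rfl⟩ := h
  rw [P.mul, add_comm]
  exact mem (T.dl.mul hv)

/-- The two operators are proportional on the graded module. -/
theorem star (T : TM (e + 2) f) (P : Pres B f p π) {j : ℕ} {x : G} (h : x ∈ Fl π (j + 1)) :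
    ((j : k) + 2) • B.θ x - ((e : k) + 2) • B.h x ∈ Fl π (j + (e + 2)) := by
  obtain ⟨v, hv, rfl⟩ := h
  have hv : DL (j + 1) v := hv
  have l := mem (π := π) hv.sub_hc
  have a : ((j : k) + 2) • B.θ (π (hc j v)) - ((e : k) + 2) • B.h (π (hc j v)) ∈
      Fl π (j + (e + 2)) := by
    have q := hc_hom j v
    generalize hc j v = u at q
    have t := P.th (u * X 0) (u * X 1)
    have d : pderiv 0 (u * X 0) + pderiv 1 (u * X 1) = ((j : k) + 2) • u := by
      rw [pderiv_mul, pderiv_mul, pderiv_X_self, pderiv_X_self, smul_eq_C_mul, map_add,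
        map_natCast, map_ofNat]
      linear_combination euler q
    rw [d, map_smul, map_smul] at t
    rw [t, P.mul, ← map_smul, ← map_sub]
    refine mem (Eq.subst (motive := DL _) ?_ ((DL.of_hom q).mul (Esc.euler_DL T.dl)))
    rw [smul_eq_C_mul, map_add, map_natCast, map_ofNat]
    push_cast
    ring
  have e1 : π v = π (v - hc j v) + π (hc j v) := by rw [← map_add, sub_add_cancel]
  rw [e1, map_add, map_add, smul_add, smul_add, add_sub_add_comm]
  exact add_mem (sub_mem (Submodule.smul_mem _ _ (th_mem T P l))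
    (Submodule.smul_mem _ _ (h_mem T P l))) a

omit [CharZero k] in
theorem fg_le (P : Pres B f p π) (N : Submodule k G) (h : N.FG) : ∃ s, N ≤ Fl π s := by
  refine Submodule.fg_induction (motive := fun N _ => ∃ s, N ≤ Fl π s) (fun x => ?_) ?_ N h
  · obtain ⟨u, rfl⟩ := P.surj x
    obtain ⟨s, hs⟩ := exists_DL u
    exact ⟨s, (Submodule.span_singleton_le_iff_mem _ _).2 (mem hs)⟩
  · rintro A A' - - ⟨s, hs⟩ ⟨t, ht⟩
    exact ⟨s + t, sup_le (hs.trans (mono (by omega))) (ht.trans (mono (by omega)))⟩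

variable {S : Module.End k G} {w c : k}

theorem some (T : TM (e + 2) f) (P : Pres B f p π) (h1 : ∀ u, S (B.θ u) = w • B.θ (S u)) :
    ∃ s, ∀ m u, DL m u → S (π u) ∈ Fl π (m + s) := by
  obtain ⟨M, hM⟩ := jac_red T.dl T.top
  obtain ⟨s, hs⟩ := fg_le P ((Fl π (M + (e + 2))).map S)
    ((((Submodule.fg_iff_finiteDimensional _).2 inferInstance).map π).map S)
  have low : ∀ u, DL (M + (e + 2)) u → S (π u) ∈ Fl π s := fun u hu => hs ⟨_, mem hu, rfl⟩
  refine ⟨s, fun m => ?_⟩
  induction m using Nat.strong_induction_on with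
  | _ m ih =>
    intro u hu
    by_cases d : m ≤ M + (e + 2)
    · exact mono (by omega) (low u (hu.mono d))
    obtain ⟨j, rfl⟩ : ∃ j, m = j + 1 + (e + 1) := ⟨m - (e + 2), by omega⟩
    obtain ⟨r, hr, hj⟩ := hM u
    obtain ⟨a, b, hab⟩ := Ideal.mem_span_pair.1 hj
    obtain ⟨a', b', ha, hb, e1⟩ := kos_top (n := j + 1) (T.dl.pderiv 0) (T.dl.pderiv 1) T.top a b
      (hab ▸ hu.sub (hr.mono (by omega)))
    have e2 : π u = π r + B.θ (π (pderiv 0 a' + pderiv 1 b')) := by
      rw [P.th, e1, hab, ← map_add, add_sub_cancel]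
    rw [e2, map_add, h1]
    refine add_mem (mono (by omega) (low r (hr.mono (by omega)))) (Submodule.smul_mem _ _ ?_)
    exact mono (by omega) (th_mem T P (ih j (by omega) _ ((ha.pderiv 0).add (hb.pderiv 1))))

theorem down (g : GrStmt) (T : TM (e + 2) f) (P : Pres B f p π) (hw : w ≠ 0)
    (h1 : ∀ u, S (B.θ u) = w • B.θ (S u)) (h2 : ∀ u, S (B.h u) = w • B.h (S u) + c • S u) {s : ℕ}
    (H : ∀ m u, DL m u → S (π u) ∈ Fl π (m + (s + 1))) (m : ℕ) (u : R2 k) (hu : DL m u) :
    S (π u) ∈ Fl π (m + s) := by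
  cases m with
  | zero => rw [hu.eq_zero, map_zero, map_zero]; exact zero_mem _
  | succ j =>
    have x0 : S (π u) ∈ Fl π (j + 1 + s + 1) := H _ u hu
    have a := star T P x0
    obtain ⟨z, hz, ez⟩ := star T P (mem (π := π) hu)
    have b := H _ z hz
    rw [ez, map_sub, map_smul, map_smul, h1, h2,
      show j + (e + 2) + (s + 1) = j + 1 + s + (e + 2) by omega] at b
    have x1 : S (π u) ∈ Fl π (j + 1 + s + (e + 2)) := mono (by omega) x0
    have key : B.h (S (π u)) ∈ Fl π (j + 1 + s + (e + 2)) := by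
      have nz : w * (((e : k) + 2) * ((s : k) + 1)) ≠ 0 :=
        mul_ne_zero hw (mul_ne_zero (by exact_mod_cast Nat.succ_ne_zero (e + 1))
          (by exact_mod_cast Nat.succ_ne_zero s))
      rw [← Submodule.smul_mem_iff _ nz]
      refine Eq.subst (motive := fun x => x ∈ Fl π (j + 1 + s + (e + 2))) ?_
        (sub_mem (Submodule.smul_mem _ (w * ((j : k) + 2)) a)
          (Submodule.smul_mem _ (((j + 1 + s : ℕ) : k) + 2)
            (add_mem b (Submodule.smul_mem _ (((e : k) + 2) * c) x1))))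
      push_cast
      module
    obtain ⟨v, -, ev⟩ := x0
    obtain ⟨y, hy, ey⟩ := key
    rw [← ev, P.mul] at ey
    obtain ⟨t, ht⟩ := (P.ker (f * v - y)).1 (by rw [map_sub, ey, sub_self])
    obtain ⟨t', ht'⟩ := (g k (e + 2) f (by omega) T).2.2 (j + 1 + s) v t 0 (by
      rw [C_0, sub_zero, ← ht, sub_sub_cancel]
      exact hy)
    refine ⟨_, ht', ?_⟩
    rw [map_sub, (P.ker _).2 ⟨t', rfl⟩, sub_zero, ev]

end Deg

theorem degS (h : GrStmt) : DegStmt := by
  intro k G _ _ _ _ d n B f p π S w c hd T P hw h1 h2 m u hu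
  obtain ⟨e, rfl⟩ : ∃ e, d = e + 2 := ⟨d - 2, by omega⟩
  obtain ⟨s, hs⟩ := Deg.some T P h1
  have : ∀ m u, DL m u → S (π u) ∈ Deg.Fl π (m + 0) := by
    induction s with
    | zero => exact hs
    | succ s ih => exact ih (Deg.down h T P hw h1 h2 hs)
  obtain ⟨v, hv, ev⟩ := this m u hu
  exact ⟨v, hv, ev.symm⟩

end Pool.Agent.MP_05b4bd_ag.UM
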