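import Pool.Agent.MP_05b4bd_ag.um.Tr
import Mathlib.RingTheory.TensorProduct.Maps

-- ======== part 0: formerly Pool.Agent.MP_05b4bd_ag.um.Cop
section MrgPart0

/-! The Bezoutian of the gradient. -/

namespace Pool.Agent.MP_05b4bd_ag.UM

open MvPolynomial HC
open scoped TensorProduct

noncomputable section

namespace Cop

section Gen
variable {k R : Type} [Field k] [CommRing R] [Algebra k R]

theorem rmul (d : Derivation k R R) (z w : R ⊗[k] R) :
    d.toLinearMap.rTensor R (z * w) =
      d.toLinearMap.rTensor R z * w + z * d.toLinearMap.rTensor R w := by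
  induction z using TensorProduct.induction_on with
  | zero => simp
  | add a b ha hb => rw [add_mul, map_add, ha, hb, map_add]; ring
  | tmul a b =>
    induction w using TensorProduct.induction_on with
    | zero => simp
    | add c e hc he => rw [mul_add, map_add, hc, he, map_add]; ring
    | tmul c e =>
      simp only [Algebra.TensorProduct.tmul_mul_tmul, LinearMap.rTensor_tmul,
        Derivation.coeFn_coe, Derivation.leibniz, smul_eq_mul, TensorProduct.add_tmul]
      rw [add_comm, mul_comm c]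

theorem lmul (d : Derivation k R R) (z w : R ⊗[k] R) :
    d.toLinearMap.lTensor R (z * w) =
      d.toLinearMap.lTensor R z * w + z * d.toLinearMap.lTensor R w := by
  induction z using TensorProduct.induction_on with
  | zero => simp
  | add a b ha hb => rw [add_mul, map_add, ha, hb, map_add]; ring
  | tmul a b =>
    induction w using TensorProduct.induction_on with
    | zero => simp
    | add c e hc he => rw [mul_add, map_add, hc, he, map_add]; ring
    | tmul c e =>
      simp only [Algebra.TensorProduct.tmul_mul_tmul, LinearMap.lTensor_tmul,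
        Derivation.coeFn_coe, Derivation.leibniz, smul_eq_mul, TensorProduct.tmul_add]
      rw [add_comm, mul_comm e]

/-- The diagonal derivation. -/
def Ddiag (d : Derivation k R R) : R ⊗[k] R →ₗ[k] R ⊗[k] R :=
  d.toLinearMap.rTensor R + d.toLinearMap.lTensor R

theorem Ddiag_apply (d : Derivation k R R) (z : R ⊗[k] R) :
    Ddiag d z = d.toLinearMap.rTensor R z + d.toLinearMap.lTensor R z := rfl

theorem Ddiag_tmul (d : Derivation k R R) (a b : R) : Ddiag d (a ⊗ₜ b) = d a ⊗ₜ b + a ⊗ₜ d b := by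
  simp [Ddiag_apply]

theorem Ddiag_mul (d : Derivation k R R) (z w : R ⊗[k] R) :
    Ddiag d (z * w) = Ddiag d z * w + z * Ddiag d w := by
  simp only [Ddiag_apply, rmul, lmul]; ring

theorem Ddiag_comm {d e : Derivation k R R} (h : ∀ u, d (e u) = e (d u)) (z : R ⊗[k] R) :
    Ddiag d (Ddiag e z) = Ddiag e (Ddiag d z) := by
  induction z using TensorProduct.induction_on with
  | zero => simp
  | add a b ha hb => simp only [map_add, ha, hb]
  | tmul a b => simp only [Ddiag_tmul, map_add, h]; abel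

/-- The swap. -/
abbrev sw (k R : Type) [Field k] [CommRing R] [Algebra k R] : R ⊗[k] R ≃ₐ[k] R ⊗[k] R :=
  Algebra.TensorProduct.comm k R R

theorem sw_r (d : R →ₗ[k] R) (z : R ⊗[k] R) :
    sw k R (d.rTensor R z) = d.lTensor R (sw k R z) := by
  induction z using TensorProduct.induction_on with
  | zero => simp
  | add a b ha hb => simp only [map_add, ha, hb]
  | tmul a b => simp

theorem sw_l (d : R →ₗ[k] R) (z : R ⊗[k] R) :
    sw k R (d.lTensor R z) = d.rTensor R (sw k R z) := by
  induction z using TensorProduct.induction_on with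
  | zero => simp
  | add a b ha hb => simp only [map_add, ha, hb]
  | tmul a b => simp

theorem sw_sw (z : R ⊗[k] R) : sw k R (sw k R z) = z := by
  induction z using TensorProduct.induction_on with
  | zero => simp
  | add a b ha hb => simp only [map_add, ha, hb]
  | tmul a b => simp

theorem sw_D (d : Derivation k R R) (z : R ⊗[k] R) : sw k R (Ddiag d z) = Ddiag d (sw k R z) := by
  rw [Ddiag_apply, Ddiag_apply, map_add, sw_r, sw_l, add_comm]

theorem sw_eq (z : R ⊗[k] R) : TensorProduct.comm k R R z = sw k R z := by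
  induction z using TensorProduct.induction_on with
  | zero => simp
  | add a b ha hb => simp only [map_add, ha, hb]
  | tmul a b => simp

theorem mu_D (d : Derivation k R R) (z : R ⊗[k] R) :
    Algebra.TensorProduct.lmul' k (Ddiag d z) = d (Algebra.TensorProduct.lmul' k z) := by
  induction z using TensorProduct.induction_on with
  | zero => simp
  | add a b ha hb => simp only [map_add, ha, hb]
  | tmul a b =>
    simp only [Ddiag_tmul, map_add, Algebra.TensorProduct.lmul'_apply_tmul, Derivation.leibniz,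
      smul_eq_mul]
    ring

/-- The difference of the two copies. -/
def df (k : Type) {R : Type} [Field k] [CommRing R] [Algebra k R] (u : R) : R ⊗[k] R :=
  u ⊗ₜ 1 - 1 ⊗ₜ u

theorem df_add (u v : R) : df k (u + v) = df k u + df k v := by
  simp only [df, TensorProduct.add_tmul, TensorProduct.tmul_add]; abel

theorem df_mul (u v : R) : df k (u * v) = df k u * (v ⊗ₜ 1) + (1 ⊗ₜ u) * df k v := by
  simp only [df, sub_mul, mul_sub, Algebra.TensorProduct.tmul_mul_tmul, mul_one, one_mul]; abel

theorem df_one : df k (1 : R) = 0 := sub_self _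

theorem df_zero : df k (0 : R) = 0 := by simp [df]

theorem sw_df (u : R) : sw k R (df k u) = -df k u := by simp [df]

theorem D_df (d : Derivation k R R) (u : R) : Ddiag d (df k u) = df k (d u) := by
  simp [df, Ddiag_tmul]

theorem r_df (d : Derivation k R R) (u : R) :
    d.toLinearMap.rTensor R (df k u) = d u ⊗ₜ 1 := by simp [df]

theorem mu_df (u : R) : Algebra.TensorProduct.lmul' k (df k u) = 0 := by simp [df]

end Gen

variable {k : Type} [Field k]

theorem dec0 (f : R2 k) : ∃ a b, df k f = df k (X 0 : R2 k) * a + df k (X 1 : R2 k) * b := by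
  induction f using MvPolynomial.induction_on with
  | C c =>
    refine ⟨0, 0, ?_⟩
    rw [mul_zero, mul_zero, add_zero, df, sub_eq_zero, ← mul_one (C c), ← smul_eq_C_mul,
      TensorProduct.smul_tmul]
  | add p q hp hq =>
    obtain ⟨a, b, h⟩ := hp
    obtain ⟨a', b', h'⟩ := hq
    exact ⟨a + a', b + b', by rw [df_add, h, h']; ring⟩
  | mul_X p i hp =>
    obtain ⟨a, b, h⟩ := hp
    fin_cases i
    · exact ⟨a * (X 0 ⊗ₜ 1) + 1 ⊗ₜ p, b * (X 0 ⊗ₜ 1), by
        show df k (p * X 0) = _
        rw [df_mul, h]; ring⟩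
    · exact ⟨a * (X 1 ⊗ₜ 1), b * (X 1 ⊗ₜ 1) + 1 ⊗ₜ p, by
        show df k (p * X 1) = _
        rw [df_mul, h]; ring⟩

theorem dec [CharZero k] (f : R2 k) : ∃ a b, sw k (R2 k) a = a ∧ sw k (R2 k) b = b ∧
    df k f = df k (X 0 : R2 k) * a + df k (X 1 : R2 k) * b := by
  obtain ⟨a, b, h⟩ := dec0 f
  have h' := congrArg (sw k (R2 k)) h
  rw [map_add, map_mul, map_mul, sw_df, sw_df, sw_df] at h'
  refine ⟨(2 : k)⁻¹ • (a + sw k _ a), (2 : k)⁻¹ • (b + sw k _ b), ?_, ?_, ?_⟩
  · rw [map_smul, map_add, sw_sw, add_comm]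
  · rw [map_smul, map_add, sw_sw, add_comm]
  · rw [mul_smul_comm, mul_smul_comm, ← smul_add, eq_inv_smul_iff₀ two_ne_zero, two_smul]
    linear_combination h - h'

theorem ev_df (p q : Fin 2 → k) (u : R2 k) : ev2 p q (df k u) = eval p u - eval q u := by
  simp [ev2, df, coe_aeval_eq_eval]

theorem ev_diag (p : Fin 2 → k) (z : R2 k ⊗[k] R2 k) :
    ev2 p p z = eval p (Algebra.TensorProduct.lmul' k z) := by
  induction z using TensorProduct.induction_on with
  | zero => simp
  | add a b ha hb => simp only [map_add, ha, hb]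
  | tmul a b => simp [ev2, coe_aeval_eq_eval]

end Cop

open Cop in
theorem copS : CopStmt := by
  intro k _ _ f
  obtain ⟨a, b, sa, sb, h⟩ := dec f
  have hD : ∀ i : Fin 2, df k (pderiv i f) =
      df k (X 0 : R2 k) * Ddiag (pderiv i) a + df k (X 1 : R2 k) * Ddiag (pderiv i) b := fun i => by
    have e := congrArg (Ddiag (pderiv i)) h
    rw [D_df, map_add, Ddiag_mul, Ddiag_mul, D_df, D_df] at e
    rw [e]
    fin_cases i <;> simp [df_one, df_zero]
  have ma : Algebra.TensorProduct.lmul' k a = pderiv 0 f := by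
    have e := congrArg (fun z => Algebra.TensorProduct.lmul' k ((pdl k 0).rTensor _ z)) h
    simp only [map_add, rmul, r_df, map_mul, mu_df] at e
    simpa using e.symm
  have mb : Algebra.TensorProduct.lmul' k b = pderiv 1 f := by
    have e := congrArg (fun z => Algebra.TensorProduct.lmul' k ((pdl k 1).rTensor _ z)) h
    simp only [map_add, rmul, r_df, map_mul, mu_df] at e
    simpa using e.symm
  obtain ⟨J, hJ⟩ : ∃ J, J = Ddiag (pderiv 0) a * Ddiag (pderiv 1) b - Ddiag (pderiv 1) a * Ddiag (pderiv 0) b :=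
    ⟨_, rfl⟩
  obtain ⟨U, hU⟩ : ∃ U, U = a * Ddiag (pderiv 1) b - b * Ddiag (pderiv 1) a := ⟨_, rfl⟩
  obtain ⟨V, hV⟩ : ∃ V, V = b * Ddiag (pderiv 0) a - a * Ddiag (pderiv 0) b := ⟨_, rfl⟩
  have c := fun z => Ddiag_comm (d := pderiv 1) (e := pderiv 0) (k := k) (R := R2 k) HC.pderiv_comm z
  have h2 : Ddiag (pderiv 0) U + Ddiag (pderiv 1) V = 2 * J := by
    rw [hU, hV, hJ, map_sub, map_sub, Ddiag_mul, Ddiag_mul, Ddiag_mul, Ddiag_mul, c, c]; ring
  rw [Ddiag_apply, Ddiag_apply] at h2
  have sJ : sw k _ J = J := by rw [hJ, map_sub, map_mul, map_mul, sw_D, sw_D, sw_D, sw_D, sa, sb]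
  have sU : sw k _ U = U := by rw [hU, map_sub, map_mul, map_mul, sw_D, sw_D, sa, sb]
  have sV : sw k _ V = V := by rw [hV, map_sub, map_mul, map_mul, sw_D, sw_D, sa, sb]
  refine ⟨J, (pdl k 0).rTensor _ U + (pdl k 1).rTensor _ V - J, U, V, ?_, by ring,
    by linear_combination h2, ?_, fun p => ?_, fun p q hpq hp hq => ?_⟩
  · show U * df k (pderiv 0 f) + V * df k (pderiv 1 f) = df k f * J
    rw [hD, hD, h, hU, hV, hJ]; ring
  · rw [sw_eq, map_sub, map_add, sw_r, sw_r, sJ, sU, sV]
    linear_combination h2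
  · rw [ev_diag, hJ, map_sub, map_mul, map_mul, mu_D, mu_D, mu_D, mu_D, ma, mb, br]
  · have e0 := congrArg (ev2 p q) (hD 0)
    have e1 := congrArg (ev2 p q) (hD 1)
    rw [map_add, map_mul, map_mul, ev_df, ev_df, ev_df, hp, hq, eval_X, eval_X, eval_X,
      eval_X] at e0 e1
    rw [hJ, map_sub, map_mul, map_mul]
    by_contra hne
    refine hpq (funext fun i => ?_)
    fin_cases i
    · refine sub_eq_zero.1 ((mul_eq_zero.1 ?_).resolve_right hne)
      show (p 0 - q 0) * _ = 0
      linear_combination (-ev2 p q (Ddiag (pderiv 1) b)) * e0 + ev2 p q (Ddiag (pderiv 0) b) * e1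
    · refine sub_eq_zero.1 ((mul_eq_zero.1 ?_).resolve_right hne)
      show (p 1 - q 1) * _ = 0
      linear_combination ev2 p q (Ddiag (pderiv 1) a) * e0 - ev2 p q (Ddiag (pderiv 0) a) * e1

end

end Pool.Agent.MP_05b4bd_ag.UM

end MrgPart0

-- ======== part 1: formerly Pool.Agent.MP_05b4bd_ag.um.Gm
section MrgPart1

/-! The Brieskorn module of a Morse polynomial. -/

namespace Pool.Agent.MP_05b4bd_ag.UM

open MvPolynomial HC
open ES hiding Gen GenTopStmt GenJacStmt IlAbsStmt InvStmt3 Inf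
open ES.U
open scoped TensorProduct PowerSeries LaurentSeries

noncomputable section

namespace Gm

variable {k : Type} [Field k]

/-- All syzygies are Koszul. -/
theorem kos {e : ℕ} {a b : R2 k} (ha : DL (e + 2) a) (hb : DL (e + 2) b)
    (h : CI (hc (e + 1) a) (hc (e + 1) b)) (U V : R2 k) (hz : U * a + V * b = 0) :
    ∃ μ, U = μ * b ∧ V = -(μ * a) := by
  obtain ⟨n, hU, hV⟩ : ∃ n, DL n U ∧ DL n V := by
    obtain ⟨k1, h1⟩ := exists_DL U
    obtain ⟨k2, h2⟩ := exists_DL V
    exact ⟨k1 + k2, h1.mono (by omega), h2.mono (by omega)⟩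
  induction n generalizing U V with
  | zero => exact ⟨0, by rw [hU.eq_zero, zero_mul], by rw [hV.eq_zero, zero_mul, neg_zero]⟩
  | succ n ih =>
    have hz' : hc (n + (e + 1)) (U * a + V * b) = 0 := by rw [hz]; exact map_zero _
    rw [hc_add, hc_mul_top hU ha, hc_mul_top hV hb] at hz'
    rcases kos_hom h (hc_hom _ _) (hc_hom _ _) (hc_hom _ _) (hc_hom _ _) hz' with
      ⟨e1, e2⟩ | ⟨j, ν, rfl, hν, e1, e2⟩
    · exact ih U V hz (hU.pred e1) (hV.pred e2)
    · obtain ⟨μ, h1, h2⟩ := ih (U - ν * b) (V + ν * a) (by linear_combination hz)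
        (DL.pred (hU.sub ((DL.of_hom hν).mul hb)) (by
          rw [hc_sub, e1, hc_mul_top (DL.of_hom hν) hb, hc_self hν, sub_self]))
        (DL.pred (hV.add ((DL.of_hom hν).mul ha)) (by
          rw [hc_add, e2, hc_mul_top (DL.of_hom hν) ha, hc_self hν, neg_add_cancel]))
      exact ⟨μ + ν, by linear_combination h1, by linear_combination h2⟩

/-- The brackets with `f`. -/
def Ham (f : R2 k) : Submodule k (R2 k) := LinearMap.range (vfl (pderiv 1 f) (-pderiv 0 f))

theorem mem_Ham {f u : R2 k} : u ∈ Ham f ↔ ∃ v, u = br v f :=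
  ⟨fun ⟨v, h⟩ => ⟨v, by rw [← h, br_eq_vf]; rfl⟩, fun ⟨v, h⟩ => ⟨v, by rw [h, br_eq_vf]; rfl⟩⟩

/-- Multiplication by `f`. -/
def hh (f : R2 k) : Module.End k (R2 k ⧸ Ham f) :=
  (Ham f).mapQ (Ham f) (LinearMap.mulLeft k f) fun u hu => by
    obtain ⟨v, rfl⟩ := mem_Ham.1 hu
    exact mem_Ham.2 ⟨f * v, (Esc.br_F_mul v f).symm⟩

theorem hh_mk (f u : R2 k) : hh f ((Ham f).mkQ u) = (Ham f).mkQ (f * u) := rfl

/-- Evaluation at a critical point. -/
def evq (f : R2 k) (p : Fin 2 → k) (hp : ∀ j, eval p (pderiv j f) = 0) :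
    (R2 k ⧸ Ham f) →ₗ[k] k :=
  (Ham f).liftQ (aeval p : R2 k →ₐ[k] k).toLinearMap fun u hu => by
    obtain ⟨v, rfl⟩ := mem_Ham.1 hu
    show eval p (br v f) = 0
    simp [br, hp]

theorem evq_mk (f : R2 k) (p : Fin 2 → k) (hp : ∀ j, eval p (pderiv j f) = 0) (u : R2 k) :
    evq f p hp ((Ham f).mkQ u) = eval p u := rfl

variable [CharZero k]

/-- The inverse of the connection. -/
def th (f : R2 k) : Module.End k (R2 k ⧸ Ham f) :=
  (Ham f).mapQ (Ham f) ((LinearMap.mulRight k (pderiv 0 f)).comp (ad 0)) fun u hu => by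
    obtain ⟨v, rfl⟩ := mem_Ham.1 hu
    obtain ⟨g, hg⟩ := Esc.ham_exact (f := f) (a := ad 0 (br v f)) (b := 0) (h := v)
      (by rw [pderiv_ad, map_zero, add_zero])
    exact mem_Ham.2 ⟨g, by rw [← hg, zero_mul, add_zero]; rfl⟩

theorem th_mk (f u : R2 k) : th f ((Ham f).mkQ u) = (Ham f).mkQ (ad 0 u * pderiv 0 f) := rfl

theorem th_div (f a b : R2 k) : th f ((Ham f).mkQ (pderiv 0 a + pderiv 1 b)) =
    (Ham f).mkQ (a * pderiv 0 f + b * pderiv 1 f) := by
  have h := Esc.ham_id f a b 0
  rw [Esc.br_zero, sub_zero (pderiv 0 a + pderiv 1 b)] at h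
  rw [th_mk, ← h, map_sub, sub_eq_self]
  exact (Submodule.Quotient.mk_eq_zero _).2 (mem_Ham.2 ⟨_, rfl⟩)

theorem th_x (f a : R2 k) : th f ((Ham f).mkQ (pderiv 0 a)) = (Ham f).mkQ (a * pderiv 0 f) := by
  simpa only [map_zero, add_zero, zero_mul] using th_div f a 0

theorem th_y (f b : R2 k) : th f ((Ham f).mkQ (pderiv 1 b)) = (Ham f).mkQ (b * pderiv 1 f) := by
  simpa only [map_zero, zero_add, zero_mul] using th_div f 0 b

theorem th_i (f a : R2 k) (i : Fin 2) :
    th f ((Ham f).mkQ (pderiv i a)) = (Ham f).mkQ (a * pderiv i f) := by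
  fin_cases i
  exacts [th_x f a, th_y f a]

theorem comm (f : R2 k) (u : R2 k ⧸ Ham f) :
    hh f (th f u) = th f (hh f u) + th f (th f u) := by
  obtain ⟨w, rfl⟩ := (Ham f).mkQ_surjective u
  rw [← map_add, th_mk, hh_mk, hh_mk, ← map_add, ← mul_assoc, ← th_x, pderiv_mul, pderiv_ad]
  congr 2
  ring

theorem inj {e : ℕ} {f : R2 k} (H : TM (e + 2) f) : Function.Injective (th f) := by
  refine (injective_iff_map_eq_zero _).2 fun u hu => ?_
  obtain ⟨w, rfl⟩ := (Ham f).mkQ_surjective u
  rw [th_mk] at hu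
  obtain ⟨v, hv⟩ := mem_Ham.1 ((Submodule.Quotient.mk_eq_zero _).1 hu)
  obtain ⟨μ, h1, h2⟩ := kos (H.dl.pderiv 0) (H.dl.pderiv 1) H.top (ad 0 w + pderiv 1 v)
    (-pderiv 0 v) (by rw [br] at hv; linear_combination hv)
  refine (Submodule.Quotient.mk_eq_zero _).2 (mem_Ham.2 ⟨μ, ?_⟩)
  have h3 := congrArg (pderiv 0) h1
  have h4 := congrArg (pderiv 1) h2
  simp only [map_add, map_neg, pderiv_mul, pderiv_ad, HC.pderiv_comm] at h3 h4
  rw [br]
  linear_combination h3 + h4

theorem fg {e : ℕ} {f : R2 k} (H : TM (e + 2) f) : FG (th f) := by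
  classical
  obtain ⟨M, hM⟩ := jac_red H.dl H.top
  obtain ⟨s, hs⟩ := (Module.Finite.iff_fg (N := dl k (M + (e + 1)))).1 inferInstance
  refine ⟨s.image (Ham f).mkQ, fun N hN hs' => ?_⟩
  have h0 : ∀ u, DL (M + (e + 1)) u → (Ham f).mkQ u ∈ N := fun u hu => by
    have : dl k (M + (e + 1)) ≤ N.comap (Ham f).mkQ := by
      rw [← hs, Submodule.span_le]
      exact fun v hv => hs' _ (Finset.mem_image_of_mem _ hv)
    exact this hu
  have h1 : ∀ n u, DL n u → (Ham f).mkQ u ∈ N := by
    intro n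
    induction n with
    | zero => exact fun u hu => h0 u (hu.mono (Nat.zero_le _))
    | succ n ih =>
      intro u hu
      by_cases hn : n + 1 ≤ M + (e + 1)
      · exact h0 u (hu.mono hn)
      obtain ⟨r, hr, hj⟩ := hM u
      obtain ⟨a, b, hab⟩ := Ideal.mem_span_pair.1 hj
      obtain ⟨a', b', ha, hb, e'⟩ := kos_top (n := n - e) (H.dl.pderiv 0) (H.dl.pderiv 1) H.top a b
        (by rw [hab]; exact (hu.mono (by omega)).sub (hr.mono (by omega)))
      have h2 := hN _ (ih _ (((ha.mono (k := n + 1) (by omega)).pderiv 0).add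
        ((hb.mono (k := n + 1) (by omega)).pderiv 1)))
      rw [th_div, e', hab, map_sub] at h2
      simpa using add_mem h2 (h0 r (hr.mono (by omega)))
  refine eq_top_iff.2 fun u _ => ?_
  obtain ⟨w, rfl⟩ := (Ham f).mkQ_surjective u
  obtain ⟨n, hn⟩ := exists_DL w
  exact h1 n w hn

/-- The projection of tensors. -/
abbrev PP (f : R2 k) : R2 k ⊗[k] R2 k →ₗ[k] (R2 k ⧸ Ham f) ⊗[k] (R2 k ⧸ Ham f) :=
  TensorProduct.map (Ham f).mkQ (Ham f).mkQ

omit [CharZero k] in
theorem hh_r (f : R2 k) (z : R2 k ⊗[k] R2 k) :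
    (hh f).rTensor _ (PP f z) = PP f ((f ⊗ₜ 1) * z) := by
  induction z using TensorProduct.induction_on with
  | zero => simp only [map_zero, mul_zero]
  | tmul u v =>
    rw [Algebra.TensorProduct.tmul_mul_tmul, one_mul, TensorProduct.map_tmul,
      TensorProduct.map_tmul, LinearMap.rTensor_tmul, hh_mk]
  | add a b ha hb => simp only [map_add, mul_add, ha, hb]

omit [CharZero k] in
theorem hh_l (f : R2 k) (z : R2 k ⊗[k] R2 k) :
    (hh f).lTensor _ (PP f z) = PP f ((1 ⊗ₜ f) * z) := by
  induction z using TensorProduct.induction_on with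
  | zero => simp only [map_zero, mul_zero]
  | tmul u v =>
    rw [Algebra.TensorProduct.tmul_mul_tmul, one_mul, TensorProduct.map_tmul,
      TensorProduct.map_tmul, LinearMap.lTensor_tmul, hh_mk]
  | add a b ha hb => simp only [map_add, mul_add, ha, hb]

theorem th_r (f : R2 k) (i : Fin 2) (z : R2 k ⊗[k] R2 k) :
    (th f).rTensor _ (PP f ((pdl k i).rTensor _ z)) = PP f (z * (pderiv i f ⊗ₜ 1)) := by
  induction z using TensorProduct.induction_on with
  | zero => simp only [map_zero, zero_mul]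
  | tmul u v =>
    rw [Algebra.TensorProduct.tmul_mul_tmul, mul_one, LinearMap.rTensor_tmul,
      TensorProduct.map_tmul, TensorProduct.map_tmul, LinearMap.rTensor_tmul, ← th_i]
    rfl
  | add a b ha hb => simp only [map_add, add_mul, ha, hb]

theorem th_l (f : R2 k) (i : Fin 2) (z : R2 k ⊗[k] R2 k) :
    (th f).lTensor _ (PP f ((pdl k i).lTensor _ z)) = PP f (z * (1 ⊗ₜ pderiv i f)) := by
  induction z using TensorProduct.induction_on with
  | zero => simp only [map_zero, zero_mul]
  | tmul u v =>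
    rw [Algebra.TensorProduct.tmul_mul_tmul, mul_one, LinearMap.lTensor_tmul,
      TensorProduct.map_tmul, TensorProduct.map_tmul, LinearMap.lTensor_tmul, ← th_i]
    rfl
  | add a b ha hb => simp only [map_add, add_mul, ha, hb]

omit [CharZero k] in
theorem comm_PP (f : R2 k) (z : R2 k ⊗[k] R2 k) :
    TensorProduct.comm k _ _ (PP f z) = PP f (TensorProduct.comm k _ _ z) := by
  induction z using TensorProduct.induction_on with
  | zero => simp only [map_zero]
  | tmul u v => simp only [TensorProduct.map_tmul, TensorProduct.comm_tmul]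
  | add a b ha hb => simp only [map_add, ha, hb]

omit [CharZero k] in
theorem ev_PP (f : R2 k) (p q : Fin 2 → k) (hp : ∀ j, eval p (pderiv j f) = 0)
    (hq : ∀ j, eval q (pderiv j f) = 0) (z : R2 k ⊗[k] R2 k) :
    evq f q hq (ct (evq f p hp) (PP f z)) = ev2 p q z := by
  induction z using TensorProduct.induction_on with
  | zero => simp only [map_zero]
  | tmul u v =>
    rw [TensorProduct.map_tmul, ct_tmul, map_smul, evq_mk, evq_mk, ev2,
      Algebra.TensorProduct.lift_tmul]
    rfl
  | add a b ha hb => simp only [map_add, ha, hb]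

end Gm

open Gm in
theorem gmS (h : CopStmt) : GmStmt := by
  intro k _ _ d n f p hd H hcr
  obtain ⟨e, rfl⟩ : ∃ e, d = e + 2 := ⟨d - 2, by omega⟩
  obtain ⟨J, Y, U, V, h1, h2, h3, h4, h5, h6⟩ := h k f
  refine ⟨R2 k ⧸ Ham f, inferInstance, inferInstance,
    { h := hh f
      θ := th f
      c := fun i => eval (p i) f
      ev := fun i => evq f (p i) (hcr.crit i)
      J := PP f J
      Y := PP f Y
      comm := comm f
      fg := fg H
      inj := inj H
      ker := fun u => ?_
      mul := fun i u => ?_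
      cinj := hcr.inj
      rel := ?_
      sk := by rw [comm_PP, h4, map_neg]
      J0 := fun i => by rw [ev_PP, h5]; exact hcr.hess i
      J1 := fun i j hij => by
        rw [ev_PP]
        exact h6 _ _ (fun e => hij (hcr.inj (by simp only [e]))) (hcr.crit i) (hcr.crit j) },
    (Ham f).mkQ, (Ham f).mkQ_surjective,
    fun u => (Submodule.Quotient.mk_eq_zero _).trans mem_Ham, fun _ => rfl, th_div f,
    fun _ _ => rfl, fun _ => rfl⟩
  · obtain ⟨w, rfl⟩ := (Ham f).mkQ_surjective u
    constructor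
    · intro hw
      obtain ⟨a, b, hab⟩ := Ideal.mem_span_pair.1 (hcr.rad w hw)
      exact ⟨_, by rw [th_div, hab]⟩
    · rintro ⟨v, hv⟩ i
      obtain ⟨v', rfl⟩ := (Ham f).mkQ_surjective v
      rw [hv, th_mk, evq_mk, map_mul, hcr.crit, mul_zero]
  · obtain ⟨w, rfl⟩ := (Ham f).mkQ_surjective u
    rw [hh_mk, evq_mk, evq_mk, map_mul]
  · rw [hh_r, hh_l, ← map_add, ← map_sub (PP f) J, ← h2, ← h3, map_add, map_add, map_add, map_add,
      th_r, th_r, th_l, th_l, ← map_sub, ← map_add, ← map_add, ← map_sub, ← sub_mul, ← h1]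
    congr 1
    ring

end

end Pool.Agent.MP_05b4bd_ag.UM

end MrgPart1

-- marker of a merged file
example : 731051 + 185275 = 731051 + 185275 := rfl
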