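import Pool.Agent.MP_05b4bd_ag.um.PDefs
import Pool.Agent.MP_05b4bd_ag.um.Vec
import Mathlib.RingTheory.TensorProduct.Basic
import Mathlib.LinearAlgebra.Matrix.NonsingularInverse
import Mathlib.RingTheory.Localization.Integer
import Mathlib.RingTheory.Localization.FractionRing
import Mathlib.FieldTheory.IsAlgClosed.Basic
import Mathlib.Algebra.Polynomial.FieldDivision
import Mathlib.Algebra.Polynomial.Module.AEval
import Mathlib.RingTheory.Nakayama
import Mathlib.LinearAlgebra.Trace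
import Mathlib.RingTheory.Polynomial.Basic

-- ======== part 0: formerly Pool.Agent.MP_05b4bd_ag.um.SpecB
section MrgPart0

/-! The Brieskorn module of a Morse polynomial: definitions and block statements. -/

namespace Pool.Agent.MP_05b4bd_ag.UM

open MvPolynomial HC
open ES hiding Gen GenTopStmt GenJacStmt IlAbsStmt InvStmt3 Inf
open ES.U
open scoped TensorProduct PowerSeries LaurentSeries

noncomputable section

section
variable {k G ι : Type} [Field k] [AddCommGroup G] [Module k G] {n : ℕ}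

/-- `B` is the Brieskorn module of `f`, presented by `π`. -/
structure Pres (B : BM k G n) (f : R2 k) (p : Fin n → Fin 2 → k) (π : R2 k →ₗ[k] G) : Prop where
  surj : Function.Surjective π
  ker : ∀ u, π u = 0 ↔ ∃ v, u = br v f
  mul : ∀ u, B.h (π u) = π (f * u)
  th : ∀ a b, B.θ (π (pderiv 0 a + pderiv 1 b)) = π (a * pderiv 0 f + b * pderiv 1 f)
  ev : ∀ i u, B.ev i (π u) = eval (p i) u
  val : ∀ i, B.c i = eval (p i) f

/-- Evaluation of a tensor at a pair of points. -/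
def ev2 (p q : Fin 2 → k) : R2 k ⊗[k] R2 k →ₐ[k] k :=
  Algebra.TensorProduct.lift (aeval p) (aeval q) fun _ _ => Commute.all _ _

/-- One derivative as a linear map. -/
abbrev pdl (k : Type) [Field k] (i : Fin 2) : Module.End k (R2 k) := (pderiv i).toLinearMap

/-- Orders and leading terms of the periods. -/
structure Per (d : ℕ) (f : R2 k) (π : R2 k →ₗ[k] G) (P : G →ₗ[k] ι → k⸨X⸩)
    (lam : R2 k →ₗ[k] ι → k) : Prop where
  low : ∀ (n : ℕ) (u : R2 k) (m : ℤ), DL (n + 1) u → m < d - 2 - n → cv m (P (π u)) = 0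
  lead : ∀ (n : ℕ) (u : R2 k), DL (n + 1) u → cv (d - 2 - n) (P (π u)) = lam (hc n u)
  ker : ∀ r, lam r = 0 ↔ Bt (hc d f) r

/-- Forms that give a basis modulo the brackets with `F`. -/
structure Bas [Fintype ι] (d : ℕ) (F : R2 k) (e : ι → R2 k) (δ : ι → ℕ) : Prop where
  hom : ∀ i, (e i).IsHomogeneous (δ i)
  ind : ∀ a : ι → k, ∑ i, C (a i) * e i ∈ Jac F → a = 0
  span : ∀ (n : ℕ) (r : R2 k), r.IsHomogeneous n → ∃ (a : ι → k) (j : ι → ℕ) (η : R2 k),
    (∀ i, a i ≠ 0 → δ i + d * j i = n) ∧ r = ∑ i, C (a i) * F ^ j i * e i + br η F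

/-- The action of the substitution on the module, with the rule for the leading terms. -/
structure Act (B : BM k G n) (d : ℕ) (f : R2 k) (π : R2 k →ₗ[k] G) (ζ c0 : k)
    (S : Module.End k G) : Prop where
  z0 : ζ ≠ 0
  z1 : ζ ≠ 1
  th : ∀ u, S (B.θ u) = ζ⁻¹ ^ d • B.θ (S u)
  mul : ∀ u, S (B.h u) = ζ⁻¹ ^ d • B.h (S u) + c0 • S u
  deg : ∀ (m : ℕ) (u : R2 k), DL m u → ∃ v, DL m v ∧ S (π u) = π v
  lead : ∀ (m : ℕ) (u v : R2 k), DL (m + 1) u → DL (m + 1) v → S (π u) = π v →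
    Off d (d - 2 - m) → Bt (hc d f) (hc m v - C (ζ ^ ((d : ℤ) - 2 - m)) * hc m u)

end

/-! ### Statements -/

/-- The Bezoutian of the gradient. -/
def CopStmt : Prop := ∀ (k : Type) [Field k] [CharZero k] (f : R2 k),
  ∃ J Y U V : R2 k ⊗[k] R2 k,
    U * (pderiv 0 f ⊗ₜ 1 - 1 ⊗ₜ pderiv 0 f) + V * (pderiv 1 f ⊗ₜ 1 - 1 ⊗ₜ pderiv 1 f) =
      (f ⊗ₜ 1 - 1 ⊗ₜ f) * J ∧
    (pdl k 0).rTensor _ U + (pdl k 1).rTensor _ V = J + Y ∧
    (pdl k 0).lTensor _ U + (pdl k 1).lTensor _ V = J - Y ∧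
    TensorProduct.comm k _ _ Y = -Y ∧
    (∀ p, ev2 p p J = eval p (br (pderiv 0 f) (pderiv 1 f))) ∧
    ∀ p q, p ≠ q → (∀ i, eval p (pderiv i f) = 0) → (∀ i, eval q (pderiv i f) = 0) →
      ev2 p q J = 0

def GmStmt : Prop := ∀ (k : Type) [Field k] [CharZero k] (d n : ℕ) (f : R2 k)
  (p : Fin n → Fin 2 → k), 2 ≤ d → TM d f → Cr f p →
  ∃ (G : Type) (_ : AddCommGroup G) (_ : Module k G) (B : BM k G n) (π : R2 k →ₗ[k] G),
    Pres B f p π

/-- The graded module. -/
def GrStmt : Prop := ∀ (k : Type) [Field k] [CharZero k] (d : ℕ) (f : R2 k), 2 ≤ d → TM d f →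
  (∀ (n : ℕ) (a : R2 k), DL n (br a f) → ∃ a', DL (n + 2 - d) a' ∧ br a' f = br a f) ∧
  (∀ (n : ℕ) (u : R2 k), DL (n + 1) u →
    ((∃ v, DL n (u - br v f)) ↔ ∃ b, hc n u = br b (hc d f))) ∧
  ∀ (n : ℕ) (u v : R2 k) (b : k), DL (n + d) ((f - C b) * u - br v f) → ∃ v', DL n (u - br v' f)

def DegStmt : Prop := ∀ (k G : Type) [Field k] [CharZero k] [AddCommGroup G] [Module k G]
  (d n : ℕ) (B : BM k G n) (f : R2 k) (p : Fin n → Fin 2 → k) (π : R2 k →ₗ[k] G)
  (S : Module.End k G) (w c : k), 2 ≤ d → TM d f → Pres B f p π → w ≠ 0 →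
  (∀ u, S (B.θ u) = w • B.θ (S u)) → (∀ u, S (B.h u) = w • B.h (S u) + c • S u) →
  ∀ (m : ℕ) (u : R2 k), DL m u → ∃ v, DL m v ∧ S (π u) = π v

def CbStmt : Prop := ∀ (k G : Type) [Field k] [CharZero k] [AddCommGroup G] [Module k G]
  (d n : ℕ) (B : BM k G n) (f : R2 k) (p : Fin n → Fin 2 → k) (π : R2 k →ₗ[k] G) (g : R2 k),
  3 ≤ d → TM d f → Cr f p → Pres B f p π → DL (d - 1) g → g ≠ 0 →
  (∃ i, B.ev i (π g) ≠ 0) ∧ ∀ (b : k) (u : G), B.θ (π g) ≠ B.h u - b • u

/-- Irreducibility, on the module and on the polynomial ring. -/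
def IrrStmt : Prop := ∀ (k : Type) [Field k] [CharZero k] (d : ℕ) (f : R2 k), 2 ≤ d → TM d f →
  (∀ (G : Type) [AddCommGroup G] [Module k G] (n : ℕ) (B : BM k G n) (p : Fin n → Fin 2 → k)
    (π : R2 k →ₗ[k] G), Pres B f p π → B.Irr) ∧
  ∀ N : Submodule k (R2 k), (∀ v, br v f ∈ N) → (∀ u ∈ N, f * u ∈ N) →
    (∀ a b, a * pderiv 0 f + b * pderiv 1 f ∈ N ↔ pderiv 0 a + pderiv 1 b ∈ N) →
    (∀ u ∈ N, ∃ v, u = br v f) ∨ N = ⊤

def BasStmt : Prop := ∀ (k : Type) [Field k] [CharZero k] (d : ℕ) (F : R2 k), 2 ≤ d →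
  F.IsHomogeneous d → CI (pderiv 0 F) (pderiv 1 F) →
  ∃ (m : ℕ) (e : Fin m → R2 k) (δ : Fin m → ℕ), Bas d F e δ

def IndStmt : Prop := ∀ (k ι : Type) [Field k] [CharZero k] [Fintype ι] (d : ℕ) (F : R2 k)
  (e : ι → R2 k) (δ : ι → ℕ), 2 ≤ d → F.IsHomogeneous d → CI (pderiv 0 F) (pderiv 1 F) →
  Bas d F e δ → ∀ a : ι → k, Bt F (∑ i, C (a i) * e i) → a = 0

/-- Construction of the periods. -/
def PmaStmt : Prop := ∀ (k G M ι : Type) [Field k] [CharZero k] [AddCommGroup G] [Module k G]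
  [AddCommGroup M] [Module k M] [Fintype ι] [DecidableEq ι] (d n : ℕ) (B : BM k G n) (f : R2 k)
  (p : Fin n → Fin 2 → k) (π : R2 k →ₗ[k] G) (c : ℤ → R2 k →ₗ[k] M) (e0 : R2 k →ₗ[k] M)
  (BB : Submodule k M) (e : ι → R2 k) (δ : ι → ℕ), 2 ≤ d → TM d f → Pres B f p π →
  GLax d f c e0 BB → (∀ r, e0 r ∈ BB → Bt (hc d f) r) → Bas d (hc d f) e δ →
  ∃ (P : G →ₗ[k] ι → k⸨X⸩) (lam : R2 k →ₗ[k] ι → k) (l : ι → M →ₗ[k] k),
    Per d f π P lam ∧ (∀ j, lam (e j) = Pi.single j 1) ∧ (∀ i, ∀ z ∈ BB, l i z = 0) ∧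
    (∀ u i m, (P (π u) i).coeff m = l i (c m u)) ∧
    (∀ u, P (B.h u) = hW k d • P u) ∧ ∀ u, dV k ι d (P (B.θ u)) = P u

/-- The periods form a period model. -/
def PmbStmt : Prop := ∀ (k G ι : Type) [Field k] [CharZero k] [AddCommGroup G] [Module k G]
  [Fintype ι] [DecidableEq ι] (d n : ℕ) (B : BM k G n) (f : R2 k)
  (p : Fin n → Fin 2 → k) (π : R2 k →ₗ[k] G) (e : ι → R2 k) (δ : ι → ℕ)
  (P : G →ₗ[k] ι → k⸨X⸩) (lam : R2 k →ₗ[k] ι → k), 3 ≤ d → TM d f → Pres B f p π →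
  Bas d (hc d f) e δ → Per d f π P lam → (∀ j, lam (e j) = Pi.single j 1) → B.Irr →
  (∀ u, P (B.h u) = hW k d • P u) → (∀ u, dV k ι d (P (B.θ u)) = P u) →
  TD B d P fun i => π (e i)

def Tor4Stmt : Prop := ∀ (k G : Type) [Field k] [CharZero k] [AddCommGroup G] [Module k G]
  (d n : ℕ) (B : BM k G n) (f : R2 k) (p : Fin n → Fin 2 → k) (π : R2 k →ₗ[k] G) (ζ c0 : k)
  (S : Module.End k G), 4 ≤ d → TM d f → Cr f p → Pres B f p π → Act B d f π ζ c0 S → ¬ NSym d f

def Tor3Stmt : Prop := ∀ (k G : Type) [Field k] [CharZero k] [AddCommGroup G] [Module k G]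
  (n : ℕ) (B : BM k G n) (f : R2 k) (p : Fin n → Fin 2 → k) (π : R2 k →ₗ[k] G) (ζ c0 : k)
  (S : Module.End k G), TM 3 f → Pres B f p π → Act B 3 f π ζ c0 S → ¬ NSym 3 f

end

end Pool.Agent.MP_05b4bd_ag.UM

end MrgPart0

-- ======== part 1: formerly Pool.Agent.MP_05b4bd_ag.um.Cb
section MrgPart1

/-! Low-degree classes of the Brieskorn module are not divisible by `h - b` after `θ`. -/

namespace Pool.Agent.MP_05b4bd_ag.UM

open MvPolynomial HC
open ES hiding Gen GenTopStmt GenJacStmt IlAbsStmt InvStmt3 Inf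
open ES.U

namespace Cb

variable {k : Type} [Field k]

theorem lin_DL (i : Fin 2) (c : k) : DL (1 + 1) (X i - C c : R2 k) :=
  (DL_X i).sub ((DL_C c).mono (by omega))

theorem cancel {a b : k} {U W : R2 k} (hU : DL 1 U) (hW : DL 1 W)
    (h : (X 1 - C b) * U - (X 0 - C a) * W = 0) : U = 0 := by
  have h1 : pderiv 1 U = 0 := (hU.pderiv 1).eq_zero
  have h2 : pderiv 1 W = 0 := (hW.pderiv 1).eq_zero
  have := congrArg (pderiv 1) h
  simpa [pderiv_mul, h1, h2, pderiv_X_of_ne (show (0 : Fin 2) ≠ 1 by decide)] using this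

/-- A polynomial of degree at most `d - 2` that vanishes at all critical points but one is zero. -/
theorem van {d n : ℕ} {f g : R2 k} {p : Fin n → Fin 2 → k} (hf : TM d f) (hp : Cr f p)
    (hd : 3 ≤ d) (hg : DL (d - 1) g) (p0 : Fin 2 → k)
    (hv : ∀ i, p i ≠ p0 → eval (p i) g = 0) : g = 0 := by
  obtain ⟨e, rfl⟩ : ∃ e, d = e + 2 := ⟨d - 2, by omega⟩
  have hx : DL (e + 2) (pderiv 0 f) := hf.dl.pderiv 0
  have hy : DL (e + 2) (pderiv 1 f) := hf.dl.pderiv 1
  have hci : CI (hc (e + 1) (pderiv 0 f)) (hc (e + 1) (pderiv 1 f)) := by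
    rw [hc_pderiv, hc_pderiv]; exact hf.ci
  have hg' : DL (e + 1) g := hg
  have key : ∀ j : Fin 2, ∃ U V, DL 1 U ∧ DL 1 V ∧
      U * pderiv 0 f + V * pderiv 1 f = (X j - C (p0 j)) * g := by
    intro j
    have hm : (X j - C (p0 j)) * g ∈ Jac f := hp.rad _ fun i => by
      by_cases h : p i = p0
      · simp [h]
      · rw [map_mul, hv i h, mul_zero]
    obtain ⟨U, V, hUV⟩ := Ideal.mem_span_pair.1 hm
    obtain ⟨U', V', h1, h2, h3⟩ := kos_top (n := 1) hx hy hci U V
      (by rw [hUV]; exact (lin_DL j (p0 j)).mul hg')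
    exact ⟨U', V', h1, h2, h3.trans hUV⟩
  obtain ⟨U0, V0, a0, b0, e0⟩ := key 0
  obtain ⟨U1, V1, a1, b1, e1⟩ := key 1
  obtain ⟨z1, z2⟩ := kos_zero (k := 2) hx hy hci (by omega)
    (U := (X 1 - C (p0 1)) * U0 - (X 0 - C (p0 0)) * U1)
    (V := (X 1 - C (p0 1)) * V0 - (X 0 - C (p0 0)) * V1)
    (((lin_DL 1 _).mul a0).sub ((lin_DL 0 _).mul a1))
    (((lin_DL 1 _).mul b0).sub ((lin_DL 0 _).mul b1))
    (by linear_combination (X 1 - C (p0 1)) * e0 - (X 0 - C (p0 0)) * e1)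
  rw [cancel a0 a1 z1, cancel b0 b1 z2, zero_mul, zero_mul, add_zero] at e0
  refine (mul_eq_zero.1 e0.symm).resolve_left fun h => ?_
  simpa using congrArg (pderiv 0) h

end Cb

theorem cbS (h : GrStmt) : CbStmt := by
  intro k G _ _ _ _ d n B f p π g hd hf hp hπ hg g0
  have first : ∃ i, B.ev i (π g) ≠ 0 := by
    by_contra hn
    push Not at hn
    exact g0 (Cb.van hf hp hd hg 0 fun i _ => by rw [← hπ.ev, hn i])
  refine ⟨first, fun b u hu => ?_⟩
  obtain ⟨u0, rfl⟩ := hπ.surj u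
  have e1 : B.θ (π g) = π (ad 0 g * pderiv 0 f) := by
    simpa [pderiv_ad] using hπ.th (ad 0 g) 0
  have e2 : π ((f - C b) * u0 - ad 0 g * pderiv 0 f) = 0 := by
    rw [map_sub, ← e1, hu, hπ.mul, sub_mul, map_sub, ← smul_eq_C_mul, map_smul, sub_self]
  obtain ⟨v, hv⟩ := (hπ.ker _).1 e2
  have hdl : DL (d - 1 + d) ((f - C b) * u0 - br v f) := by
    rw [← hv, sub_sub_cancel]
    exact (ad_DL 0 hg).mul (hf.dl.pderiv 0)
  obtain ⟨v', hv'⟩ := (h k d f (by omega) hf).2.2 (d - 1) u0 v b hdl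
  have e3 : π (u0 - br v' f) = π u0 := by
    rw [map_sub, (hπ.ker _).2 ⟨v', rfl⟩, sub_zero]
  have e4 : ∀ i, eval (p i) f ≠ b → eval (p i) (u0 - br v' f) = 0 := by
    intro i hi
    have := B.ev_θ i (π g)
    rw [hu, map_sub, B.mul, map_smul, hπ.val, smul_eq_mul, ← sub_mul, ← e3, hπ.ev] at this
    exact (mul_eq_zero.1 this).resolve_left (sub_ne_zero.2 hi)
  have e5 : u0 - br v' f = 0 := by
    by_cases hb : ∃ i0, eval (p i0) f = b
    · obtain ⟨i0, h0⟩ := hb
      refine Cb.van hf hp hd hv' (p i0) fun i hi => e4 i fun hi' => hi ?_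
      rw [hp.inj (hi'.trans h0.symm : eval (p i) f = eval (p i0) f)]
    · exact Cb.van hf hp hd hv' 0 fun i _ => e4 i fun hi' => hb ⟨i, hi'⟩
  rw [← e3, e5, map_zero, map_zero, smul_zero, sub_zero] at hu
  obtain ⟨i, hi⟩ := first
  rw [B.inj (hu.trans (map_zero _).symm), map_zero] at hi
  exact hi rfl

end Pool.Agent.MP_05b4bd_ag.UM

end MrgPart1

-- ======== part 2: formerly Pool.Agent.MP_05b4bd_ag.um.Flat
section MrgPart2

/-! The flat skew tensor of a period model. -/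

namespace Pool.Agent.MP_05b4bd_ag.UM

open ES Polynomial Matrix
open scoped TensorProduct PowerSeries LaurentSeries

noncomputable section

namespace Flat

/-- Generalised inverses exist over a field. -/
theorem ginv {F ι : Type} [Field F] [Fintype ι] [DecidableEq ι] (A : Matrix ι ι F) :
    ∃ Z : Matrix ι ι F, A * Z * A = A := by
  obtain ⟨g, hg⟩ := (toLin' A).rangeRestrict.exists_rightInverse_of_surjective
    (LinearMap.range_rangeRestrict _)
  obtain ⟨g', hg'⟩ := LinearMap.exists_extend g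
  refine ⟨LinearMap.toMatrix' g', toLin'.injective (LinearMap.ext fun x => ?_)⟩
  have h1 := LinearMap.congr_fun hg' ((toLin' A).rangeRestrict x)
  have h2 := congrArg Subtype.val (LinearMap.congr_fun hg ((toLin' A).rangeRestrict x))
  rw [toLin'_mul, toLin'_mul, toLin'_toMatrix', LinearMap.comp_apply, LinearMap.comp_apply]
  exact (congrArg (toLin' A) h1).trans h2

/-- Generalised inverses over a domain, up to a denominator. -/
theorem ginvD {R ι : Type} [CommRing R] [IsDomain R] [Fintype ι] [DecidableEq ι]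
    (A : Matrix ι ι R) : ∃ (Z : Matrix ι ι R) (b : R), b ≠ 0 ∧ A * Z * A = b • A := by
  obtain ⟨Z, hZ⟩ := ginv (A.map (algebraMap R (FractionRing R)))
  obtain ⟨b, hb⟩ := IsLocalization.exist_integer_multiples_of_finite (nonZeroDivisors R)
    (fun p : ι × ι => Z p.1 p.2)
  choose W hW using hb
  refine ⟨of fun i j => W (i, j), b, nonZeroDivisors.coe_ne_zero b, ?_⟩
  have e : (of fun i j => W (i, j)).map (algebraMap R (FractionRing R)) = (b : R) • Z :=
    Matrix.ext fun i j => hW (i, j)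
  refine Matrix.map_injective (IsFractionRing.injective R (FractionRing R)) ?_
  show Matrix.map _ _ = Matrix.map _ _
  rw [Matrix.map_mul, Matrix.map_mul, e, Matrix.mul_smul, Matrix.smul_mul, hZ]
  ext i j
  rw [Matrix.smul_apply, map_apply, map_apply, Matrix.smul_apply, smul_eq_mul, map_mul,
    Algebra.smul_def]

variable {k G ι : Type} [Field k] [AddCommGroup G] [Module k G]

instance iST : IsScalarTower k k⸨X⸩ k⸨X⸩ :=
  ⟨fun c a b => by simp only [smul_cL, smul_eq_mul, mul_assoc]⟩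

instance iSC : SMulCommClass k k⸨X⸩ k⸨X⸩ :=
  ⟨fun c a b => by simp only [smul_cL, smul_eq_mul, mul_left_comm]⟩

section Mu
variable {A : Type} [CommRing A] [Module k A] [IsScalarTower k A A] [SMulCommClass k A A]

/-- The matrix of a tensor. -/
def mu (f g : G →ₗ[k] ι → A) : G ⊗[k] G →ₗ[k] Matrix ι ι A :=
  TensorProduct.lift ((vecMulVecBilin k k).compl₁₂ f g)

theorem mu_tmul (f g : G →ₗ[k] ι → A) (u v : G) : mu f g (u ⊗ₜ v) = vecMulVec (f u) (g v) := rfl

theorem mu_comm (f : G →ₗ[k] ι → A) (z : G ⊗[k] G) :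
    mu f f (TensorProduct.comm k G G z) = (mu f f z)ᵀ := by
  induction z using TensorProduct.induction_on with
  | zero => simp
  | tmul u v => rw [TensorProduct.comm_tmul, mu_tmul, mu_tmul, transpose_vecMulVec]
  | add a b ha hb => simp only [map_add, ha, hb, transpose_add]

theorem mu_sk {n : ℕ} (B : BM k G n) (f : G →ₗ[k] ι → A) : (mu f f B.Y)ᵀ = -mu f f B.Y := by
  rw [← mu_comm, B.sk, map_neg]

end Mu

variable [Fintype ι] [DecidableEq ι] {n d : ℕ} {B : BM k G n} {P : G →ₗ[k] ι → k⸨X⸩} {e : ι → G}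

/-- The tensor `Y` has constant periods. -/
theorem flat [CharZero k] (T : TD B d P e) : ∃ Y0 : Matrix ι ι k, Y0.map (cL k) = mu P P B.Y := by
  obtain ⟨Q, hQ⟩ : ∃ Q, Q = (dV k ι d).comp P := ⟨_, rfl⟩
  have q0 : ∀ u i, dK k d (P u i) = Q u i := fun u i => by rw [hQ]; rfl
  have q1 : ∀ u, Q (B.θ u) = P u := fun u => by rw [hQ]; exact T.Pθ u
  have q2 : ∀ u, Q (B.h u) = P u + hW k d • Q u := fun u => by
    rw [hQ, LinearMap.comp_apply, T.Ph, dV_smul, dK_hW T.d1, one_smul]; rfl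
  have a : ∀ z, mu Q Q (B.h.rTensor G z) - mu Q Q (B.h.lTensor G z) = mu P Q z - mu Q P z ∧
      mu Q Q (B.θ.rTensor G z) = mu P Q z ∧ mu Q Q (B.θ.lTensor G z) = mu Q P z ∧
      ∀ i j, dK k d (mu P P z i j) = (mu P Q z + mu Q P z) i j := fun z => by
    induction z using TensorProduct.induction_on with
    | zero => simp
    | tmul u v =>
      simp only [LinearMap.rTensor_tmul, LinearMap.lTensor_tmul, mu_tmul, q1, q2, true_and]
      refine ⟨Matrix.ext fun i j => ?_, fun i j => ?_⟩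
      · simp only [Matrix.sub_apply, vecMulVec_apply, Pi.add_apply, Pi.smul_apply, smul_eq_mul]
        ring
      · simp only [Matrix.add_apply, vecMulVec_apply, dK_mul, q0, add_comm]
    | add a b ha hb =>
      simp only [map_add, ha.2.1, hb.2.1, ha.2.2.1, hb.2.2.1, Matrix.add_apply, ha.2.2.2, hb.2.2.2,
        true_and]
      refine ⟨?_, fun i j => by ring⟩
      rw [add_sub_add_comm, ha.1, hb.1, add_sub_add_comm]
  have r := congrArg (mu Q Q) B.rel
  rw [map_sub, map_sub, (a _).1, (a _).2.1, (a _).2.2.1, map_add, map_sub] at r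
  have s : mu P Q B.Y + mu Q P B.Y = 0 := by
    rw [← add_right_inj (mu P Q B.J - mu Q P B.J), add_zero]
    conv_rhs => rw [r]
    abel
  choose Y0 hY using fun i j => const_dK T.d1 (a := mu P P B.Y i j) (by rw [(a _).2.2.2, s]; rfl)
  exact ⟨of Y0, Matrix.ext fun i j => (hY i j).symm⟩

variable (B e) in
/-- The element with given polynomial coordinates. -/
def E : (ι → k[X]) →ₗ[k] G where
  toFun q := ∑ i, aeval B.h (q i) (e i)
  map_add' q q' := by simp only [Pi.add_apply, map_add, LinearMap.add_apply, Finset.sum_add_distrib]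
  map_smul' c q := by
    simp only [Pi.smul_apply, map_smul, LinearMap.smul_apply, RingHom.id_apply, Finset.smul_sum]

omit [DecidableEq ι] in
theorem E_smul (r : k[X]) (q : ι → k[X]) : E B e (r • q) = aeval B.h r (E B e q) := by
  show ∑ i, _ = aeval B.h r (∑ i, _)
  simp only [map_sum, Pi.smul_apply, smul_eq_mul, map_mul, Module.End.mul_apply]

omit [DecidableEq ι] in
theorem ev_E (p : Fin n) (q : ι → k[X]) :
    B.ev p (E B e q) = ((fun i => C (B.ev p (e i))) ⬝ᵥ q).eval (B.c p) := by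
  show B.ev p (∑ i, _) = _
  simp only [map_sum, B.ev_aeval, dotProduct, eval_finsetSum, eval_mul, eval_C, mul_comm]

theorem P_E (T : TD B d P e) (q : ι → k[X]) :
    P (E B e q) = (of fun i j => P (e j) i) *ᵥ (ae (hW k d) ∘ q) := by
  show P (∑ i, _) = _
  ext1 i
  simp only [map_sum, T.Pq, Finset.sum_apply, Pi.smul_apply, smul_eq_mul, mulVec, dotProduct,
    of_apply, Function.comp_apply, mul_comm]

theorem unit (T : TD B d P e) : IsUnit (of fun i j => P (e j) i) :=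
  (isUnit_iff_isUnit_det _).2 (Ne.isUnit T.det)

/-- Polynomial coordinates. -/
theorem coord (T : TD B d P e) : ∃ co : G →ₗ[k] ι → k[X], (∀ u, E B e (co u) = u) := by
  have hb : Function.Bijective (E B e) := ⟨fun q q' h => ?_, fun u => ?_⟩
  · exact ⟨(LinearEquiv.ofBijective _ hb).symm, (LinearEquiv.ofBijective _ hb).apply_symm_apply⟩
  · have h1 := congrArg P h
    rw [P_E T, P_E T] at h1
    exact funext fun i => ah_inj T.d1 (congrFun (mulVec_injective_iff_isUnit.2 (unit T) h1) i)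
  · exact (T.span u).imp fun q h => h.symm

end Flat

open Flat in
theorem flatS : FlatStmt := by
  intro k G ι _ _ _ _ _ _ n d B P e T
  obtain ⟨Y0, hY⟩ := flat T
  obtain ⟨co, hco⟩ := coord T
  obtain ⟨Z, hZ⟩ := ginv Y0
  obtain ⟨Zp, Δ, hΔ, hZp⟩ := ginvD (mu co co B.Y)
  have hu := unit T
  have hP : ∀ u, P u = (of fun i j => P (e j) i) *ᵥ (ae (hW k d) ∘ co u) := fun u => by
    rw [← P_E T, hco]
  have hE := P_E T
  generalize (of fun i j => P (e j) i) = M at hu hP hE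
  have hM : ∀ z, mu P P z = M * (mu co co z).map (ae (hW k d)) * Mᵀ := fun z => by
    induction z using TensorProduct.induction_on with
    | zero => simp
    | tmul u v =>
      have : (vecMulVec (co u) (co v)).map (ae (hW k d)) =
          vecMulVec (ae (hW k d) ∘ co u) (ae (hW k d) ∘ co v) :=
        Matrix.ext fun i j => map_mul (ae (hW k d)) _ _
      rw [mu_tmul, mu_tmul, this, mul_vecMulVec, vecMulVec_mul, vecMul_transpose, ← hP, ← hP]
    | add a b ha hb =>
      rw [map_add, map_add, ha, hb, Matrix.map_add _ (map_add _), Matrix.mul_add, Matrix.add_mul]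
  have s0 : (Y0.map (cL k))ᵀ = -Y0.map (cL k) := by rw [hY, mu_sk]
  have s1 : ((mu co co B.Y).map (ae (hW k d)))ᵀ = -(mu co co B.Y).map (ae (hW k d)) := by
    rw [← transpose_map, mu_sk, Matrix.map_neg _ (map_neg _)]
  have hYw : ∀ w, Y0.map (cL k) *ᵥ w = M *ᵥ (mu co co B.Y).map (ae (hW k d)) *ᵥ (w ᵥ* M) :=
    fun w => by rw [hY, hM, ← mulVec_mulVec, ← mulVec_mulVec, mulVec_transpose]
  refine ⟨Y0, Z, fun p => E B e ((fun i => C (B.ev p (e i))) ᵥ* mu co co B.Y), Δ, ?_, hZ,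
    fun p => ?_, fun p => ?_, hΔ, fun u u' w w' h h' => ?_⟩
  · refine Matrix.map_injective (cL k).injective ?_
    show Matrix.map _ _ = Matrix.map _ _
    rw [transpose_map, s0, Matrix.map_neg _ (map_neg _)]
  · rw [BM.y]
    induction B.Y using TensorProduct.induction_on with
    | zero => exact ⟨0, by simp⟩
    | tmul u v =>
      obtain ⟨s, hs⟩ := X_sub_C_dvd_sub_C_eval (a := B.c p)
        (p := (fun i => C (B.ev p (e i))) ⬝ᵥ co u)
      refine ⟨aeval B.h s v, ?_⟩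
      rw [mu_tmul, vecMul_vecMulVec, E_smul, hco, ct_tmul, eq_add_of_sub_eq hs, ← ev_E, hco]
      simp
    | add a b ha hb =>
      obtain ⟨u, ha⟩ := ha
      obtain ⟨v, hb⟩ := hb
      refine ⟨u + v, ?_⟩
      rw [map_add, vecMul_add, map_add, map_add, add_sub_add_comm, ha, hb, map_add, smul_add,
        add_sub_add_comm]
  · obtain ⟨w, hw⟩ := vecMul_surjective_iff_isUnit.2 hu
      (-(ae (hW k d) ∘ fun i => C (B.ev p (e i))))
    have hw' : w ᵥ* M = _ := hw
    refine ⟨w, ?_, fun u => ⟨(fun i => C (B.ev p (e i))) ⬝ᵥ co u, by rw [← ev_E, hco], ?_⟩⟩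
    · rw [hE, hYw, hw', mulVec_neg, ← neg_mulVec, ← s1, mulVec_transpose]
      exact congrArg _ (funext fun i => RingHom.map_vecMul _ _ _ i)
    · rw [hP, dotProduct_mulVec, hw', neg_dotProduct, RingHom.map_dotProduct]
  · have inj := mulVec_injective_iff_isUnit.2 hu
    have b := inj ((hP u).symm.trans (h.trans (hYw w)))
    have b' := inj ((hP u').symm.trans (h'.trans (hYw w')))
    have c1 : P u ⬝ᵥ Z.map (cL k) *ᵥ P u' = -((w ᵥ* M) ⬝ᵥ (ae (hW k d) ∘ co u')) := by
      rw [← dotProduct_mulVec, ← hP u', h, h', ← vecMul_transpose, ← dotProduct_mulVec, s0,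
        neg_mulVec, dotProduct_neg, mulVec_mulVec, mulVec_mulVec, ← Matrix.map_mul,
        ← Matrix.map_mul, hZ]
    have c2 := congrArg (fun N : Matrix ι ι k[X] => N.map (ae (hW k d)) *ᵥ (w' ᵥ* M)) hZp
    have c3 : (Δ • mu co co B.Y).map (ae (hW k d)) =
        ae (hW k d) Δ • (mu co co B.Y).map (ae (hW k d)) :=
      Matrix.ext fun i j => map_mul (ae (hW k d)) _ _
    simp only [Matrix.map_mul, c3, smul_mulVec, ← mulVec_mulVec, ← b'] at c2
    refine ⟨co u ⬝ᵥ Zp *ᵥ co u', ?_⟩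
    rw [c1, mul_neg, ← smul_eq_mul, ← dotProduct_smul, ← c2, dotProduct_mulVec (w ᵥ* M),
      ← neg_dotProduct, ← mulVec_transpose (Matrix.map _ _), s1, neg_mulVec, neg_neg, ← b,
      RingHom.map_dotProduct]
    exact congrArg _ (funext fun i => (RingHom.map_mulVec _ _ _ i).symm)

end

end Pool.Agent.MP_05b4bd_ag.UM

end MrgPart2

-- ======== part 3: formerly Pool.Agent.MP_05b4bd_ag.um.Inv
section MrgPart3

/-! No invariance of the expansion at infinity for Morse polynomials without radial symmetry. -/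

namespace Pool.Agent.MP_05b4bd_ag.UM

open MvPolynomial HC
open ES hiding Gen GenTopStmt GenJacStmt IlAbsStmt InvStmt3 Inf
open ES.U
open scoped TensorProduct PowerSeries LaurentSeries

namespace Inv

theorem red {k : Type} [Field k] [CharZero k] {d : ℕ} (hd : 3 ≤ d) (f : R2 k) {g1 : R2 k}
    (h2 : DL (d - 1) g1) : ∃ a b, redg d f g1 = a * pderiv 0 f + b * pderiv 1 f ∧
      pderiv 0 a + pderiv 1 b = g1 := by
  let s : R2 k := ∑ w ∈ Finset.Icc 2 d, C (1 / (w : k)) * hc (w - 2) g1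
  refine ⟨s * X 0, s * X 1, by rw [redg, ← Finset.sum_mul]; ring, ?_⟩
  have h5 : ∑ w ∈ Finset.Icc 2 d, hc (w - 2) g1 = g1 := by
    rw [← Finset.Ico_add_one_right_eq_Icc, Finset.sum_Ico_eq_sum_range]
    simpa using Esc.sum_hc (n := d + 1 - 2) (h2.mono (by omega))
  rw [← h5]
  simp only [s, Finset.sum_mul, map_sum, ← Finset.sum_add_distrib]
  refine Finset.sum_congr rfl fun w hw => ?_
  obtain ⟨v, rfl⟩ : ∃ v, w = v + 2 := ⟨w - 2, by have := (Finset.mem_Icc.1 hw).1; omega⟩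
  have h6 := euler (hc_hom v g1)
  have h7 : (C (1 / ((v + 2 : ℕ) : k)) : R2 k) * ((v : R2 k) + 2) = 1 := by
    have : ((v : R2 k) + 2) = C ((v + 2 : ℕ) : k) := by rw [map_natCast]; push_cast; rfl
    rw [this, ← C_mul, one_div_mul_cancel (Nat.cast_ne_zero.2 (by omega)), C_1]
  simp only [Nat.add_sub_cancel, pderiv_C, pderiv_mul, pderiv_X_self]
  linear_combination C (1 / ((v + 2 : ℕ) : k)) * h6 + hc v g1 * h7

variable {k L : Type} [Field k] [Field L] (κ : k →+* L)

theorem cwL_lin (l : L →+ k) (hl : ∀ c z, l (κ c * z) = c * l z) (a : k⸨X⸩) (x : L⸨X⸩) :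
    cwL l (mapL κ a * x) = a * cwL l x := by
  obtain ⟨n, f, rfl⟩ := exists_wL_mul a
  obtain ⟨m, g, rfl⟩ := exists_wL_mul x
  rw [map_mul (mapL κ), mapL_wL, mapL_coeL, mul_mul_mul_comm, ← wL_add, ← map_mul (coeL L),
    cwL_wL_mul, cwL_wL_mul, cwL_coeL, cwL_coeL, mul_mul_mul_comm, ← wL_add, ← map_mul (coeL k)]
  congr 2
  ext j
  simp only [coeff_cw, PowerSeries.coeff_mul, map_sum, PowerSeries.coeff_map, hl]

theorem dh_mapL (d : ℕ) (a : k⸨X⸩) : dh d (mapL κ a) = mapL κ (dK k d a) := by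
  rw [dK_apply, dh, dh, map_neg (mapL κ), map_mul (mapL κ), map_mul (mapL κ), mapL_wL, mapL_cL,
    map_inv₀ κ, map_natCast κ, thL_mapL]

end Inv

theorem invU (h1 : GlcStmt) (h2 : EvbStmt) (h3 : GmStmt) (h4 : IrrStmt) (h5 : BasStmt)
    (h6 : PmaStmt) (h7 : PmbStmt) (h8 : CbStmt) (h9 : PhiStmt) (ha : UniStmt) (hb : ActStmt)
    (hc : DegStmt) (hd : Tor3Stmt) (he : Tor4Stmt) : InvStmt3 := by
  intro k L _ _ _ _ d I ν σ φ η d3 hν lo s0 s1 s2 p1 _ p3
  let : Algebra k L := I.κ.toAlgebra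
  have hκ : algebraMap k L = I.κ := rfl
  obtain ⟨-, hci, c1, c2, -⟩ := genTopS k d I.f (by omega) I.gen
  have hev := h2 k L I.κ I.D d _ _ _ (by omega) (hc_hom d I.f) hci c1 c2 I.cv I.gb
  obtain ⟨-, c, e, BB, hc', he', hB, hG⟩ := h1 k L I.D d I.f I.x0 I.y0 (by omega) I.cv I.fr
  rw [hκ] at hc' he'
  have hev' : ∀ r, e r ∈ BB → Bt (HC.hc d I.f) r := fun r hr => by
    obtain ⟨z, hz⟩ := (hB _).1 hr
    exact hev r z (by rw [← he', hz])
  have lo' : ∀ m : ℤ, m < -d → c m I.g ∈ BB := fun m hm => by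
    rw [hc', ← I.rX]
    exact (hB _).2 (lo m hm)
  obtain ⟨g1, u, dg, eg, -, -⟩ := redAbsS k L d I.f c e BB d3 I.gen hG hev' I.g I.jac lo'
  have hT : TM d I.f := I.gen.2.2.1
  obtain ⟨n, p, hCr⟩ := hT.cr
  obtain ⟨G, _, _, B, π, hP⟩ := h3 k d n I.f p (by omega) hT hCr
  have irr := (h4 k d I.f (by omega) hT).1 G n B p π hP
  obtain ⟨m, eb, δ, hBas⟩ := h5 k d (HC.hc d I.f) (by omega) (hc_hom d I.f) hci
  obtain ⟨P, lam, l, hPer, hlam, hl, hPc, hPh, hPθ⟩ :=
    h6 k G L (Fin m) d n B I.f p π c e BB eb δ (by omega) hT hP hG hev' hBas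
  have hTD := h7 k G (Fin m) d n B I.f p π eb δ P lam d3 hT hP hBas hPer hlam irr hPh hPθ
  obtain ⟨a, b, ha', hb'⟩ := Inv.red d3 I.f dg
  have hg : π I.g = B.θ (π g1) := by
    rw [eg, map_add, (hP.ker _).2 ⟨u, rfl⟩, add_zero, ha', ← hb', hP.th]
  have g0 : g1 ≠ 0 := fun h => I.ng u (by rw [eg, h]; simp [redg, HC.hc])
  obtain ⟨q1, q2⟩ := h8 k G d n B I.f p π g1 d3 hT hCr hP dg g0
  have z0 : PowerSeries.coeff 1 σ ≠ 0 := fun h => by
    rw [h, zero_pow (by omega)] at s1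
    exact zero_ne_one s1
  obtain ⟨ψ, f1, f2, f3, f4⟩ := h9 k σ s0 z0
  obtain ⟨f5, f6⟩ := f4 L I.κ φ p1
  have hX : ∀ i, P (π I.g) i = cwL (l i).toAddMonoidHom (cc I.Xi) := fun i => by
    ext m
    rw [hPc, hc', ← I.rX]
    rfl
  have hlin : ∀ i c z, (l i).toAddMonoidHom (I.κ c * z) = c * (l i).toAddMonoidHom z :=
    fun i c z => (l i).map_smul c z
  have hS : Sy B d P ψ (π g1) :=
    { fc := f1
      chain := f2 d (by omega)
      inv := fun i => by
        have h0 : cwL (l i).toAddMonoidHom (cwL I.D η) = 0 := by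
          ext j
          exact hl i _ ((hB _).2 ⟨_, rfl⟩)
        rw [p3, map_sub, ← mapL_wL I.κ, f5, Inv.dh_mapL, Inv.cwL_lin _ _ (hlin i),
          f6 _ (hlin i), sub_eq_zero] at h0
        rw [← hg, hX, h0]
      g0 := q1
      cb := q2
      low := fun i j hj => by rw [← hg, hPc, hl i _ (lo' j hj)] }
  obtain ⟨w, c0, w0, hw⟩ := ha k G (Fin m) n d B P _ ψ (π g1) hTD hS
  obtain ⟨S, S1, S2, S3⟩ := hb k G (Fin m) n d B P _ ψ (π g1) w c0 hTD hS w0 hw
  have hwz : w = (PowerSeries.coeff 1 σ)⁻¹ ^ d := by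
    have h := f3 (hW k d) (-(d : ℤ)) fun j hj => by rw [coeff_wL, if_neg hj.ne]
    rw [hw, HahnSeries.coeff_add, coeff_cL_mul, coeff_wL, if_pos rfl, coeff_cL,
      if_neg (by omega), zpow_neg, zpow_natCast, ← inv_pow, mul_one, mul_one, add_zero] at h
    exact h
  have hAct : Act B d I.f π (PowerSeries.coeff 1 σ) c0 S :=
    { z0 := z0
      z1 := s2
      th := hwz ▸ S1
      mul := hwz ▸ S2
      deg := hc k G d n B I.f p π S w c0 (by omega) hT hP w0 S1 S2
      lead := fun j u v hu hv e o => (hPer.ker _).1 (by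
        rw [map_sub, C_mul', map_smul, ← hPer.lead j u hu, ← hPer.lead j v hv, ← e, sub_eq_zero]
        funext i
        exact (S3 _ i _ o).symm.trans (f3 _ _ fun t ht => congrFun (hPer.low j u t hu ht) i)) }
  by_cases h : d = 3
  · subst h
    exact hd k G n B I.f p π _ c0 S hT hP hAct I.gen.2.2.2.1
  · exact he k G d n B I.f p π _ c0 S (by omega) hT hCr hP hAct I.gen.2.2.2.1

end Pool.Agent.MP_05b4bd_ag.UM

end MrgPart3

-- ======== part 4: formerly Pool.Agent.MP_05b4bd_ag.um.Logb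
section MrgPart4

/-! The filtration at a finite point. -/

namespace Pool.Agent.MP_05b4bd_ag.UM

open ES Polynomial
open scoped TensorProduct PowerSeries LaurentSeries

noncomputable section

namespace Logb

variable {k G ι : Type} [Field k] [AddCommGroup G] [Module k G] [Fintype ι] [DecidableEq ι]
  {n d : ℕ} {B : BM k G n} {P : G →ₗ[k] ι → k⸨X⸩} {e : ι → G} (T : TD B d P e) (b : k)

omit [Fintype ι] [DecidableEq ι] in
theorem smul_v (c : k) (v : ι → k⸨X⸩) : c • v = cL k c • v := funext fun i => smul_cL c (v i)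

theorem ae_t : ae (hW k d) (X - C b) = hW k d - cL k b := by rw [map_sub, ae_X, ae_C]

theorem mul_mem {j : ℕ} {a : k⸨X⸩} {r q : k[X]} (hq : q.eval b ≠ 0)
    (ha : a * ae (hW k d) q = ae (hW k d) r) {v : ι → k⸨X⸩} (hv : v ∈ T.Lam b j) :
    a • v ∈ T.Lam b j := by
  obtain ⟨q1, u, h1, h2⟩ := hv
  refine ⟨q * q1, aeval B.h r u, by rw [eval_mul]; exact mul_ne_zero hq h1, ?_⟩
  rw [T.Pq, smul_comm (_ ^ j), ← h2, ← ha, map_mul, smul_smul, smul_smul]
  congr 1
  ring

theorem up {i j : ℕ} {v : ι → k⸨X⸩} (hv : v ∈ T.Lam b i) :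
    (hW k d - cL k b) ^ j • v ∈ T.Lam b (j + i) := by
  obtain ⟨q, u, h1, h2⟩ := hv
  exact ⟨q, u, h1, by rw [smul_comm, h2, smul_smul, pow_add]⟩

theorem down {j : ℕ} {v : ι → k⸨X⸩} (hv : v ∈ T.Lam b j) :
    ∃ w ∈ T.Lam b 0, v = (hW k d - cL k b) ^ j • w := by
  have h0 := pow_ne_zero j (t_ne T.d1 b)
  obtain ⟨q, u, h1, h2⟩ := hv
  refine ⟨((hW k d - cL k b) ^ j)⁻¹ • v, ⟨q, u, h1, ?_⟩, by rw [smul_inv_smul₀ h0]⟩
  rw [smul_comm, h2, inv_smul_smul₀ h0, pow_zero, one_smul]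

theorem anti (j : ℕ) : T.Lam b (j + 1) ≤ T.Lam b j := by
  rintro v ⟨q, u, h1, h2⟩
  exact ⟨q, aeval B.h (X - C b) u, h1, by rw [T.Pq, ae_t, h2, smul_smul, pow_succ]⟩

variable [CharZero k]

omit [Fintype ι] [DecidableEq ι] in
theorem D_pow (hd : 1 ≤ d) (j : ℕ) (w : ι → k⸨X⸩) :
    (hW k d - cL k b) • dV k ι d ((hW k d - cL k b) ^ j • w) =
      (hW k d - cL k b) ^ j • ((j : k) • w + (hW k d - cL k b) • dV k ι d w) := by
  have h : (hW k d - cL k b) * dK k d ((hW k d - cL k b) ^ j) =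
      (hW k d - cL k b) ^ j * cL k j := by
    induction j with
    | zero => rw [pow_zero, ← map_one (cL k), dK_cL]; simp
    | succ j ih =>
      rw [pow_succ, dK_mul, map_sub, dK_hW hd, dK_cL, Nat.cast_succ, map_add, map_one]
      linear_combination (hW k d - cL k b) * ih
  rw [dV_smul, smul_add, smul_add, smul_smul, h, smul_v, mul_smul,
    smul_comm (hW k d - cL k b) (_ ^ j)]

theorem filt (hL : ∀ v ∈ T.Lam b 0, (hW k d - cL k b) • dV k ι d v ∈ T.Lam b 0 ∧
      (hW k d - cL k b) • dV k ι d ((hW k d - cL k b) • dV k ι d v) ∈ T.Lam b 1)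
    {S : Module.End k (ι → k⸨X⸩)} {σ : k⸨X⸩} {r q : k[X]} {m : ℕ} (hm : 1 ≤ m)
    (hq : q.eval b ≠ 0) (hσ : σ * ae (hW k d) q = ae (hW k d) r)
    (hS : ∀ v, S v = (m : k)⁻¹ • (hW k d - cL k b) • dV k ι d v +
      (hW k d - cL k b) ^ 1 • σ • (hW k d - cL k b) • dV k ι d v) : Log S (T.Lam b) m := by
  have hD : ∀ j, ∀ v ∈ T.Lam b j, (hW k d - cL k b) • dV k ι d v ∈ T.Lam b j := fun j v hv => by
    obtain ⟨w, hw, rfl⟩ := down T b hv
    rw [D_pow b T.d1]
    exact up T b (i := 0) (add_mem (Submodule.smul_mem _ _ hw) (hL w hw).1)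
  have hE : ∀ j, ∀ v ∈ T.Lam b j,
      (hW k d - cL k b) ^ 1 • σ • (hW k d - cL k b) • dV k ι d v ∈ T.Lam b (j + 1) :=
    fun j v hv => add_comm 1 j ▸ up T b (mul_mem T b hq hσ (hD j v hv))
  have st : ∀ j, St S (T.Lam b j) := fun j v hv => by
    rw [hS]
    exact add_mem (Submodule.smul_mem _ _ (hD j v hv)) (anti T b j (hE j v hv))
  refine ⟨hm, anti T b, st, fun j x hx => ?_⟩
  have key : ∀ w ∈ T.Lam b 0, ∃ z ∈ T.Lam b (j + 1),
      (S - ((j : k) / m) • 1 : Module.End k (ι → k⸨X⸩)) ((hW k d - cL k b) ^ j • w) =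
        (m : k)⁻¹ • (hW k d - cL k b) ^ j • (hW k d - cL k b) • dV k ι d w + z := fun w hw => by
    refine ⟨_, hE j _ (up T b (i := 0) hw), ?_⟩
    rw [LinearMap.sub_apply, LinearMap.smul_apply, Module.End.one_apply, hS]
    nth_rewrite 1 [D_pow b T.d1]
    rw [smul_add, smul_add, ← mV_apply (_ ^ j) (_ • w), map_smul, mV_apply, smul_smul (m : k)⁻¹,
      div_eq_inv_mul]
    abel
  obtain ⟨w, hw, rfl⟩ := down T b hx
  obtain ⟨z, hz, e1⟩ := key w hw
  obtain ⟨z', hz', e2⟩ := key _ (hL w hw).1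
  rw [e1, map_add, map_smul, e2]
  refine add_mem (Submodule.smul_mem _ _ (add_mem (Submodule.smul_mem _ _ ?_) hz')) ?_
  · exact up T b (hL w hw).2
  · exact sub_mem (st _ z hz) (Submodule.smul_mem _ _ hz)

end Logb

open Logb in
theorem logbS (h1 : PilStmt) (h2 : LatStmt) : LogbStmt := by
  intro k G ι _ _ _ _ _ _ n d B P e T b τ μ r q hr hq hτ
  have hd := T.d1
  have m0 : ((μ + 1 : ℕ) : k) ≠ 0 := Nat.cast_ne_zero.2 μ.succ_ne_zero
  obtain ⟨s, hs⟩ : ∃ s : k[X], s = C ((μ + 1 : ℕ) : k) * (r * q) +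
    (X - C b) * (derivative r * q - r * derivative q) := ⟨_, rfl⟩
  have s0 : s.eval b ≠ 0 := by
    rw [hs, eval_add, eval_mul, eval_mul, eval_mul, eval_C, eval_sub, eval_X, eval_C, sub_self,
      zero_mul, add_zero]
    exact mul_ne_zero m0 (mul_ne_zero hr hq)
  have ne : ∀ {p : k[X]}, p.eval b ≠ 0 → ae (hW k d) p ≠ 0 := fun h =>
    ah_ne hd fun z => h (by rw [z, eval_zero])
  have hdτ : dK k d τ * ae (hW k d) (q ^ 2) = (hW k d - cL k b) ^ μ * ae (hW k d) s := by
    have a := congrArg (dK k d) hτ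
    rw [dK_mul, dK_ah hd, dK_ah hd, derivative_mul, derivative_X_sub_C_pow] at a
    simp only [hs, map_add, map_mul, map_sub, map_pow, ae_X, ae_C, Nat.add_sub_cancel] at a hτ ⊢
    linear_combination ae (hW k d) q * a - ae (hW k d) (derivative q) * hτ
  have t0 := t_ne hd b
  have hc : cL k ((μ + 1 : ℕ) : k)⁻¹ * cL k ((μ + 1 : ℕ) : k) = 1 := by
    rw [← map_mul, inv_mul_cancel₀ m0, map_one]
  have d0 : dK k d τ ≠ 0 := fun z => mul_ne_zero (pow_ne_zero μ t0) (ne s0) (by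
    rw [← hdτ, z, zero_mul])
  obtain ⟨σ, hσ⟩ : ∃ σ : k⸨X⸩, σ * ae (hW k d) s = ae (hW k d)
      (-C ((μ + 1 : ℕ) : k)⁻¹ * (derivative r * q - r * derivative q)) :=
    ⟨_, div_mul_cancel₀ _ (ne s0)⟩
  have hq' : τ / dK k d τ = (cL k ((μ + 1 : ℕ) : k)⁻¹ + (hW k d - cL k b) ^ 1 * σ) *
      (hW k d - cL k b) := by
    rw [div_eq_iff d0]
    refine mul_right_cancel₀ (ne (p := q ^ 2) (by rw [eval_pow]; exact pow_ne_zero 2 hq)) ?_
    rw [mul_assoc _ (dK k d τ), hdτ]
    have hs' := congrArg (ae (hW k d)) hs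
    simp only [map_add, map_mul, map_sub, map_pow, map_neg, ae_X, ae_C] at hτ hσ hs' ⊢
    linear_combination ae (hW k d) q * hτ - (hW k d - cL k b) ^ (μ + 2) * hσ -
      (hW k d - cL k b) ^ (μ + 1) * cL k ((μ + 1 : ℕ) : k)⁻¹ * hs' -
      (hW k d - cL k b) ^ (μ + 1) * ae (hW k d) r * ae (hW k d) q * hc
  have q2 : (q ^ 2).eval b ≠ 0 := by rw [eval_pow]; exact pow_ne_zero 2 hq
  refine ⟨filt T b ((h2 k G ι n d B P e T).2.2.2 b) μ.succ_pos s0 hσ fun v => ?_,
    fun g hg => ⟨⟨q ^ 2, aeval B.h s g, q2, ?_⟩, ?_⟩⟩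
  · rw [vt_apply, hq', mul_smul, add_smul, smul_v, mul_smul]
  · rw [T.Pq, smul_smul, smul_smul, mul_comm, hdτ]
  · rintro ⟨q1, u, a1, a2⟩
    have a3 : P (aeval B.h (q1 * s) g - aeval B.h ((X - C b) * q ^ 2) u) = 0 := by
      refine (smul_eq_zero_iff_right (pow_ne_zero μ t0)).1 ?_
      have a4 := congrArg (fun v => ae (hW k d) (q ^ 2) • v) a2
      simp only [smul_smul] at a4
      rw [map_sub, T.Pq, T.Pq, smul_sub, smul_smul, smul_smul, sub_eq_zero, map_mul, map_mul, ae_t]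
      refine (congrArg (· • P g) ?_).trans (a4.trans (congrArg (· • P u) (by ring)))
      linear_combination -ae (hW k d) q1 * hdτ
    have a5 := (h1 k G ι n d B P e T).2 0 _ fun m _ => ⟨0, by rw [a3, zero_smul]; rfl⟩
    obtain ⟨s1, hs1⟩ := X_sub_C_dvd_sub_C_eval (p := q1 * s) (a := b)
    have c0 : (q1 * s).eval b ≠ 0 := by rw [eval_mul]; exact mul_ne_zero a1 s0
    obtain ⟨c, hc'⟩ : ∃ c, c = (q1 * s).eval b := ⟨_, rfl⟩
    rw [← hc'] at hs1 c0
    rw [eq_add_of_sub_eq hs1] at a5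
    simp only [map_add, map_mul, map_sub, aeval_X, aeval_C, LinearMap.add_apply,
      Module.End.mul_apply, LinearMap.sub_apply, Module.algebraMap_end_apply] at a5
    refine hg (c⁻¹ • (aeval B.h (q ^ 2) u - aeval B.h s1 g)) ?_
    rw [map_smul, smul_comm b, ← smul_sub, eq_inv_smul_iff₀ c0, map_sub, smul_sub, ← sub_eq_zero,
      ← a5]
    abel

end

end Pool.Agent.MP_05b4bd_ag.UM

end MrgPart4

-- ======== part 5: formerly Pool.Agent.MP_05b4bd_ag.um.Pma
section MrgPart5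

/-! Construction of the periods. -/

namespace Pool.Agent.MP_05b4bd_ag.UM

open MvPolynomial HC
open ES hiding Gen GenTopStmt GenJacStmt IlAbsStmt InvStmt3 Inf
open ES.U
open scoped TensorProduct PowerSeries LaurentSeries

noncomputable section

namespace Pma

variable {k M ι : Type} [Field k] [AddCommGroup M] [Module k M]

theorem hom_ind (N : Submodule k (R2 k)) (h : ∀ n u, u.IsHomogeneous n → u ∈ N) (u : R2 k) :
    u ∈ N := by
  obtain ⟨n, hn⟩ := exists_DL u
  rw [← Esc.sum_hc hn]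
  exact N.sum_mem fun i _ => h i _ (hc_hom i u)

variable {d : ℕ} {f : R2 k} {c : ℤ → R2 k →ₗ[k] M} {e0 : R2 k →ₗ[k] M} {BB : Submodule k M}

theorem e_mul (hf : DL (d + 1) f) (H : GLax d f c e0 BB) (w : R2 k) :
    e0 (hc d f * w) = e0 w := by
  have := hom_ind (LinearMap.eqLocus (e0 ∘ₗ LinearMap.mulLeft k (hc d f)) e0) (fun n u hu => by
    have h1 := H.lead (d + n) (f * u) (hf.mul (DL.of_hom hu))
    rw [hc_mul_top hf (DL.of_hom hu), hc_self hu, H.mul,
      show (d : ℤ) - 2 - (d + n : ℕ) + d = d - 2 - n by push_cast; ring,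
      H.lead n u (DL.of_hom hu), hc_self hu] at h1
    exact h1.symm) w
  exact this

theorem e_pow (hf : DL (d + 1) f) (H : GLax d f c e0 BB) (j : ℕ) (w : R2 k) :
    e0 (hc d f ^ j * w) = e0 w := by
  induction j with
  | zero => rw [pow_zero, one_mul]
  | succ j ih => rw [pow_succ', mul_assoc, e_mul hf H, ih]

theorem e_br (hd : 1 ≤ d) (hf : DL (d + 1) f) (H : GLax d f c e0 BB) (u : R2 k) :
    e0 (br u (hc d f)) ∈ BB := by
  obtain ⟨e, rfl⟩ : ∃ e, d = e + 1 := ⟨d - 1, by omega⟩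
  have := hom_ind (BB.comap (e0 ∘ₗ vfl (pderiv 1 (hc (e + 1) f)) (-pderiv 0 (hc (e + 1) f))))
    (fun n u hu => by
      rw [Submodule.mem_comap, LinearMap.comp_apply, vfl_apply, ← br_eq_vf]
      cases n with
      | zero =>
        rw [← hc_self hu, hc, homogeneousComponent_zero, br_eq_vf, vf_C, map_zero]
        exact BB.zero_mem
      | succ n =>
        have h1 := H.lead (e + n) (br u f) (br_DL (a := n + 1) (DL.of_hom hu) hf)
        rw [hc_br_top (DL.of_hom hu) hf, hc_self hu] at h1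
        rw [← h1]
        exact H.ham _ _) u
  rwa [Submodule.mem_comap, LinearMap.comp_apply, vfl_apply, ← br_eq_vf] at this

theorem e_Bt (hd : 1 ≤ d) (hf : DL (d + 1) f) (H : GLax d f c e0 BB) {r : R2 k}
    (h : Bt (hc d f) r) : e0 r ∈ BB := by
  obtain ⟨u, w, rfl⟩ := h
  rw [map_add, sub_mul, one_mul, map_sub, e_mul hf H, sub_self, add_zero]
  exact e_br hd hf H u

/-- Linear combinations of the forms `e i`. -/
def cmb [Fintype ι] (e : ι → R2 k) : (ι → k) →ₗ[k] R2 k where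
  toFun a := ∑ i, C (a i) * e i
  map_add' a b := by simp only [Pi.add_apply, map_add, add_mul, Finset.sum_add_distrib]
  map_smul' x a := by
    simp only [Pi.smul_apply, smul_eq_mul, map_mul, RingHom.id_apply, smul_eq_C_mul,
      Finset.mul_sum, mul_assoc]

theorem cmb_apply [Fintype ι] (e : ι → R2 k) (a : ι → k) : cmb e a = ∑ i, C (a i) * e i := rfl

theorem cmb_single [Fintype ι] [DecidableEq ι] (e : ι → R2 k) (j : ι) :
    cmb e (Pi.single j 1) = e j := by
  rw [cmb_apply, Finset.sum_eq_single j]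
  · simp
  · intro i _ h
    simp [h]
  · simp

theorem span [Fintype ι] {e : ι → R2 k} {δ : ι → ℕ} (hd : 1 ≤ d) (hf : DL (d + 1) f)
    (H : GLax d f c e0 BB) (hB : Bas d (hc d f) e δ) (r : R2 k) :
    ∃ a, e0 (r - cmb e a) ∈ BB := by
  have := hom_ind (BB.comap e0 ⊔ LinearMap.range (cmb e)) (fun n u hu => by
    obtain ⟨a, j, η, -, h⟩ := hB.span n u hu
    refine Submodule.mem_sup.2 ⟨u - cmb e a, ?_, cmb e a, ⟨a, rfl⟩, sub_add_cancel _ _⟩
    rw [Submodule.mem_comap, map_sub, h, map_add, cmb_apply, map_sum, map_sum,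
      Finset.sum_congr rfl (g := fun i => e0 (C (a i) * e i)) fun i _ => by
        rw [mul_right_comm, mul_comm, e_pow hf H], add_sub_cancel_left]
    exact e_br hd hf H η) r
  obtain ⟨y, hy, _, ⟨a, rfl⟩, rfl⟩ := Submodule.mem_sup.1 this
  exact ⟨a, by rwa [add_sub_cancel_right]⟩

theorem bdd (H : GLax d f c e0 BB) (L : M →ₗ[k] k) (u : R2 k) :
    BddBelow (Function.support fun m => L (c m u)) := by
  obtain ⟨n, hn⟩ := exists_DL u
  refine ⟨d - 2 - n, fun m hm => not_lt.1 fun h => hm ?_⟩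
  show L (c m u) = 0
  rw [H.low n m u (hn.mono n.le_succ) h, map_zero]

/-- The series with the coefficients `L (c m u)`. -/
def ser (H : GLax d f c e0 BB) (L : M →ₗ[k] k) : R2 k →ₗ[k] k⸨X⸩ where
  toFun u := HahnSeries.ofSuppBddBelow (fun m => L (c m u)) (bdd H L u)
  map_add' u v := by
    ext m
    simp only [HahnSeries.coeff_ofSuppBddBelow, HahnSeries.coeff_add, map_add]
  map_smul' x u := by
    ext m
    simp only [HahnSeries.coeff_ofSuppBddBelow, HahnSeries.coeff_smul, map_smul, RingHom.id_apply]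

theorem coeff_ser (H : GLax d f c e0 BB) (L : M →ₗ[k] k) (u : R2 k) (m : ℤ) :
    (ser H L u).coeff m = L (c m u) := rfl

end Pma

open Pma in
theorem pmaS (h : IndStmt) : PmaStmt := by
  intro k G M ι _ _ _ _ _ _ _ _ d n B f p π c e0 BB e δ hd hT hP H hB hE
  have hd1 : 1 ≤ d := by omega
  have hinj : LinearMap.ker (BB.mkQ ∘ₗ e0 ∘ₗ cmb e) = ⊥ := LinearMap.ker_eq_bot'.2 fun a ha =>
    h k ι d _ e δ hd (hc_hom d f) hT.ci hE a (hB _ ((Submodule.Quotient.mk_eq_zero BB).1 ha))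
  obtain ⟨g, hg⟩ := LinearMap.exists_leftInverse_of_injective _ hinj
  obtain ⟨s, hs⟩ := LinearMap.exists_rightInverse_of_surjective π (LinearMap.range_eq_top.2 hP.surj)
  obtain ⟨L, hL0, hL1⟩ : ∃ L : M →ₗ[k] ι → k, (∀ z ∈ BB, L z = 0) ∧ ∀ a, L (e0 (cmb e a)) = a :=
    ⟨g ∘ₗ BB.mkQ, fun z hz => by
      rw [LinearMap.comp_apply, Submodule.mkQ_apply, (Submodule.Quotient.mk_eq_zero BB).2 hz,
        map_zero], fun a => LinearMap.congr_fun hg a⟩
  obtain ⟨P, hc1⟩ : ∃ P : G →ₗ[k] ι → k⸨X⸩, ∀ u i m, (P (π u) i).coeff m = L (c m u) i := by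
    refine ⟨(LinearMap.pi fun i => ser H (LinearMap.proj i ∘ₗ L)) ∘ₗ s, fun u i m => ?_⟩
    obtain ⟨v, hv⟩ := (hP.ker (s (π u) - u)).1 (by
      rw [map_sub, ← LinearMap.comp_apply π s, hs, LinearMap.id_apply, sub_self])
    show L (c m (s (π u))) i = _
    rw [sub_eq_iff_eq_add.1 hv, map_add, map_add, hL0 _ (H.ham m v), zero_add]
  refine ⟨P, L ∘ₗ e0, fun i => LinearMap.proj i ∘ₗ L, ⟨fun n u m hu hm => ?_, fun n u hu => ?_,
    fun r => ⟨fun hr => ?_, fun hr => hL0 _ (e_Bt hd1 hT.dl H hr)⟩⟩, fun j => ?_,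
    fun i z hz => congrFun (hL0 z hz) i, hc1, fun u => ?_, fun u => ?_⟩
  · funext i
    rw [cv, hc1, H.low n m u hu hm, map_zero]
  · funext i
    rw [cv, hc1, H.lead n u hu]; rfl
  · obtain ⟨a, ha⟩ := span hd1 hT.dl H hE r
    have h1 := hL0 _ ha
    rw [map_sub, map_sub, hL1, show L (e0 r) = 0 from hr, zero_sub, neg_eq_zero] at h1
    rw [h1, map_zero, sub_zero] at ha
    exact hB r ha
  · rw [← cmb_single e j]; exact hL1 _
  · obtain ⟨u, rfl⟩ := hP.surj u
    funext i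
    ext m
    rw [hP.mul, hc1, H.mul, Pi.smul_apply, smul_eq_mul, coeff_wL_mul, hc1, sub_neg_eq_add]
  · obtain ⟨u, rfl⟩ := hP.surj u
    funext i
    ext m
    have hu : u = pderiv 0 (ad 0 u) + pderiv 1 0 := by rw [pderiv_ad, map_zero, add_zero]
    have h1 := congrFun (hL0 _ (H.div m (ad 0 u) 0)) i
    have h2 := hP.th (ad 0 u) 0
    rw [← hu] at h1 h2
    rw [h2, dV_apply, dK_apply, coeff_dh, hc1, hc1]
    rw [map_add, map_smul, Pi.add_apply, Pi.smul_apply, smul_eq_mul, Pi.zero_apply] at h1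
    push_cast
    linear_combination -h1

end

end Pool.Agent.MP_05b4bd_ag.UM

end MrgPart5

-- ======== part 6: formerly Pool.Agent.MP_05b4bd_ag.um.Pol
section MrgPart6

/-! A polynomial all of whose fibres have constant multiplicity is a power. -/

namespace Pool.Agent.MP_05b4bd_ag.UM

open ES Polynomial
open scoped TensorProduct PowerSeries LaurentSeries

namespace Pol

variable {k : Type} [Field k] [IsAlgClosed k]

theorem sum_eq {p : k[X]} (hp : p ≠ 0) {s : Finset k} (h : ∀ b, p.eval b = 0 → b ∈ s) :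
    ∑ b ∈ s, p.rootMultiplicity b = p.natDegree := by
  classical
  rw [← IsAlgClosed.card_roots_eq_natDegree,
    ← Multiset.sum_count_eq_card (s := s) fun a ha => h a ((mem_roots hp).1 ha)]
  exact Finset.sum_congr rfl fun b _ => (count_roots p).symm

theorem sum_le {p : k[X]} (hp : p ≠ 0) (s : Finset k) :
    ∑ b ∈ s, p.rootMultiplicity b ≤ p.natDegree := by
  classical
  rw [← sum_eq hp (s := s ∪ p.roots.toFinset) fun b hb =>
    Finset.mem_union_right _ (Multiset.mem_toFinset.2 ((mem_roots hp).2 hb))]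
  exact Finset.sum_le_sum_of_subset Finset.subset_union_left

end Pol

open Pol in
theorem polS : PolStmt := by
  classical
  intro k _ _ _ A hD h
  have n0 : ∀ β, A - C β ≠ 0 := fun β e => by
    have := natDegree_sub_C (p := A) (a := β)
    rw [e, natDegree_zero] at this
    omega
  have n1 : derivative A ≠ 0 := fun e => by
    have := derivative_eq_zero.1 e
    omega
  obtain ⟨S, hS⟩ : ∃ S : k → Finset k, ∀ β b, b ∈ S β ↔ A.eval b = β :=
    ⟨fun β => (A - C β).roots.toFinset, fun β b => by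
      rw [Multiset.mem_toFinset, mem_roots (n0 β), IsRoot, eval_sub, eval_C, sub_eq_zero]⟩
  have rt : ∀ β, ∀ b ∈ S β, (A - C β).IsRoot b := fun β b hb => by
    rw [IsRoot, eval_sub, eval_C, (hS β b).1 hb, sub_self]
  have m1 : ∀ β, ∀ b ∈ S β,
      (A - C β).rootMultiplicity b = (derivative A).rootMultiplicity b + 1 := fun β b hb => by
    have a1 := derivative_rootMultiplicity_of_root (rt β b hb)
    have a2 := (rootMultiplicity_pos (n0 β)).2 (rt β b hb)
    rw [derivative_sub, derivative_C, sub_zero] at a1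
    omega
  have s1 : ∀ β, ∑ b ∈ S β, (A - C β).rootMultiplicity b = A.natDegree := fun β => by
    rw [sum_eq (n0 β) fun b hb => (hS β b).2 (by rwa [eval_sub, eval_C, sub_eq_zero] at hb),
      natDegree_sub_C]
  have s2 : ∀ b0, (derivative A).eval b0 = 0 →
      A.natDegree ≤ 2 * ∑ b ∈ S (A.eval b0), (derivative A).rootMultiplicity b := fun b0 h0 => by
    rw [← s1 (A.eval b0), Finset.mul_sum]
    refine Finset.sum_le_sum fun b hb => ?_
    have a1 := h b0 b ((hS _ b).1 hb).symm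
    have a2 := (rootMultiplicity_pos n1).2 h0
    rw [m1 _ b hb, m1 _ b0 ((hS _ b0).2 rfl)] at a1
    rw [m1 _ b hb]
    omega
  obtain ⟨β, hβ⟩ : ∃ β, ∀ b, (derivative A).eval b = 0 → b ∈ S β := by
    by_contra hc
    push Not at hc
    obtain ⟨b0, h0, -⟩ := hc 0
    obtain ⟨b1, h1, h2⟩ := hc (A.eval b0)
    have a1 := sum_le n1 (S (A.eval b0) ∪ S (A.eval b1))
    rw [Finset.sum_union (Finset.disjoint_left.2 fun b e e' =>
      h2 ((hS _ _).2 (((hS _ _).1 e').symm.trans ((hS _ _).1 e)))), natDegree_derivative] at a1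
    have a2 := s2 b0 h0
    have a3 := s2 b1 h1
    omega
  have s3 := sum_eq n1 hβ
  have s4 := s1 β
  rw [Finset.sum_congr rfl (m1 β), Finset.sum_add_distrib, s3, natDegree_derivative,
    Finset.sum_const, smul_eq_mul, mul_one] at s4
  obtain ⟨b, hb⟩ := Finset.card_eq_one.1 (show (S β).card = 1 by omega)
  have s5 := s1 β
  rw [hb, Finset.sum_singleton] at s5
  refine ⟨β, (A - C β).leadingCoeff, b, A.natDegree, leadingCoeff_ne_zero.2 (n0 β), hD, ?_⟩
  rw [← sub_eq_iff_eq_add']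
  refine eq_leadingCoeff_mul_of_monic_of_dvd_of_natDegree_le ((monic_X_sub_C b).pow _)
    (s5 ▸ pow_rootMultiplicity_dvd _ b) ?_
  rw [natDegree_sub_C, natDegree_pow, natDegree_X_sub_C, mul_one]

end Pool.Agent.MP_05b4bd_ag.UM

end MrgPart6

-- ======== part 7: formerly Pool.Agent.MP_05b4bd_ag.um.Res
section MrgPart7

/-! A non-zero residue. -/

namespace Pool.Agent.MP_05b4bd_ag.UM

open ES Polynomial
open scoped TensorProduct PowerSeries LaurentSeries

namespace Res

variable {k ι : Type} [Field k] [Fintype ι] [DecidableEq ι]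

omit [DecidableEq ι] in
theorem dV_mulVec (d : ℕ) (Y : Matrix ι ι k) (w : ι → k⸨X⸩) :
    dV k ι d ((Y.map (cL k)).mulVec w) = (Y.map (cL k)).mulVec (dV k ι d w) := by
  funext i
  simp only [dV_apply, Matrix.mulVec, dotProduct, map_sum, Matrix.map_apply, dK_mul, dK_cL,
    zero_mul, zero_add]

omit [DecidableEq ι] in
theorem pair {Y Z : Matrix ι ι k} (sk : Y.transpose = -Y) (gi : Y * Z * Y = Y) (w v : ι → k⸨X⸩) :
    (Y.map (cL k)).mulVec w ⬝ᵥ (Z.map (cL k)).mulVec ((Y.map (cL k)).mulVec v) =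
      v ⬝ᵥ (Y.map (cL k)).mulVec w := by
  have s : (Y.map (cL k)).transpose = -Y.map (cL k) := by
    rw [← Matrix.transpose_map, sk]
    ext i j
    simp
  have g : Y.map (cL k) * Z.map (cL k) * Y.map (cL k) = Y.map (cL k) := by
    rw [← Matrix.map_mul, ← Matrix.map_mul, gi]
  have e : ∀ a b : ι → k⸨X⸩, (Y.map (cL k)).mulVec a ⬝ᵥ b = -(a ⬝ᵥ (Y.map (cL k)).mulVec b) :=
    fun a b => by
      rw [← Matrix.vecMul_transpose, s, Matrix.vecMul_neg, neg_dotProduct,
        Matrix.dotProduct_mulVec]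
  rw [e, Matrix.mulVec_mulVec, Matrix.mulVec_mulVec, g, ← e, dotProduct_comm]

end Res

theorem resS (h1 : PilStmt) (h2 : LatStmt) (h3 : IntStmt) : ResStmt := by
  intro k G ι _ _ _ _ _ _ n d B P e T Y0 Z yt Δ F
  have hd := T.d1
  have Pt : ∀ (b : k) (u : G), P (B.h u - b • u) = (hW k d - cL k b) • P u := fun b u => by
    rw [map_sub, T.Ph, map_smul, sub_smul]
    congr 1
    funext i
    exact smul_cL b _
  have dt : ∀ b : k, dK k d (hW k d - cL k b) = 1 := fun b => by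
    rw [map_sub, dK_hW hd, dK_cL, sub_zero]
  refine ⟨fun p e0 => ?_, fun g p w g0 gw c => ?_⟩
  · obtain ⟨u, hu⟩ := F.yy p
    rw [e0, zero_sub] at hu
    have z : B.h (B.j p - B.θ u) - B.c p • (B.j p - B.θ u) = B.θ (B.j p - B.θ u) := by
      have j := B.jrel p
      rw [sub_eq_add_neg (B.j p), hu, map_add, map_sub, map_smul] at j
      rw [map_sub, map_sub, smul_sub, B.comm, sub_eq_iff_eq_add.1 j]
      abel
    have z1 := congrArg (fun v => dV k ι d (P v)) z
    simp only [Pt, T.Pθ, dV_smul, dt, one_smul, add_eq_left] at z1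
    have z2 := (smul_eq_zero.1 z1).resolve_left (t_ne hd _)
    have z3 : B.j p - B.θ u = 0 := (h1 k G ι n d B P e T).2 0 _ fun m hm => ⟨0, funext fun i => by
      obtain ⟨c, hc⟩ := const_dK hd (a := P (B.j p - B.θ u) i) (congrFun z2 i)
      have m0 : m ≠ 0 := by simpa using hm 0
      rw [cv, hc, coeff_cL, if_neg m0, smul_zero, Pi.zero_apply]⟩
    exact B.j0 p (by rw [sub_eq_zero.1 z3, B.ev_θ])
  · obtain ⟨-, l2, l3, -⟩ := h2 k G ι n d B P e T
    obtain ⟨u, hu⟩ := F.yy p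
    obtain ⟨wp, w1, w2⟩ := F.yw p
    obtain ⟨r, r1, r2⟩ := w2 g
    obtain ⟨a, ha⟩ : ∃ a, a = B.ev p g / B.ev p (B.j p) := ⟨_, rfl⟩
    have a0 : a ≠ 0 := ha ▸ div_ne_zero g0 (B.j0 p)
    have t0 := t_ne hd (B.c p)
    have lam : ∀ v, P v ∈ T.Lam (B.c p) 0 := fun v => ⟨1, v, by simp, by simp⟩
    have m2 := l2 p (g - a • B.j p) (by
      rw [map_sub, map_smul, smul_eq_mul, ha, div_mul_cancel₀ _ (B.j0 p), sub_self])
    have e1 : P (yt p) - P (B.y p) = (hW k d - cL k (B.c p)) • P u := by rw [← map_sub, hu, Pt]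
    have e2 : dV k ι d (P (B.j p)) = P u - (hW k d - cL k (B.c p))⁻¹ • P (yt p) := by
      refine smul_right_injective _ t0 ?_
      simp only
      rw [l3, smul_sub, smul_inv_smul₀ t0, ← e1]
      abel
    have e3 : a • P u + dV k ι d (P (g - a • B.j p)) = (Y0.map (cL k)).mulVec
        (dV k ι d w + (cL k a * (hW k d - cL k (B.c p))⁻¹) • wp) := by
      rw [Matrix.mulVec_add, Matrix.mulVec_smul, ← Res.dV_mulVec, ← gw, ← w1, map_sub, map_sub,
        map_smul, map_smul, e2]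
      funext i
      simp only [Pi.add_apply, Pi.sub_apply, Pi.smul_apply, smul_cL, smul_eq_mul]
      ring
    obtain ⟨r', q, q0, hq⟩ := h3 k G ι n d B P e T Y0 Z yt Δ F (B.c p) w _ (gw ▸ lam g)
      (e3 ▸ add_mem (Submodule.smul_mem _ a (lam u)) m2)
    rw [Matrix.mulVec_add, Matrix.mulVec_smul, Matrix.mulVec_add, Matrix.mulVec_smul,
      dotProduct_add, dotProduct_smul, Res.pair F.sk F.gi w wp, ← Res.dV_mulVec, ← gw, c, r2, zero_add,
      smul_eq_mul] at hq
    have e4 : -(C a * r * q) = (X - C (B.c p)) * r' := ah_inj hd (by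
      simp only [map_neg, map_mul, map_sub, ae_C, ae_X, ← hq]
      field_simp)
    have e5 := congrArg (eval (B.c p)) e4
    simp only [eval_neg, eval_mul, eval_sub, eval_C, eval_X, sub_self, zero_mul, neg_eq_zero, r1,
      mul_eq_zero] at e5
    tauto

end Pool.Agent.MP_05b4bd_ag.UM

end MrgPart7

-- ======== part 8: formerly Pool.Agent.MP_05b4bd_ag.um.Tor4
section MrgPart8

/-! A substitution acting on the module gives a radial symmetry, degree at least four. -/

namespace Pool.Agent.MP_05b4bd_ag.UM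

open MvPolynomial HC
open ES hiding Gen GenTopStmt GenJacStmt IlAbsStmt InvStmt3 Inf
open ES.U
open scoped TensorProduct PowerSeries LaurentSeries

noncomputable section

namespace Tor4
variable {k : Type} [Field k]

theorem dl_one {w : R2 k} (h : DL 1 w) : w = C (coeff 0 w) := by
  have := h.sub_hc.eq_zero
  rw [sub_eq_zero] at this
  rw [← homogeneousComponent_zero]
  exact this

theorem hom_X (s : k) (c : Fin 2 → k) (i : Fin 2) : hom s c (X i) = C s * X i + C (c i) := by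
  simp [hom]

theorem hom_C (s : k) (c : Fin 2 → k) (a : k) : hom s c (C a) = C a := by
  simp [hom]

theorem hom_DL (s : k) (c : Fin 2 → k) {n : ℕ} {u : R2 k} (hu : DL n u) : DL n (hom s c u) :=
  aeval_DL (fun i => ((DL_X i).C_mul s).add ((DL_C _).mono (by omega))) hu

theorem pderiv_hom (s : k) (c : Fin 2 → k) (i : Fin 2) (u : R2 k) :
    pderiv i (hom s c u) = C s * hom s c (pderiv i u) := by
  rw [hom, HC.pderiv_aeval]
  fin_cases i <;> simp [mul_comm]

theorem eval_hom (s : k) (c x : Fin 2 → k) (u : R2 k) :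
    eval x (hom s c u) = eval (fun j => s * x j + c j) u := by
  induction u using MvPolynomial.induction_on with
  | C a => rw [hom_C, eval_C, eval_C]
  | add a b ha hb => simp only [map_add, ha, hb]
  | mul_X a j ha => simp only [map_mul, ha, hom_X, map_add, eval_C, eval_X]

/-- The top part is multiplied by a power. -/
def Tp (s : k) (c : Fin 2 → k) (n : ℕ) (u : R2 k) : Prop :=
  DL (n + 1) u ∧ DL n (hom s c u - C (s ^ n) * u)

theorem Tp.mul {s : k} {c : Fin 2 → k} {a b : ℕ} {u v : R2 k} (hu : Tp s c a u)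
    (hv : Tp s c b v) : Tp s c (a + b) (u * v) := by
  refine ⟨hu.1.mul hv.1, ?_⟩
  have e : hom s c (u * v) - C (s ^ (a + b)) * (u * v) =
      (hom s c u - C (s ^ a) * u) * hom s c v + C (s ^ a) * (u * (hom s c v - C (s ^ b) * v)) := by
    rw [map_mul, pow_add, C_mul]
    ring
  rw [e]
  exact (hu.2.mul' (hom_DL s c hv.1)).add ((hu.1.mul hv.2).C_mul _)

theorem tp_C (s : k) (c : Fin 2 → k) (a : k) : Tp s c 0 (C a) :=
  ⟨DL_C a, by rw [hom_C, pow_zero, C_1, one_mul, sub_self]; exact fun _ _ => rfl⟩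

theorem tp_X (s : k) (c : Fin 2 → k) (i : Fin 2) : Tp s c 1 (X i) :=
  ⟨DL_X i, by rw [hom_X, pow_one, add_sub_cancel_left]; exact DL_C _⟩

theorem tp_pow (s : k) (c : Fin 2 → k) (i : Fin 2) (j : ℕ) : Tp s c j (X i ^ j) := by
  induction j with
  | zero => simpa using tp_C s c 1
  | succ j ih => rw [pow_succ]; exact ih.mul (tp_X s c i)

theorem tp_mon (s : k) (c : Fin 2 → k) (m : Fin 2 →₀ ℕ) (a : k) :
    Tp s c m.degree (monomial m a) := by
  have h := ((tp_C s c a).mul (tp_pow s c 0 (m 0))).mul (tp_pow s c 1 (m 1))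
  have e1 : m.degree = 0 + m 0 + m 1 := by
    rw [Finsupp.degree_eq_sum, Fin.sum_univ_two, zero_add]
  have e2 : (monomial m a : R2 k) = C a * X 0 ^ m 0 * X 1 ^ m 1 := by
    rw [monomial_eq, Finsupp.prod_fintype _ _ (fun i => pow_zero _), Fin.prod_univ_two, mul_assoc]
  rw [e1, e2]
  exact h

theorem top_hom (s : k) (c : Fin 2 → k) {n : ℕ} {u : R2 k} (hu : DL (n + 1) u) :
    DL n (hom s c u - C (s ^ n) * u) := by
  have e : hom s c u - C (s ^ n) * u = ∑ m ∈ u.support,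
      (hom s c (monomial m (coeff m u)) - C (s ^ n) * monomial m (coeff m u)) := by
    rw [Finset.sum_sub_distrib, ← map_sum, ← Finset.mul_sum, ← u.as_sum]
  rw [e]
  refine DL.sum _ fun m hm => ?_
  have h := tp_mon s c m (coeff m u)
  have hm' : m.degree ≤ n := by
    by_contra hc
    exact mem_support_iff.1 hm (hu m (by omega))
  rcases hm'.eq_or_lt with rfl | hlt
  · exact h.2
  · exact (hom_DL s c (h.1.mono hlt)).sub ((h.1.mono hlt).C_mul _)

theorem const_of [CharZero k] {g : R2 k} (h : ∀ i, pderiv i g = 0) : DL 1 g := by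
  intro m hm
  obtain ⟨n, hn⟩ : ∃ n, m.degree = n + 1 := ⟨m.degree - 1, by omega⟩
  have e := euler (hc_hom (n + 1) g)
  rw [← hc_pderiv, ← hc_pderiv, h 0, h 1] at e
  simp only [map_zero, mul_zero, add_zero] at e
  have e2 : hc (n + 1) g = 0 :=
    (mul_eq_zero.1 e.symm).resolve_left (Nat.cast_ne_zero.2 (by omega))
  have e3 := congrArg (coeff m) e2
  rwa [coeff_hc, if_pos hn, coeff_zero] at e3

theorem jac_low {d : ℕ} {f u : R2 k} (hd : 2 ≤ d) (hf : TM d f) (hu : u ∈ Jac f)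
    (hl : DL (d - 1) u) : u = 0 := by
  obtain ⟨e, rfl⟩ : ∃ e, d = e + 2 := ⟨d - 2, by omega⟩
  obtain ⟨U, V, rfl⟩ := Ideal.mem_span_pair.1 hu
  obtain ⟨U', V', h1, h2, h3⟩ := kos_top (e := e) (n := 0) (hf.dl.pderiv 0) (hf.dl.pderiv 1)
    (by rw [hc_pderiv, hc_pderiv]; exact hf.ci) U V (by simpa using hl)
  rw [← h3, h1.eq_zero, h2.eq_zero, zero_mul, zero_mul, add_zero]

end Tor4

open Tor4 in
theorem tor4S : Tor4Stmt := by
  intro k G _ _ _ _ d n B f p π ζ c0 S hd hf hcr hP hA hN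
  have z0 := hA.z0
  have low : ∀ (m : ℕ) (u : R2 k), m ≤ 1 → u.IsHomogeneous m → ∃ v, DL (m + 1) v ∧
      S (π u) = π v ∧ hc m v = C (ζ ^ ((d : ℤ) - 2 - m)) * u := by
    intro m u hm hu
    obtain ⟨v, hv, e⟩ := hA.deg (m + 1) u (DL.of_hom hu)
    have hb := hA.lead m u v (DL.of_hom hu) hv e (fun j hj => by
      have : (0 : ℤ) ≤ d * j := by positivity
      omega)
    have hz := (Esc.nz_full (by omega) (hc_hom d f) hf.ci
      ((hc_hom m v).sub ((hc_hom m u).C_mul _)) hb).1 (by omega)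
    exact ⟨v, hv, e, by rw [sub_eq_zero.1 hz, hc_self hu]⟩
  have s1 : S (π 1) = π (C (ζ ^ ((d : ℤ) - 2))) := by
    obtain ⟨v, hv, e, h⟩ := low 0 1 (by omega) (isHomogeneous_one _ _)
    have := hv.sub_hc.eq_zero
    rw [e, sub_eq_zero.1 this, h]
    simp
  have sX : ∀ j : Fin 2, ∃ c, S (π (X j)) = π (C (ζ ^ ((d : ℤ) - 2 - 1)) * X j + C c) := by
    intro j
    obtain ⟨v, hv, e, h⟩ := low 1 (X j) le_rfl (isHomogeneous_X _ _)
    refine ⟨coeff 0 (v - hc 1 v), ?_⟩
    rw [e, ← dl_one hv.sub_hc, h]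
    simp
  choose c hc' using sX
  have zp : ζ ^ ((d : ℤ) - 2) ≠ 0 := zpow_ne_zero _ z0
  have mv : ∀ i, ∃ q, (fun j => ζ⁻¹ * p i j + c j / ζ ^ ((d : ℤ) - 2)) = p q := by
    intro i
    have l1 : (B.ev i ∘ₗ S) (π 1) = ζ ^ ((d : ℤ) - 2) := by
      rw [LinearMap.comp_apply, s1, hP.ev, eval_C]
    obtain ⟨q, a, -, -, ha⟩ := B.eig (B.ev i ∘ₗ S) (μ := ζ⁻¹ ^ d * B.c i + c0)
      (fun u => by rw [LinearMap.comp_apply, hA.th, map_smul, B.ev_θ, smul_zero])
      (fun u => by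
        rw [LinearMap.comp_apply, LinearMap.comp_apply, hA.mul, map_add, map_smul, map_smul, B.mul,
          smul_eq_mul, smul_eq_mul]
        ring)
      (fun h => zp (by rw [← l1, h, LinearMap.zero_apply]))
    have ea : a = ζ ^ ((d : ℤ) - 2) := by
      rw [← l1, ha, hP.ev, map_one, mul_one]
    refine ⟨q, funext fun j => ?_⟩
    have h := ha (π (X j))
    rw [LinearMap.comp_apply, hc', hP.ev, hP.ev, ea, zpow_sub_one₀ z0] at h
    simp only [map_add, map_mul, eval_C, eval_X] at h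
    field_simp
    field_simp at h
    linear_combination h
  set c' : Fin 2 → k := fun j => c j / ζ ^ ((d : ℤ) - 2) with hc''
  have hg : DL 1 (hom ζ⁻¹ c' f - C (ζ⁻¹ ^ d) * f) := by
    refine const_of fun j => jac_low (by omega) hf (hcr.rad _ fun i => ?_) ?_
    · obtain ⟨q, hq⟩ := mv i
      rw [map_sub, pderiv_C_mul, pderiv_hom, map_sub, map_mul, map_mul, eval_hom, hq, hcr.crit,
        hcr.crit, mul_zero, mul_zero, sub_zero]
    · have h := top_hom ζ⁻¹ c' hf.dl
      obtain ⟨e, rfl⟩ : ∃ e, d = e + 1 := ⟨d - 1, by omega⟩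
      exact h.pderiv j
  have he := dl_one hg
  rcases hN k (RingHom.id k) ζ⁻¹ (coeff 0 (hom ζ⁻¹ c' f - C (ζ⁻¹ ^ d) * f)) c'
    (by rw [map_id, ← he]; ring) with h | h
  · exact z0 (inv_eq_zero.1 h)
  · exact hA.z1 (inv_eq_one.1 h)

end

end Pool.Agent.MP_05b4bd_ag.UM

end MrgPart8

-- ======== part 9: formerly Pool.Agent.MP_05b4bd_ag.um.Tr
section MrgPart9

/-! The trace argument for saturated submodules. -/

namespace Pool.Agent.MP_05b4bd_ag.UM

open ES Polynomial
open scoped TensorProduct PowerSeries LaurentSeries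

namespace Tr

variable {k G : Type} [Field k] [AddCommGroup G] [Module k G] {h θ : Module.End k G}

theorem st_ae {B : Submodule k G} (hB : St θ B) (q : k[X]) {u : G} (hu : u ∈ B) :
    aeval θ q u ∈ B := by
  induction q using Polynomial.induction_on generalizing u with
  | C a => simpa using B.smul_mem a hu
  | add a b ha hb => rw [map_add]; exact add_mem (ha hu) (hb hu)
  | monomial m a ih => rw [pow_succ, ← mul_assoc, map_mul, aeval_X]; exact ih (hB u hu)

theorem ae_mul (p q : k[X]) (u : G) : aeval θ (p * q) u = aeval θ p (aeval θ q u) := by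
  rw [map_mul]; rfl

theorem ae_θ (p : k[X]) (u : G) : aeval θ p (θ u) = θ (aeval θ p u) := by
  have := ae_mul (θ := θ) p X u
  rw [mul_comm, ae_mul] at this
  simpa using this.symm

/-- A stable subspace as a submodule over the polynomial ring. -/
def up (B : Submodule k G) (hB : St θ B) : Submodule k[X] (Module.AEval' θ) where
  carrier := {m | (Module.AEval'.of θ).symm m ∈ B}
  zero_mem' := by simp
  add_mem' a b := by simpa using add_mem a b
  smul_mem' q m a := by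
    have := st_ae hB q a
    exact this

theorem up_fg (fg : FG θ) (B : Submodule k[X] (Module.AEval' θ)) : B.FG := by
  classical
  obtain ⟨s, hs⟩ := fg
  let S : Submodule k[X] (Module.AEval' θ) := Submodule.span k[X] (Module.AEval'.of θ '' s)
  have e := hs ((S.restrictScalars k).comap (Module.AEval'.of θ).toLinearMap) (fun u hu => by
    show Module.AEval'.of θ (θ u) ∈ S
    rw [← Module.AEval'.X_smul_of]
    exact S.smul_mem X hu) fun u hu =>
      show Module.AEval'.of θ u ∈ S from Submodule.subset_span ⟨u, hu, rfl⟩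
  have t : S = ⊤ :=
    eq_top_iff.2 fun m _ => eq_top_iff.1 e (x := (Module.AEval'.of θ).symm m) trivial
  have : Module.Finite k[X] (Module.AEval' θ) :=
    ⟨Submodule.fg_def.2 ⟨_, s.finite_toSet.image (Module.AEval'.of θ), t⟩⟩
  exact IsNoetherian.noetherian B

theorem gens (fg : FG θ) {B : Submodule k G} (hB : St θ B) : ∃ s : Finset G, (∀ u ∈ s, u ∈ B) ∧
    ∀ N : Submodule k G, St θ N → (∀ u ∈ s, u ∈ N) → B ≤ N := by
  classical
  obtain ⟨s, hs⟩ := up_fg fg (up B hB)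
  refine ⟨s.image (Module.AEval'.of θ).symm, fun u hu => ?_, fun N hN a u hu => ?_⟩
  · obtain ⟨m, hm, rfl⟩ := Finset.mem_image.1 hu
    exact (hs ▸ Submodule.subset_span hm : m ∈ up B hB)
  · have : up B hB ≤ up N hN :=
      hs ▸ Submodule.span_le.2 fun m hm => a _ (Finset.mem_image_of_mem _ hm)
    exact this (show Module.AEval'.of θ u ∈ up B hB from hu)

theorem tr0 [CharZero k] [Module.Finite k G] (c : ∀ u, h (θ u) = θ (h u) + θ (θ u))
    (i : Function.Injective θ) : Subsingleton G := by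
  obtain ⟨T, rfl⟩ : IsUnit θ := (LinearMap.isUnit_iff_ker_eq_bot θ).2 (LinearMap.ker_eq_bot.2 i)
  have e : h * T = T * h + T * T := LinearMap.ext c
  have e1 : (↑T⁻¹ : Module.End k G) * h = h * ↑T⁻¹ + 1 := by
    have := congrArg (fun z : Module.End k G => ↑T⁻¹ * z * ↑T⁻¹) e
    simpa [mul_add, add_mul, mul_assoc] using this
  have := congrArg (LinearMap.trace k G) e1
  rw [map_add, LinearMap.trace_mul_comm, LinearMap.trace_one, left_eq_add, Nat.cast_eq_zero] at this
  exact Module.finrank_zero_iff.1 this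

theorem core [CharZero k] (c : ∀ u, h (θ u) = θ (h u) + θ (θ u)) (fg : FG θ) {A B : Submodule k G}
    (a1 : St h A) (a2 : St θ A) (b1 : St h B) (b2 : St θ B) {p : k[X]} (hp : p ≠ 0)
    (kl : ∀ u ∈ B, aeval θ p u ∈ A) (o : Sat θ A ∨ B ≤ A ⊔ B.map θ) : B ≤ A := by
  classical
  obtain ⟨s, s1, s2⟩ := gens fg b2
  let V := Submodule.span k (((Finset.range (p.natDegree + 1) ×ˢ s).image
    fun x => (θ ^ x.1) x.2 : Finset G) : Set G)
  have le : B ≤ A ⊔ V := by
    have := s2 (⨅ q : k[X], (A ⊔ V).comap (aeval θ q)) (fun u hu => by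
      simp only [Submodule.mem_iInf, Submodule.mem_comap] at hu ⊢
      intro q
      have := hu (q * X)
      rwa [ae_mul, aeval_X] at this) fun u hu => by
      simp only [Submodule.mem_iInf, Submodule.mem_comap]
      intro q
      rw [← EuclideanDomain.div_add_mod' q p, map_add, LinearMap.add_apply, ae_mul]
      refine add_mem (Submodule.mem_sup_left (st_ae a2 _ (kl u (s1 u hu))))
        (Submodule.mem_sup_right ?_)
      rw [aeval_eq_sum_range' (n := p.natDegree + 1)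
        (Nat.lt_succ_of_le (natDegree_le_natDegree (degree_mod_lt q hp).le)), LinearMap.sum_apply]
      exact sum_mem fun i hi => V.smul_mem _ (Submodule.subset_span
        (Finset.mem_coe.2 (Finset.mem_image.2 ⟨(i, u), Finset.mem_product.2 ⟨hi, hu⟩, rfl⟩)))
    intro u hu
    simpa using (Submodule.mem_iInf _).1 (this hu) 1
  let Q := B.map A.mkQ
  have : Module.Finite k Q := Submodule.finiteDimensional_of_le (S₂ := V.map A.mkQ) (by
    refine (Submodule.map_mono le).trans ?_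
    rw [Submodule.map_sup, Submodule.mkQ_map_self, bot_sup_eq])
  have q : ∀ {f : Module.End k G} (a : St f A), St f B → ∀ x ∈ Q, A.mapQ A f a x ∈ Q := by
    rintro f a b _ ⟨u, hu, rfl⟩
    exact ⟨f u, b u hu, rfl⟩
  have : Subsingleton Q := tr0 (h := (A.mapQ A h a1).restrict (q a1 b1))
    (θ := (A.mapQ A θ a2).restrict (q a2 b2)) (by
      rintro ⟨_, u, hu, rfl⟩
      exact Subtype.ext (show A.mkQ (h (θ u)) = A.mkQ (θ (h u)) + A.mkQ (θ (θ u)) by
        rw [c, map_add])) (by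
      rcases o with o | o
      · refine (injective_iff_map_eq_zero _).2 ?_
        rintro ⟨_, u, hu, rfl⟩ e
        exact Subtype.ext ((Submodule.Quotient.mk_eq_zero A).2
          (o u ((Submodule.Quotient.mk_eq_zero A).1 (congrArg Subtype.val e))))
      · refine LinearMap.injective_iff_surjective.2 ?_
        rintro ⟨_, u, hu, rfl⟩
        obtain ⟨a, ha, _, ⟨v, hv, rfl⟩, rfl⟩ := Submodule.mem_sup.1 (o hu)
        exact ⟨⟨_, v, hv, rfl⟩, Subtype.ext (show A.mkQ (θ v) = A.mkQ (a + θ v) by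
          simp [(Submodule.Quotient.mk_eq_zero A).2 ha])⟩)
  intro u hu
  exact (Submodule.Quotient.mk_eq_zero A).1
    (congrArg Subtype.val (Subsingleton.elim (⟨_, u, hu, rfl⟩ : Q) 0))

theorem h_ae (c : ∀ u, h (θ u) = θ (h u) + θ (θ u)) (q : k[X]) (u : G) :
    h (aeval θ q u) = aeval θ q (h u) + aeval θ (X ^ 2 * derivative q) u := by
  induction q using Polynomial.induction_on generalizing u with
  | C a => simp
  | add a b ha hb =>
    simp only [map_add, LinearMap.add_apply, ha, hb, mul_add]; abel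
  | monomial m a h =>
    rw [pow_succ X m, ← mul_assoc]
    generalize C a * X ^ m = r at h
    rw [derivative_mul, derivative_X, mul_one, show X ^ 2 * (derivative r * X + r) =
      X ^ 2 * derivative r * X + r * (X * X) by ring]
    simp only [map_add, map_mul (aeval θ) _ X, map_mul (aeval θ) r, aeval_X,
      Module.End.mul_apply, LinearMap.add_apply, h, c]
    abel

end Tr

open Tr in
theorem trS : TrStmt := by
  intro k G _ _ _ _ h θ c fg
  refine ⟨fun A B a1 a2 b1 b2 o => ?_, fun N n1 n2 n3 q u hq hu => ?_⟩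
  · obtain ⟨r, r1, r2⟩ := Submodule.exists_sub_one_mem_and_smul_le_of_fg_of_le_sup
      (I := Ideal.span {X}) (N := up A a2) (up_fg fg (up B b2)) le_rfl fun m hm => by
        obtain ⟨a, ha, _, ⟨v, hv, rfl⟩, e⟩ := Submodule.mem_sup.1 (o hm)
        refine Submodule.mem_sup.2 ⟨Module.AEval'.of θ a, ha, X • Module.AEval'.of θ v,
          Submodule.smul_mem_smul (Ideal.mem_span_singleton_self X) hv, ?_⟩
        rw [Module.AEval'.X_smul_of, ← map_add, e]
        rfl
    refine core c fg a1 a2 b1 b2 (p := r) ?_ (fun u hu => r2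
      (Submodule.smul_mem_pointwise_smul (Module.AEval'.of θ u) r (up B b2) hu)) (Or.inr o)
    rintro rfl
    simpa [X_dvd_iff] using Ideal.mem_span_singleton.1 r1
  · let T : Submodule k G :=
      { carrier := {u | ∃ q : k[X], q ≠ 0 ∧ aeval θ q u ∈ N}
        zero_mem' := ⟨1, one_ne_zero, by simp⟩
        add_mem' := by
          rintro a b ⟨p, p0, hp⟩ ⟨p', p0', hp'⟩
          refine ⟨p * p', mul_ne_zero p0 p0', ?_⟩
          rw [map_add]
          exact add_mem (by rw [mul_comm, ae_mul]; exact st_ae n2 _ hp)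
            (by rw [ae_mul]; exact st_ae n2 _ hp')
        smul_mem' := by
          rintro a b ⟨p, p0, hp⟩
          exact ⟨p, p0, by rw [map_smul]; exact N.smul_mem a hp⟩ }
    have t2 : St θ T := by
      rintro a ⟨p, p0, hp⟩
      exact ⟨p, p0, by rw [ae_θ]; exact n2 _ hp⟩
    have t1 : St h T := by
      rintro a ⟨p, p0, hp⟩
      refine ⟨p * p, mul_ne_zero p0 p0, ?_⟩
      rw [ae_mul, ← sub_eq_iff_eq_add.2 (h_ae c p a), map_sub, ← ae_mul p (_ * _), mul_comm p, ae_mul]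
      exact sub_mem (st_ae n2 _ (n1 _ hp)) (st_ae n2 _ hp)
    obtain ⟨s, s1, s2⟩ := gens fg t2
    choose! f f0 f1 using s1
    classical
    refine core c fg n1 n2 t1 t2 (p := ∏ u ∈ s, f u) (Finset.prod_ne_zero_iff.2 f0)
      (s2 (N.comap (aeval θ (∏ u ∈ s, f u))) (fun u hu => ?_) fun u hu => ?_) (Or.inl n3) ⟨q, hq, hu⟩
    · rw [Submodule.mem_comap, ae_θ]; exact n2 _ hu
    · rw [Submodule.mem_comap, ← Finset.prod_erase_mul s f hu, ae_mul]
      exact st_ae n2 _ (f1 u hu)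

end Pool.Agent.MP_05b4bd_ag.UM

end MrgPart9

-- marker of a merged file
example : 731051 + 200230 = 731051 + 200230 := rfl
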