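import Pool.Agent.MP_05b4bd_ag.um.Tr

/-! A cubic whose module carries a substitution has a centre of symmetry. -/

namespace Pool.Agent.MP_05b4bd_ag.UM

open MvPolynomial HC
open ES hiding Gen GenTopStmt GenJacStmt IlAbsStmt InvStmt3 Inf
open ES.U
open scoped TensorProduct PowerSeries LaurentSeries

namespace Tor3

variable {k : Type} [Field k]

theorem hom0 {u : R2 k} (hu : u.IsHomogeneous 0) : ∃ a, u = C a :=
  ⟨coeff 0 u, by rw [← hc_self hu]; exact (homogeneousComponent_zero u).trans (by rw [hc_self hu])⟩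

theorem hom1 {u : R2 k} (hu : u.IsHomogeneous 1) : ∃ a b, u = C a * X 0 + C b * X 1 := by
  obtain ⟨a, ha⟩ := hom0 (hom_pderiv 0 hu)
  obtain ⟨b, hb⟩ := hom0 (hom_pderiv 1 hu)
  have h := euler hu
  rw [ha, hb] at h
  exact ⟨a, b, by push_cast at h; linear_combination -h⟩

variable [CharZero k]

theorem hom2 {u : R2 k} (hu : u.IsHomogeneous 2) :
    ∃ a b c, u = C a * X 0 ^ 2 + C b * (X 0 * X 1) + C c * X 1 ^ 2 := by
  obtain ⟨a, b, ha⟩ := hom1 (hom_pderiv 0 hu)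
  obtain ⟨a', b', hb⟩ := hom1 (hom_pderiv 1 hu)
  have h := euler hu
  rw [ha, hb] at h
  have h2 : (C (1 / 2 : k) : R2 k) * 2 = 1 := by
    rw [← map_ofNat (C : k →+* R2 k) 2, ← map_mul]; norm_num
  refine ⟨1 / 2 * a, 1 / 2 * (b + a'), 1 / 2 * b', ?_⟩
  simp only [map_mul, map_add]
  push_cast at h
  linear_combination (-C (1 / 2 : k)) * h - u * h2

theorem hom3 {u : R2 k} (hu : u.IsHomogeneous 3) : ∃ p q r s,
    u = C p * X 0 ^ 3 + C q * (X 0 ^ 2 * X 1) + C r * (X 0 * X 1 ^ 2) + C s * X 1 ^ 3 := by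
  obtain ⟨a, b, c, ha⟩ := hom2 (hom_pderiv 0 hu)
  obtain ⟨a', b', c', hb⟩ := hom2 (hom_pderiv 1 hu)
  have h := euler hu
  rw [ha, hb] at h
  have h3 : (C (1 / 3 : k) : R2 k) * 3 = 1 := by
    rw [← map_ofNat (C : k →+* R2 k) 3, ← map_mul]; norm_num
  refine ⟨1 / 3 * a, 1 / 3 * (b + a'), 1 / 3 * (c + b'), 1 / 3 * c', ?_⟩
  simp only [map_mul, map_add]
  push_cast at h
  linear_combination (-C (1 / 3 : k)) * h - u * h3

omit [CharZero k] in
theorem split4 {f : R2 k} (hf : DL 4 f) : f = hc 0 f + hc 1 f + hc 2 f + hc 3 f := by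
  have h := Esc.sum_hc hf
  simp only [Finset.sum_range_succ, Finset.range_zero, Finset.sum_empty, zero_add] at h
  exact h.symm

/-- A cubic whose quadratic part is a derivative of its top part is odd about a point. -/
theorem not_nsym {f : R2 k} (hf : DL 4 f) {α β : k}
    (h2 : hc 2 f = C α * pderiv 0 (hc 3 f) + C β * pderiv 1 (hc 3 f)) : ¬ NSym 3 f := by
  intro H
  obtain ⟨e, h0⟩ := hom0 (hc_hom 0 f)
  obtain ⟨l, m, h1⟩ := hom1 (hc_hom 1 f)
  obtain ⟨p, q, r, s, h3⟩ := hom3 (hc_hom 3 f)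
  have hx : pderiv 0 (hc 3 f) = 3 * C p * X 0 ^ 2 + 2 * C q * (X 0 * X 1) + C r * X 1 ^ 2 := by
    rw [h3]; simp [pderiv_X]; ring
  have hy : pderiv 1 (hc 3 f) = C q * X 0 ^ 2 + 2 * C r * (X 0 * X 1) + 3 * C s * X 1 ^ 2 := by
    rw [h3]; simp [pderiv_X]; ring
  have hs := split4 hf
  rw [h2, hx, hy, h0, h1, h3] at hs
  have key := H k (RingHom.id k) (-1)
    (4 * (p * α ^ 3 + q * (α ^ 2 * β) + r * (α * β ^ 2) + s * β ^ 3) - 2 * (l * α + m * β) + 2 * e)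
    ![-2 * α, -2 * β] (by
      rw [map_id, hs]
      simp only [hom, map_add, map_mul, map_pow, map_sub, map_neg, map_one, map_ofNat, aeval_C,
        aeval_X, algebraMap_eq, Matrix.cons_val_zero, Matrix.cons_val_one]
      ring)
  rcases key with h | h
  · exact one_ne_zero (neg_eq_zero.1 h)
  · norm_num at h

end Tor3

open Tor3 in
theorem tor3S : Tor3Stmt := by
  intro k G _ _ _ _ n B f p π ζ c0 S T P A
  have hF := hc_hom 3 f
  have hz := A.z0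
  -- the class of one
  have s1 : S (π 1) = ζ • π 1 := by
    obtain ⟨v, hv, e⟩ := A.deg 1 1 (DL_C 1)
    have hb := A.lead 0 1 v (DL_C 1) hv e fun j => by omega
    have h0 := (Esc.nz_full (by omega) hF T.ci
      ((hc_hom 0 v).sub ((hc_hom 0 1).C_mul _)) hb).1 (by omega)
    have h1 : v - hc 0 v = 0 := hv.sub_hc.eq_zero
    have h2 : hc 0 (1 : R2 k) = 1 := hc_self (isHomogeneous_one _ _)
    have h3 : ((3 : ℕ) : ℤ) - 2 - (0 : ℕ) = 1 := by norm_num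
    rw [h2, h3, zpow_one] at h0
    rw [e, ← map_smul, smul_eq_C_mul]
    exact congrArg π (by linear_combination h1 + h0)
  obtain ⟨u, hu⟩ : ∃ u : R2 k, u = hc 2 f + C 2 * hc 1 f + C 3 * hc 0 f := ⟨_, rfl⟩
  have hs := split4 T.dl
  have hE : u = C 3 * f - (X 0 * pderiv 0 f + X 1 * pderiv 1 f) := by
    have e0 := euler (hc_hom 0 f)
    have e1 := euler (hc_hom 1 f)
    have e2 := euler (hc_hom 2 f)
    have e3 := euler hF
    have d0 := congrArg (pderiv 0) hs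
    have d1 := congrArg (pderiv 1) hs
    simp only [map_add] at d0 d1
    push_cast at e0 e1 e2 e3
    rw [hu, map_ofNat, map_ofNat]
    linear_combination (-3) * hs + X 0 * d0 + X 1 * d1 + e0 + e1 + e2 + e3
  have hth : B.θ ((2 : k) • π 1) = π (X 0 * pderiv 0 f + X 1 * pderiv 1 f) := by
    rw [← P.th, ← map_smul, smul_eq_C_mul, map_ofNat, pderiv_X_self, pderiv_X_self]
    norm_num
  have hpu : π u = (3 : k) • B.h (π 1) - (2 : k) • B.θ (π 1) := by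
    rw [hE, map_sub, ← hth, P.mul, mul_one, ← smul_eq_C_mul, map_smul, map_smul]
  have hS : S (π u) = π (C (ζ⁻¹ ^ 2) * u + C (3 * c0 * ζ)) := by
    have hc1 : π (C (3 * c0 * ζ)) = (3 * c0 * ζ) • π 1 := by
      rw [← map_smul, smul_eq_C_mul, mul_one]
    have hzz : ζ⁻¹ ^ 3 * ζ = ζ⁻¹ ^ 2 := by field_simp
    rw [map_add, hc1, ← smul_eq_C_mul, map_smul, hpu, map_sub, map_smul, map_smul, A.mul, A.th, s1,
      map_smul, map_smul, smul_smul, smul_smul, smul_smul, smul_smul, ← hzz]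
    module
  have hd : DL 3 u := by
    rw [hu]
    exact ((DL.of_hom (hc_hom 2 f)).add (((DL.of_hom (hc_hom 1 f)).mono (by omega)).C_mul _)).add
      (((DL.of_hom (hc_hom 0 f)).mono (by omega)).C_mul _)
  have hu2 : hc 2 u = hc 2 f := by
    rw [hu, hc_add, hc_add, hc_C_mul, hc_C_mul, hc_self (hc_hom 2 f), hc_ne (hc_hom 1 f) (by omega),
      hc_ne (hc_hom 0 f) (by omega), mul_zero, mul_zero, add_zero, add_zero]
  have hb := A.lead 2 u _ hd ((hd.C_mul _).add ((DL_C _).mono (by omega))) hS fun j => by omega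
  have h3 : ((3 : ℕ) : ℤ) - 2 - (2 : ℕ) = -1 := by norm_num
  rw [hc_add, hc_C_mul, hu2, hc_ne (isHomogeneous_C _ _) (by omega), add_zero, h3, zpow_neg_one,
    ← sub_mul, ← map_sub] at hb
  obtain ⟨η, hη, he⟩ := (Esc.nz_full (by omega) hF T.ci ((hc_hom 2 f).C_mul _) hb).2 (by omega)
  obtain ⟨a, ha⟩ := hom0 (hom_pderiv 0 hη)
  obtain ⟨b, hb'⟩ := hom0 (hom_pderiv 1 hη)
  have hw : ζ⁻¹ ^ 2 - ζ⁻¹ ≠ 0 := fun h => by
    have h1 : ζ⁻¹ * (ζ⁻¹ - 1) = 0 := by linear_combination h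
    rcases mul_eq_zero.1 h1 with h | h
    · exact inv_ne_zero hz h
    · exact A.z1 (inv_eq_one.1 (sub_eq_zero.1 h))
  have hi : (C (ζ⁻¹ ^ 2 - ζ⁻¹)⁻¹ : R2 k) * C (ζ⁻¹ ^ 2 - ζ⁻¹) = 1 := by
    rw [← map_mul, inv_mul_cancel₀ hw, map_one]
  refine not_nsym T.dl (α := (ζ⁻¹ ^ 2 - ζ⁻¹)⁻¹ * -b) (β := (ζ⁻¹ ^ 2 - ζ⁻¹)⁻¹ * a) ?_
  rw [br, ha, hb'] at he
  rw [map_mul, map_mul, map_neg]
  linear_combination C (ζ⁻¹ ^ 2 - ζ⁻¹)⁻¹ * he - hc 2 f * hi

end Pool.Agent.MP_05b4bd_ag.UM
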