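import Pool.Agent.MP_05b4bd_ag.um.Cfl
import Pool.Agent.MP_05b4bd_ag.pc3.Pull

/-! A conic syzygy in degree at least six. -/

namespace Pool.Agent.MP_05b4bd_ag.UM

open MvPolynomial HC
open ES hiding Gen GenTopStmt GenJacStmt Ob EscStmt3
open ES.U
open PC3 hiding Arc SeqStmt IcStmt UpStmt LoStmt CenStmt CflStmt
open PC3.U
open scoped PowerSeries LaurentSeries

namespace Nc6

variable {K : Type} [Field K]

theorem two {d : ℕ} (hd : 1 ≤ d) {w : Fm K} {J : Ideal (R2 K)} (h : Lev d w J) :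
    ∃ c1 c2 θ1 θ2, DL 4 c1 ∧ DL 4 c2 ∧
    DF 3 θ1 ∧ DF 3 θ2 ∧ Pr w c1 θ1 ∧ Pr w c2 θ2 ∧ ∀ r1 r2 : K, C r1 * c1 + C r2 * c2 = 0 →
      (C r1 : R2 K) • θ1 + (C r2 : R2 K) • θ2 = 0 → r1 = 0 ∧ r2 = 0 := by
  have f1 : Module.Finite K ((dl K 3).prod (dl K 3)) := Module.Finite.equiv (prodE _ _).symm
  have f2 : Module.Finite K ((dl K 4).prod ((dl K 3).prod (dl K 3))) :=
    Module.Finite.equiv (prodE _ _).symm
  have h1 := ker_rank (Nc5.T w) ((dl K 4).prod ((dl K 3).prod (dl K 3))) (Jd J (4 + (d - 1)))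
    fun p hp =>
    ⟨J.sub_mem (J.sub_mem (J.mul_mem_left _ h.m2) (J.mul_mem_left _ h.m1)) (J.mul_mem_left _ h.mB),
      ((DF.wg (n := 2) ⟨hp.2.1, hp.2.2⟩ h.deg).mono (by omega)).sub
        ((DL.mul (a := 3) hp.1 h.deg.dv).mono (by omega))⟩
  rw [finrank_prod', finrank_prod'] at h1
  have h2 := finrank_dl (K := K) 4
  have h3 := finrank_dl (K := K) 3
  have h4 : Module.finrank K (Jd J (4 + (d - 1))) ≤ 20 := h.up 4
  have f3 : Module.Finite K (((dl K 4).prod ((dl K 3).prod (dl K 3))) ⊓ LinearMap.ker (Nc5.T w) :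
      Submodule K (R2 K × Fm K)) := Submodule.finiteDimensional_of_le inf_le_left
  obtain ⟨p, hp, q, hq, hi⟩ := exists_two
    (((dl K 4).prod ((dl K 3).prod (dl K 3))) ⊓ LinearMap.ker (Nc5.T w))
    (le_of_add_le_add_left (a := 20) ((le_trans (by omega) h1).trans (Nat.add_le_add_right h4 _)))
  refine ⟨p.1, q.1, p.2, q.2, hp.1.1, hq.1.1, ⟨hp.1.2.1, hp.1.2.2⟩, ⟨hq.1.2.1, hq.1.2.2⟩,
    sub_eq_zero.1 hp.2, sub_eq_zero.1 hq.2, fun r1 r2 e1 e2 => hi r1 r2 (Prod.ext ?_ ?_)⟩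
  · simpa [smul_eq_C_mul] using e1
  · exact Prod.ext (by simpa [smul_eq_C_mul] using congrArg Prod.fst e2)
      (by simpa [smul_eq_C_mul] using congrArg Prod.snd e2)

end Nc6

theorem nc6S (hK : KgStmt) : Nc6Stmt := by
  intro K _ _ d w J hd h hB hC
  obtain ⟨-, -, k3, k4⟩ := hK K d w J (by omega) h hB hC
  obtain ⟨c1, c2, θ1, θ2, d1', d2, d3, d4, p1, p2, hi⟩ := Nc6.two (by omega) h
  have h6 : DF (5 + 1) (c2 • θ1 - c1 • θ2) :=
    (DF.smul (a := 3) d2 d3).sub (DF.smul (a := 3) d1' d4)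
  obtain ⟨r, hr⟩ := k3 (c2 • θ1 - c1 • θ2) (h6.mono (by omega))
    (by rw [wg_sub, wg_smul, wg_smul, p1, p2]; ring)
  by_cases r0 : r = 0
  · exact k4 c1 c2 θ1 θ2 d1' d2 d3 d4 p1 p2 hi
      (sub_eq_zero.1 (by rw [hr, r0, map_zero, zero_smul]))
  · have h5 := h6.dv.C_mul r⁻¹
    rw [hr, dv_C_smul, ← mul_assoc, ← map_mul, inv_mul_cancel₀ r0, map_one, one_mul] at h5
    exact absurd (h.low _ h.mB (h5.mono (by omega))) hB

end Pool.Agent.MP_05b4bd_ag.UM
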