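import Pool.Agent.MP_05b4bd_ag.um.PDefs
import Pool.Agent.MP_05b4bd_ag.esc3.PassB

/-! Blocks of the chain for a Morse polynomial transversal to infinity. -/

section
namespace Pool.Agent.MP_05b4bd_ag.ES.U

open PowerSeries LaurentSeries HC

namespace Case8
open Pool.Agent.MP_05b4bd_ag.ES.Case8

section Ring
variable {R S : Type} [CommRing R] [CommRing S]

end Ring

variable {k : Type} [Field k]

/-- The data at infinity of a frame that does not depend on `t`. -/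
theorem obs (h2 : MkinfStmt) (h3 : RatStmt) [CharZero k] (n : ℕ) (hn : 1 ≤ n) (o : Ob k (n + 1))
    (η : AA k) (x y : k⟦X⟧) (h0 : cc η = 1)
    (h : hev CC (n + 1) o.f (η * C x) (η * C y) X = 1) (hd : x * dX k y - y * dX k x ≠ 0) :
    Obs k (n + 1) (cL k) (dL k) (coeL k x) (coeL k y)
      (map iT (aF CC (n + 1) o.P o.Q (mA C (η * C x)) (mA C (η * C y))))
      (map iT (bF CC (n + 1) o.P o.Q (dX k⟦X⟧) (mA C (η * C x)) (mA C (η * C y)))) := by
  have ex : c00 (em k (η * C x)) = coeL k x := by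
    rw [c00_em, map_mul, h0, one_mul, constantCoeff_C]
  have ey : c00 (em k (η * C y)) = coeL k y := by
    rw [c00_em, map_mul, h0, one_mul, constantCoeff_C]
  have mx : coeL k x ∈ gf (cL k) (coeL k x) (coeL k y) :=
    Subfield.subset_closure (Or.inr (Or.inl rfl))
  have my : coeL k y ∈ gf (cL k) (coeL k x) (coeL k y) :=
    Subfield.subset_closure (Or.inr (Or.inr rfl))
  have e1 : (map iT).comp (CC : k⟦X⟧ →+* AA k⟦X⟧) =
      (C : k⸨X⸩⟦X⟧ →+* AA k⸨X⸩).comp (map (cL k)) := by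
    refine RingHom.ext fun c => ?_
    rw [RingHom.comp_apply, CC_apply, map_C, iT_C, RingHom.comp_apply]
  have e2 : (C : k⸨X⸩ →+* k⸨X⸩⟦X⟧).comp (cL k) = (map (coeL k)).comp CC := by
    refine RingHom.ext fun c => ?_
    rw [RingHom.comp_apply, RingHom.comp_apply, CC_apply, map_C, coeL_C]
  have hb := map_bF (n + 1) (CC : k⟦X⟧ →+* AA k⟦X⟧) iT (D := dX k⟦X⟧) (D' := cw (dL k)) (θ := 1)
    (fun c => by rw [dL_iT, one_mul]) o.P o.Q (mA C (η * C x)) (mA C (η * C y))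
  rw [map_one, one_mul] at hb
  have h4 := h2 k (n + 1) o k⸨X⸩ (cL k) (dL k) (em k (η * C x)) (em k (η * C y)) (by omega)
    isDer_dL (fun c => by rw [dL_apply, thL_cL, mul_zero]) (fun i j => by
      rw [ex, ey]
      constructor <;> refine co2_em_mem (fun j => ?_) i j <;> rw [coeff_mul_C, map_mul]
      · exact mul_mem (rat h3 n o.f η x y h0 h j) mx
      · exact mul_mem (rat h3 n o.f η x y h0 h j) my)
    (by
      have := congrArg (map (coeL k)) h
      rw [map_hev, map_one, map_X] at this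
      rw [em_apply, em_apply, red_mapC, red_mapC, e2, this])
    (by
      rw [ex, ey, dL_coeL, dL_coeL, ← map_mul, ← map_mul, ← map_sub]
      intro h5
      apply hd
      have h6 := coeL_inj (h5.trans (map_zero _).symm)
      linear_combination -h6)
  rw [map_aF, hb, e1, iT_mA, iT_mA]
  rwa [ex, ey] at h4

end Case8

end Pool.Agent.MP_05b4bd_ag.ES.U
end

section
namespace Pool.Agent.MP_05b4bd_ag.ES.U

open PowerSeries LaurentSeries HC

namespace Bmk
open Pool.Agent.MP_05b4bd_ag.ES.Bmk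

variable {k : Type} [Field k] [CharZero k]

/-- The centre, read on the annulus. -/
theorem cen {d : ℕ} (o : PD k d) {ε N : ℕ} {a b : (AA k)⟦X⟧} (hd : 2 ≤ d) (hN : 1 ≤ N)
    (hab : ABrel o ε N a b) {ps qs W : k⟦X⟧} (p0 : cc ps = 0) (q0 : cc qs = 0) (qn : qs ≠ 0)
    (ht : psi0 ε ps qs (tA k ε) = C (X ^ (d * N))) (W0 : cc W = 0)
    (hU : qs ^ (d * N) = ram k (d * N) o.Us) (hz : qs ^ N * W = ram k (d * N) o.zs) :
    CenN (coeL k) (X * map (psi0 ε ps qs) b) (map (psi0 ε ps qs) a) 0 W := by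
  have hn : 1 ≤ d * N := Nat.mul_pos (by omega) hN
  obtain ⟨i, hi, -⟩ := exists_ramL (R := k) hn
  set q : AA k := C qs * map C (exp k) with hq
  have mp : (C ps * map C (rescale (-(ε : k)) (exp k)) : AA k) ∈ up (up (⊥ : Ideal k)) :=
    Ideal.mul_mem_right _ _ (by rw [mem_up2, c00_apply, constantCoeff_C, p0]; exact Ideal.zero_mem _)
  have mq : q ∈ up (up (⊥ : Ideal k)) :=
    Ideal.mul_mem_right _ _ (by rw [mem_up2, c00_apply, constantCoeff_C, q0]; exact Ideal.zero_mem _)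
  have mX : (X ^ (d * N) : AA k) ∈ up (up (⊥ : Ideal k)) :=
    Ideal.pow_mem_of_mem _ (by simp [mem_up2, c00_apply]) _ hn
  have mt : (C (X ^ (d * N)) : AA k) ∈ up (up (⊥ : Ideal k)) := by
    rw [map_pow]
    exact Ideal.pow_mem_of_mem _ (by simp [mem_up2, c00_apply]) _ hn
  have mW : W ∈ up (⊥ : Ideal k) := W0
  have ψX : psi0 ε ps qs X = q := ev2_X _ mq
  have ψC : (psi0 ε ps qs).comp CC = CC := RingHom.ext fun r => ev2_CC _ mp mq r
  have cq : cc q = qs := by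
    have : cc (map C (exp k) : AA k) = C (cc (exp k)) := rfl
    rw [hq, map_mul, constantCoeff_C, this, constantCoeff_exp, map_one, mul_one]
  have dq : dX _ q = q := by
    have : dX k (exp k) = exp k := derivative_exp k
    rw [hq, isDer_dX, dX_C, dX_map, this, zero_mul, zero_add]
  have dqn : ∀ m : ℕ, dX _ (q ^ m) = m * q ^ m := fun m => by
    rw [isDer_dX.pow, dq]
    cases m with
    | zero => simp
    | succ m => rw [Nat.add_sub_cancel, mul_assoc, ← pow_succ]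
  set Φ : AA k⟦X⟧ →+* AA k⟦X⟧ := (map (psi0 ε ps qs)).comp (thA k ε N d) with hΦ
  have Φa : ∀ c, Φ c = map (psi0 ε ps qs) (thA k ε N d c) := fun c => rfl
  have ΦU : Φ (C X) = C (q ^ (d * N)) := by
    rw [Φa, thA_C, ev2_X _ mX, map_C, map_pow, ψX]
  have Φz : Φ X = C (q ^ N) * X := by
    rw [Φa, thA_X, map_mul, map_C, map_X, map_pow, ψX]
  have d1 : cw (dX _) (Φ (C X)) = C (((d * N : ℕ) : AA k) * q ^ (d * N)) := by
    rw [ΦU, cw_C, dqn]
  have d2 : dX _ (Φ (C X)) = 0 := by rw [ΦU, dX_C]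
  have d3 : cw (dX _) (Φ X) = C ((N : AA k) * q ^ N) * X := by
    rw [Φz, isDer_dX.coefw, cw_C, cw_X isDer_dX.one, mul_zero, add_zero, dqn]
  have d4 : dX _ (Φ X) = C (q ^ N) := by
    rw [Φz, isDer_dX, dX_C, dX_X, zero_mul, zero_add, mul_one]
  have evC : ∀ c : AA k, ev2 (RingHom.id k⟦X⟧) 0 W (C c) = cc c := fun c => by
    rw [ev2_C _ mW, ev_zero, RingHom.id_apply]
  have ea : Φ (fB d o.e) = C (q ^ (N * (d + 1))) * map (psi0 ε ps qs) a := by
    rw [Φa, ← hab.1, map_mul, map_C, map_pow, ψX]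
  have eb : (N : AA k⟦X⟧) * ((d : AA k⟦X⟧) * Φ (C X) * Φ (X - o.b) + Φ (fB d o.e)) =
      C (q ^ (N * (d + 1))) * map (psi0 ε ps qs) b := by
    have := congrArg (map (psi0 ε ps qs)) hab.2.1
    rw [map_mul, map_C, map_pow, ψX, map_mul, map_natCast, ← Φa, map_add, map_mul, map_mul,
      map_natCast] at this
    exact this.symm
  refine CenN.trans i (ram k (d * N)) (fun r => (hi r).symm) o.cen o.U0 o.z0 ?_ Φ (fun r => ?_) ?_
    ?_ (map_zero _) W0 ?_ ?_ ?_ (lam := C (q ^ (N * (d + 1)) * q ^ N)) ?_ ?_ ?_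
  · rw [ram_X hn, map_pow, constantCoeff_X, zero_pow (by omega)]
  · rw [Φa, CC_apply, thA_C, ev2_C _ mX, map_C,
      hom_ev _ (up (up ⊥)) (tA_mem ε) _ (by rw [ht]; exact mt), ψC, ht, ev_CX hn, CC_apply]
  · rw [ΦU, c00_apply, constantCoeff_C, map_pow, map_pow, cq, q0, zero_pow (by omega)]
  · rw [Φz, c00_apply, map_mul, constantCoeff_X, mul_zero, map_zero, map_zero]
  · rw [ΦU, evC, map_pow, cq, hU]
  · rw [Φz, map_mul, evC, ev2_X _ mW, map_pow, cq, hz]
  · rw [d1, d2, d4, mul_zero, sub_zero, ← map_mul, evC]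
    refine (map_ne_zero_iff _ coeL_inj).2 ?_
    rw [map_mul, map_mul, map_pow, map_pow, map_natCast, cq]
    refine mul_ne_zero (mul_ne_zero ?_ (pow_ne_zero _ qn)) (pow_ne_zero _ qn)
    have e : ((d * N : ℕ) : k⟦X⟧) = C ((d * N : ℕ) : k) := (map_natCast _ _).symm
    rw [e]
    exact (map_ne_zero_iff _ C_injective).2 (Nat.cast_ne_zero.2 (by omega))
  · rw [evC]
    refine (map_ne_zero_iff _ coeL_inj).2 ?_
    rw [map_mul, map_pow, map_pow, cq]
    exact mul_ne_zero (pow_ne_zero _ qn) (pow_ne_zero _ qn)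
  · rw [d1, d3, map_mul Φ, Φz, map_mul, map_mul, map_mul, map_natCast, map_natCast, ← ΦU]
    push_cast
    linear_combination (-(C (q ^ N) * X)) * eb
  · rw [d2, d4, ea, map_mul]
    ring

end Bmk

theorem bmkS (h1 : BnumStmt) (h2 : BendStmt) (h3 : AbmkStmt) (h4 : PframeStmt) (h5 : PsiStmt) :
    BmkStmt := by
  intro k _ _ _ d o0 hd h0
  obtain ⟨o, ε, N, e, ω, v, e1, N1, ee, ω1, hω, hv, hU, ⟨z1, hz⟩, b1, b2, b3, b4, b5, b6, b7, b8⟩ :=
    h1 k d o0 hd h0
  obtain ⟨a, b, hab⟩ := h3 k d ε N o hd e1 N1 ((pow_dvd_pow _ (by omega)).trans b1)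
    ((pow_dvd_pow _ (by omega)).trans b2) ((pow_dvd_pow _ (by omega)).trans b3) b4
  obtain ⟨a0, b0, c1, c2, c3, c4, c5, c6⟩ :=
    h2 k d ε N e o a b hd e1 N1 hab b1 b2 b3 b4 b5 b6 b7 b8
  have eo : map (out ε) (C (X ^ (N * (d + 1))) : (AA k)⟦X⟧) = CC (wL k (N * (d + 1))) := by
    rw [map_C, map_pow, out_X, ← map_pow, wL_pow, mul_one, CC_apply]
    push_cast
    rfl
  obtain ⟨⟨y, hy⟩, -⟩ := h4 k d N o (map (out ε) a) (map (out ε) b) hd N1
    (by rw [← eo, ← map_mul, hab.1, out_thA ε N1 (by omega)])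
    (by rw [← eo, ← map_mul, hab.2.1, map_mul, map_natCast, out_thA ε N1 (by omega)])
  have hn : 1 ≤ d * N := Nat.mul_pos (by omega) N1
  obtain ⟨r, hr⟩ := unit_root (hv.map (ram k (d * N))) hn
  have ur : IsUnit r := (isUnit_pow_iff (by omega)).1 (hr ▸ hv.map (ram k (d * N)))
  obtain ⟨s, hs⟩ := ur.exists_right_inv
  have cX : ∀ m, 1 ≤ m → ∀ f : k⟦X⟧, cc (X ^ m * f) = 0 := fun m hm f => by
    rw [map_mul, map_pow, constantCoeff_X, zero_pow (by omega), zero_mul]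
  have qn : (X ^ ω * r : k⟦X⟧) ≠ 0 := mul_ne_zero (pow_ne_zero _ X_ne_zero) ur.ne_zero
  obtain ⟨ps, p0, pq⟩ : ∃ ps : k⟦X⟧, cc ps = 0 ∧ ps * (X ^ ω * r) ^ ε = X ^ (d * N) := by
    obtain rfl | rfl : ε = 0 ∨ ε = 1 := by omega
    · exact ⟨X ^ (d * N) * 1, cX _ hn _, by rw [pow_zero, mul_one, mul_one]⟩
    · obtain ⟨m, hm⟩ := Nat.exists_eq_add_of_lt (hω rfl)
      refine ⟨X ^ (m + 1) * s, cX _ (by omega) _, ?_⟩
      rw [hm, pow_one]
      linear_combination (X ^ (ω + m + 1)) * hs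
  have pn : ps ≠ 0 := by
    rintro rfl
    rw [zero_mul] at pq
    exact pow_ne_zero _ X_ne_zero pq.symm
  obtain ⟨m, hm⟩ : ∃ m, d * N * (e + ω) = ω * N + m + 1 := by
    apply Nat.exists_eq_add_of_lt
    calc ω * N < (e + ω) * N := Nat.mul_lt_mul_of_pos_right (by omega) N1
      _ ≤ d * N * (e + ω) := by
        rw [mul_comm (e + ω), mul_assoc]
        exact Nat.le_mul_of_pos_left _ (by omega)
  obtain ⟨-, s2, -, s4, -⟩ := h5 k ε ps (X ^ ω * r) e1 p0 (cX _ ω1 _) pn qn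
  have ht : psi0 ε ps (X ^ ω * r) (tA k ε) = C (X ^ (d * N)) := by
    have : mA Polynomial.C (tA k ε) = tA (Polynomial k) ε := by
      rw [tA, tA, map_mul, map_pow, mA_CX, mA_X]
    rw [← s2, this, s4, pq]
  refine ⟨ε, N, e, a, b, a0, b0, y, d * N, ps, X ^ ω * r,
    X ^ (m + 1) * (s ^ N * ram k (d * N) z1), e1, N1, ee, hy, hab.2.2.1, hab.2.2.2.1,
    hab.2.2.2.2.1, hab.2.2.2.2.2.1, c1, c2, c3, c4, c5, c6, hn, p0, cX _ ω1 _, qn, pq,
    cX _ (by omega) _, Bmk.cen o hd N1 hab p0 (cX _ ω1 _) qn ht (cX _ (by omega) _) ?_ ?_⟩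
  · rw [hU, map_mul, map_pow, ram_X hn, mul_pow, hr, ← pow_mul, ← pow_mul, mul_comm ω]
  · have hsN : r ^ N * s ^ N = 1 := by rw [← mul_pow, hs, one_pow]
    rw [hz, map_mul, map_pow, ram_X hn, ← pow_mul, hm, mul_pow, ← pow_mul]
    linear_combination (X ^ (ω * N + m + 1) * ram k (d * N) z1) * hsN

end Pool.Agent.MP_05b4bd_ag.ES.U
end

section
namespace Pool.Agent.MP_05b4bd_ag.ES.U

open PowerSeries LaurentSeries HC

open Pool.Agent.MP_05b4bd_ag.ES.Afin in
theorem afinS3 (hAmk : AmkStmt) (h12 : A12Stmt) (h3 : A3Stmt) (hAb : AbmkStmt) (hExt : ExtStmt)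
    (hP : PframeStmt) (hS : S1Stmt3) : AfinStmt3 := by
  intro k _ _ d o hd h1 h2
  have hd1 : 1 ≤ d := by omega
  obtain ⟨o', R, b, e, β, V, -, hAD, hb, he, n1, v1, v2, v3⟩ := hAmk k d o (by omega) h1 h2
  obtain ⟨κ, Γ, U, eh, hAN, hI⟩ := h12 k d b e β V hd1 hAD
  obtain ⟨I0, hI0⟩ := h3 k d κ Γ β U eh hd1 hAN
  obtain ⟨I, hI⟩ := hI I0 hI0
  obtain ⟨a', b', ra, rb, ta, tb, -⟩ := hAb k d 1 (R + 1) o' (by omega) le_rfl (by omega) v1 v2 v3
    (fun h => absurd h one_ne_zero)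
  have hb' := congrArg (Th k R d) hb
  have he' := congrArg (Th k R d) he
  rw [Th_scale k R hd1, map_mul, Th_t k R hd1] at hb' he'
  have hq : ∀ n, mA (coeL k) (C (X ^ n)) = C (X ^ n) := fun n => by simp [mA]
  have hx : (X : AA k) ^ (d * (R + 1)) ∈ up (up (⊥ : Ideal k)) :=
    Ideal.pow_mem_of_mem _ (by simp [mem_up]) _ (by positivity)
  have tX : mA (coeL k) (thA k 1 (R + 1) d X) = C (tS k) ^ R * C (sS k R) * X := by
    rw [thA, RingHom.comp_apply, map_X, rescale_X, map_mul, hq, ← tS_pow, map_mul, map_pow]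
    simp [mA]
  have tU : mA (coeL k) (thA k 1 (R + 1) d (C X)) = (C (tS k) ^ R * C (sS k R)) ^ d := by
    rw [thA, RingHom.comp_apply, map_C, rescale_C', ev2_X _ hx, hq, mul_comm d, pow_mul,
      ← tS_pow, map_pow, map_mul, map_pow]
  have hQ : (C (X ^ ((R + 1) * (d + 1))) : AA k⸨X⸩) = (C (tS k) ^ R * C (sS k R)) ^ (d + 1) := by
    rw [pow_mul, ← tS_pow, map_pow, map_mul, map_pow]
  have hU : Th k R d (C X) = C (sS k R) ^ d := by rw [Th_C, eta_X k R hd1, map_pow]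
  have ra' := congrArg (mA (coeL k)) ra
  have rb' := congrArg (mA (coeL k)) rb
  simp only [fB, map_mul, map_add, map_neg, map_sub, map_natCast, hq, tX, tU, hQ, ← hb', ← he',
    Nat.cast_add, Nat.cast_one, map_one] at ra' rb'
  have hτ : (C (tS k) : AA k⸨X⸩) ^ (R * (d + 1)) ≠ 0 :=
    pow_ne_zero _ fun h => tS_ne k (C_injective (h.trans (map_zero _).symm))
  have hs : (C (sS k R) : AA k⸨X⸩) ≠ 0 :=
    fun h => sS_ne k R (C_injective (h.trans (map_zero _).symm))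
  have eB : Th k R d (fB d e) = C (sS k R) ^ (d + 1) * mA (coeL k) a' := by
    refine mul_left_cancel₀ hτ ?_
    simp only [fB, map_mul, map_add, map_neg, map_natCast, hU, Th_X]
    linear_combination -ra'
  have eA : C (sS k R) ^ (d + 1) * mA (coeL k) b' = ((R : AA k⸨X⸩) + 1) *
      ((d : AA k⸨X⸩) * C (sS k R) ^ d * (C (sS k R) * X - Th k R d b) + Th k R d (fB d e)) := by
    refine mul_left_cancel₀ hτ ?_
    simp only [fB, map_mul, map_add, map_neg, map_natCast, hU, Th_X]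
    linear_combination rb'
  obtain ⟨I1, I2⟩ := iif_iff.1 hI
  have D1 : IsDer (cw (DD k)) := (isDer_DD k).coefw
  have key := iifE_trans (Th k R d) D1 isDer_dX (cw_Th k R hd1) (dX_Th k R)
    (by rw [map_zero, dX_C]) (by rw [cw_C, DD_s, isDer_dX, dX_C, dX_X]; ring)
    (X * (X - b)) (fB d e) I
  rw [I2, map_zero, mul_zero] at key
  have hA : C (d * (R + 1) * sS k R ^ d) * Th k R d (X * (X - b)) +
      C ((R + 1) * sS k R) * X * Th k R d (fB d e) =
      C (sS k R) ^ (d + 2) * (X * mA (coeL k) b') := by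
    simp only [map_mul, map_add, map_sub, map_pow, map_natCast, map_one, Th_X]
    linear_combination (-(C (sS k R) * X)) * eA
  have hB : 0 * Th k R d (X * (X - b)) + C (sS k R) * Th k R d (fB d e) =
      C (sS k R) ^ (d + 2) * mA (coeL k) a' := by rw [eB]; ring
  rw [hA, hB] at key
  have ht : IsDer (dX k⸨X⸩⟦X⟧) := isDer_dX
  have c1 : cw (DD k) (C (tS k) ^ (d + 2)) = 0 := by rw [D1.pow, cw_C, DD_t]; simp
  have c2 : dX k⸨X⸩⟦X⟧ (C (tS k) ^ (d + 2)) = 0 := by rw [← map_pow, dX_C]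
  have hJ : IIF (DD k) (mA (coeL k) a') (X * mA (coeL k) b')
      (C (C (wL k (R + 1))) ^ (d + 2) * Th k R d I) := by
    refine iif_iff.2 ⟨mul_ne_zero (pow_ne_zero _ ((isUnit_wL _).map CC).ne_zero)
      fun h => I1 (Th_inj k R hd1 (h.trans (map_zero _).symm)), ?_⟩
    refine mul_left_cancel₀ (pow_ne_zero 2 (pow_ne_zero (d + 2) hs)) ?_
    rw [← iifE_scale D1 ht, ← mul_assoc _ _ (Th k R d I), ← mul_pow, ← map_mul, mul_comm (sS k R),
      ← tS_eq, mul_zero]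
    rw [iifE] at key ⊢
    rw [D1.const_mul c1, ht.const_mul c2]
    linear_combination C (tS k) ^ (d + 2) * key
  obtain ⟨I', hI'⟩ := hExt k d a' b' _ hd1 ta tb hJ
  have ho : ∀ n : ℕ, map (out 1) (C (X ^ n) : (AA k)⟦X⟧) = CC (wL k n) := fun n => by
    rw [map_C, map_pow, out_X, ← map_pow, wL_pow, mul_one, CC_apply]
  have pa := congrArg (map (out 1)) ra
  have pb := congrArg (map (out 1)) rb
  rw [map_mul, ho, out_thA 1 (by omega) hd1] at pa
  rw [map_mul, map_mul, ho, out_thA 1 (by omega) hd1, map_natCast] at pb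
  obtain ⟨⟨y, hO⟩, hn⟩ := hP k d (R + 1) o' _ _ (by omega) (by omega)
    (by rw [← pa]; push_cast; rfl) (by rw [← pb]; push_cast; rfl)
  have := hI'.push (out_inj 1) (θ := 1) (D' := cw (thL k)) fun c => by rw [th_out, one_mul]
  rw [map_one, one_mul, map_mul, map_X] at this
  refine hS k _ d _ _ _ _ _ _ _ hd hO (hn fun h => n1 ?_) this
  rw [co2, coeff_zero_eq_constantCoeff, h, map_zero]

namespace Case8
open Pool.Agent.MP_05b4bd_ag.ES.Case8

variable {k : Type} [Field k]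

theorem main3 (h1 : ChartStmt) (h2 : MkinfStmt) (h3 : RatStmt) (h4 : DfinStmt3) [CharZero k]
    [IsAlgClosed k] (n : ℕ) (hn : 3 ≤ n + 1) (o : Ob k (n + 1)) {r : ℕ} {x y : k⟦X⟧} (hr : 1 ≤ r)
    (hc : CenP o.P o.Q ![wL k (-(r : ℤ)) * coeL k x, wL k (-(r : ℤ)) * coeL k y]) {γ x0 y0 : k}
    (hγ : γ ≠ 0) (hx : cc x = γ * x0) (hy : cc y = γ * y0)
    (hF : hev (RingHom.id k) (n + 1) o.f x0 y0 0 = 1) : False := by
  have hE := euler0 _ _ _ hF
  generalize hev (RingHom.id k) n (MvPolynomial.pderiv 0 o.f) x0 y0 0 = a at hE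
  generalize hev (RingHom.id k) n (MvPolynomial.pderiv 1 o.f) x0 y0 0 = b at hE
  have he := succ_ne (k := k) n
  generalize (n + 1 : k) = e at hE he
  have hC : (C x0 * C a + C y0 * C b : k⟦X⟧) = C e := by rw [← map_mul, ← map_mul, ← map_add, hE]
  obtain ⟨Lx, hLx⟩ : ∃ L : k⟦X⟧, L = C x0 + C b * X := ⟨_, rfl⟩
  obtain ⟨Ly, hLy⟩ : ∃ L : k⟦X⟧, L = C y0 - C a * X := ⟨_, rfl⟩
  have cx : cc Lx = x0 := by simp [hLx]
  have cy : cc Ly = y0 := by simp [hLy]
  have dx : dX k Lx = C b := by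
    rw [hLx, map_add, dX_C, isDer_dX, dX_C, dX_X, zero_mul, zero_add, zero_add, mul_one]
  have dy : dX k Ly = -C a := by
    rw [hLy, map_sub, dX_C, isDer_dX, dX_C, dX_X, zero_mul, zero_add, zero_sub, mul_one]
  have dL : Lx * dX k Ly - Ly * dX k Lx = -C e := by
    rw [dx, dy, hLx, hLy]
    linear_combination -hC
  have Ce : (C e : k⟦X⟧) ≠ 0 := fun h => he (by simpa using congrArg cc h)
  obtain ⟨ρ, r0, hρ⟩ := exists_rho n o.f Lx Ly (by rw [cx, cy, hF])
  obtain ⟨v, hv⟩ : ∃ v, cc ρ * v = 1 :=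
    (isUnit_iff_constantCoeff.2 (r0 ▸ isUnit_one : IsUnit (c00 ρ))).exists_right_inv
  have r1 : cc ρ ≠ 0 := left_ne_zero_of_mul_eq_one hv
  have g : ∀ L : k⟦X⟧, ρ * C v * C (cc ρ * L) = ρ * C L := fun L => by
    rw [mul_assoc, ← map_mul, ← mul_assoc, mul_comm v, hv, one_mul]
  have ho := obs h2 h3 n (by omega) o (ρ * C v) (cc ρ * Lx) (cc ρ * Ly)
    (by rw [map_mul, constantCoeff_C, hv]) (by rw [g, g, hρ]) (by
      rw [det isDer_dX, dL]
      exact mul_ne_zero (pow_ne_zero _ r1) (neg_ne_zero.2 Ce))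
  rw [g, g] at ho
  obtain ⟨m, hm⟩ : ∃ m, (x * C a + y * C b) * m = 1 := by
    refine (isUnit_iff_constantCoeff.2 (IsUnit.mk0 _ ?_)).exists_right_inv
    have : cc (x * C a + y * C b) = γ * e := by
      rw [map_add, map_mul, map_mul, hx, hy, constantCoeff_C, constantCoeff_C, ← hE]
      ring
    exact this ▸ mul_ne_zero hγ he
  obtain ⟨u, hu⟩ : ∃ u : k⟦X⟧, u = (x * C y0 - y * C x0) * m := ⟨_, rfl⟩
  have u0 : cc u = 0 := by
    rw [hu, map_mul, map_sub, map_mul, map_mul, hx, hy, constantCoeff_C, constantCoeff_C]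
    ring
  obtain ⟨z, z0, hz⟩ := exists_z ρ u (v := C e * m * X ^ r)
    (by rw [map_mul, cc_X_pow hr, mul_zero])
  have ux : ev C u Lx = C e * m * x := by
    change sb u Lx = _
    rw [hLx, map_add, map_mul, sb_C u0, sb_C u0, sb_X u0, hu]
    linear_combination m * x * hC - C x0 * hm
  have uy : ev C u Ly = C e * m * y := by
    change sb u Ly = _
    rw [hLy, map_sub, map_mul, sb_C u0, sb_C u0, sb_X u0, hu]
    linear_combination m * y * hC - C y0 * hm
  have key : ∀ L w : k⟦X⟧, ev C u L = C e * m * w →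
      coeL k (ev2 C u z (ρ * C L)) = wL k (-(r : ℤ)) * coeL k w * coeL k z := fun L w h => by
    have h5 : X ^ r * ev2 C u z (ρ * C L) = w * z := by
      rw [map_mul, ev2_C (up ⊥) (mem_up_bot.2 z0), h]
      linear_combination -w * hz
    rw [mul_assoc, ← map_mul, ← h5, map_mul (coeL k) (X ^ r), coeL_X_pow, ← mul_assoc, ← wL_add,
      neg_add_cancel, wL_zero, one_mul]
  have zn : z ≠ 0 := by
    rw [hz]
    refine mul_ne_zero (mul_ne_zero (mul_ne_zero Ce (right_ne_zero_of_mul_eq_one hm))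
      (pow_ne_zero _ X_ne_zero)) fun h => ?_
    have h5 := cc_ev2 (φ := C) u0 z0 ρ
    rw [h, r0, map_zero, map_one, map_one] at h5
    exact zero_ne_one h5
  have hn' := chart h1 o.dP o.dQ hc (ρ * C Lx) (ρ * C Ly) u0 z0 zn (key _ _ ux) (key _ _ uy) (by
    rw [det isDer_dX.coefw, cw_C, cw_C, ← map_mul, ← map_mul, ← map_sub, dL, map_mul, map_pow, r0,
      one_pow, one_mul, c00_C, map_neg, constantCoeff_C]
    exact neg_ne_zero.2 he)
  obtain ⟨σ, s0, -, s1, s2, s3⟩ := h4 k (n + 1) hn _ _ _ _ u z ho u0 z0 hn'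
  rw [hLx] at s2
  rw [hLy] at s3
  exact s1 (rigid he hE r1 s0 s2 s3)

end Case8

theorem case8S3 (h1 : ChartStmt) (h2 : MkinfStmt) (h3 : RatStmt) (h4 : DfinStmt3)
    (_h5 : GenTopStmt) : Case8Stmt3 := by
  intro k _ _ _ d hd o r x y hr hp
  obtain ⟨n, rfl⟩ : ∃ n, d = n + 1 := ⟨d - 1, by omega⟩
  by_contra h
  obtain ⟨γ, hγ⟩ := IsAlgClosed.exists_pow_nat_eq
    (evp (RingHom.id k) (cc x) (cc y) (hc (n + 1) o.f)) (Nat.succ_pos n)
  have h0 : γ ≠ 0 := fun e => h (by rw [← hγ, e, zero_pow (Nat.succ_ne_zero n)])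
  refine Case8.main3 h1 h2 h3 h4 n hd o hr hp (x0 := γ⁻¹ * cc x) (y0 := γ⁻¹ * cc y) h0
    (by rw [mul_inv_cancel_left₀ h0]) (by rw [mul_inv_cancel_left₀ h0]) ?_
  have e := hev_smul (RingHom.id k) (n + 1) o.f γ⁻¹ (cc x) (cc y) 0
  rw [mul_zero] at e
  rw [e, hev_zero]
  change γ⁻¹ ^ (n + 1) * evp (RingHom.id k) (cc x) (cc y) (hc (n + 1) o.f) = 1
  rw [← hγ, ← mul_pow, inv_mul_cancel₀ h0, one_pow]

open Pool.Agent.MP_05b4bd_ag.ES.Pmk in
theorem pmkS3 (hC : ChartStmt) (hG : GenTopStmt) : PmkStmt3 := by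
  intro k _ _ _ d hd o r x y hr hxy hcen hF
  obtain ⟨d, rfl⟩ : ∃ d', d = d' + 1 := ⟨d - 1, by omega⟩
  obtain ⟨-, hci, -, h0d, -⟩ := hG k (d + 1) o.f (by omega) o.gen
  change MvPolynomial.eval₂ _ _ _ = 0 at hF
  have hx : cc x ≠ 0 := fun h => by
    have := scale (d + 1) o.f (cc y) 0 1
    rw [mul_zero, mul_one, ← h, hF, h, eval01 (hc_hom _ _)] at this
    exact mul_ne_zero (pow_ne_zero _ (hxy.resolve_left (not_not.2 h))) h0d this.symm
  have h0 : MvPolynomial.eval₂ (RingHom.id k) ![1, cc y / cc x] (hc (d + 1) o.f) = 0 := by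
    have := scale (d + 1) o.f (cc x) 1 (cc y / cc x)
    rw [mul_one, mul_div_cancel₀ _ hx, hF] at this
    exact (mul_eq_zero.1 this.symm).resolve_left (pow_ne_zero _ hx)
  have h1 := simple (hc_hom _ _) hci h0
  obtain ⟨u, hu, hl⟩ := roots h0 h1
  obtain ⟨P1, hP⟩ := split o.rP
  obtain ⟨Q1, hQ⟩ := split o.rQ
  let M : AA k⟦X⟧ → AA k⟦X⟧ := fun v =>
    hev CC (d + 1) P1 1 v X * (X * dX _ v - v) + hev CC (d + 1) Q1 1 v X
  have dC : dX k⟦X⟧⟦X⟧ (CC X) = 0 := dX_C _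
  have hM : ∀ (n : ℕ) v v', CC X ^ n ∣ v - v' → CC X ^ n ∣ M v - M v' := fun n v v' h => by
    have a1 := hev_congr CC (d + 1) P1 1 X h
    have a2 := hev_congr CC (d + 1) Q1 1 X h
    have a3 := isDer_dX.dvd dC h
    rw [map_sub] at a3
    have := dvd_add (dvd_add (a1.mul_right (X * dX _ v - v))
      ((dvd_sub (a3.mul_left X) h).mul_left (hev CC (d + 1) P1 1 v' X))) a2
    convert this using 1
    simp only [M]; ring
  obtain ⟨γ, hγ, -⟩ := fix_dvd (C X : AA k) (fun γ => PowerSeries.mk fun j =>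
    if j < d + 1 then -(C ((d + 1 : k) - j)⁻¹ * coeff (j + 1) (red (M (u γ)))) else 0)
    fun n γ γ' h => by
      obtain ⟨s, hs⟩ := hM _ _ _ (hl n γ γ' h)
      have e := congrArg red hs
      rw [map_sub, map_mul, map_pow, CC_apply, red_C, cc, constantCoeff_C] at e
      have e' := (C_pow_dvd_iff X (n + 1) _).1 ⟨_, e⟩
      rw [C_pow_dvd_iff]
      intro j
      rw [map_sub, coeff_mk, coeff_mk]
      split_ifs
      · have := (e' (j + 1)).mul_left (-C ((d + 1 : k) - j)⁻¹)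
        convert this using 1
        rw [map_sub]; ring
      · simp
  obtain ⟨u0, ue⟩ := hu γ
  set v := u γ with hv
  have dy : DL (d + 1) (MvPolynomial.pderiv 1 o.f) := o.gen.2.1.pderiv 1
  have dx : DL (d + 1) (MvPolynomial.pderiv 0 o.f) := o.gen.2.1.pderiv 0
  have eP : hev CC (d + 1) o.P 1 v X = X * hev (CC.comp C) d (MvPolynomial.pderiv 1 o.f) 1 v X +
      CC X * hev CC (d + 1) P1 1 v X := by
    rw [hP, hev_add, hev_map, hev_C_mul, hev_succ _ _ dy]
  have eQ : hev CC (d + 1) o.Q 1 v X = -(X * hev (CC.comp C) d (MvPolynomial.pderiv 0 o.f) 1 v X) +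
      CC X * hev CC (d + 1) Q1 1 v X := by
    rw [hQ, hev_add, hev_map, hev_C_mul, hev_neg, hev_succ _ _ dx]
  have eH : hev (CC.comp C) (d + 1) o.f 1 v X = C X - CC X * map C γ := by
    rw [← ue, map_mul, map_C, CC_apply]; ring
  have cU : IsDer (cw (dX k⟦X⟧)) := isDer_dX.coefw
  have cm0 : ∀ s : AA k, cw (dX k⟦X⟧) (map C s) = 0 := fun s => by
    ext1 n; rw [coeff_cw, coeff_map, dX_C, map_zero]
  have cC0 : ∀ s : k⟦X⟧, cw (dX k⟦X⟧) (CC s) = 0 := fun s => by rw [CC_apply, cw_C, dX_C, map_zero]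
  have eU : hev (CC.comp C) d (MvPolynomial.pderiv 1 o.f) 1 v X * cw (dX k⟦X⟧) v = 1 := by
    have := der_hev' (CC.comp C) d cU (fun s => by rw [RingHom.comp_apply]; exact cC0 _) o.f 1 v (cw_X isDer_dX.one)
    rw [eH, map_sub, cU, cm0, cC0, cw_C, dX_X, cU.one] at this
    rw [map_one] at this
    linear_combination -this
  have eZ := der_hev (CC.comp C) d isDer_dX
    (fun s => by rw [RingHom.comp_apply, CC_apply]; exact dX_C _) o.f 1 v X
  rw [eH, map_sub, isDer_dX, dC, dX_C, dX_map, dX_X, isDer_dX.one] at eZ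
  have ee : -(hev CC (d + 1) o.P 1 v X * (X * dX _ v - v) + hev CC (d + 1) o.Q 1 v X) -
      ((d + 1 : ℕ) : AA k⟦X⟧) * C X * X =
      CC X * -(X * map C (((d + 1 : ℕ) : AA k) * γ - thP _ γ) + M v) := by
    rw [eP, eQ, map_sub, map_mul, map_natCast, thP_apply, map_mul, map_X]
    simp only [M]
    push_cast
    linear_combination X * eZ
  obtain ⟨xi, hxi⟩ := (isUnit_iff_constantCoeff.2 (Ne.isUnit hx) : IsUnit x).exists_right_inv
  have cxi : cc xi = (cc x)⁻¹ := by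
    have := congrArg cc hxi
    rw [map_mul, map_one] at this
    exact eq_inv_of_mul_eq_one_right this
  have z0 : cc (X ^ r * xi) = 0 := by
    rw [map_mul, map_pow, cc, constantCoeff_X, zero_pow (by omega), zero_mul]
  have zJ : X ^ r * xi ∈ up (⊥ : Ideal k) := z0
  have zn : X ^ r * xi ≠ 0 := mul_ne_zero (pow_ne_zero _ X_ne_zero) (right_ne_zero_of_mul_eq_one hxi)
  have cus : cc (y * xi) = cc y / cc x := by rw [map_mul, cxi, div_eq_mul_inv]
  have cid : (cc : k⟦X⟧ →+* k).comp C = RingHom.id k := by ext; simp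
  set Us := hev C (d + 1) o.f 1 (y * xi) (X ^ r * xi) + ev (RingHom.id _) (X ^ r * xi) (C X * γ)
    with hUs
  have U0 : cc Us = 0 := by
    rw [hUs, map_add, map_hev, cid, map_one, cus, z0, hev_zero, h0, map_mul, ev_C _ zJ]
    simp
  have UJ : Us ∈ up (⊥ : Ideal k) := U0
  let E := ev2 (RingHom.id k⟦X⟧) Us (X ^ r * xi)
  have EX : E X = X ^ r * xi := ev2_X _ zJ
  have Eφ : E.comp (CC.comp C) = C := RingHom.ext fun s => ev2_CC _ UJ zJ _
  have Ev : E v = y * xi := by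
    obtain ⟨p, hp⟩ := exists_poly_y (S := k⟦X⟧) C d o.f 1 (X ^ r * xi)
    have p0 : ∀ s, p.eval s = hev C (d + 1) o.f 1 s (X ^ r * xi) := fun s => by
      simpa using (hp _ (RingHom.id _) s).1
    have p1 : ∀ s, p.derivative.eval s = hev C d (MvPolynomial.pderiv 1 o.f) 1 s (X ^ r * xi) :=
      fun s => by simpa using (hp _ (RingHom.id _) s).2
    refine (hensel_unique (up (⊥ : Ideal k)) p ?_ ?_ ?_).symm
    · rw [isUnit_iff_constantCoeff, p1]
      refine Ne.isUnit ?_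
      change cc _ ≠ 0
      rw [map_hev, cid, map_one, cus, z0, hev_zero, hc_pderiv]; exact h1
    · obtain ⟨s, s', e⟩ := ev2_sub_c00 (up (⊥ : Ideal k)) (φ := RingHom.id k⟦X⟧) UJ zJ v
      change cc (E v - y * xi) = 0
      rw [map_sub, cus, show E v = _ from e, map_add, map_add, map_mul, map_mul _ (X ^ r * xi), U0, z0]
      simpa using sub_eq_zero.2 u0
    · have := congrArg E ue
      rw [map_add, map_hev, Eφ, map_one, EX, show E (map C (C X * γ)) = _ from ev2_mapC _ UJ zJ _,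
        show E (C X) = _ from ev2_CX _ UJ zJ] at this
      rw [p0, p0]
      linear_combination hUs - this
  have cz : coeL k (X ^ r * xi) = wL k r * coeL k xi := by
    rw [map_mul, map_pow, coeL_X, wL_pow, mul_one]
  have ww : wL k (-(r : ℤ)) * wL k r = 1 := by rw [← wL_add, neg_add_cancel, wL_zero]
  have cx : coeL k x * coeL k xi = 1 := by rw [← map_mul, hxi, map_one]
  have cX0 : cw (dX k⟦X⟧) (X : AA k⟦X⟧) = 0 := cw_X isDer_dX.one
  have key := hC k (d + 1) o.P o.Q _ 1 v X Us (X ^ r * xi) o.dP o.dQ hcen U0 z0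
    (by rw [show ev2 _ _ _ X = _ from EX]; exact zn)
    (by
      rw [show ev2 _ _ _ X = _ from EX, cz, map_one, map_one]
      change 1 = wL k (-(r : ℤ)) * coeL k x * _
      linear_combination (-(coeL k x * coeL k xi)) * ww - cx)
    (by
      rw [show ev2 _ _ _ X = _ from EX, cz, show ev2 _ _ _ v = _ from Ev, map_mul]
      change _ = wL k (-(r : ℤ)) * coeL k y * _
      linear_combination (-(coeL k y * coeL k xi)) * ww)
    (by
      rw [cU.one, isDer_dX.one, cX0, dX_X]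
      intro h
      have := congrArg E eU
      simp only [zero_mul, mul_zero, sub_zero, zero_sub, mul_one, one_mul, neg_neg, sub_self] at h
      rw [map_mul, show E (cw _ v) = 0 from h, mul_zero, map_one] at this
      exact zero_ne_one this)
  rw [cU.one, isDer_dX.one, cX0, dX_X] at key
  refine ⟨{ o with
    u := v
    b := X - hev CC (d + 1) o.P 1 v X * cw (dX k⟦X⟧) v
    e := -(hev CC (d + 1) o.P 1 v X * (X * dX _ v - v) + hev CC (d + 1) o.Q 1 v X) -
      ((d + 1 : ℕ) : AA k⟦X⟧) * C X * X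
    c := C X * γ
    Us := Us
    zs := X ^ r * xi
    tc := dvd_mul_right _ _
    eu := ue
    su := by rw [u0]; exact h1
    eb := by ring
    ee := by rw [fB]; ring
    tb := ⟨-(hev CC (d + 1) P1 1 v X * cw (dX k⟦X⟧) v), by rw [eP]; linear_combination (-X) * eU⟩
    te := ⟨_, ee⟩
    ne := fun j j1 jd => ?_
    U0 := U0
    z0 := z0
    zn := zn
    cen := ?_ }⟩
  · obtain ⟨j, rfl⟩ : ∃ j', j = j' + 1 := ⟨j - 1, by omega⟩
    have e := congrArg (coeff j) hγ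
    rw [coeff_mk, if_pos (by omega)] at e
    rw [co2, coeff_zero_eq_constantCoeff_apply, ← coeff_red, ee, map_mul red, map_neg red,
      map_add red, map_mul red,
      red_mapC, red_X, CC_apply, red_C, cc, constantCoeff_C, coeff_C_mul, map_neg, map_add,
      coeff_succ_X_mul, map_sub, coeff_thP, ← map_natCast (C : k⟦X⟧ →+* AA k), coeff_C_mul, ← e]
    have hne : ((d + 1 : k) - j) ≠ 0 := by
      rw [sub_ne_zero]; exact_mod_cast (by omega : d + 1 ≠ j)
    have : (C ((d + 1 : k) - j) : k⟦X⟧) * C ((d + 1 : k) - j)⁻¹ = 1 := by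
      rw [← map_mul, mul_inv_cancel₀ hne, map_one]
    simp only [map_sub, map_add, map_natCast, map_one] at this
    push_cast
    linear_combination X * coeff (j + 1) (red (M v)) * this
  · convert key using 1
    · ring
    · rw [fB]; ring

namespace Blog
open Pool.Agent.MP_05b4bd_ag.ES.Blog

theorem kill3 (hK : KillStmt3) (hO : ObsStmt) {k K : Type} [Field k] [CharZero k] [Field K]
    (τ : Polynomial k →+* K) (hτ : Function.Injective τ) {dK : K →+ K} (hdK : IsDer dK)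
    (dτ : ∀ s, dK (τ s) = τ ((Polynomial.derivative (R := k)).toAddMonoidHom s)) {d ε : ℕ}
    (hd : 3 ≤ d) {x y : k⸨X⸩} {a b : (AA k)⟦X⟧} {Wt lam : (AA (Polynomial k))⟦X⟧}
    {G0 G1 : AA (Polynomial k)}
    (ho : Obs k d (cL k) (thL k) x y (map (out ε) a) (map (out ε) b))
    (ld : LD (tA _ ε) (DG k ε) (map (mA Polynomial.C) a) (map (mA Polynomial.C) b) Wt lam G0 G1)
    (g0 : DG k ε G0 ≠ 0) (cr : dl2 k G0 * DG k ε G1 = dl2 k G1 * DG k ε G0) :
    dl2 k G0 = 0 ∧ dl2 k G1 = 0 ∧ cw (DG k ε) Wt = cw (DA _ ε) Wt := by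
  obtain ⟨η, hη⟩ : ∃ η : AA (Polynomial k) →+* TT K, ∀ c, η c = out ε (mA τ c) :=
    ⟨(out ε).comp (mA τ), fun _ => rfl⟩
  have ηi : Function.Injective η := fun c c' e =>
    mA_inj hτ (out_inj ε (by rw [← hη, ← hη, e]))
  have ηδ : ∀ c, cw (cwL dK) (η c) = η (dl2 k c) := fun c => by
    rw [hη, hη, cw_out]
    exact congrArg (out ε) (cw_map' (fun f => cw_map' dτ f) c)
  have ηD : ∀ c, cw (thL K + cwL dK) (η c) = η (DG k ε c) := fun c => by
    rw [cw_add, AddMonoidHom.add_apply, ηδ, DG_apply, map_add, hη c, th_out, mA_DA, ← hη]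
  have ld2 := ld.push' η (t' := X) (by rw [hη, mA_tA, out_tA]) ηD
  have ob := (hO k d _ _ _ _ _ _ _ ho).2.2.2 K⸨X⸩ (thL K + cwL dK)
    (mapL (τ.comp Polynomial.C)) 1 one_ne_zero (isDer_thL.add hdK.coefL) fun c => by
      have h0 : cwL dK (mapL (τ.comp Polynomial.C) c) = 0 := by
        ext i
        rw [coeff_cwL, coeff_mapL]
        simpa using dτ (Polynomial.C (c.coeff i))
      rw [AddMonoidHom.add_apply, thL_mapL, h0, add_zero, one_mul]
  have tr : ∀ c : (AA k)⟦X⟧, mA (mapL (τ.comp Polynomial.C)) (map (out ε) c) =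
      map η (map (mA Polynomial.C) c) := fun c => by
    rw [map_map _ η ((out ε).comp (mA (τ.comp Polynomial.C))) fun c => by
      rw [hη, mA_mA]; rfl]
    exact map_map _ _ _ (fun c => mT_out ε _ c) c
  rw [map_one, one_mul, tr, tr] at ob
  have z : ∀ c : (AA k)⟦X⟧, cw (cw (cwL dK)) (map η (map (mA Polynomial.C) c)) = 0 := fun c => by
    ext1 i
    rw [coeff_cw, coeff_map, coeff_map, ηδ, dl2_mA, map_zero, map_zero]
  obtain ⟨k0, k1, k2⟩ := hK k K⸨X⸩ d _ _ (cwL dK) _ _ _ _ _ _ _ _ hd ob ld2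
    (by rw [ηD]; exact fun e => g0 (ηi (e.trans (map_zero η).symm))) hdK.coefL
    (fun c => by
      rw [AddMonoidHom.add_apply, AddMonoidHom.add_apply, map_add, thL_cwL])
    (z a) (z b) (by rw [ηδ, ηδ, ηD, ηD, ← map_mul, ← map_mul, cr])
  refine ⟨ηi (by rw [← ηδ, k0, map_zero]), ηi (by rw [← ηδ, k1, map_zero]), ?_⟩
  ext1 i
  have h1 := congrArg (coeff i) k2
  rw [coeff_cw, coeff_map, ηδ, map_zero] at h1
  rw [coeff_cw, coeff_cw, DG_apply, ηi (h1.trans (map_zero η).symm), add_zero]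

end Blog

open Pool.Agent.MP_05b4bd_ag.ES.Blog hiding kill3 in
open Pool.Agent.MP_05b4bd_ag.ES.U.Blog in
theorem blogS3 (hL : LienAStmt) (hP : PsiStmt) (hS : SymStmt) (h2 : Log2Stmt3) (hK : KillStmt3)
    (hO : ObsStmt) : BlogStmt3 := by
  intro k _ _ _ d ε N e a b a0 b0 y n ps qs W hd h
  obtain ⟨a', ha'⟩ : ∃ a', a' = map (mA (Polynomial.C (R := k))) a := ⟨_, rfl⟩
  obtain ⟨b', hb'⟩ : ∃ b', b' = map (mA (Polynomial.C (R := k))) b := ⟨_, rfl⟩
  have ca : cc a' = mA Polynomial.C (cc a) := by rw [ha']; rfl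
  have cb : cc b' = mA Polynomial.C (cc b) := by rw [hb']; rfl
  obtain ⟨Wt, lam, G0, G1, ld, le, s0, s1, v0, v1⟩ := hL k ε N d a' b' h.e1 (by omega)
    (by
      have := map_dvd (map (mA (Polynomial.C (R := k)))) h.ta
      simpa [mA_tA, ha'] using this)
    (by
      have := map_dvd (map (mA (Polynomial.C (R := k)))) h.tb
      simpa [mA_tA, hb'] using this)
    (fun j => by rw [ha', coeff_map]; exact SS_mA _ (h.sa j))
    (fun j => by rw [hb', coeff_map]; exact SS_mA _ (h.sb j))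
  have pn : ps ≠ 0 := fun e => by
    have := h.pq
    rw [e, zero_mul] at this
    exact pow_ne_zero n X_ne_zero this.symm
  obtain ⟨-, p2, p3, p4, -⟩ := hP k ε ps qs h.e1 h.p0 h.q0 pn h.qn
  have ld1 := ld.push' (psiL ε ps qs) (t' := C (X ^ n)) (by rw [p4, h.pq]) p3
  rw [ha', hb', map_map _ _ _ p2, map_map _ _ _ p2] at ld1
  obtain ⟨g0, S, i1, i2, ψ1, ψ2, rf, nv, q0, q1⟩ := hS k _ _ _ _ _ _ _ W
    (map_dvd C (dvd_pow_self X (by have := h.n1; omega))) ld1 h.W0 h.cen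
  have g0' : DG k ε G0 ≠ 0 := fun e => g0 (by rw [p3, e, map_zero])
  have cr := h2 k d ε N n ps qs (cc a) (cc b) G0 G1 S ψ1 ψ2 hd h.e1 h.N1 h.n1 h.p0 h.q0 h.qn h.pq
    (h.ha ▸ supp_pow h.pa e) (h.hb ▸ supp_pow h.pb e)
    (h.outer.imp
      (fun h1 h3 => h1 (by
        rw [h.ha] at h3
        rw [(mul_eq_zero.1 h3).resolve_left (pow_ne_zero _ (tA_ne ε)), map_zero]))
      (fun h1 h3 => h1 (by
        rw [h.hb] at h3
        rw [(mul_eq_zero.1 h3).resolve_left (pow_ne_zero _ (tA_ne ε)), map_zero])))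
    (ca ▸ cb ▸ le) rf (nv X (by simp)) q0 q1
  obtain ⟨K, _, τ, dK, hτ, hdK, dτ⟩ := frac (P := Polynomial k) k4_isDer
  obtain ⟨l0, l1, l2⟩ := kill3 hK hO τ hτ hdK dτ hd h.obs (by rw [← ha', ← hb']; exact ld) g0' cr
  have m0 : DG k ε G0 = DA _ ε G0 := by rw [DG_apply, l0, add_zero]
  have m1 : DG k ε G1 = DA _ ε G1 := by rw [DG_apply, l1, add_zero]
  have ld3 : LD (tA _ ε) (DA _ ε) a' b' Wt lam G0 G1 :=
    ⟨ld.u, ld.w, ld.ea, by rw [← l2, ← m0, ← m1]; exact ld.eb⟩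
  obtain ⟨ρ, hρ⟩ : ∃ ρ : AA (Polynomial k) →+* AA k, ρ = mA (Polynomial.evalRingHom 0) :=
    ⟨_, rfl⟩
  have r0 : ∀ c, ρ (mA Polynomial.C c) = c := fun c => by rw [hρ, ev0_mA]
  have r1 : ∀ c, DA k ε (ρ c) = ρ (DA _ ε c) := fun c => by rw [hρ, mA_DA]
  have r2 : ρ (tA _ ε) = tA k ε := by rw [hρ, mA_tA]
  have r3 : ∀ c, SS ε N c → SS ε N (ρ c) := fun c hc => by rw [hρ]; exact SS_mA _ hc
  have r4 : ∀ c, dl2 k c = 0 → c = mA Polynomial.C (ρ c) := fun c hc => by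
    rw [hρ]; exact const_of hc
  have ld4 := ld3.push' ρ (t' := tA k ε) (by rw [r2]) r1
  rw [ha', hb', map_map _ ρ (RingHom.id _) r0, map_map _ ρ (RingHom.id _) r0, map_id,
    id, id] at ld4
  have le4 := le.push ρ (D' := DA k ε) (by rw [m0, r1]) (by rw [m1, r1])
    (by rw [DG_apply, r1, ca, dl2_mA, add_zero])
  rw [ca, cb, r2, r0, r0, map_neg, map_natCast] at le4
  have du : IsUnit (-(d : AA (Polynomial k))) := by
    have h1 : IsUnit (d : k) := isUnit_iff_ne_zero.2 (by exact_mod_cast (by omega : d ≠ 0))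
    have h3 := h1.map ((CC : Polynomial k →+* AA (Polynomial k)).comp Polynomial.C)
    rw [map_natCast] at h3
    exact h3.neg
  have da : tA (Polynomial k) ε ^ e ∣ cc a' := by
    rw [ca, h.ha, map_mul, map_pow, mA_tA]; exact dvd_mul_right _ _
  have db : tA (Polynomial k) ε ^ e ∣ cc b' := by
    rw [cb, h.hb, map_mul, map_pow, mA_tA]; exact dvd_mul_right _ _
  have dd := (isDer_DG ε).dvd (DG_tA ε) da
  obtain ⟨⟨e1, e2, e3, f1⟩, e4, e5, f0⟩ := le
  have w0 : tA (Polynomial k) ε ^ (2 * e) ∣ G0 := by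
    apply v0
    rw [← (du.pow 2).dvd_mul_left, eq_add_of_sub_eq f0, two_mul, pow_add]
    exact dvd_add (mul_dvd_mul (da.mul_left _) (dvd_add (da.mul_left _) (db.mul_left _)))
      (mul_dvd_mul da db)
  have w1 : tA (Polynomial k) ε ^ e ∣ G1 := by
    apply v1
    rw [← du.dvd_mul_left, eq_add_of_sub_eq (eq_sub_of_add_eq f1)]
    exact dvd_add (dvd_sub (Dvd.dvd.mul_left (dvd_add (dvd_add (da.mul_left _) (dd.mul_left _))
      (db.mul_left _)) _) db) dd
  have t2 : tA k ε ^ (2 * e) ∣ ρ G0 := by rw [← r2, ← map_pow]; exact map_dvd ρ w0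
  have t3 : tA k ε ^ e ∣ ρ G1 := by rw [← r2, ← map_pow]; exact map_dvd ρ w1
  have t4 : DA k ε (ρ G0) ≠ 0 := fun e => g0' (by rw [m0, r4 _ l0, mA_DA, e, map_zero])
  have t5 : ψ1 (psi0 ε ps qs (ρ G0)) = ψ2 (psi0 ε ps qs (ρ G0)) := by
    rw [← p2, ← r4 _ l0]; exact q0
  have t6 : ψ1 (psi0 ε ps qs (ρ G1)) = ψ2 (psi0 ε ps qs (ρ G1)) := by
    rw [← p2, ← r4 _ l1]; exact q1
  exact ⟨_, _, ρ G0, ρ G1, ld4, le4, r3 _ s0, r3 _ s1, t2, t3, t4, S, i1, i2, ψ1, ψ2, rf, nv,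
    t5, t6⟩

namespace Syma
open Pool.Agent.MP_05b4bd_ag.ES.Syma

variable {k L U : Type} [Field k] [CharZero k] [Field L] [Field U] {d : ℕ}

theorem sigma3 (hA : DerAlgStmt) [CharZero L] [CharZero U] (I : Inf k d L) (hd : 3 ≤ d)
    (φ : L →+* U⟦X⟧) {e : U⟦X⟧ →+ U⟦X⟧} (he : IsDer e) (h0 : ∀ c, e (φ (I.κ c)) = 0) :
    (∃ σ, ∀ c, e (φ c) = σ * φ (I.D c)) ∧ ∀ z, (∀ c, z * φ (I.D c) = 0) → z = 0 := by
  obtain ⟨hD, -, hF, hx, hy⟩ := I.cv
  set x := cc I.x0
  set y := cc I.y0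
  set F := hc d I.f
  have hE : x * evp I.κ x y (MvPolynomial.pderiv 0 F) + y * evp I.κ x y (MvPolynomial.pderiv 1 F) =
      d := by
    have := congrArg (evp I.κ x y) (euler (hc_hom d I.f))
    simp only [map_add, map_mul, map_natCast] at this
    rw [hF] at this
    simpa [evp] using this
  have hE' := congrArg φ hE
  simp only [map_add, map_mul, map_natCast] at hE'
  have hd0 : (d : U⟦X⟧) ≠ 0 := by
    have : (d : U⟦X⟧) = C (d : U) := (map_natCast _ _).symm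
    rw [this]
    intro h
    have := congrArg cc h
    simp at this
    omega
  have hev : ∀ u, φ (evp I.κ x y u) = MvPolynomial.eval₂ (φ.comp I.κ) ![φ x, φ y] u := fun u =>
    k4_map I.κ φ u x y
  have h1 := he.eval₂ (φ.comp I.κ) h0 (φ x) (φ y) F
  rw [← hev, ← hev, ← hev, hF, map_one, he.one] at h1
  refine ⟨?_, fun z hz => ?_⟩
  · have hdU : (d : U) ≠ 0 := by exact_mod_cast (by omega : d ≠ 0)
    have hinv : (C (d : U)⁻¹ : U⟦X⟧) * d = 1 := by
      rw [← map_natCast (C : U →+* U⟦X⟧), ← map_mul, inv_mul_cancel₀ hdU, map_one]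
    refine ⟨C (d : U)⁻¹ * (φ y * e (φ x) - φ x * e (φ y)), fun c => ?_⟩
    have key := (hA L ⊤).2.2.2.2.1 U⟦X⟧ φ _
      ((he.comp_hom φ).sub ((hD.hom_comp φ).mulLeft
        (C (d : U)⁻¹ * (φ y * e (φ x) - φ x * e (φ y))))) (Set.range I.κ ∪ {x, y}) ?_ c
      (by have := I.gb; unfold gf at this; rw [this]; trivial)
    · simpa [sub_eq_zero] using key
    · rintro m (⟨r, rfl⟩ | rfl | rfl)
      · simp [h0, I.cv.2.1]
      · have : e (φ x) - C (d : U)⁻¹ * (φ y * e (φ x) - φ x * e (φ y)) * φ (I.D x) = 0 := by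
          rw [hx]
          linear_combination (-e (φ x)) * hinv - C (d : U)⁻¹ * e (φ x) * hE' -
            C (d : U)⁻¹ * φ x * h1
        simpa using this
      · have : e (φ y) - C (d : U)⁻¹ * (φ y * e (φ x) - φ x * e (φ y)) * φ (I.D y) = 0 := by
          rw [hy, map_neg]
          linear_combination (-e (φ y)) * hinv - C (d : U)⁻¹ * e (φ y) * hE' -
            C (d : U)⁻¹ * φ y * h1
        simpa using this
  · have a1 := hz x
    have a2 := hz y
    rw [hx] at a1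
    rw [hy, map_neg] at a2
    have : z * d = 0 := by linear_combination (-z) * hE' + φ y * a1 - φ x * a2
    exact (mul_eq_zero.1 this).resolve_right hd0

theorem core3 (h1 : S1Stmt3) (hA : DerAlgStmt) [CharZero L] [CharZero U] (I : Inf k d L)
    (D1 : U →+ U) (i : L →+* U) (φ : L →+* U⟦X⟧) (s : U⟦X⟧) (W l : AA U) (hd : 3 ≤ d)
    (nd : ¬ I.a ∣ X * I.b) (hi : DExt I.D D1 i) (hk : ∀ c, φ (I.κ c) = C (i (I.κ c)))
    (hs : ∀ c, cw D1 (φ c) = s * φ (I.D c)) (hW : C X ∣ W - X) (hl : IsUnit l)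
    (e2 : ev ((C : U⟦X⟧ →+* AA U).comp (hat φ)) W I.a * dX _ W = l * mA i I.a)
    (e1 : ev ((C : U⟦X⟧ →+* AA U).comp (hat φ)) W I.a * cw (cw D1) W +
      C s * ev ((C : U⟦X⟧ →+* AA U).comp (hat φ)) W (X * I.b) = l * (X * mA i I.b))
    (δ : U →+ U) (hδ : IsDer δ) (h0 : ∀ c, δ (i c) = 0) (hc : ∀ c, D1 (δ c) = δ (D1 c)) :
    cw (cw δ) W = 0 ∧ cw δ s = 0 ∧ ∀ c, cw δ (φ c) = 0 := by
  have hD : IsDer I.D := I.cv.1
  obtain ⟨⟨σ, hσ⟩, hz⟩ := sigma3 hA I hd φ hδ.coefw (fun c => by rw [hk, cw_C, h0, map_zero])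
  have hc1 : ∀ f : U⟦X⟧, cw D1 (cw δ f) = cw δ (cw D1 f) := cw_comm hc
  have hc2 : ∀ f : AA U, cw (cw D1) (cw (cw δ) f) = cw (cw δ) (cw (cw D1) f) := cw_comm hc1
  have hσs : cw D1 σ = cw δ s := by
    refine sub_eq_zero.1 (hz _ fun c => ?_)
    have := hc1 (φ c)
    rw [hσ, hs, hi.1.coefw _ _, hδ.coefw _ _, hσ, hs] at this
    linear_combination this
  obtain ⟨l', hl'⟩ := hl.exists_right_inv
  set Φ := ev ((C : U⟦X⟧ →+* AA U).comp (hat φ)) W
  have nd' : ¬ mA i I.a ∣ X * mA i I.b := fun h => nd ((nd_map i).1 h)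
  have e3 : l * (l' * (Φ I.a * cw (cw δ) W + Φ (X * I.b) * C σ)) =
      Φ I.a * cw (cw δ) W + Φ (X * I.b) * C σ := by rw [← mul_assoc, hl', one_mul]
  have key := int3 hi.1.coefw.coefw isDer_dX hδ.coefw.coefw (chain φ hD hi.1 hs hW I.a)
    (chainX φ hD hW I.a) (chain φ hD hδ hσ hW I.a) (chain φ hD hi.1 hs hW (X * I.b))
    (chainX φ hD hW (X * I.b)) (chain φ hD hδ hσ hW (X * I.b)) (by rw [map_zero, dX_C])
    (by rw [cw_C, cw_C, hσs]) (by rw [map_zero, dX_C]) (dX_cw _ W).symm (hc2 W) (dX_cw _ W)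
    (l := l) (o1 := X * mA i I.b) (o2 := mA i I.a) (by linear_combination -e1)
    (by linear_combination -e2) e3
  have z1 : cw (cw δ) (X * mA i I.b) = 0 := by
    rw [← mA_X i, ← map_mul]; exact cw2_mA h0 _
  rw [cw2_mA h0, z1] at key
  have key' := (mul_eq_zero.1 key).resolve_left (pow_ne_zero 2 hl.ne_zero)
  have o3 : l' * (Φ I.a * cw (cw δ) W + Φ (X * I.b) * C σ) = 0 := by
    by_contra h
    refine h1 k U d (i.comp I.κ) D1 (i (cc I.x0)) (i (cc I.y0)) (mA i I.a) (mA i I.b) _ hd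
      ⟨hi.1, L, inferInstance, I, i, 1, one_ne_zero, fun c => by rw [hi.2, one_mul],
        fun _ => rfl, rfl, rfl, rfl, by rw [map_one, one_mul]⟩ nd' ⟨h, ?_⟩
    linear_combination key'
  rw [o3, mul_zero] at e3
  have hdU : (d : U) ≠ 0 := by exact_mod_cast (by omega : d ≠ 0)
  obtain ⟨w, u, w0, hu, ha⟩ := exists_w0 (a := mA i I.a) (c := -C (d : U))
    ((IsUnit.mk0 _ hdU).map C).neg (by rw [red_mA, I.ra]; simp)
  have hw : w ∈ up (⊥ : Ideal U) := by rw [mem_up, w0]; simp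
  have dA : X - C w ∣ Φ I.a := by
    refine (unitW hW).dvd_mul_right.1 ?_
    rw [e2, ha]
    exact Dvd.intro (l * u) (by ring)
  have σ0 : σ = 0 := by
    by_contra h
    apply nd'
    have hB : X - C w ∣ Φ (X * I.b) := by
      have a1 := (factor _ hw).1 dA
      have a2 := congrArg (ev (RingHom.id U⟦X⟧) w) e3
      rw [map_zero, map_add, map_mul, map_mul, a1, zero_mul, zero_add, ev_C _ hw] at a2
      exact (factor _ hw).2 ((mul_eq_zero.1 a2.symm).resolve_right h)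
    rw [ha, hu.mul_right_dvd, ← hl.dvd_mul_left, ← e1]
    exact dvd_add (dA.mul_right _) (hB.mul_left _)
  have A0 : Φ I.a ≠ 0 := by
    intro h
    rw [h, zero_mul, ha] at e2
    have := (mul_eq_zero.1 ((mul_eq_zero.1 e2.symm).resolve_left hl.ne_zero)).resolve_right
      hu.ne_zero
    have := congrArg (coeff 1) this
    simp [coeff_X] at this
  rw [σ0] at e3 hσs hσ
  refine ⟨?_, ?_, fun c => by rw [hσ, zero_mul]⟩
  · rw [map_zero, mul_zero, add_zero] at e3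
    exact (mul_eq_zero.1 e3.symm).resolve_left A0
  · rw [← hσs, map_zero]

end Syma

open Pool.Agent.MP_05b4bd_ag.ES.Syma hiding core3 sigma3 in
open Pool.Agent.MP_05b4bd_ag.ES.U.Syma in
theorem symaS3 (h1 : S1Stmt3) (h2 : CommuteStmt) (hA : DerAlgStmt) : SymaStmt3 := by
  intro k L U _ _ _ _ d I D1 i φ s W l hd nd hi hk hs hW hl e2 e1 δ hδ h0
  have : CharZero L := (RingHom.charZero_iff I.κ.injective).1 inferInstance
  have : CharZero U := (RingHom.charZero_iff i.injective).1 inferInstance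
  obtain ⟨Ω, _, D', δ', j, hj, hδ', hc, hb, hf⟩ := h2 U D1 δ hi.1 hδ
  have : CharZero Ω := (RingHom.charZero_iff j.injective).1 inferInstance
  have it : ∀ n c, D1^[n] (i c) = i (I.D^[n] c) := by
    intro n
    induction n with
    | zero => intro c; rfl
    | succ n ih => intro c; rw [Function.iterate_succ_apply, hi.2, ih]; rfl
  have hW' : C X ∣ mA j W - X := by
    have := map_dvd (mA j) hW
    rwa [mA_CX, map_sub, mA_X] at this
  have m1 : ∀ f, cw D' (map j f) = map j (cw D1 f) := cw_map' hj.2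
  have m2 : ∀ f : AA U, cw (cw D') (mA j f) = mA j (cw (cw D1) f) := cw_map' m1
  have m3 : ∀ f : AA U, dX _ (mA j f) = mA j (dX _ f) := dX_map _
  have mC : ∀ r : U⟦X⟧, mA j (C r) = C (map j r) := fun r => map_C _ _
  obtain ⟨r1, r2, r3⟩ := core3 h1 hA I D' (j.comp i) ((map j).comp φ) (map j s) (mA j W) (mA j l) hd
    nd ⟨hj.1, fun c => by simp only [RingHom.comp_apply, hj.2, hi.2]⟩
    (fun c => by simp only [RingHom.comp_apply, hk, map_C])
    (fun c => by simp only [RingHom.comp_apply, m1, hs, map_mul]) hW' (hl.map _)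
    (by rw [push j φ hW hW', m3, ← mA_mA, ← map_mul, ← map_mul, e2])
    (by
      have := congrArg (mA j) e1
      rw [map_add, map_mul, map_mul, map_mul (mA j), map_mul (mA j), mA_X, mA_mA, mC] at this
      rw [push j φ hW hW', push j φ hW hW', m2, this])
    δ' hδ' (fun c => hf _ fun n => by rw [it, h0]) hc
  have b1 : ∀ f : U⟦X⟧, cw δ' (map j f) = 0 → cw δ f = 0 := by
    intro f h
    ext n
    have := congrArg (coeff n) h
    rw [coeff_cw, coeff_map, map_zero] at this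
    rw [coeff_cw, map_zero, hb _ this]
  refine ⟨?_, b1 _ r2, fun c => b1 _ (r3 c)⟩
  refine PowerSeries.ext fun n => ?_
  have := congrArg (coeff n) r1
  rw [coeff_cw, mA, coeff_map, map_zero] at this
  rw [coeff_cw, map_zero, b1 _ this]

end Pool.Agent.MP_05b4bd_ag.ES.U
end

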