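import Pool.Agent.MP_05b4bd_ag.um.P1
import Pool.Agent.MP_05b4bd_ag.um.P2
import Pool.Agent.MP_05b4bd_ag.um.P3
import Pool.Agent.MP_05b4bd_ag.um.P4
import Pool.Agent.MP_05b4bd_ag.um.P5
import Pool.Agent.MP_05b4bd_ag.um.P6
import Pool.Agent.MP_05b4bd_ag.esc.Ann
import Pool.Agent.MP_05b4bd_ag.esc.Wrap2
import Pool.Agent.MP_05b4bd_ag.esc3.Log
import Pool.Agent.MP_05b4bd_ag.pc3.Ts2
import Pool.Agent.MP_05b4bd_ag.um.Tr
import Pool.Agent.MP_05b4bd_ag.um.Vec
import Mathlib.FieldTheory.RatFunc.Luroth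
import Pool.Agent.MP_05b4bd_ag.um.Act
import Pool.Agent.MP_05b4bd_ag.um.Icd
import Pool.Agent.MP_05b4bd_ag.um.Cmpv
import Pool.Agent.MP_05b4bd_ag.um.Gm
import Pool.Agent.MP_05b4bd_ag.um.Deg
import Pool.Agent.MP_05b4bd_ag.um.Tor3

-- ======== part 0: formerly Pool.Agent.MP_05b4bd_ag.um.Esc
section MrgPart0

/-! Centres do not escape, given the two statements on the periods. -/

namespace Pool.Agent.MP_05b4bd_ag.ES.U

theorem twoU (hIlAbs : IlAbsStmt) : TwoStmt := twoS evbS (ilS glcS hIlAbs) genTopS nzcS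

theorem escU (hIlAbs : IlAbsStmt) (hInv : InvStmt3) : EscStmt3 :=
  have hDerAlg : DerAlgStmt := derAlgS
  have hGenTop : GenTopStmt := genTopS
  have hChart : ChartStmt := chartS
  have hMkinf : MkinfStmt := mkinfS hDerAlg
  have hRat : RatStmt := ratS
  have hObs : ObsStmt := obsS
  have hRefl : ReflStmt := reflS
  have hSym : SymStmt := symS cherS hRefl
  have hDisc : DiscStmt := discS pairAbsS
  have hBase : BaseStmt := baseS hGenTop hDerAlg
  have hCmp : CmpStmt := cmpS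
  have hAmalg : AmalgStmt := amalgS
  have hGlc : GlcStmt := glcS
  have hIl : IlStmt := ilS hGlc hIlAbs
  have hEvb : EvbStmt := evbS
  have hTwo : TwoStmt := twoU hIlAbs
  have hS1b : S1bStmt3 := s1bS3 hCmp hAmalg hEvb hGenTop (wtS hGlc) hTwo nzcS
  have hDeck : DeckStmt := deckS (evenS hRefl) hDisc hAmalg hCmp
  have hS1 : S1Stmt3 := s1S3 (dichS commonS) hBase hS1b (s1aS3 hBase hCmp hAmalg hDeck hInv)
  have hS2a : S2aStmt3 :=
    s2aS3 (symaS3 hS1 commuteS hDerAlg) (symbS3 hCmp hIl holS hGenTop) hDerAlg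
  have hDfin : DfinStmt3 := dfinS3 lienS hObs hSym hRefl hDisc hS2a hGenTop loc0S
  have hPframe : PframeStmt := pframeS hMkinf hRat hObs
  have hAfin : AfinStmt3 :=
    afinS3 (amkS pramS peqS) (a12S a1S) (a3S lowS) abmkS extS hPframe hS1
  have hPsi : PsiStmt := psiS expS
  have hBmk : BmkStmt := bmkS (bnumS pramS peqS) bendS abmkS hPframe hPsi
  have hLog2 : Log2Stmt3 := log2S3 hDisc (log1S3 holS hDerAlg) hPsi expS
  have hKill : KillStmt3 := killS3 hS1
  have hBlog : BlogStmt3 := blogS3 lienAS hPsi hSym hLog2 hKill hObs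
  have hS2b : S2bStmt3 :=
    s2bS3 hKill commuteS hDerAlg (s2cS3 hCmp hIl holS hGenTop hEvb nzcS traceS)
  have hBfin : BfinStmt3 := bfinS3 hBlog hDisc (annS pairAbsS) hS2a hS2b hPsi hObs hGenTop locIS
  escS3 (case8S3 hChart hMkinf hRat hDfin hGenTop) (pmkS3 hChart hGenTop) hAfin hBmk hBfin

end Pool.Agent.MP_05b4bd_ag.ES.U

end MrgPart0

-- ======== part 1: formerly Pool.Agent.MP_05b4bd_ag.um.Gr
section MrgPart1

/-! The degree filtration on the quotient by the brackets with `f`. -/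

namespace Pool.Agent.MP_05b4bd_ag.UM

open MvPolynomial HC
open ES hiding Gen GenTopStmt GenJacStmt IlAbsStmt InvStmt3 Inf
open ES.U
open scoped TensorProduct PowerSeries LaurentSeries

namespace Gr

variable {k : Type} [Field k] {e : ℕ} {f : R2 k}

theorem br_one {a : R2 k} (ha : DL 1 a) (f : R2 k) : br a f = 0 := by
  have h0 : pderiv 0 a = 0 := (DL.pderiv 0 ha).eq_zero
  have h1 : pderiv 1 a = 0 := (DL.pderiv 1 ha).eq_zero
  simp only [br, h0, h1]; ring

theorem br_sub_C (f v : R2 k) (b : k) : br ((f - C b) * v) f = (f - C b) * br v f := by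
  rw [Esc.br_mul, Esc.br_sub, Esc.br_self, Esc.br_C]; ring

variable [CharZero k]

/-- A form that commutes with the top part of `f` is the top part of a polynomial in `f`. -/
theorem ker (hf : DL (e + 2 + 1) f)
    (hci : CI (pderiv 0 (hc (e + 2) f)) (pderiv 1 (hc (e + 2) f))) (m : ℕ) :
    ∀ η : R2 k, η.IsHomogeneous m → br η (hc (e + 2) f) = 0 →
      ∃ g, DL (m + 1) g ∧ hc m g = η ∧ br g f = 0 := by
  have hF := hc_hom (e + 2) f
  induction m using Nat.strong_induction_on with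
  | _ m ih =>
    intro η hη h0
    by_cases hm : m = 0
    · subst hm
      exact ⟨η, DL.of_hom hη, hc_self hη, br_one (DL.of_hom hη) f⟩
    have hd : hc (e + 2) f ∣ η := Esc.tf hF hci hη hm (by rw [h0]; exact dvd_zero _)
    by_cases hlt : m < e + 2
    · have h1 : η = 0 := Esc.not_dvd_of_lt hF hη hlt hd
      exact ⟨0, DL.zero _, by rw [h1]; exact map_zero _, Esc.br_zero f⟩
    obtain ⟨s, rfl⟩ : ∃ s, m = s + (e + 2) := ⟨m - (e + 2), by omega⟩
    obtain ⟨w, hw⟩ := hd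
    have h1 : η = hc (e + 2) f * hc s w := by
      rw [← hc_self hη, hw, mul_comm, hc_mul_hom _ _ hF, mul_comm]
    have h2 : br (hc s w) (hc (e + 2) f) = 0 := by
      rw [h1, Esc.br_F_mul] at h0
      exact (mul_eq_zero.1 h0).resolve_left (Esc.ne_zero_of_ci hF hci)
    obtain ⟨g, g1, g2, g3⟩ := ih s (by omega) _ (hc_hom s w) h2
    refine ⟨g * f, g1.mul hf, ?_, ?_⟩
    · rw [hc_mul_top g1 hf, g2, h1, mul_comm]
    · rw [Esc.br_mul, g3, Esc.br_self]; ring

theorem one (hf : DL (e + 2 + 1) f)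
    (hci : CI (pderiv 0 (hc (e + 2) f)) (pderiv 1 (hc (e + 2) f))) (n m : ℕ) :
    ∀ a : R2 k, DL m a → DL n (br a f) → ∃ a', DL (n - e) a' ∧ br a' f = br a f := by
  induction m with
  | zero => exact fun a ha _ => ⟨a, ha.mono (Nat.zero_le _), rfl⟩
  | succ m ih =>
    intro a ha hb
    by_cases hm : m + 1 ≤ n - e
    · exact ⟨a, ha.mono hm, rfl⟩
    cases m with
    | zero => exact ⟨0, DL.zero _, by rw [Esc.br_zero, br_one ha]⟩
    | succ s =>
      have h1 : br (hc (s + 1) a) (hc (e + 2) f) = 0 := by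
        rw [← hc_br_top (a := s) (e := e + 1) ha hf]
        exact hb.hc_eq (by omega)
      obtain ⟨g, g1, g2, g3⟩ := ker hf hci (s + 1) _ (hc_hom _ a) h1
      have h2 : br (a - g) f = br a f := by rw [Esc.br_sub, g3, sub_zero]
      obtain ⟨a', h3, h4⟩ := ih (a - g) ((ha.sub g1).pred (by rw [hc_sub, g2, sub_self]))
        (by rwa [h2])
      exact ⟨a', h3, h4.trans h2⟩

theorem two (hf : DL (e + 2 + 1) f)
    (hci : CI (pderiv 0 (hc (e + 2) f)) (pderiv 1 (hc (e + 2) f))) (n : ℕ) (u : R2 k)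
    (hu : DL (n + 1) u) :
    (∃ v, DL n (u - br v f)) ↔ ∃ b, hc n u = br b (hc (e + 2) f) := by
  have hF := hc_hom (e + 2) f
  constructor
  · rintro ⟨v, hv⟩
    have h1 : DL (n + 1) (br v f) := by
      have := hu.sub (hv.mono (Nat.le_succ n))
      rwa [sub_sub_cancel] at this
    obtain ⟨m, hm⟩ := exists_DL v
    obtain ⟨v', h2, h3⟩ := one hf hci (n + 1) m v hm h1
    have h4 : hc n u = hc n (br v' f) := by
      have := hv.hc_eq le_rfl
      rwa [hc_sub, sub_eq_zero, ← h3] at this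
    by_cases hn : n ≤ e
    · refine ⟨0, ?_⟩
      rw [h4, br_one (h2.mono (by omega)), Esc.br_zero]
      exact map_zero _
    · obtain ⟨s, rfl⟩ : ∃ s, n = e + 1 + s := ⟨n - (e + 1), by omega⟩
      exact ⟨_, h4.trans (hc_br_top (a := s) (e := e + 1) (h2.mono (by omega)) hf)⟩
  · rintro ⟨b, hb⟩
    have h1 : hc n u = hc n (br b (hc (e + 2) f)) := by rw [← hb, hc_self (hc_hom n u)]
    by_cases hn : n ≤ e
    · refine ⟨0, ?_⟩
      rw [Esc.br_zero, sub_zero]
      exact hu.pred (h1.trans (hc_of_mm (Esc.br_mm (d := e + 1) hF b) (by omega)))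
    · obtain ⟨s, rfl⟩ : ∃ s, n = e + 1 + s := ⟨n - (e + 1), by omega⟩
      have h2 : DL (s + 2) (hc (s + 1) b) := DL.of_hom (hc_hom _ b)
      refine ⟨hc (s + 1) b, DL.pred (hu.sub (br_DL (a := s + 1) (e := e + 1) h2 hf)) ?_⟩
      rw [hc_sub, hc_br_top (a := s) (e := e + 1) h2 hf, hc_self (hc_hom _ b), h1,
        add_comm (e + 1) s, Esc.hc_br (d := e + 1) hF, sub_self]

theorem three (hf : DL (e + 2 + 1) f)
    (hci : CI (pderiv 0 (hc (e + 2) f)) (pderiv 1 (hc (e + 2) f))) (n : ℕ) (b : k) (m : ℕ) :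
    ∀ u v : R2 k, DL (n + m) u → DL (n + (e + 2)) ((f - C b) * u - br v f) →
      ∃ v', DL n (u - br v' f) := by
  have hF := hc_hom (e + 2) f
  have hb : DL (e + 2 + 1) (f - C b) :=
    hf.sub ((DL.of_hom (isHomogeneous_C (Fin 2) b)).mono (by omega))
  have hb' : hc (e + 2) (f - C b) = hc (e + 2) f := by
    rw [hc_sub, Esc.hc_C_of_ne (by omega), sub_zero]
  induction m with
  | zero => exact fun u _ hu _ => ⟨0, by rwa [Esc.br_zero, sub_zero]⟩
  | succ m ih =>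
    intro u v hu hv
    have hu' : DL (n + m + 1) u := hu
    have h1 : DL (e + 2 + (n + m) + 1) ((f - C b) * u) := hb.mul hu'
    obtain ⟨c, hc1⟩ := (two hf hci _ _ h1).1 ⟨v, hv.mono (by omega)⟩
    rw [hc_mul_top hb hu', hb'] at hc1
    obtain ⟨v1, h2⟩ := (two hf hci _ _ hu').2
      (Esc.br_of_F_mul (d := e + 1) hF hci (hc_hom _ u) hc1)
    obtain ⟨v', h3⟩ := ih (u - br v1 f) (v - (f - C b) * v1) h2 (by
      rw [Esc.br_sub, br_sub_C]
      convert hv using 1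
      ring)
    exact ⟨v1 + v', by rwa [Esc.br_add, ← sub_sub]⟩

end Gr

theorem grS : GrStmt := by
  intro k _ _ d f hd H
  obtain ⟨e, rfl⟩ : ∃ e, d = e + 2 := ⟨d - 2, by omega⟩
  refine ⟨fun n a ha => ?_, Gr.two H.dl H.ci, fun n u v b h => ?_⟩
  · obtain ⟨m, hm⟩ := exists_DL a
    rw [show n + 2 - (e + 2) = n - e by omega]
    exact Gr.one H.dl H.ci n m a hm ha
  · obtain ⟨m, hm⟩ := exists_DL u
    exact Gr.three H.dl H.ci n b m u v (hm.mono (by omega)) h

end Pool.Agent.MP_05b4bd_ag.UM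

end MrgPart1

-- ======== part 2: formerly Pool.Agent.MP_05b4bd_ag.um.Ind
section MrgPart2

/-! Independence of the basis forms modulo the brackets and `F - 1`. -/

namespace Pool.Agent.MP_05b4bd_ag.UM

open MvPolynomial HC
open ES hiding Gen GenTopStmt GenJacStmt IlAbsStmt InvStmt3 Inf
open ES.U
open scoped TensorProduct PowerSeries LaurentSeries

noncomputable section

namespace Ind

variable {k ι : Type} [Field k] [CharZero k] [Fintype ι] {d : ℕ} {F : R2 k} {e : ι → R2 k}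
  {δ : ι → ℕ}

theorem F_mem (hd : 2 ≤ d) (hF : F.IsHomogeneous d) : F ∈ Jac F := by
  have h := euler hF
  have hd0 : (d : k) ≠ 0 := Nat.cast_ne_zero.2 (by omega)
  refine Ideal.mem_span_pair.2 ⟨C (d : k)⁻¹ * X 0, C (d : k)⁻¹ * X 1, ?_⟩
  have h1 : (C (d : k)⁻¹ * (d : R2 k) : R2 k) = 1 := by
    rw [← map_natCast (C : k →+* R2 k), ← map_mul, inv_mul_cancel₀ hd0, map_one]
  linear_combination C (d : k)⁻¹ * h + F * h1

omit [CharZero k] in
theorem hom_sum (hF : F.IsHomogeneous d) (hB : Bas d F e δ) {a : ι → k} {j : ι → ℕ} {n : ℕ}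
    (hn : ∀ i, a i ≠ 0 → δ i + d * j i = n) :
    (∑ i, C (a i) * F ^ j i * e i).IsHomogeneous n := by
  refine IsHomogeneous.sum _ _ _ fun i _ => ?_
  by_cases h : a i = 0
  · rw [h, map_zero, zero_mul, zero_mul]; exact isHomogeneous_zero _ _ _
  · have := ((isHomogeneous_C (Fin 2) (a i)).mul (hF.pow (j i))).mul (hB.hom i)
    rwa [show 0 + d * j i + δ i = n by have := hn i h; omega] at this

theorem step (hd : 2 ≤ d) (hF : F.IsHomogeneous d) (hci : CI (pderiv 0 F) (pderiv 1 F))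
    (hB : Bas d F e δ) (J : ℕ) : ∀ (a : ι → k) (j : ι → ℕ) (n : ℕ) (v : R2 k), (∀ i, j i ≤ J) →
    (∀ i, a i ≠ 0 → δ i + d * j i = n) → ∑ i, C (a i) * F ^ j i * e i = br v F → a = 0 := by
  have key : ∀ (a : ι → k) (j : ι → ℕ) (v : R2 k), ∑ i, C (a i) * F ^ j i * e i = br v F →
      ∀ i, j i = 0 → a i = 0 := by
    intro a j v h i hi
    have h0 : (fun i => if j i = 0 then a i else 0) = 0 := by
      refine hB.ind _ ?_
      have h1 : ∑ i, C (if j i = 0 then a i else 0) * e i =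
          br v F - ∑ i, C (if j i = 0 then 0 else a i) * F ^ j i * e i := by
        rw [← h, ← Finset.sum_sub_distrib]
        refine Finset.sum_congr rfl fun i _ => ?_
        by_cases hj : j i = 0 <;> simp [hj]
      rw [h1]
      refine sub_mem (Esc.br_mem_jac v F) (Ideal.sum_mem _ fun i _ => ?_)
      by_cases hj : j i = 0
      · simp [hj]
      · exact Ideal.mul_mem_right _ _ (Ideal.mul_mem_left _ _
          (Ideal.pow_mem_of_mem _ (F_mem hd hF) _ (by omega)))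
    have := congrFun h0 i
    simpa [hi] using this
  induction J with
  | zero =>
    intro a j n v hj _ h
    funext i
    exact key a j v h i (by have := hj i; omega)
  | succ J ih =>
    intro a j n v hj hn h
    have h0 := key a j v h
    have hn' : ∀ i, a i ≠ 0 → δ i + d * (j i - 1) = n - d := by
      intro i hi
      obtain ⟨t, ht⟩ : ∃ t, j i = t + 1 := ⟨j i - 1, by
        have : j i ≠ 0 := fun h => hi (h0 i h)
        omega⟩
      have := hn i hi
      rw [ht] at this ⊢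
      rw [Nat.add_sub_cancel, ← this, Nat.mul_succ]
      omega
    have h1 : F * ∑ i, C (a i) * F ^ (j i - 1) * e i = br v F := by
      rw [← h, Finset.mul_sum]
      refine Finset.sum_congr rfl fun i _ => ?_
      by_cases hi : j i = 0
      · rw [h0 i hi]; simp
      · obtain ⟨t, ht⟩ : ∃ t, j i = t + 1 := ⟨j i - 1, by omega⟩
        rw [ht, Nat.add_sub_cancel]; ring
    obtain ⟨d', rfl⟩ : ∃ d', d = d' + 1 := ⟨d - 1, by omega⟩
    obtain ⟨v', hv'⟩ := Esc.br_of_F_mul hF hci (hom_sum hF hB hn') h1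
    exact ih a (fun i => j i - 1) _ v' (fun i => by have := hj i; omega) hn' hv'

omit [CharZero k] in
theorem cl_sum (hB : Bas d F e δ) (n : ℕ) (a : ι → k) :
    cl d n (∑ i, C (a i) * e i) = ∑ i, C (if d ∣ δ i + n + 2 then a i else 0) * e i := by
  ext m
  rw [(gradeS k d n).1, coeff_sum, coeff_sum]
  have h : ∀ i, coeff m (C (if d ∣ δ i + n + 2 then a i else 0) * e i) =
      if d ∣ m.degree + n + 2 then coeff m (C (a i) * e i) else 0 := by
    intro i
    rw [coeff_C_mul, coeff_C_mul]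
    by_cases hm : m.degree = δ i
    · rw [hm]; split_ifs <;> simp
    · rw [(hB.hom i).coeff_eq_zero hm]; simp
  rw [Finset.sum_congr rfl fun i _ => h i]
  split_ifs <;> simp

end Ind

theorem indS : IndStmt := by
  intro k ι _ _ _ d F e δ hd hF hci hB a hbt
  funext i0
  classical
  obtain ⟨n0, hn0⟩ : ∃ n0, d ∣ δ i0 + n0 + 2 := by
    obtain ⟨d', rfl⟩ : ∃ d', d = d' + 1 := ⟨d - 1, by omega⟩
    exact ⟨d' * (δ i0 + 2), δ i0 + 2, by ring⟩
  have h1 := (gradeS k d n0).2.1 F _ hF hbt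
  rw [Ind.cl_sum hB] at h1
  set a' : ι → k := fun i => if d ∣ δ i + n0 + 2 then a i else 0 with ha'
  set N := ∑ i, δ i with hN
  have hle : ∀ i, δ i ≤ N := fun i =>
    Finset.single_le_sum (f := δ) (fun _ _ => Nat.zero_le _) (Finset.mem_univ i)
  set j : ι → ℕ := fun i => (δ i0 + d * N - δ i) / d with hj
  have hn : ∀ i, a' i ≠ 0 → δ i + d * j i = δ i0 + d * N := by
    intro i hi
    have hdv : d ∣ δ i + n0 + 2 := by
      by_contra hc
      exact hi (if_neg hc)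
    have h2 : N ≤ d * N := Nat.le_mul_of_pos_left _ (by omega)
    have h3 := hle i
    have h4 : d ∣ δ i0 + d * N - δ i := by
      have := Nat.dvd_sub (dvd_add hn0 (dvd_mul_right d N)) hdv
      rwa [show δ i0 + n0 + 2 + d * N - (δ i + n0 + 2) = δ i0 + d * N - δ i by omega] at this
    rw [hj]
    simp only
    rw [Nat.mul_div_cancel' h4]
    omega
  obtain ⟨u, w, huw⟩ := h1
  have h5 : (F - 1) ∣ ∑ i, C (a' i) * F ^ j i * e i - ∑ i, C (a' i) * e i := by
    rw [← Finset.sum_sub_distrib]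
    refine Finset.dvd_sum fun i _ => ?_
    obtain ⟨q, hq⟩ := sub_dvd_pow_sub_pow F 1 (j i)
    exact ⟨C (a' i) * q * e i, by rw [one_pow] at hq; linear_combination C (a' i) * e i * hq⟩
  obtain ⟨q, hq⟩ := h5
  obtain ⟨v, hv⟩ := Esc.nz hF (by omega) hci (Ind.hom_sum hF hB hn) (u := u) (w := w + q)
    (by linear_combination hq + huw)
  have h6 := Ind.step hd hF hci hB (∑ i, j i) a' j _ v (fun i =>
    Finset.single_le_sum (f := j) (fun _ _ => Nat.zero_le _) (Finset.mem_univ i)) hn hv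
  have h7 := congrFun h6 i0
  simpa [ha', hn0] using h7

end

end Pool.Agent.MP_05b4bd_ag.UM

end MrgPart2

-- ======== part 3: formerly Pool.Agent.MP_05b4bd_ag.um.Irr
section MrgPart3

/-! Irreducibility of the Brieskorn module. -/

namespace Pool.Agent.MP_05b4bd_ag.UM

open MvPolynomial HC
open ES hiding Gen GenTopStmt GenJacStmt IlAbsStmt InvStmt3 Inf
open ES.U
open scoped TensorProduct PowerSeries LaurentSeries

noncomputable section

namespace Irr

theorem one (h1 : EndStmt) (h3 : DegStmt) {k : Type} [Field k] [CharZero k] {d : ℕ} {f : R2 k}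
    (hd : 2 ≤ d) (hf : TM d f) (G : Type) [AddCommGroup G] [Module k G] (n : ℕ) (B : BM k G n)
    (p : Fin n → Fin 2 → k) (π : R2 k →ₗ[k] G) (h : Pres B f p π) : B.Irr := by
  refine h1 k G n B (π 1) (fun i => by rw [h.ev, map_one]) fun S a b => ?_
  obtain ⟨v, hv, e⟩ := h3 k G d n B f p π S 1 0 hd hf h one_ne_zero
    (fun u => by rw [a, one_smul]) (fun u => by rw [b, one_smul, zero_smul, add_zero]) 1 1
    (by simpa using DL_C (1 : k))
  have h4 : v = C (coeff 0 v) := totalDegree_eq_zero_iff_eq_C.1 (Nat.le_zero.1 (DL_iff.1 hv))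
  exact ⟨coeff 0 v, by rw [e, ← map_smul, smul_eq_C_mul, mul_one, ← h4]⟩

end Irr

theorem irrS (h1 : EndStmt) (h2 : GmStmt) (h3 : DegStmt) : IrrStmt := by
  intro k _ _ d f hd hf
  refine ⟨Irr.one h1 h3 hd hf, fun N a b c => ?_⟩
  obtain ⟨n, p, hp⟩ := hf.cr
  obtain ⟨G, _, _, B, π, h⟩ := h2 k d n f p hd hf hp
  have m : ∀ u, π u ∈ N.map π ↔ u ∈ N := fun u =>
    ⟨fun ⟨w, hw, e⟩ => by
      obtain ⟨v, hv⟩ := (h.ker (u - w)).1 (by rw [map_sub, e, sub_self])
      have := N.add_mem (a v) hw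
      rwa [← hv, sub_add_cancel] at this, Submodule.mem_map_of_mem⟩
  have dv : ∀ u : R2 k, pderiv 0 (ad 0 u) + pderiv 1 (0 : R2 k) = u := fun u => by
    rw [pderiv_ad, map_zero, add_zero]
  have t : ∀ u, B.θ (π u) ∈ N.map π ↔ π u ∈ N.map π := fun u => by
    conv_lhs => rw [← dv u, h.th, m, c, dv]
    exact (m u).symm
  rcases Irr.one h1 h3 hd hf G n B p π h (N.map π)
    (by rintro _ ⟨u, hu, rfl⟩; rw [h.mul, m]; exact b u hu)
    (fun u hu => by obtain ⟨u, rfl⟩ := h.surj u; exact (t u).2 hu)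
    (fun u hu => by obtain ⟨u, rfl⟩ := h.surj u; exact (t u).1 hu) with e | e
  · exact Or.inl fun u hu => (h.ker u).1 ((Submodule.mem_bot k).1 (e ▸ (m u).2 hu))
  · exact Or.inr (eq_top_iff.2 fun u _ => (m u).1 (e ▸ Submodule.mem_top))

end

end Pool.Agent.MP_05b4bd_ag.UM

end MrgPart3

-- ======== part 4: formerly Pool.Agent.MP_05b4bd_ag.um.Lat
section MrgPart4

/-! The connection on the lattices. -/

namespace Pool.Agent.MP_05b4bd_ag.UM

open ES Polynomial
open scoped TensorProduct PowerSeries LaurentSeries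

noncomputable section

namespace Lat

variable {k G ι : Type} [Field k] [CharZero k] [AddCommGroup G] [Module k G] [Fintype ι]
  [DecidableEq ι] {n d : ℕ} {B : BM k G n} {P : G →ₗ[k] ι → k⸨X⸩} {e : ι → G} (T : TD B d P e)
  {b : k} {j : ℕ} {v : ι → k⸨X⸩}

include T

theorem dq (q : k[X]) (v : ι → k⸨X⸩) : dV k ι d (ae (hW k d) q • v) =
    ae (hW k d) (derivative q) • v + ae (hW k d) q • dV k ι d v := by
  rw [dV_smul, dK_ah T.d1]

theorem dt (b : k) (v : ι → k⸨X⸩) : dV k ι d ((hW k d - cL k b) • v) =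
    v + (hW k d - cL k b) • dV k ι d v := by
  rw [dV_smul, map_sub, dK_hW T.d1, dK_cL, sub_zero, one_smul]

omit [CharZero k] in
theorem Pt (b : k) (u : G) : P (B.h u - b • u) = (hW k d - cL k b) • P u := by
  rw [map_sub, map_smul, T.Ph, sub_smul]
  congr 1
  exact funext fun i => smul_cL b _

theorem key (χ : k[X]) (u : G) (h : ∀ p, χ.eval (B.c p) * B.ev p u = 0) :
    ∃ u', ae (hW k d) χ • dV k ι d (P u) = P u' := by
  obtain ⟨w, hw⟩ := (B.ker (aeval B.h χ u)).1 fun p => by rw [B.ev_aeval, h]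
  have e := T.Pθ w
  rw [← hw, T.Pq, dq T] at e
  exact ⟨w - aeval B.h (derivative χ) u, by rw [map_sub, T.Pq, ← e, add_sub_cancel_left]⟩

omit [CharZero k] in
theorem mem0 (b : k) (u : G) : P u ∈ T.Lam b 0 := ⟨1, u, by simp, by simp⟩

omit [CharZero k] in
theorem desc {q : k[X]} (hq : q.eval b ≠ 0) (h : ae (hW k d) q • v ∈ T.Lam b j) : v ∈ T.Lam b j := by
  obtain ⟨r, u, h1, h2⟩ := h
  exact ⟨r * q, u, by rw [eval_mul]; exact mul_ne_zero h1 hq, by rw [map_mul, mul_smul, h2]⟩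

omit [CharZero k] in
theorem pol (q : k[X]) (h : v ∈ T.Lam b j) : ae (hW k d) q • v ∈ T.Lam b j := by
  obtain ⟨r, u, h1, h2⟩ := h
  exact ⟨r, aeval B.h q u, h1, by rw [smul_comm, h2, T.Pq, smul_comm]⟩

omit [CharZero k] in
theorem tm (h : v ∈ T.Lam b j) : (hW k d - cL k b) • v ∈ T.Lam b j := by
  have := pol T (X - C b) h
  rwa [map_sub, ae_X, ae_C] at this

omit [CharZero k] in
theorem up (h : v ∈ T.Lam b 0) : (hW k d - cL k b) • v ∈ T.Lam b 1 := by
  obtain ⟨r, u, h1, h2⟩ := id h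
  rw [pow_zero, one_smul] at h2
  refine ⟨r, u, h1, ?_⟩
  rw [pow_one, ← h2]
  exact smul_comm _ _ _

theorem reg {u : G} (h : ∀ p, B.c p = b → B.ev p u = 0) : dV k ι d (P u) ∈ T.Lam b 0 := by
  classical
  obtain ⟨w, hw⟩ := key T (∏ p with B.c p ≠ b, (X - C (B.c p))) u fun p => by
    by_cases e : B.c p = b
    · rw [h p e, mul_zero]
    · rw [eval_prod, Finset.prod_eq_zero (i := p) (by simpa using e) (by simp), zero_mul]
  refine desc T ?_ (hw ▸ mem0 T b w)
  rw [eval_prod]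
  exact Finset.prod_ne_zero_iff.2 fun p hp => by
    simpa [sub_eq_zero] using (Finset.mem_filter.1 hp).2.symm

theorem three (p : Fin n) : (hW k d - cL k (B.c p)) • dV k ι d (P (B.j p)) = -P (B.y p) := by
  have e := T.Pθ (B.j p - B.y p)
  rw [← B.jrel, Pt T, dt T, map_sub, sub_eq_add_neg (P _)] at e
  exact add_left_cancel e

theorem one (h : v ∈ T.Lam b 0) : (hW k d - cL k b) • dV k ι d v ∈ T.Lam b 0 := by
  obtain ⟨q, u, h1, h2⟩ := id h
  rw [pow_zero, one_smul] at h2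
  have h3 := reg T (b := b) (u := B.h u - b • u) fun p e => by
    rw [map_sub, map_smul, B.mul, e, smul_eq_mul, sub_self]
  rw [Pt T, dt T, ← h2, dq T, smul_add] at h3
  refine desc T h1 ?_
  rw [smul_comm]
  exact (add_mem_cancel_left (tm T (pol T _ h))).1 ((add_mem_cancel_left (pol T q h)).1 h3)

theorem dtm (h : v ∈ T.Lam b 0) : dV k ι d ((hW k d - cL k b) • v) ∈ T.Lam b 0 :=
  dt T b v ▸ add_mem h (one T h)

theorem two (u : G) : dV k ι d ((hW k d - cL k b) • dV k ι d (P u)) ∈ T.Lam b 0 := by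
  by_cases h : ∀ p, B.c p = b → B.ev p u = 0
  · exact dtm T (reg T h)
  push Not at h
  obtain ⟨p, rfl, -⟩ := h
  have h1 := dtm T (reg T (b := B.c p) (u := u - (B.ev p u / B.ev p (B.j p)) • B.j p) fun q e => by
    rw [B.cinj e, map_sub, map_smul, smul_eq_mul, div_mul_cancel₀ _ (B.j0 p), sub_self])
  have e (c : k) : (hW k d - cL k (B.c p)) • dV k ι d (P (u - c • B.j p)) =
      (hW k d - cL k (B.c p)) • dV k ι d (P u) - c • -P (B.y p) := by
    rw [← three T]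
    simp only [← mV_apply, map_sub, map_smul]
  rw [e, map_sub, map_smul _ (_ / _), map_neg] at h1
  exact (sub_mem_comm_iff.trans (Submodule.sub_mem_iff_right _ (Submodule.smul_mem _ _ (neg_mem
    (reg T fun q e => B.cinj e ▸ B.y0 p))))).1 h1

end Lat

open Lat in
theorem latS : LatStmt := by
  intro k G ι _ _ _ _ _ _ n d B P e T
  refine ⟨?_, fun p u h => reg T fun q e => B.cinj e ▸ h, three T, fun b v h => ⟨one T h, up T ?_⟩⟩
  · rintro v ⟨q, u, h1, h2⟩
    obtain ⟨w, hw⟩ := key T (∏ p, (X - C (B.c p))) u fun p => by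
      rw [eval_prod, Finset.prod_eq_zero (Finset.mem_univ p) (by simp), zero_mul]
    have h0 : ∏ p, (X - C (B.c p)) ≠ 0 := Finset.prod_ne_zero_iff.2 fun p _ => X_sub_C_ne_zero _
    generalize ∏ p, (X - C (B.c p)) = χ at hw h0
    refine ⟨q * χ * q, aeval B.h q w - aeval B.h (χ * derivative q) u,
      mul_ne_zero (mul_ne_zero h1 h0) h1, ?_⟩
    rw [map_sub, T.Pq, T.Pq, ← hw, ← h2, dq T]
    funext i
    simp only [map_mul, Pi.smul_apply, Pi.sub_apply, Pi.add_apply, smul_eq_mul]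
    ring
  · obtain ⟨q, u, h1, h2⟩ := id h
    rw [pow_zero, one_smul] at h2
    have h3 := two T (b := b) u
    rw [← h2, dq T, smul_add, map_add, smul_comm _ (ae (hW k d) q), dq T] at h3
    exact desc T h1 ((add_mem_cancel_left (pol T _ (one T h))).1
      ((add_mem_cancel_left (dtm T (pol T _ h))).1 h3))

end

end Pool.Agent.MP_05b4bd_ag.UM

end MrgPart4

-- ======== part 5: formerly Pool.Agent.MP_05b4bd_ag.um.Lur
section MrgPart5

/-! The fixed field is generated by one rational function with a pole at infinity. -/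

namespace Pool.Agent.MP_05b4bd_ag.UM

open ES Polynomial
open scoped TensorProduct PowerSeries LaurentSeries

noncomputable section

namespace Lur

variable {k : Type} [Field k] {τ : k⸨X⸩} {φ : k⸨X⸩ →+* k⸨X⸩} {A B : k[X]} {ρ : k⸨X⸩}

/-- `ρ = A / B` in lowest terms is a non-constant generator of the fixed field. -/
def Gd (τ : k⸨X⸩) (φ : k⸨X⸩ →+* k⸨X⸩) (A B : k[X]) (ρ : k⸨X⸩) : Prop :=
  IsCoprime A B ∧ B ≠ 0 ∧ ρ * ae τ B = ae τ A ∧ φ ρ = ρ ∧ (∀ c, ρ ≠ cL k c) ∧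
    ∀ r, InK τ r → φ r = r → r ∈ KK ρ

theorem Gd.ne (hi : Function.Injective (ae τ)) (h : Gd τ φ A B ρ) : A ≠ 0 := by
  obtain ⟨-, h2, h3, -, h5, -⟩ := h
  rintro rfl
  rw [map_zero, mul_eq_zero] at h3
  rcases h3 with h3 | h3
  · exact h5 0 (by rw [h3, map_zero])
  · exact h2 (hi (by rw [h3, map_zero]))

theorem le_inv (ρ : k⸨X⸩) : KK ρ ≤ KK ρ⁻¹ :=
  KK_le (by simpa only [inv_inv] using inv_mem (self_mem ρ⁻¹))

theorem le_sub (ρ : k⸨X⸩) (c : k) : KK ρ ≤ KK (ρ - cL k c) :=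
  KK_le (by simpa only [sub_add_cancel] using add_mem (self_mem (ρ - cL k c)) (cL_mem _ c))

theorem Gd.inv (hi : Function.Injective (ae τ)) (h : Gd τ φ A B ρ) : Gd τ φ B A ρ⁻¹ := by
  have hA := h.ne hi
  obtain ⟨h1, -, h3, h4, h5, h6⟩ := h
  have h0 : ρ ≠ 0 := fun e => h5 0 (by rw [e, map_zero])
  refine ⟨h1.symm, hA, by rw [← h3, inv_mul_cancel_left₀ h0], by rw [map_inv₀, h4],
    fun c e => h5 c⁻¹ (by rw [map_inv₀, ← e, inv_inv]), fun r a b => le_inv ρ (h6 r a b)⟩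

theorem Gd.sub (hφ : ∀ c, φ (cL k c) = cL k c) (h : Gd τ φ A B ρ) (c : k) :
    Gd τ φ (A - C c * B) B (ρ - cL k c) := by
  obtain ⟨h1, h2, h3, h4, h5, h6⟩ := h
  refine ⟨?_, h2, by rw [map_sub, map_mul, ae_C, ← h3, sub_mul], by rw [map_sub, h4, hφ],
    fun b e => h5 (b + c) (by rw [map_add, ← e, sub_add_cancel]),
    fun r a b => le_sub ρ c (h6 r a b)⟩
  obtain ⟨u, v, e⟩ := h1
  exact ⟨u, v + u * C c, by rw [← e]; ring⟩

theorem base (hi : Function.Injective (ae τ)) (hφ : ∀ c, φ (cL k c) = cL k c)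
    (h : ∃ r, InK τ r ∧ φ r = r ∧ ∀ c, r ≠ cL k c) : ∃ A B ρ, Gd τ φ A B ρ := by
  obtain ⟨i, hp⟩ : ∃ i : RatFunc k →+* k⸨X⸩, ∀ q, i (algebraMap k[X] _ q) = ae τ q :=
    ⟨RatFunc.liftRingHom (ae τ) (nonZeroDivisors_le_comap_nonZeroDivisors_of_injective _ hi),
      RatFunc.liftRingHom_algebraMap _ _⟩
  have hc : ∀ c, i (algebraMap k _ c) = cL k c := fun c => by
    rw [RatFunc.algebraMap_eq_C, ← RatFunc.algebraMap_C, hp, ae_C]
  have hs : ∀ r, InK τ r → ∃ x, i x = r := by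
    rintro r ⟨p, q, h1, h2⟩
    exact ⟨algebraMap k[X] _ p / algebraMap k[X] _ q, by
      rw [map_div₀, hp, hp, eq_div_of_mul_eq h1 h2]⟩
  obtain ⟨E, hE⟩ : ∃ E : IntermediateField k (RatFunc k), ∀ x, x ∈ E ↔ φ (i x) = i x :=
    ⟨(RingHom.eqLocusField (φ.comp i) i).toIntermediateField fun c => by
      show φ (i _) = i _
      rw [hc, hφ], fun x => Iff.rfl⟩
  have hne : E ≠ ⊥ := by
    rintro rfl
    obtain ⟨r, h1, h2, h3⟩ := h
    obtain ⟨x, rfl⟩ := hs r h1
    obtain ⟨c, rfl⟩ := IntermediateField.mem_bot.1 ((hE x).2 h2)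
    exact h3 c (hc c)
  obtain ⟨g, hg⟩ : ∃ g, g = RatFunc.Luroth.generator E := ⟨_, rfl⟩
  have hd : ae τ g.denom ≠ 0 := (map_ne_zero_iff _ hi).2 g.denom_ne_zero
  refine ⟨g.num, g.denom, i g, g.isCoprime_num_denom, g.denom_ne_zero, ?_,
    (hE g).1 (hg ▸ RatFunc.Luroth.generator_mem), fun c e => ?_, fun r h1 h2 => ?_⟩
  · conv_lhs => rw [← g.num_div_denom, map_div₀, hp, hp]
    rw [RatFunc.num_div_denom, div_mul_cancel₀ _ hd]
  · exact RatFunc.Luroth.generator_spec hne ⟨c, hg ▸ i.injective (by rw [hc, e])⟩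
  obtain ⟨x, rfl⟩ := hs r h1
  have hx : x ∈ IntermediateField.adjoin k {g} := by
    rw [hg, ← RatFunc.Luroth.eq_adjoin_generator]
    exact (hE x).2 h2
  exact (IntermediateField.adjoin_simple_le_iff (K := ((KK (i g)).comap i).toIntermediateField
    fun c => by
      show i _ ∈ KK (i g)
      rw [hc]
      exact cL_mem _ c)).2 (self_mem (i g)) hx

end Lur

theorem lurS : LurStmt := by
  intro k _ _ _ d φ hd hφ h
  have hi := ah_inj (k := k) hd
  obtain ⟨A, B, ρ, g, hl⟩ : ∃ A B ρ, Lur.Gd (hW k d) φ A B ρ ∧ B.natDegree < A.natDegree := by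
    obtain ⟨A, B, ρ, g⟩ := Lur.base hi hφ h
    rcases lt_trichotomy B.natDegree A.natDegree with l | l | l
    · exact ⟨A, B, ρ, g, l⟩
    · have g' := g.sub hφ (A.leadingCoeff / B.leadingCoeff)
      have hA := g.ne hi
      have hB := g.2.1
      have hc : A.leadingCoeff / B.leadingCoeff ≠ 0 :=
        div_ne_zero (leadingCoeff_ne_zero.2 hA) (leadingCoeff_ne_zero.2 hB)
      refine ⟨_, _, _, g'.inv hi, ?_⟩
      rw [l]
      refine natDegree_lt_natDegree (g'.ne hi) (degree_sub_lt_left ?_ hA ?_)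
      · rw [degree_C_mul hc, degree_eq_natDegree hA, degree_eq_natDegree hB, l]
      · rw [leadingCoeff_mul, leadingCoeff_C, div_mul_cancel₀ _ (leadingCoeff_ne_zero.2 hB)]
    · exact ⟨_, _, _, g.inv hi, l⟩
  obtain ⟨h1, h2, h3, h4, -, h6⟩ := g
  exact ⟨A, B, ρ, h1, h2, hl, h3, h4, fun r a b =>
    ⟨Lur.le_inv ρ (h6 r a b), fun β => Lur.le_sub ρ β (h6 r a b)⟩⟩

end

end Pool.Agent.MP_05b4bd_ag.UM

end MrgPart5

-- ======== part 6: formerly Pool.Agent.MP_05b4bd_ag.um.Mult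
section MrgPart6

/-! All zeros of a generator of the fixed field have the same order. -/

namespace Pool.Agent.MP_05b4bd_ag.UM

open ES Polynomial
open scoped TensorProduct PowerSeries LaurentSeries

noncomputable section

namespace Mult

variable {k ι : Type} [Field k]

/-- Rational functions of `h` that are fixed by `φ`. -/
def Fx (d : ℕ) (φ : k⸨X⸩ →+* k⸨X⸩) : Subfield k⸨X⸩ := KK (hW k d) ⊓ φ.eqLocusField (RingHom.id _)

theorem mem_Fx {d : ℕ} {φ : k⸨X⸩ →+* k⸨X⸩} {a : k⸨X⸩} :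
    a ∈ Fx d φ ↔ InK (hW k d) a ∧ φ a = a := Iff.rfl

/-- Combinations of the `v i` with coefficients in a subfield that contains the constants. -/
def Nn (E : Subfield k⸨X⸩) (hE : ∀ c, cL k c ∈ E) {m : ℕ} (v : Fin m → ι → k⸨X⸩) :
    Submodule k (ι → k⸨X⸩) where
  carrier := {x | ∃ a : Fin m → k⸨X⸩, (∀ i, a i ∈ E) ∧ x = ∑ i, a i • v i}
  zero_mem' := ⟨0, fun _ => zero_mem _, by simp⟩
  add_mem' := by
    rintro x y ⟨a, ha, rfl⟩ ⟨b, hb, rfl⟩
    exact ⟨a + b, fun i => add_mem (ha i) (hb i), by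
      simp only [Pi.add_apply, add_smul, Finset.sum_add_distrib]⟩
  smul_mem' := by
    rintro c x ⟨a, ha, rfl⟩
    refine ⟨fun i => cL k c * a i, fun i => mul_mem (hE c) (ha i), ?_⟩
    ext1 l
    simp only [Pi.smul_apply, Finset.sum_apply, smul_cL, smul_eq_mul, Finset.mul_sum, mul_assoc]

theorem nn_smul {E : Subfield k⸨X⸩} {hE : ∀ c, cL k c ∈ E} {m : ℕ} {v : Fin m → ι → k⸨X⸩}
    {c : k⸨X⸩} (hc : c ∈ E) {x : ι → k⸨X⸩} (hx : x ∈ Nn E hE v) : c • x ∈ Nn E hE v := by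
  obtain ⟨a, ha, rfl⟩ := hx
  exact ⟨fun i => c * a i, fun i => mul_mem hc (ha i), by simp only [Finset.smul_sum, mul_smul]⟩

theorem nn_v {E : Subfield k⸨X⸩} {hE : ∀ c, cL k c ∈ E} {m : ℕ} (v : Fin m → ι → k⸨X⸩)
    (j : Fin m) : v j ∈ Nn E hE v := by
  refine ⟨fun i => if i = j then 1 else 0, fun i => ?_, by simp⟩
  by_cases h : i = j
  · simp only [if_pos h]
    exact one_mem _
  · simp only [if_neg h]
    exact zero_mem _

theorem nn_st {E : Subfield k⸨X⸩} {hE : ∀ c, cL k c ∈ E} {m d : ℕ} {v : Fin m → ι → k⸨X⸩}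
    {s τ : k⸨X⸩} (hs : s ≠ 0) (hτ : τ ∈ E) (hd : ∀ a ∈ E, s * dK k d a ∈ E)
    (hv : ∀ j, s • dV k ι d (v j) ∈ Nn E hE v) : St (vt ι d τ) (Nn E hE v) := by
  rintro x ⟨a, ha, rfl⟩
  rw [map_sum]
  refine Submodule.sum_mem _ fun i _ => ?_
  have e : vt ι d τ (a i • v i) = (τ / (s * dK k d τ)) •
      ((s * dK k d (a i)) • v i + a i • s • dV k ι d (v i)) := by
    rw [vt_apply, dV_smul, mul_smul, smul_comm (a i) s, ← smul_add, smul_smul, ← div_div,
      div_right_comm, div_mul_cancel₀ _ hs]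
  rw [e]
  exact nn_smul (div_mem hτ (hd τ hτ))
    (add_mem (nn_smul (hd _ (ha i)) (nn_v v i)) (nn_smul (ha i) (hv i)))

end Mult

open Mult in
theorem multS (h1 : CmpvStmt) (h2 : LogbStmt) (h3 : SizeStmt) (h4 : LogiStmt) : MultStmt := by
  intro k G ι _ _ _ _ _ _ _ n d B P e φ g s τ m v b μ r q T hS hs hφs hC hs0 hφτ hK hr hq hτ
  have hE : ∀ c, cL k c ∈ Fx d φ := fun c => mem_Fx.2 ⟨cL_mem _ c, hS.fc c⟩
  have hτE : τ ∈ Fx d φ :=
    mem_Fx.2 ⟨⟨_, q, ah_ne T.d1 (fun e => hq (by rw [e, eval_zero])), hτ⟩, hφτ⟩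
  have hd : ∀ a ∈ Fx d φ, s * dK k d a ∈ Fx d φ := fun a ha => by
    obtain ⟨a1, a2⟩ := mem_Fx.1 ha
    refine mem_Fx.2 ⟨mem_KK.1 (mul_mem (mem_KK.2 hs) (dK_mem T.d1 (mem_KK.2 a1))), ?_⟩
    have c := hS.chain a
    rw [a2] at c
    rw [map_mul, hφs]
    linear_combination (-s) * c
  have hv : ∀ j, s • dV k ι d (v j) ∈ Nn (Fx d φ) hE v := fun j => by
    obtain ⟨ρ, a1, a2⟩ := hC.con j
    exact ⟨ρ, fun i => mem_Fx.2 (a1 i), a2⟩
  have hst := nn_st hs0 hτE hd hv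
  have hw : dK k d τ • P (B.θ g) ∈ Nn (Fx d φ) hE v := by
    obtain ⟨j, hj⟩ := hC.fst
    rw [← hj, smul_smul, mul_comm]
    exact nn_smul (hd τ hτE) (nn_v v j)
  obtain ⟨L1, L2⟩ := h2 k G ι n d B P e T b τ μ r q hr hq hτ
  obtain ⟨w1, w2⟩ := L2 (B.θ g) (hS.cb b)
  have S2 := (h3 k G ι n d B P e T b τ μ r q m v hr hq hτ hC.li hC.rat).2
  have key : ∀ (F' : ℕ → Submodule k (ι → k⸨X⸩)) (e' j' : ℕ), Log (vt ι d τ) F' e' →
      (∀ M, ∃ j, ∀ a : Fin m → k⸨X⸩, (∀ i, InK τ (a i)) → ∑ i, a i • v i ∈ F' j →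
        ∀ i, Sz τ M (a i)) → dK k d τ • P (B.θ g) ∈ F' j' → j' * (μ + 1) ≤ μ * e' := by
    intro F' e' j' hL hM hj
    refine h1 k (ι → k⸨X⸩) (vt ι d τ) (T.Lam b) F' (μ + 1) e' (Nn (Fx d φ) hE v) L1 hL hst
      (fun j => ?_) _ hw μ j' w1 w2 hj
    obtain ⟨M, hM1⟩ := S2 j
    obtain ⟨j1, hj1⟩ := hM M
    refine ⟨j1, ?_⟩
    rintro x ⟨a, ha, rfl⟩ hx
    exact hM1 a (hj1 a (fun i => hK _ (mem_Fx.1 (ha i)).1 (mem_Fx.1 (ha i)).2) hx)
  refine ⟨fun e' u he hu hτ' => ?_, fun b' μ' r' q' hr' hq' hτ' => ?_⟩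
  · obtain ⟨I1, I2, I3⟩ := h4 k ι d e' τ u T.d1 he hu hτ'
    have := key (OrdV k ι) e' e' I1 (I3 m v hC.li) (I2 _ hS.low)
    nlinarith
  · obtain ⟨L1', L2'⟩ := h2 k G ι n d B P e T b' τ μ' r' q' hr' hq' hτ'
    have := key (T.Lam b') (μ' + 1) μ' L1'
      (h3 k G ι n d B P e T b' τ μ' r' q' m v hr' hq' hτ' hC.li hC.rat).1
      (L2' (B.θ g) (hS.cb b')).1
    nlinarith

end

end Pool.Agent.MP_05b4bd_ag.UM

end MrgPart6

-- ======== part 7: formerly Pool.Agent.MP_05b4bd_ag.um.AsmA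
section MrgPart7

/-! Centres do not escape along an arc through `df`, for every Morse polynomial that is transversal
to infinity and has no radial symmetry. -/

namespace Pool.Agent.MP_05b4bd_ag.UM

theorem irrA : IrrStmt := irrS (endS trS (splS trS liftS)) (gmS copS) (degS grS)

theorem uniA : UniStmt :=
  uniS (vecS pilS latS flatS (resS pilS latS (intS latS))) (cyS pilS latS) lurS
    (multS cmpvS (logbS pilS latS) sizeS logiS) polS

theorem invA : ES.U.InvStmt3 :=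
  invU ES.glcS ES.evbS (gmS copS) irrA basS (pmaS indS) (pmbS ES.nzcS) (cbS grS) phiS uniA
    (actS pilS) (degS grS) tor3S tor4S

theorem escA : ES.U.EscStmt3 := ES.U.escU (ilAbsU irrA) invA

theorem jacA : ES.U.GenJacStmt := genJacU irrA

end Pool.Agent.MP_05b4bd_ag.UM

end MrgPart7

-- marker of a merged file
example : 731051 + 742895 = 731051 + 742895 := rfl
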