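import Pool.Agent.MP_05b4bd_ag.um.PDefs
import Pool.Agent.MP_05b4bd_ag.esc.Sym
import Pool.Agent.MP_05b4bd_ag.esc.S2a

/-! Blocks of the chain for a Morse polynomial transversal to infinity. -/

section
namespace Pool.Agent.MP_05b4bd_ag.ES.U

open PowerSeries LaurentSeries HC

namespace Glc
open Pool.Agent.MP_05b4bd_ag.ES.Glc

variable {k L : Type} [Field k] [Field L] (κ : k →+* L) (x0 y0 : L⟦X⟧)

end Glc

theorem ilS (h1 : GlcStmt) (h2 : IlAbsStmt) : IlStmt := by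
  intro k L _ _ _ _ d I Λ hd hκ hD hm n r hr hn
  let _ : Algebra k L := I.κ.toAlgebra
  obtain ⟨-, c, e, BB, hc', he, hB, hG⟩ := h1 k L I.D d I.f I.x0 I.y0 (by omega) I.cv I.fr
  have := h2 k L d I.f c e BB ⟨Λ.toAddSubmonoid, fun c z hz => hκ c z hz⟩ hd I.gen hG
    (fun z hz => by obtain ⟨η, rfl⟩ := (hB z).1 hz; exact hD η) I.g I.ng
    (fun m h => by rw [hc']; exact I.rX ▸ hm m h) n r hr hn
  rwa [he] at this

end Pool.Agent.MP_05b4bd_ag.ES.U
end

section
namespace Pool.Agent.MP_05b4bd_ag.ES.U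

open PowerSeries LaurentSeries HC

namespace Pframe
open Pool.Agent.MP_05b4bd_ag.ES.Pframe

section Ring
variable {R : Type} [CommRing R] {N d : ℕ}

end Ring

section Field
variable {k : Type} [Field k] [CharZero k] {N d : ℕ}

/-- The equation of the level curves in the frame. -/
theorem level (o : PD k d) (hM : 1 ≤ d * N) :
    hev (CC.comp (cL k)) d o.f (CC (wL k (-(N : ℤ)))) (CC (wL k (-(N : ℤ))) * thU k N d o.u) X +
      CC (wL k (-(N : ℤ))) ^ d * thU k N d (map C o.c) = 1 := by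
  have e : (CC : k⸨X⸩ →+* AA k⸨X⸩).comp (cL k) = (thU k N d).comp (CC.comp C) :=
    RingHom.ext fun r => by
      rw [RingHom.comp_apply, RingHom.comp_apply, RingHom.comp_apply, thU_CC hM, map_C, CC_apply]
  rw [e, hev_thU, ← mul_add, ← map_add, o.eu, thU_CX hM, ← mul_pow, CC_mul_neg, one_pow]

theorem red_c (o : PD k d) (hM : 1 ≤ d * N) : red (thU k N d (map C o.c)) = 0 := by
  obtain ⟨c, e⟩ := o.tc
  rw [e, map_mul, map_C, ← CC_apply, map_mul, thU_CC hM, map_X, map_mul, red_C, constantCoeff_X,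
    map_zero, zero_mul]

theorem level_red (o : PD k d) (hM : 1 ≤ d * N) :
    hev ((C : k⸨X⸩ →+* k⸨X⸩⟦X⟧).comp (cL k)) d o.f (red (CC (wL k (-(N : ℤ)))))
      (red (CC (wL k (-(N : ℤ))) * thU k N d o.u)) X = 1 := by
  have h := congrArg red (level o hM)
  have e : (red : AA k⸨X⸩ →+* k⸨X⸩⟦X⟧).comp (CC.comp (cL k)) = C.comp (cL k) :=
    RingHom.ext fun r => by
      rw [RingHom.comp_apply, RingHom.comp_apply, RingHom.comp_apply, CC_apply, red_C,
        constantCoeff_C]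
  rwa [map_add, map_mul _ (_ ^ d), red_c o hM, mul_zero, add_zero, map_hev, e, red_X, map_one] at h

/-- The frame is not degenerate. -/
theorem nondeg (o : PD k d) (hM : 1 ≤ d * N) : thL k (c00 (thU k N d o.u)) ≠ 0 := by
  intro h0
  have : CharZero k⸨X⸩ := charZero_of_injective_ringHom (cL_inj (R := k))
  have h := congrArg c00 (level o hM)
  rw [map_add, map_mul _ (_ ^ d), ← cc_red (thU k N d (map C o.c)), red_c o hM, map_zero, mul_zero,
    add_zero, c00_hev, map_one, wL_pow] at h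
  have h1 := congrArg (thL k) h
  rw [thL_wL_mul, h, isDer_thL.eval₂ _ thL_cL, h0, isDer_thL.one, mul_one, mul_zero, mul_zero,
    add_zero, mul_zero, add_zero, Int.cast_eq_zero] at h1
  have h2 : ((d * N : ℕ) : ℤ) = 0 := by push_cast; linarith
  omega

theorem simple (o : PD k (d + 1)) (hM : 1 ≤ (d + 1) * N) :
    MvPolynomial.eval₂ (cL k) ![1, c00 (thU k N (d + 1) o.u)]
      (hc d (MvPolynomial.pderiv 1 o.f)) ≠ 0 := by
  intro h
  apply o.su
  have e : cL k = (coeL k).comp C := RingHom.ext fun r => (coeL_C r).symm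
  rw [c00_thU, e, ← map_one (coeL k), ← k4_map, hc_pderiv] at h
  have h1 := congrArg cc (coeL_inj (h.trans (map_zero _).symm))
  have e1 : (cc : k⟦X⟧ →+* k).comp C = RingHom.id k := RingHom.ext fun r => constantCoeff_C r
  rw [k4_map, e1, map_one, map_zero, cc_red, c00_apply, cc_ram hM] at h1
  exact h1

theorem rat (h2 : RatStmt) (o : PD k d) (hd : 1 ≤ d) (hN : 1 ≤ N) (F : Subfield k⸨X⸩)
    (f1 : ∀ r, cL k r ∈ F) (f2 : wL k (-(N : ℤ)) ∈ F)
    (f3 : c00 (CC (wL k (-(N : ℤ))) * thU k N d o.u) ∈ F) (i j : ℕ) :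
    co2 i j (CC (wL k (-(N : ℤ))) * thU k N d o.u) ∈ F := by
  have hM : 1 ≤ d * N := Nat.mul_pos hd hN
  obtain ⟨d, rfl⟩ := Nat.exists_eq_add_of_le' hd
  have f4 : wL k N ∈ F := by
    rw [eq_inv_of_mul_eq_one_left (wL_mul_neg (R := k) N)]
    exact F.inv_mem f2
  obtain ⟨c, hc⟩ := exists_mA (τ := F.subtype) (c := thU k N (d + 1) (map C o.c)) fun i j =>
    ⟨⟨_, F.mul_mem (F.pow_mem f4 j) (f1 _)⟩, co2_thU_mapC hM _ i j⟩
  obtain ⟨p, hp⟩ := exists_poly_y (CC.comp ((cL k).codRestrict F f1)) d o.f (CC ⟨_, f2⟩) X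
  obtain ⟨p1, p2⟩ := hp _ (mA F.subtype) (CC (wL k (-(N : ℤ))) * thU k N (d + 1) o.u)
  have e : (mA F.subtype).comp (CC.comp ((cL k).codRestrict F f1)) = CC.comp (cL k) :=
    RingHom.ext fun r => mA_CC F.subtype ⟨_, f1 r⟩
  rw [e, mA_CC, mA_X, Subfield.subtype_apply] at p1 p2
  refine h2 _ F (p + Polynomial.C (CC ⟨_, f2⟩ ^ (d + 1) * c - 1)) _ ?_ f3 ?_ i j
  · rw [Polynomial.map_add, Polynomial.map_C, Polynomial.eval_add, Polynomial.eval_C, p1, map_sub,
      map_mul, map_pow, mA_CC, ← hc, map_one, Subfield.subtype_apply, ← add_sub_assoc, level o hM,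
      sub_self]
  · rw [Polynomial.map_add, Polynomial.map_C, Polynomial.derivative_add, Polynomial.derivative_C,
      add_zero, p2, c00_hev]
    exact mul_ne_zero (pow_ne_zero _ (isUnit_wL _).ne_zero) (simple o hM)

theorem aF_eq (o : PD k d) (hM : 1 ≤ d * N) :
    aF ((C : k⸨X⸩⟦X⟧ →+* AA k⸨X⸩).comp (map (cL k))) d o.P o.Q (CC (wL k (-(N : ℤ))))
      (CC (wL k (-(N : ℤ))) * thU k N d o.u) =
      CC (wL k (-(N : ℤ))) ^ (d + 1) * thU k N d (fB d o.e) := by
  have e : dX _ (CC (wL k (-(N : ℤ))) : AA k⸨X⸩) = 0 := dX_C _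
  have h := dX_thU (N := N) (d := d) o.u
  rw [aF, phi_eq hM, hev_thU, hev_thU, isDer_dX, e, ← o.ee, map_add, map_mul, map_sub, ← h]
  ring

theorem bF_eq (o : PD k d) (hM : 1 ≤ d * N) :
    bF ((C : k⸨X⸩⟦X⟧ →+* AA k⸨X⸩).comp (map (cL k))) d o.P o.Q (cw (thL k))
      (CC (wL k (-(N : ℤ)))) (CC (wL k (-(N : ℤ))) * thU k N d o.u) =
      CC (wL k (-(N : ℤ))) ^ (d + 1) *
        ((N : AA k⸨X⸩) * thU k N d ((d : AA k⟦X⟧) * C X * (X - o.b) + fB d o.e)) := by
  rw [bF, phi_eq hM, hev_thU, hev_thU, isDer_thL.coefw.coefw, th_CC, th_thU hM, ← o.ee, ← o.eb]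
  simp only [map_add, map_mul, map_sub]
  push_cast
  ring

theorem nd (o : PD k d) (hM : 1 ≤ d * N) {a b : AA k⸨X⸩} {c : k⸨X⸩⟦X⟧} (hc : IsUnit c)
    (hr : red a = c * X) (ha : CC (wL k (N * (d + 1))) * a = thU k N d (fB d o.e))
    (hb : CC (wL k (N * (d + 1))) * b =
      (N : AA k⸨X⸩) * thU k N d ((d : AA k⟦X⟧) * C X * (X - o.b) + fB d o.e))
    (he : cc o.e ≠ 0) : ¬ a ∣ X * b := by
  intro hab
  have : CharZero k⸨X⸩ := charZero_of_injective_ringHom (cL_inj (R := k))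
  have : CharZero k⸨X⸩⟦X⟧ := charZero_of_injective_ringHom C_injective
  have hη : ∀ s, iT (ram k⟦X⟧ (d * N) s) = 0 → s = 0 := fun s h =>
    ram_inj hM ((iT_inj (h.trans (map_zero _).symm)).trans (map_zero _).symm)
  obtain ⟨w, v, hw, -, ea⟩ := exists_w0 hc hr
  have hw' : w ∈ up (⊥ : Ideal k⸨X⸩) := hw
  obtain ⟨E, E1, E2⟩ : ∃ E : AA k⸨X⸩ →+* k⸨X⸩⟦X⟧, (∀ r, E (C r) = r) ∧ E X = w :=
    ⟨ev (RingHom.id _) w, ev_C _ hw', ev_X _ hw'⟩
  have a0 : E a = 0 := by rw [ea, map_mul, map_sub, E1, E2, sub_self, zero_mul]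
  have f0 : E (thU k N d (fB d o.e)) = 0 := by rw [← ha, map_mul, a0, mul_zero]
  have hX : E (thU k N d X) = C (wL k N) * w := by rw [thU_X, map_mul, CC_apply, E1, E2]
  have key : ∀ z, C (wL k N) * w = iT (ram k⟦X⟧ (d * N) z) → c00 z = 0 → X - C z ∣ fB d o.e := by
    intro z e hz
    have hz' : z ∈ up (up (⊥ : Ideal k)) := hz
    have e1 : E.comp (thU k N d) =
        (iT.comp (ram k⟦X⟧ (d * N))).comp (ev (RingHom.id _) z) := by
      refine homExt (up ⊥) (fun r => ?_) ?_ ?_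
      · rw [RingHom.comp_apply, thU_C, E1, RingHom.comp_apply, ev_C _ hz']
        rfl
      · rw [RingHom.comp_apply, hX, e, RingHom.comp_apply, ev_X _ hz']
        rfl
      · rw [RingHom.comp_apply, hX]
        exact Ideal.mul_mem_left _ _ hw'
    exact (factor _ hz').2 (hη _ ((RingHom.congr_fun e1 _).symm.trans f0))
  have b0 := map_dvd E hab
  rw [a0, zero_dvd_iff, map_mul, E2, mul_eq_zero] at b0
  rcases b0 with b0 | b0
  · have h := key 0 (by rw [b0, mul_zero, map_zero, map_zero]) (map_zero _)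
    rw [map_zero, sub_zero, X_dvd_iff, fB, map_neg, map_add, map_mul, constantCoeff_X, mul_zero,
      zero_add, neg_eq_zero] at h
    exact he h
  obtain ⟨z, g, hz, hg, eg⟩ := graph o.tb
  have h := congrArg E hb
  rw [map_mul, b0, mul_zero, map_mul, map_add, map_add, f0, add_zero, eg, map_mul, map_mul, map_mul,
    map_mul, map_mul, map_mul, thU_CX hM, map_sub, map_sub, hX, thU_C, E1, map_natCast, map_natCast,
    map_natCast] at h
  have hd : d ≠ 0 := fun h => by simp [h] at hM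
  have hN : N ≠ 0 := fun h => by simp [h] at hM
  have u1 : E (CC (wL k N) ^ d) ≠ 0 := (((isUnit_wL _).map CC).pow d).map E |>.ne_zero
  have u2 : E (thU k N d g) ≠ 0 := ((hg.map _).map E).ne_zero
  have e : C (wL k N) * w = iT (ram k⟦X⟧ (d * N) z) := by
    simpa only [zero_eq_mul, mul_eq_zero, Nat.cast_eq_zero, hd, hN, u1, u2, false_or, or_false,
      sub_eq_zero] using h
  have hs : o.zs ∈ up (⊥ : Ideal k) := o.z0
  refine Cab.no_factor o.cen isDer_dX.coefw isDer_dX (w := X - C z) ?_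
    (by rw [eg]; exact (dvd_mul_right _ _).mul_left _) (key z e hz)
  have h3 := o.cen.1
  rw [eg, map_mul, map_mul, mul_eq_zero, mul_eq_zero] at h3
  rcases h3 with h3 | h3 | h3
  · rw [RingHom.comp_apply, ev2_X _ hs] at h3
    exact absurd (coeL_inj (h3.trans (map_zero _).symm)) o.zn
  · exact h3
  · exact absurd h3 (hg.map _).ne_zero

end Field

end Pframe

open Pool.Agent.MP_05b4bd_ag.ES.Pframe hiding aF_eq bF_eq level level_red nd nondeg rat red_c simple in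
open Pool.Agent.MP_05b4bd_ag.ES.U.Pframe in
theorem pframeS (h1 : MkinfStmt) (h2 : RatStmt) (h3 : ObsStmt) : PframeStmt := by
  intro k _ _ d N o a b hd hN ha hb
  have hM : 1 ≤ d * N := Nat.mul_pos (by omega) hN
  have : CharZero k⸨X⸩ := charZero_of_injective_ringHom (cL_inj (R := k))
  have m1 : ∀ x y r, cL k r ∈ gf (cL k) x y := fun x y r =>
    Subfield.subset_closure (Or.inl ⟨r, rfl⟩)
  have m2 : ∀ x y, x ∈ gf (cL k) x y := fun x y => Subfield.subset_closure (Or.inr (Or.inl rfl))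
  have m3 : ∀ x y, y ∈ gf (cL k) x y := fun x y => Subfield.subset_closure (Or.inr (Or.inr rfl))
  have h := h1 k d o.toOb k⸨X⸩ (cL k) (thL k) (CC (wL k (-(N : ℤ))))
    (CC (wL k (-(N : ℤ))) * thU k N d o.u) hd isDer_thL thL_cL (fun i j => ⟨?_, ?_⟩)
    (level_red o hM) ?_
  · rw [aF_eq o hM, bF_eq o hM, ← solve ha, ← solve hb, c00_CC] at h
    refine ⟨⟨_, h⟩, nd o hM (c := -(d : k⸨X⸩⟦X⟧)) ?_ ?_ ha hb⟩
    · rw [IsUnit.neg_iff, isUnit_iff_constantCoeff, map_natCast, isUnit_iff_ne_zero]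
      exact Nat.cast_ne_zero.2 (by omega)
    · rw [(h3 k d _ _ _ _ _ _ _ h).1, neg_mul]
  · have e := co2_mono i j 0 0 (wL k (-(N : ℤ)))
    rw [pow_zero, pow_zero, mul_one, mul_one] at e
    rw [e, c00_CC]
    split_ifs
    · exact m2 _ _
    · exact zero_mem _
  · exact rat h2 o (by omega) hN _ (m1 _ _) (by rw [c00_CC]; exact m2 _ _) (m3 _ _) i j
  · rw [map_mul, c00_CC, isDer_thL]
    intro e
    have u := (isUnit_wL (R := k) (-(N : ℤ))).ne_zero
    apply mul_ne_zero (mul_ne_zero u u) (nondeg o hM)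
    linear_combination -e

end Pool.Agent.MP_05b4bd_ag.ES.U
end

section
namespace Pool.Agent.MP_05b4bd_ag.ES.U

open PowerSeries LaurentSeries HC

namespace Abmk
open Pool.Agent.MP_05b4bd_ag.ES.Abmk

variable {R : Type} [CommRing R]

end Abmk

open Pool.Agent.MP_05b4bd_ag.ES.Abmk

theorem abmkS : AbmkStmt := by
  intro k _ _ d ε N o hd hε hN hb h1 h0 hz
  obtain ⟨a, ha, ta⟩ := divA hd hε hN o.te o.ne h1 h0 fun h => (hz h).2
  obtain ⟨b, hb', tb⟩ := divA (c := (d : AA k⟦X⟧) * C X * o.b + o.e) hd hε hN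
    (dvd_add (o.tb.mul_left _) o.te)
    (fun j hj hj' => by rw [co2_add, co2_U_zero, o.ne j hj hj', add_zero])
    (by rw [co2_add, co2_U_succ d 0]; exact dvd_add (hb.mul_left _) h1)
    (by rwa [co2_add, co2_U_zero, zero_add])
    (fun h => by
      rw [co2_add, co2_add, co2_U_zero, co2_U_succ d 0, (hz h).1, (hz h).2.1, (hz h).2.2]
      simp)
  have e1 : C (X ^ (N * (d + 1))) * (-((d : (AA k)⟦X⟧) * X + a)) = thA k ε N d (fB d o.e) := by
    rw [fB, map_neg, map_add, mul_assoc, map_mul, map_natCast, thA_UX ε hd hN, ← ha]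
    ring
  have e2 : C (X ^ (N * (d + 1))) * (-((N : (AA k)⟦X⟧) * b)) =
      (N : (AA k)⟦X⟧) * thA k ε N d ((d : AA k⟦X⟧) * C X * (X - o.b) + fB d o.e) := by
    rw [show (d : AA k⟦X⟧) * C X * (X - o.b) + fB d o.e = -((d : AA k⟦X⟧) * C X * o.b + o.e) by
      rw [fB]; ring, map_neg, ← hb']
    ring
  have s1 := supp hd hN e1
  have s2 := supp hd hN (e2.trans (by rw [← map_natCast (thA k ε N d), ← map_mul]))
  refine ⟨_, _, e1, e2, ?_, (tb.mul_left _).neg_right, s1.1, s2.1, s1.2, s2.2⟩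
  rw [show -((d : (AA k)⟦X⟧) * X + a) + (d : (AA k)⟦X⟧) * X = -a by ring]
  exact ta.neg_right

theorem bendS : BendStmt := by
  intro k _ _ d ε N e o a b hd hε hN h hb h1 h0 hz hin hb' he' hout
  have hd0 : (d : k) ≠ 0 := Nat.cast_ne_zero.2 (by omega)
  have hN0 : (N : k) ≠ 0 := Nat.cast_ne_zero.2 (by omega)
  have e2 : C (X ^ (N * (d + 1))) * b =
      thA k ε N d (-((N : AA k⟦X⟧) * ((d : AA k⟦X⟧) * C X * o.b + o.e))) := by
    rw [h.2.1, map_neg, map_mul _ (N : AA k⟦X⟧), map_natCast, ← mul_neg, ← map_neg, fB]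
    exact congrArg (fun s => (N : (AA k)⟦X⟧) * thA k ε N d s) (by ring)
  have c0 : co2 0 0 (-((N : AA k⟦X⟧) * ((d : AA k⟦X⟧) * C X * o.b + o.e))) =
      -(N * co2 0 0 o.e) := by
    rw [co2_neg, co2_nat, co2_add, co2_U_zero, zero_add]
  have cs : ∀ m, co2 (m + 1) 0 (-((N : AA k⟦X⟧) * ((d : AA k⟦X⟧) * C X * o.b + o.e))) =
      -(N * (d * co2 m 0 o.b + co2 (m + 1) 0 o.e)) := fun m => by
    rw [co2_neg, co2_nat, co2_add, co2_U_succ]
  obtain ⟨a0, ha, sa, ra, ia⟩ := ends (e := e) hd hε hN h.1 (by rw [co2_fB]; exact h1.neg_right)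
    (by rw [co2_fB]; exact h0.neg_right)
    (fun h => by rw [co2_fB, co2_fB, (hz h).2.1, (hz h).2.2, neg_zero]; exact ⟨rfl, rfl⟩)
    (fun m hm => by rw [co2_fB]; exact (he' m hm).neg_right)
  obtain ⟨b0, hb0, sb, rb, ib⟩ := ends (e := e) hd hε hN e2
    (by rw [cs 0]; exact ((dvd_add (hb.mul_left _) h1).mul_left _).neg_right)
    (by rw [c0]; exact (h0.mul_left _).neg_right)
    (fun h => by rw [cs 0, c0, (hz h).1, (hz h).2.1, (hz h).2.2]; simp)
    (fun m hm => by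
      obtain ⟨m, rfl⟩ : ∃ m', m = m' + 1 := ⟨m - 1, by omega⟩
      rw [cs]
      exact ((dvd_add ((hb' m (by omega)).mul_left _) (he' _ hm)).mul_left _).neg_right)
  have canc : ∀ n m, coeff n (co2 (m + 1) 0 o.e) = 0 →
      coeff n (co2 (m + 1) 0 (-((N : AA k⟦X⟧) * ((d : AA k⟦X⟧) * C X * o.b + o.e)))) = 0 →
      coeff n (co2 m 0 o.b) = 0 := fun n m u v => by
    rw [cs, map_neg, coeff_nat, map_add, coeff_nat, u, add_zero, neg_eq_zero] at v
    exact (mul_eq_zero.1 ((mul_eq_zero.1 v).resolve_left hN0)).resolve_left hd0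
  refine ⟨a0, b0, ha, hb0, sa, sb, ?_, fun h1' => ?_⟩
  · by_contra hc
    rw [not_or, not_not, not_not] at hc
    have ze : ∀ m, 2 ≤ m → coeff e (co2 m 0 o.e) = 0 := fun m hm => by
      have := ra hc.1 m hm
      rwa [co2_fB, map_neg, neg_eq_zero] at this
    exact hout ⟨fun i hi => dvd_succ (hb' i hi)
      (canc e i (ze _ (by omega)) (rb hc.2 _ (by omega))),
      fun i hi => dvd_succ (he' i hi) (ze i hi)⟩
  · by_contra hc
    rw [not_or, not_not, not_not] at hc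
    obtain ⟨u1, u0⟩ := ia h1' hc.1
    rw [co2_fB, map_neg, neg_eq_zero] at u1 u0
    exact hin h1' ⟨dvd_succ hb (canc _ 0 u1 (ib h1' hc.2).1), dvd_succ h1 u1, dvd_succ h0 u0⟩

end Pool.Agent.MP_05b4bd_ag.ES.U
end

section
namespace Pool.Agent.MP_05b4bd_ag.ES.U

open PowerSeries LaurentSeries HC

theorem pramS : PramStmt := by
  intro k _ _ d M o hM
  have c1 : (cc : k⟦X⟧ →+* k).comp (ram k M) = cc := RingHom.ext fun f => cc_ram hM f
  have mm : ∀ w : R2 k⟦X⟧, MvPolynomial.map cc (MvPolynomial.map (ram k M) w) =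
      MvPolynomial.map cc w := fun w => by rw [MvPolynomial.map_map, c1]
  have c2 : (mA (ram k M)).comp CC = CC.comp (ram k M) := RingHom.ext fun r => mA_CC _ r
  have c3 : (mA (ram k M)).comp (CC.comp C) = CC.comp C := RingHom.ext fun r => by
    simp only [RingHom.comp_apply, mA_CC, ram_C hM]
  have hv : ∀ w : R2 k⟦X⟧, mA (ram k M) (hev CC d w 1 o.u X) =
      hev CC d (MvPolynomial.map (ram k M) w) 1 (mA (ram k M) o.u) X := fun w => by
    rw [map_hev, c2, hev_map, map_one, mA_X]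
  have dU : ∀ s : AA k⟦X⟧, cw (dX k⟦X⟧) (mA (ram k M) s) = mA (ram k M) (cw (dX k⟦X⟧) s) :=
    fun s => cw_map' (fun a => dX_map _ a) s
  have dZ : ∀ s : AA k⟦X⟧, dX _ (mA (ram k M) s) = mA (ram k M) (dX _ s) := fun s => dX_map _ s
  have fb : mA (ram k M) (fB d o.e) = fB d (mA (ram k M) o.e) := by
    simp only [fB, map_neg, map_add, map_mul, map_natCast, mA_CX, mA_X]
  have xd : (X : k⟦X⟧) ∣ ram k M X := by rw [ram_X hM]; exact dvd_pow_self _ (by omega)
  have td : ∀ s : AA k⟦X⟧, CC X ∣ s → CC X ∣ mA (ram k M) s := fun s h =>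
    (map_dvd CC xd).trans (by rw [← mA_CC]; exact map_dvd _ h)
  have hU : cc (ram k M o.Us) = 0 := by rw [cc_ram hM, o.U0]
  have hz : cc (ram k M o.zs) = 0 := by rw [cc_ram hM, o.z0]
  have hU' : ram k M o.Us ∈ up (⊥ : Ideal k) := hU
  have hz' : ram k M o.zs ∈ up (⊥ : Ideal k) := hz
  obtain ⟨i, hi, -⟩ := exists_ramL (R := k) hM
  have a1 : cw (dX k⟦X⟧) (C X : AA k⟦X⟧) = 1 := by rw [cw_C, dX_X, map_one]
  have a2 : cw (dX k⟦X⟧) (X : AA k⟦X⟧) = 0 := cw_X isDer_dX.one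
  have a3 : dX k⟦X⟧⟦X⟧ (C X) = 0 := dX_C _
  refine ⟨{
    P := MvPolynomial.map (ram k M) o.P
    Q := MvPolynomial.map (ram k M) o.Q
    H := MvPolynomial.map (ram k M) o.H
    gt := MvPolynomial.map (ram k M) o.gt
    f := o.f
    n := M * o.n
    gen := o.gen
    dP := o.dP.map _
    dQ := o.dQ.map _
    rP := by rw [mm, o.rP]
    rQ := by rw [mm, o.rQ]
    rH := by rw [mm, o.rH]
    n1 := Nat.mul_pos hM o.n1
    eq := by rw [← map_vf, o.eq, map_mul, MvPolynomial.map_C, map_pow, ram_X hM, pow_mul]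
    ng := by rw [mm]; exact o.ng
    jac := by rw [mm]; exact o.jac
    u := mA (ram k M) o.u
    b := mA (ram k M) o.b
    e := mA (ram k M) o.e
    c := map (ram k M) o.c
    Us := ram k M o.Us
    zs := ram k M o.zs
    tc := (map_dvd C xd).trans (by rw [← map_C]; exact map_dvd _ o.tc)
    eu := ?_
    su := ?_
    eb := by rw [← hv, dU, ← map_mul, o.eb, map_sub, mA_X]
    ee := by
      rw [← hv, ← hv, dZ, ← fb, ← o.ee, map_add, map_mul, map_sub, map_mul, mA_X]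
    tb := td _ o.tb
    te := td _ o.te
    ne := fun j h1 h2 => by rw [co2_mA, o.ne j h1 h2, map_zero]
    U0 := hU
    z0 := hz
    zn := fun h => o.zn (ram_inj hM (by rw [h, map_zero]))
    cen := ?_ }, rfl, rfl, rfl, rfl⟩
  · have := congrArg (mA (ram k M)) o.eu
    rw [map_add, map_hev, c3, map_one, mA_X, mA_CX] at this
    rw [← this]
    congr 1
    ext1 n
    simp [mA]
  · have : cc (c00 (mA (ram k M) o.u)) = cc (c00 o.u) := by
      rw [← cc_ram hM (c00 o.u)]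
      congr 1
    rw [this]; exact o.su
  · refine CenN.trans i (ram k M) (fun r => (hi r).symm) o.cen o.U0 o.z0
      (by rw [cc_ram hM]; simp) (mA (ram k M)) (mA_CC _) (by rw [mA_CX]; simp [c00])
      (by rw [mA_X]; simp [c00]) hU hz (by rw [mA_CX, ev2_CX _ hU' hz'])
      (by rw [mA_X, ev2_X _ hz']) (by rw [mA_CX, mA_X, a1, a2, a3, dX_X]; simp)
      (lam := 1) (by simp) ?_ ?_
    · rw [mA_CX, mA_X, a1, a2, map_mul, map_sub, mA_X]; ring
    · rw [mA_CX, mA_X, a3, dX_X, fb]; ring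

namespace Peq
open Pool.Agent.MP_05b4bd_ag.ES.Peq

variable {R : Type} [CommRing R]

end Peq

theorem peqS : PeqStmt := by
  intro k _ _ d o hd
  have hU : o.Us ∈ up (⊥ : Ideal k) := o.U0
  have hz : o.zs ∈ up (⊥ : Ideal k) := o.z0
  obtain ⟨b1, hb1⟩ := eq_C_add_X_mul (cc o.b)
  obtain ⟨e1, he1⟩ := eq_C_add_X_mul (cc o.e)
  obtain ⟨e2, he2⟩ := eq_C_add_X_mul e1
  have b0 : co2 0 0 o.b = cc (cc o.b) := by simp [co2]
  have e0 : co2 0 0 o.e = cc (cc o.e) := by simp [co2]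
  have e10 : co2 1 0 o.e = cc e1 := by
    rw [co2, coeff_zero_eq_constantCoeff_apply, show constantCoeff o.e = _ from he1, map_add,
      coeff_succ_X_mul, coeff_C]
    simp
  have ee : cc o.e = C (co2 0 0 o.e) + C (co2 1 0 o.e) * X + X ^ 2 * e2 := by
    rw [e0, e10]; linear_combination he1 + X * he2
  obtain ⟨b', hb⟩ := Peq.split_t o.tb
  obtain ⟨e', he⟩ := Peq.split_t o.te
  obtain ⟨g, g', hg⟩ := Peq.split_e o.te o.ne
  have inj : ∀ {s : k⟦X⟧}, coeL k s = 0 → s = 0 := fun h => coeL_inj (by rw [h, map_zero])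
  have tr := o.cen.trace isDer_dX.coefw isDer_dX (fun s => (dX_cw _ s).symm)
  obtain ⟨hA, hB, -⟩ := o.cen
  let E := ev2 (RingHom.id k⟦X⟧) o.Us o.zs
  let V := ev (RingHom.id k⟦X⟧) o.Us
  have EX : E X = o.zs := ev2_X _ hz
  have EC : ∀ c, E (C c) = V c := fun c => ev2_C _ hz c
  have VX : V X = o.Us := ev_X _ hU
  have VC : ∀ c, V (C c) = c := fun c => ev_C _ hU c
  have ECC : ∀ c, E (CC c) = c := fun c => ev2_CC _ hU hz c
  have hA' : E (X * (X - o.b)) = 0 := inj hA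
  have hB' : E (fB d o.e) = 0 := inj hB
  have tr' : E (dX _ (X * (X - o.b))) = E (cw (dX k⟦X⟧) (fB d o.e)) := coeL_inj tr
  rw [map_mul, map_sub, EX] at hA'
  have Eb : E o.b = o.zs := by
    have := (mul_eq_zero.1 hA').resolve_left o.zn
    linear_combination -this
  have cU : IsDer (cw (dX k⟦X⟧)) := isDer_dX.coefw
  have a1 : cw (dX k⟦X⟧) (C X : AA k⟦X⟧) = 1 := by rw [cw_C, dX_X, map_one]
  have a2 : cw (dX k⟦X⟧) (X : AA k⟦X⟧) = 0 := cw_X isDer_dX.one
  have a3 : cw (dX k⟦X⟧) (CC X : AA k⟦X⟧) = 0 := by rw [CC_apply, cw_C, dX_C, map_zero]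
  have a4 : dX k⟦X⟧⟦X⟧ (CC X) = 0 := dX_C _
  have q1 : dX _ o.b = CC X * (b' + X * dX _ b') := by
    conv_lhs => rw [hb]
    rw [map_add, dX_C, isDer_dX, isDer_dX, dX_X, a4]; ring
  have q2 : cw (dX k⟦X⟧) o.e = C (dX _ (cc o.e)) + X * (CC X * cw (dX k⟦X⟧) e') := by
    conv_lhs => rw [he]
    rw [map_add, cw_C, cU, cU, a2, a3]; ring
  have q3 : dX _ (cc o.e) = C (co2 1 0 o.e) + X * (2 * e2 + X * dX _ e2) := by
    rw [ee, map_add, map_add, dX_C, isDer_dX, isDer_dX, sq, isDer_dX, dX_X, dX_C]; ring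
  refine ⟨-E b', E (cw (dX k⟦X⟧) e') - E (b' + X * dX _ b'), -(d + E g), -E g', b1, e2,
    by rw [b0]; exact hb1, ee, ?_, ?_, ?_⟩
  · have := congrArg E hb
    rw [Eb, map_add, EC, map_mul, map_mul, EX, ECC, hb1, map_add, VC, map_mul, VX, ← b0] at this
    linear_combination -this
  · rw [isDer_dX, map_sub, dX_X, q1, fB, map_neg, map_add (cw _), cU, cU, cU.natCast,
       a1, a2, q2, q3] at tr'
    simp only [map_add, map_sub, map_mul, map_neg, EX, Eb, ECC, EC, VC, VX, map_one, map_zero,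
      map_natCast] at tr' ⊢
    linear_combination tr' + o.Us * V (dX _ e2) * VX
  · have := congrArg E hg
    rw [fB, map_neg, map_add, this, ee] at hB'
    simp only [map_add, map_mul, map_pow, EX, ECC, EC, VC, VX, map_natCast] at hB'
    linear_combination -hB'

end Pool.Agent.MP_05b4bd_ag.ES.U
end

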